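import Pool.Agent.QTot.Defs

set_option autoImplicit false
open scoped ContDiff Manifold Topology Matrix
open MeasureTheory Filter Set

namespace Pool.Agent.QTot

/-- smooth scalar family on a subset of `ℝ × ℝ^n` -/
def SmF {n : ℕ} (Ω : Set (ℝ × Eu n)) (f : ℝ → Eu n → ℝ) : Prop :=
  ContDiffOn ℝ ∞ (fun p : ℝ × Eu n => f p.1 p.2) Ω

/-- smooth matrix family -/
def SmM {n : ℕ} (Ω : Set (ℝ × Eu n)) (P : ℝ → Eu n → Mt n) : Prop := ∀ i j, SmF Ω (fun r x => P r x i j)

/-- nondegenerate family -/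
def Nd {n : ℕ} (Ω : Set (ℝ × Eu n)) (P : ℝ → Eu n → Mt n) : Prop := ∀ p ∈ Ω, (P p.1 p.2).det ≠ 0

/-- symmetric family -/
def Sy {n : ℕ} (Ω : Set (ℝ × Eu n)) (P : ℝ → Eu n → Mt n) : Prop := ∀ p ∈ Ω, (P p.1 p.2).IsSymm

/-- pull-back of a covariant 2-tensor -/
noncomputable def pull {n : ℕ} (φ : Eu n → Eu n) (G : Eu n → Mt n) (x : Eu n) : Mt n :=
  (Jac φ x)ᵀ * G (φ x) * Jac φ x

/-- squared norm of the first `p + 1` coordinates -/
noncomputable def rr {n : ℕ} (p : ℕ) (x : Eu n) : ℝ := ∑ i : Fin n, if i.val < p + 1 then x i ^ 2 else 0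

/-- the metric of the unit sphere `S^p` in `ℝ^(p+1) × ℝ^(n-p-1)` -/
noncomputable def TS {n : ℕ} (p : ℕ) (x : Eu n) : Mt n := Matrix.of fun i j =>
  if i.val < p + 1 ∧ j.val < p + 1 then (if i = j then 1 else 0) / rr p x - x i * x j / rr p x ^ 2 else 0

/-- the flat part `(d log|y|)^2 + |dz|^2` -/
noncomputable def TF {n : ℕ} (p : ℕ) (x : Eu n) : Mt n := Matrix.of fun i j =>
  if i.val < p + 1 ∧ j.val < p + 1 then x i * x j / rr p x ^ 2 else if i = j then 1 else 0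

/-- the metric `f |dy|^2 + |dz|^2` -/
noncomputable def CM {n : ℕ} (p : ℕ) (f : Eu n → ℝ) (x : Eu n) : Mt n :=
  Matrix.diagonal fun i => if i.val < p + 1 then f x else 1

/-- density of the Q-curvature -/
noncomputable def dens {n : ℕ} (G : Eu n → Mt n) (x : Eu n) : ℝ := Qloc G x * Real.sqrt (G x).det

end Pool.Agent.QTot

namespace Pool.Agent.QTot

/-- `tr (g⁻¹ g')` for `g = A g_S + B g_F` -/
noncomputable def tauS (p n : ℝ) (A B : ℝ → ℝ) (r : ℝ) : ℝ :=
  p * deriv A r / A r + (n - p) * deriv B r / B r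

/-- scalar components (`X = A, s = p - 1` or `X = B, s = 0`) of the Fefferman-Graham expression of `A g_S + B g_F` -/
noncomputable def eS (p n s : ℝ) (A B X : ℝ → ℝ) (r : ℝ) : ℝ :=
  r * deriv (deriv X) r - r * (deriv X r * deriv X r / X r) + (r * tauS p n A B r / 2) * deriv X r
    - (n / 2 - 1) * deriv X r - (tauS p n A B r / 2) * X r + s

/-- the next coefficients -/
noncomputable def stepS (p n : ℝ) (h : ℕ) (A B : ℝ → ℝ) (k : ℕ) : ℝ × ℝ :=
  let a := cf k (eS p n (p - 1) A B A)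
  let b := cf k (eS p n 0 A B B)
  let t := (p * a + (n - p) * b) / (((k : ℝ) + 1) * (n - 1 - k))
  if k + 1 < h then
    ((1 / (((k : ℝ) + 1) * (n / 2 - 1 - k))) * (a - ((k : ℝ) + 1) * t / 2),
      (1 / (((k : ℝ) + 1) * (n / 2 - 1 - k))) * (b - ((k : ℝ) + 1) * t / 2))
  else (t / n, t / n)

/-- the scalar ambient expansion -/
noncomputable def solS (p n : ℝ) (h : ℕ) : ℕ → (ℝ → ℝ) × (ℝ → ℝ)
  | 0 => (fun _ => 1, fun _ => 1)
  | k + 1 =>
    (fun r => (solS p n h k).1 r + r ^ (k + 1) * (stepS p n h (solS p n h k).1 (solS p n h k).2 k).1,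
     fun r => (solS p n h k).2 r + r ^ (k + 1) * (stepS p n h (solS p n h k).1 (solS p n h k).2 k).2)

/-- scalar ambient Laplacian -/
noncomputable def DwS (p n : ℝ) (A B : ℝ → ℝ) (w : ℝ) (f : ℝ → ℝ) (r : ℝ) : ℝ :=
  -2 * r * deriv (deriv f) r + (2 * w + n - 2 - r * tauS p n A B r) * deriv f r + w / 2 * tauS p n A B r * f r

/-- scalar version of `uu` -/
noncomputable def uS (p n : ℝ) (A B : ℝ → ℝ) : ℕ → ℝ → ℝ
  | 0 => fun r => tauS p n A B r / 2
  | k + 1 => DwS p n A B (-2 * ((k : ℝ) + 1)) (uS p n A B k)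

end Pool.Agent.QTot

namespace Pool.Agent.QTot

/-- dilation by `lam` of the first `p + 1` coordinates -/
noncomputable def dl {n : ℕ} (p : ℕ) (lam : ℝ) (x : Eu n) : Eu n := fun i => if i.val < p + 1 then lam * x i else x i

/-- `{x | x_i ∈ [a, b] for the last coordinates}` -/
def Zb {n : ℕ} (p : ℕ) (a b : ℝ) : Set (Eu n) := {x | ∀ i : Fin n, p + 1 ≤ i.val → x i ∈ Set.Icc a b}

/-- the function only depends on the first `p + 1` coordinates -/
def Yonly {n : ℕ} (p : ℕ) (f : Eu n → ℝ) : Prop :=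
  ∀ x x' : Eu n, (∀ i : Fin n, i.val < p + 1 → x i = x' i) → f x = f x'

/-- cut-off of the conformal factor in the last coordinates -/
noncomputable def cutf {n : ℕ} (p : ℕ) (f : Eu n → ℝ) (N : ℕ) (x : Eu n) : ℝ :=
  1 + (∏ i : Fin n, if i.val < p + 1 then 1 else (1 - Real.smoothTransition (|x i| - N))) * (f x - 1)

end Pool.Agent.QTot

namespace Pool.Agent.QTot

/-- domain of the coordinate change -/
def cdom {n : ℕ} {M : Type} [TopologicalSpace M] (e e' : OpenPartialHomeomorph M (Eu n)) : Set (Eu n) :=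
  {y | y ∈ e.target ∧ e.symm y ∈ e'.source}

end Pool.Agent.QTot
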