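import Pool.Agent.QTot.Base2

set_option autoImplicit false
open scoped ContDiff Manifold Topology Matrix
open MeasureTheory Filter Set

namespace Pool.Agent.QTot.C1
open Pool.Agent.QTot


/-! ## TARGET (prove this) -/

/- `A • TS + B • TF` is the product metric of a sphere `S^p` (metric `A g_S`) with a flat factor, in the coordinates
`(y, z) ∈ ℝ^(p+1) × ℝ^(n-p-1)`, `g_S + (d log|y|)^2 = |dy|^2/|y|^2`.  Idea: let `ρ = rr p x`, `P_{ij} = δ_{ij}` on the `y`
block.  `G = (A/ρ) (P - y yᵀ/ρ) + (B/ρ²) y yᵀ + δ_z`, `G⁻¹ = (ρ/A) (P - y yᵀ/ρ) + (1/B) (y yᵀ + δ_z)` (for the z block the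
entries of `G` are `B δ`), near `x`.  Compute the Christoffel symbols near `x` explicitly (they vanish if one index is a
z index; for y indices, with `c = B/A`: `Γ^k_{ij} = -(y_i δ_{kj} + y_j δ_{ki})/ρ + (stuff) y_k (δ_{ij} - ...)`: find them by
hand or computer), then differentiate and sum, using `∑_{i<p+1} y_i² = ρ` and `∑_{i < p+1} 1 = p + 1`. -/

/-! auxiliary lemmas -/

/-- differentiable with given partial derivative -/
def PD {n : ℕ} (l : Fin n) (f : Eu n → ℝ) (x : Eu n) (c : ℝ) : Prop :=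
  DifferentiableAt ℝ f x ∧ pd l f x = c

theorem PD.const {n : ℕ} (l : Fin n) (a : ℝ) (x : Eu n) : PD l (fun _ => a) x 0 := by
  refine ⟨differentiableAt_const _, ?_⟩
  unfold pd
  simp

theorem PD.coord {n : ℕ} (l j : Fin n) (x : Eu n) : PD l (fun y => y j) x (if l = j then 1 else 0) := by
  have h : HasFDerivAt (fun y : Eu n => y j) (ContinuousLinearMap.proj (R := ℝ) (φ := fun _ : Fin n => ℝ) j) x :=
    (ContinuousLinearMap.proj (R := ℝ) (φ := fun _ : Fin n => ℝ) j).hasFDerivAt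
  refine ⟨h.differentiableAt, ?_⟩
  unfold pd
  rw [h.fderiv]
  simp only [ContinuousLinearMap.proj_apply]
  by_cases hlj : l = j
  · subst hlj; simp
  · rw [if_neg hlj, Pi.single_eq_of_ne (fun h => hlj h.symm)]

theorem PD.add {n : ℕ} {l : Fin n} {f g : Eu n → ℝ} {x : Eu n} {a b : ℝ} (hf : PD l f x a)
    (hg : PD l g x b) : PD l (fun y => f y + g y) x (a + b) := by
  refine ⟨hf.1.add hg.1, ?_⟩
  have h1 := hf.2
  have h2 := hg.2
  unfold pd at h1 h2 ⊢
  rw [fderiv_fun_add hf.1 hg.1, add_apply, h1, h2]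

theorem PD.mul {n : ℕ} {l : Fin n} {f g : Eu n → ℝ} {x : Eu n} {a b : ℝ} (hf : PD l f x a)
    (hg : PD l g x b) : PD l (fun y => f y * g y) x (a * g x + f x * b) := by
  refine ⟨hf.1.mul hg.1, ?_⟩
  have h1 := hf.2
  have h2 := hg.2
  unfold pd at h1 h2 ⊢
  rw [fderiv_fun_mul hf.1 hg.1]
  simp only [add_apply, smul_apply, smul_eq_mul]
  rw [h1, h2]
  ring

theorem PD.sum {n : ℕ} {l : Fin n} {ι : Type*} (s : Finset ι) {f : ι → Eu n → ℝ} {x : Eu n}
    {a : ι → ℝ} (hf : ∀ i ∈ s, PD l (f i) x (a i)) : PD l (fun y => ∑ i ∈ s, f i y) x (∑ i ∈ s, a i) := by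
  classical
  induction s using Finset.induction_on with
  | empty => simpa using PD.const l 0 x
  | insert i s hi ih =>
    simp only [Finset.sum_insert hi]
    exact (hf i (Finset.mem_insert_self i s)).add (ih (fun j hj => hf j (Finset.mem_insert_of_mem hj)))

theorem PD.inv {n : ℕ} {l : Fin n} {f : Eu n → ℝ} {x : Eu n} {a : ℝ} (hf : PD l f x a)
    (h0 : f x ≠ 0) : PD l (fun y => (f y)⁻¹) x (-a / f x ^ 2) := by
  have h2 := (hasDerivAt_inv h0).comp_hasFDerivAt x hf.1.hasFDerivAt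
  have h3 : HasFDerivAt (fun y => (f y)⁻¹) (-(f x ^ 2)⁻¹ • fderiv ℝ f x) x := h2
  refine ⟨h3.differentiableAt, ?_⟩
  have h1 := hf.2
  unfold pd at h1 ⊢
  rw [h3.fderiv]
  simp only [smul_apply, smul_eq_mul]
  rw [h1]
  field_simp

theorem PD.congr {n : ℕ} {l : Fin n} {f g : Eu n → ℝ} {x : Eu n} {a : ℝ} (hf : PD l f x a)
    (h : g =ᶠ[𝓝 x] f) : PD l g x a := by
  refine ⟨hf.1.congr_of_eventuallyEq h, ?_⟩
  have h1 := hf.2
  unfold pd at h1 ⊢
  rw [h.fderiv_eq, h1]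

/-- indicator of the first block -/
noncomputable def Yb {n : ℕ} (p : ℕ) (i : Fin n) : ℝ := if i.val < p + 1 then 1 else 0
noncomputable def Qb {n : ℕ} (p : ℕ) (i j : Fin n) : ℝ := if i = j then Yb p i else 0
noncomputable def ub {n : ℕ} (p : ℕ) (i : Fin n) (y : Eu n) : ℝ := Yb p i * y i

theorem Yb_sq {n : ℕ} (p : ℕ) (i : Fin n) : Yb p i * Yb p i = Yb p i := by
  unfold Yb; split_ifs <;> simp

theorem Yb_ub {n : ℕ} (p : ℕ) (i : Fin n) (y : Eu n) : Yb p i * ub p i y = ub p i y := by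
  unfold ub; rw [← mul_assoc, Yb_sq]

theorem Qb_symm {n : ℕ} (p : ℕ) (i j : Fin n) : Qb p i j = Qb p j i := by
  unfold Qb
  by_cases h : i = j
  · subst h; rfl
  · rw [if_neg h, if_neg (fun h' => h h'.symm)]

theorem sum_Qb {n : ℕ} (p : ℕ) (i : Fin n) (f : Fin n → ℝ) : ∑ j, Qb p i j * f j = Yb p i * f i := by
  unfold Qb
  simp only [ite_mul, zero_mul]
  rw [Finset.sum_ite_eq Finset.univ i]
  simp

theorem rr_eq {n : ℕ} (p : ℕ) (y : Eu n) : rr p y = ∑ i, ub p i y * ub p i y := by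
  unfold rr
  refine Finset.sum_congr rfl (fun i _ => ?_)
  unfold ub Yb
  split_ifs <;> ring

theorem sum_Yb {n : ℕ} (p : ℕ) (hp : p + 1 ≤ n) : ∑ i : Fin n, Yb p i = (p : ℝ) + 1 := by
  unfold Yb
  rw [Finset.sum_ite, Finset.sum_const_zero, add_zero, Finset.sum_const, nsmul_eq_mul, mul_one]
  have : (Finset.univ.filter (fun i : Fin n => i.val < p + 1)).card = p + 1 := by
    rw [Fin.card_filter_val_lt]; omega
  rw [this]; push_cast; ring

theorem PD_ub {n : ℕ} (p : ℕ) (l j : Fin n) (x : Eu n) : PD l (fun y => ub p j y) x (Qb p l j) := by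
  have h := (PD.const l (Yb p j) x).mul (PD.coord l j x)
  have e : (0 * x j + Yb p j * (if l = j then 1 else 0)) = Qb p l j := by
    unfold Qb
    by_cases h : l = j
    · subst h; simp
    · simp [h]
  rw [e] at h
  exact h

theorem PD_rr {n : ℕ} (p : ℕ) (l : Fin n) (x : Eu n) : PD l (rr p) x (2 * ub p l x) := by
  have h := PD.sum Finset.univ (fun i _ => (PD_ub p l i x).mul (PD_ub p l i x))
  have e : ∑ i, (Qb p l i * ub p i x + ub p i x * Qb p l i) = 2 * ub p l x := by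
    have : ∀ i, Qb p l i * ub p i x + ub p i x * Qb p l i = 2 * (Qb p l i * ub p i x) := fun i => by ring
    simp only [this]
    rw [← Finset.mul_sum, sum_Qb, Yb_ub]
  rw [e] at h
  have e2 : rr p = fun y : Eu n => ∑ i, ub p i y * ub p i y := funext (rr_eq p)
  rw [e2]
  exact h

theorem G_eq {n : ℕ} (p : ℕ) (A B : ℝ) (y : Eu n) (i j : Fin n) :
    (A • TS p y + B • TF p y) i j = A * Qb p i j * (rr p y)⁻¹ +
      (B - A) * (ub p i y * ub p j y) * ((rr p y)⁻¹ * (rr p y)⁻¹) + B * ((if i = j then 1 else 0) - Qb p i j) := by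
  have h : (A • TS p y + B • TF p y) i j = A * TS p y i j + B * TF p y i j := rfl
  rw [h]
  unfold TS TF Qb ub Yb
  simp only [Matrix.of_apply]
  by_cases hi : i.val < p + 1
  · by_cases hj : j.val < p + 1
    · rw [if_pos (⟨hi, hj⟩ : i.val < p + 1 ∧ j.val < p + 1), if_pos (⟨hi, hj⟩ : i.val < p + 1 ∧ j.val < p + 1),
        if_pos hi, if_pos hj]
      by_cases hij : i = j
      · rw [if_pos hij]; ring
      · rw [if_neg hij]; ring
    · have hij : i ≠ j := by rintro rfl; exact hj hi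
      rw [if_neg (fun h => hj h.2), if_neg (fun h => hj h.2), if_neg hj]
      simp [hij]
  · rw [if_neg (fun h => hi h.1), if_neg (fun h => hi h.1), if_neg hi]
    by_cases hij : i = j
    · simp [hij]
    · simp [hij]

/-- derivative of the metric -/
theorem PD_G {n : ℕ} (p : ℕ) (A B : ℝ) (x : Eu n) (hx : rr p x ≠ 0) (i j l : Fin n) :
    PD l (fun y => (A • TS p y + B • TF p y) i j) x
      (-2 * A * Qb p i j * ub p l x / rr p x ^ 2 +
        (B - A) * (Qb p l i * ub p j x + ub p i x * Qb p l j) / rr p x ^ 2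
        - 4 * (B - A) * ub p i x * ub p j x * ub p l x / rr p x ^ 3) := by
  have hr := (PD_rr p l x).inv hx
  have h1 := (PD.const l (A * Qb p i j) x).mul hr
  have h2 := ((PD.const l (B - A) x).mul ((PD_ub p l i x).mul (PD_ub p l j x))).mul (hr.mul hr)
  have h3 := PD.const l (B * ((if i = j then 1 else 0) - Qb p i j)) x
  have h := (h1.add h2).add h3
  have e : (fun y => (A • TS p y + B • TF p y) i j) = fun y : Eu n => A * Qb p i j * (rr p y)⁻¹ +
      (B - A) * (ub p i y * ub p j y) * ((rr p y)⁻¹ * (rr p y)⁻¹) + B * ((if i = j then 1 else 0) - Qb p i j) :=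
    funext (fun y => G_eq p A B y i j)
  rw [e]
  convert h using 1
  field_simp
  ring

theorem inv_eq {n : ℕ} (p : ℕ) (A B : ℝ) (hA : A ≠ 0) (hB : B ≠ 0) (y : Eu n) (hy : rr p y ≠ 0) :
    (A • TS p y + B • TF p y)⁻¹ = Matrix.of fun i j => (rr p y * Qb p i j - ub p i y * ub p j y) / A +
      ub p i y * ub p j y / B + ((if i = j then 1 else 0) - Qb p i j) / B := by
  apply Matrix.inv_eq_right_inv
  ext i j
  rw [Matrix.mul_apply]
  simp only [G_eq, Matrix.of_apply]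
  set ρ := rr p y with hρ
  have s1 : ∑ l, Qb p i l * Qb p l j = Qb p i j := by
    rw [sum_Qb]
    unfold Qb
    by_cases h : i = j
    · rw [if_pos h, Yb_sq]
    · rw [if_neg h, mul_zero]
  have s2 : ∑ l, Qb p i l * ub p l y = ub p i y := by rw [sum_Qb, Yb_ub]
  have s3 : ∑ l, ub p l y * Qb p l j = ub p j y := by
    have : ∀ l, ub p l y * Qb p l j = Qb p j l * ub p l y := fun l => by rw [Qb_symm p l j]; ring
    simp only [this]
    rw [sum_Qb, Yb_ub]
  have s4 : ∑ l, ub p l y * ub p l y = ρ := by rw [hρ, rr_eq]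
  have d1 : ∀ f : Fin n → ℝ, ∑ l, (if i = l then (1:ℝ) else 0) * f l = f i := by
    intro f
    simp only [ite_mul, one_mul, zero_mul]
    rw [Finset.sum_ite_eq Finset.univ i]
    simp
  have d2 : ∀ f : Fin n → ℝ, ∑ l, f l * (if l = j then (1:ℝ) else 0) = f j := by
    intro f
    simp only [mul_ite, mul_one, mul_zero]
    rw [Finset.sum_ite_eq' Finset.univ j]
    simp
  have expand : ∀ l, (A * Qb p i l * ρ⁻¹ + (B - A) * (ub p i y * ub p l y) * (ρ⁻¹ * ρ⁻¹) +
        B * ((if i = l then 1 else 0) - Qb p i l)) *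
      ((ρ * Qb p l j - ub p l y * ub p j y) / A + ub p l y * ub p j y / B +
        ((if l = j then 1 else 0) - Qb p l j) / B) =
      (A * ρ⁻¹ - B) * (ρ / A - 1 / B) * (Qb p i l * Qb p l j)
      + (A * ρ⁻¹ - B) * (1 / B - 1 / A) * ub p j y * (Qb p i l * ub p l y)
      + (A * ρ⁻¹ - B) * (1 / B) * (Qb p i l * (if l = j then 1 else 0))
      + (B - A) * ub p i y * (ρ⁻¹ * ρ⁻¹) * (ρ / A - 1 / B) * (ub p l y * Qb p l j)
      + (B - A) * ub p i y * (ρ⁻¹ * ρ⁻¹) * (1 / B - 1 / A) * ub p j y * (ub p l y * ub p l y)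
      + (B - A) * ub p i y * (ρ⁻¹ * ρ⁻¹) * (1 / B) * (ub p l y * (if l = j then 1 else 0))
      + B * (ρ / A - 1 / B) * ((if i = l then 1 else 0) * Qb p l j)
      + B * (1 / B - 1 / A) * ub p j y * ((if i = l then 1 else 0) * ub p l y)
      + B * (1 / B) * ((if i = l then 1 else 0) * (if l = j then 1 else 0)) := by
    intro l
    ring
  simp only [expand]
  simp only [Finset.sum_add_distrib, ← Finset.mul_sum]
  rw [s1, s2, s3, s4, d1, d1, d1, d2, d2, Matrix.one_apply]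
  field_simp
  ring

theorem c1 {n : ℕ} (p : ℕ) (i j : Fin n) : ∑ l, Qb p i l * Qb p j l = Qb p i j := by
  rw [sum_Qb]
  unfold Qb
  by_cases h : i = j
  · subst h; rw [if_pos rfl, Yb_sq]
  · rw [if_neg h, if_neg (fun h' => h h'.symm), mul_zero]

theorem c2 {n : ℕ} (p : ℕ) (i : Fin n) (y : Eu n) : ∑ l, Qb p i l * ub p l y = ub p i y := by
  rw [sum_Qb, Yb_ub]

theorem c3 {n : ℕ} (p : ℕ) (y : Eu n) : ∑ l, ub p l y * ub p l y = rr p y := (rr_eq p y).symm

theorem c4 {n : ℕ} (p : ℕ) (hp : p + 1 ≤ n) : ∑ l : Fin n, Qb p l l = (p : ℝ) + 1 := by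
  rw [← sum_Yb p hp]
  refine Finset.sum_congr rfl (fun i _ => ?_)
  unfold Qb
  rw [if_pos rfl]

/-- Christoffel symbols -/
theorem Gam_eq {n : ℕ} (p : ℕ) (A B : ℝ) (hA : A ≠ 0) (hB : B ≠ 0) (y : Eu n) (hy : rr p y ≠ 0)
    (k i j : Fin n) : Gam (fun y => A • TS p y + B • TF p y) k i j y =
      (Qb p i j * ub p k y - ub p i y * Qb p j k - ub p j y * Qb p i k) * (rr p y)⁻¹ := by
  unfold Gam
  simp only []
  rw [inv_eq p A B hA hB y hy]
  simp only [(PD_G p A B y hy _ _ _).2, Matrix.of_apply]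
  set ρ := rr p y with hρ
  have d1 : ∀ f : Fin n → ℝ, ∑ l, (if k = l then (1:ℝ) else 0) * f l = f k := by
    intro f
    simp only [ite_mul, one_mul, zero_mul]
    rw [Finset.sum_ite_eq Finset.univ k]
    simp
  have expand : ∀ l, ((ρ * Qb p k l - ub p k y * ub p l y) / A + ub p k y * ub p l y / B +
        ((if k = l then 1 else 0) - Qb p k l) / B) *
      ((-2 * A * Qb p j l * ub p i y / ρ ^ 2 +
        (B - A) * (Qb p i j * ub p l y + ub p j y * Qb p i l) / ρ ^ 2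
        - 4 * (B - A) * ub p j y * ub p l y * ub p i y / ρ ^ 3) +
       (-2 * A * Qb p i l * ub p j y / ρ ^ 2 +
        (B - A) * (Qb p j i * ub p l y + ub p i y * Qb p j l) / ρ ^ 2
        - 4 * (B - A) * ub p i y * ub p l y * ub p j y / ρ ^ 3) -
       (-2 * A * Qb p i j * ub p l y / ρ ^ 2 +
        (B - A) * (Qb p l i * ub p j y + ub p i y * Qb p l j) / ρ ^ 2
        - 4 * (B - A) * ub p i y * ub p j y * ub p l y / ρ ^ 3)) =
      (ρ / A - 1 / B) * (-2 * A * ub p i y / ρ ^ 2) * (Qb p k l * Qb p j l)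
      + (ρ / A - 1 / B) * (-2 * A * ub p j y / ρ ^ 2) * (Qb p k l * Qb p i l)
      + (ρ / A - 1 / B) * (2 * B * Qb p i j / ρ ^ 2 - 4 * (B - A) * ub p i y * ub p j y / ρ ^ 3) * (Qb p k l * ub p l y)
      + (1 / B - 1 / A) * ub p k y * (-2 * A * ub p i y / ρ ^ 2) * (Qb p j l * ub p l y)
      + (1 / B - 1 / A) * ub p k y * (-2 * A * ub p j y / ρ ^ 2) * (Qb p i l * ub p l y)
      + (1 / B - 1 / A) * ub p k y * (2 * B * Qb p i j / ρ ^ 2 - 4 * (B - A) * ub p i y * ub p j y / ρ ^ 3) * (ub p l y * ub p l y)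
      + (1 / B) * (-2 * A * ub p i y / ρ ^ 2) * ((if k = l then 1 else 0) * Qb p j l)
      + (1 / B) * (-2 * A * ub p j y / ρ ^ 2) * ((if k = l then 1 else 0) * Qb p i l)
      + (1 / B) * (2 * B * Qb p i j / ρ ^ 2 - 4 * (B - A) * ub p i y * ub p j y / ρ ^ 3) * ((if k = l then 1 else 0) * ub p l y) := by
    intro l
    rw [Qb_symm p j i, Qb_symm p l i, Qb_symm p l j]
    ring
  simp only [expand]
  simp only [Finset.sum_add_distrib, ← Finset.mul_sum]
  rw [c1, c1, c2, c2, c2, c3, d1, d1, d1, ← hρ, Qb_symm p k j, Qb_symm p k i]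
  field_simp
  ring

theorem PD_Gam {n : ℕ} (p : ℕ) (A B : ℝ) (hA : A ≠ 0) (hB : B ≠ 0) (x : Eu n) (hx : rr p x ≠ 0)
    (m k i j : Fin n) : pd m (Gam (fun y => A • TS p y + B • TF p y) k i j) x =
      (Qb p i j * Qb p m k - Qb p m i * Qb p j k - Qb p m j * Qb p i k) * (rr p x)⁻¹
      + (Qb p i j * ub p k x - ub p i x * Qb p j k - ub p j x * Qb p i k) * (-(2 * ub p m x) / rr p x ^ 2) := by
  have hcont : ContinuousAt (rr p) x := (PD_rr p m x).1.continuousAt
  have hev : ∀ᶠ y in 𝓝 x, rr p y ≠ 0 := hcont.eventually_ne hx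
  have hEq : Gam (fun y => A • TS p y + B • TF p y) k i j =ᶠ[𝓝 x] fun y =>
      (Qb p i j * ub p k y + ub p i y * (-Qb p j k) + ub p j y * (-Qb p i k)) * (rr p y)⁻¹ := by
    filter_upwards [hev] with y hy
    rw [Gam_eq p A B hA hB y hy]
    ring
  have h1 := (((PD.const m (Qb p i j) x).mul (PD_ub p m k x)).add
    ((PD_ub p m i x).mul (PD.const m (-Qb p j k) x))).add ((PD_ub p m j x).mul (PD.const m (-Qb p i k) x))
  have h2 := (h1.mul ((PD_rr p m x).inv hx)).congr hEq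
  rw [h2.2]
  ring

theorem ric_cyl {n : ℕ} (p : ℕ) (hp : p + 1 ≤ n) (A B : ℝ) (hA : A ≠ 0) (hB : B ≠ 0) (x : Eu n) (hx : rr p x ≠ 0) :
    Ric (fun y => A • TS p y + B • TF p y) x = ((p : ℝ) - 1) • TS p x := by
  have hTS : ∀ i j, TS p x i j = Qb p i j * (rr p x)⁻¹ - ub p i x * ub p j x / rr p x ^ 2 := by
    intro i j
    have h := G_eq p 1 0 x i j
    rw [one_smul, zero_smul, add_zero] at h
    rw [h]
    field_simp
    ring
  ext i j
  rw [Matrix.smul_apply, hTS, smul_eq_mul]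
  unfold Ric
  rw [Matrix.of_apply]
  simp only [PD_Gam p A B hA hB x hx, Gam_eq p A B hA hB x hx]
  set ρ := rr p x with hρ
  have e1 : ∑ k, ((Qb p i j * Qb p k k - Qb p k i * Qb p j k - Qb p k j * Qb p i k) * ρ⁻¹
      + (Qb p i j * ub p k x - ub p i x * Qb p j k - ub p j x * Qb p i k) * (-(2 * ub p k x) / ρ ^ 2))
      = ((p : ℝ) + 1 - 4) * Qb p i j / ρ + 4 * ub p i x * ub p j x / ρ ^ 2 := by
    have expand : ∀ k, ((Qb p i j * Qb p k k - Qb p k i * Qb p j k - Qb p k j * Qb p i k) * ρ⁻¹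
      + (Qb p i j * ub p k x - ub p i x * Qb p j k - ub p j x * Qb p i k) * (-(2 * ub p k x) / ρ ^ 2))
      = (Qb p i j * ρ⁻¹) * Qb p k k + (-2 * ρ⁻¹) * (Qb p i k * Qb p j k)
        + (-2 * Qb p i j / ρ ^ 2) * (ub p k x * ub p k x)
        + (2 * ub p i x / ρ ^ 2) * (Qb p j k * ub p k x)
        + (2 * ub p j x / ρ ^ 2) * (Qb p i k * ub p k x) := by
      intro k
      rw [Qb_symm p k i, Qb_symm p k j]
      ring
    simp only [expand]
    simp only [Finset.sum_add_distrib, ← Finset.mul_sum]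
    rw [c1, c2, c2, c3, c4 p hp, ← hρ]
    field_simp
    ring
  have e2 : ∑ k, ((Qb p i k * Qb p j k - Qb p j i * Qb p k k - Qb p j k * Qb p i k) * ρ⁻¹
      + (Qb p i k * ub p k x - ub p i x * Qb p k k - ub p k x * Qb p i k) * (-(2 * ub p j x) / ρ ^ 2))
      = -((p : ℝ) + 1) * Qb p i j / ρ + 2 * ((p : ℝ) + 1) * ub p i x * ub p j x / ρ ^ 2 := by
    have expand : ∀ k, ((Qb p i k * Qb p j k - Qb p j i * Qb p k k - Qb p j k * Qb p i k) * ρ⁻¹
      + (Qb p i k * ub p k x - ub p i x * Qb p k k - ub p k x * Qb p i k) * (-(2 * ub p j x) / ρ ^ 2))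
      = (-Qb p i j * ρ⁻¹ + 2 * ub p i x * ub p j x / ρ ^ 2) * Qb p k k := by
      intro k
      rw [Qb_symm p j i]
      ring
    simp only [expand]
    rw [← Finset.mul_sum, c4 p hp]
    ring
  have e3 : ∑ k, ∑ l, ((Qb p k l * ub p k x - ub p k x * Qb p l k - ub p l x * Qb p k k) * ρ⁻¹ *
        ((Qb p i j * ub p l x - ub p i x * Qb p j l - ub p j x * Qb p i l) * ρ⁻¹) -
      (Qb p j l * ub p k x - ub p j x * Qb p l k - ub p l x * Qb p j k) * ρ⁻¹ *
        ((Qb p i k * ub p l x - ub p i x * Qb p k l - ub p k x * Qb p i l) * ρ⁻¹))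
      = -((p : ℝ) + 1) * Qb p i j / ρ + 2 * ((p : ℝ) + 1) * ub p i x * ub p j x / ρ ^ 2
        - ((p : ℝ) + 3) * ub p i x * ub p j x / ρ ^ 2 + 2 * Qb p i j / ρ := by
    have inner : ∀ k, ∑ l, ((Qb p k l * ub p k x - ub p k x * Qb p l k - ub p l x * Qb p k k) * ρ⁻¹ *
        ((Qb p i j * ub p l x - ub p i x * Qb p j l - ub p j x * Qb p i l) * ρ⁻¹) -
      (Qb p j l * ub p k x - ub p j x * Qb p l k - ub p l x * Qb p j k) * ρ⁻¹ *
        ((Qb p i k * ub p l x - ub p i x * Qb p k l - ub p k x * Qb p i l) * ρ⁻¹))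
      = (ρ⁻¹ * ρ⁻¹ * (-Qb p i j * ρ + 2 * ub p i x * ub p j x)) * Qb p k k
        + (-(ρ⁻¹ * ρ⁻¹) * (ub p i x * ub p j x)) * Qb p k k
        + (ρ⁻¹ * ρ⁻¹ * Qb p i j) * (ub p k x * ub p k x)
        + (ρ⁻¹ * ρ⁻¹ * ρ) * (Qb p i k * Qb p j k)
        + (-(ρ⁻¹ * ρ⁻¹) * ub p i x) * (Qb p j k * ub p k x)
        + (-(ρ⁻¹ * ρ⁻¹) * ub p j x) * (Qb p i k * ub p k x) := by
      intro k
      have expand : ∀ l, ((Qb p k l * ub p k x - ub p k x * Qb p l k - ub p l x * Qb p k k) * ρ⁻¹ *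
        ((Qb p i j * ub p l x - ub p i x * Qb p j l - ub p j x * Qb p i l) * ρ⁻¹) -
      (Qb p j l * ub p k x - ub p j x * Qb p l k - ub p l x * Qb p j k) * ρ⁻¹ *
        ((Qb p i k * ub p l x - ub p i x * Qb p k l - ub p k x * Qb p i l) * ρ⁻¹))
        = (-(ρ⁻¹ * ρ⁻¹) * Qb p k k * Qb p i j) * (ub p l x * ub p l x)
          + ((ρ⁻¹ * ρ⁻¹) * Qb p k k * ub p i x) * (Qb p j l * ub p l x)
          + ((ρ⁻¹ * ρ⁻¹) * Qb p k k * ub p j x) * (Qb p i l * ub p l x)
          + (-(ρ⁻¹ * ρ⁻¹) * ub p k x * Qb p i k) * (Qb p j l * ub p l x)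
          + ((ρ⁻¹ * ρ⁻¹) * ub p k x * ub p i x) * (Qb p j l * Qb p k l)
          + ((ρ⁻¹ * ρ⁻¹) * ub p k x * ub p k x) * (Qb p j l * Qb p i l)
          + ((ρ⁻¹ * ρ⁻¹) * ub p j x * Qb p i k) * (Qb p k l * ub p l x)
          + (-(ρ⁻¹ * ρ⁻¹) * ub p j x * ub p i x) * (Qb p k l * Qb p k l)
          + (-(ρ⁻¹ * ρ⁻¹) * ub p j x * ub p k x) * (Qb p k l * Qb p i l)
          + ((ρ⁻¹ * ρ⁻¹) * Qb p j k * Qb p i k) * (ub p l x * ub p l x)
          + (-(ρ⁻¹ * ρ⁻¹) * Qb p j k * ub p i x) * (Qb p k l * ub p l x)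
          + (-(ρ⁻¹ * ρ⁻¹) * Qb p j k * ub p k x) * (Qb p i l * ub p l x) := by
        intro l
        rw [Qb_symm p l k]
        ring
      simp only [expand]
      simp only [Finset.sum_add_distrib, ← Finset.mul_sum]
      rw [c1, c1, c1, c1, c2, c2, c2, c3, ← hρ, Qb_symm p j i, Qb_symm p k i]
      ring
    simp only [inner]
    simp only [Finset.sum_add_distrib, ← Finset.mul_sum]
    rw [c1, c2, c2, c3, c4 p hp, ← hρ]
    field_simp
    ring
  rw [e1, e2, e3]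
  field_simp
  ring

end Pool.Agent.QTot.C1
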