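import Pool.Agent.QTot.Base2

set_option autoImplicit false
open scoped ContDiff Manifold Topology Matrix
open MeasureTheory Filter Set

namespace Pool.Agent.QTot.C10
open Pool.Agent.QTot


/-! ## TARGET (prove this) -/

theorem p4_dbl (f : ℕ → ℝ) (n : ℕ) : ∑ i ∈ Finset.range n, ∑ j ∈ Finset.range i, f j =
    ∑ j ∈ Finset.range n, ((n : ℝ) - 1 - j) * f j := by
  induction n with
  | zero => simp
  | succ n ih =>
    rw [Finset.sum_range_succ, ih, ← Finset.sum_add_distrib, Finset.sum_range_succ]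
    have h1 : (((n + 1 : ℕ) : ℝ) - 1 - n) * f n = 0 := by push_cast; ring
    rw [h1, add_zero]
    refine Finset.sum_congr rfl fun j _ => ?_
    push_cast
    ring

noncomputable def p4be (M : ℝ) (i : ℕ) : ℝ := 1 / (2 * ((i : ℝ) + 1) * (M - i))

noncomputable def p4sb (M : ℝ) (j : ℕ) : ℝ :=
  (2 * M + 1) / (((j : ℝ) + 2) * (2 * M - j)) * p4be M j

theorem p4be_pos {M : ℝ} {i : ℕ} (h : (i : ℝ) < M) : 0 < p4be M i := by
  unfold p4be
  have h1 : 0 < M - i := by linarith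
  positivity

theorem p4sb_pos {M : ℝ} {i : ℕ} (h : (i : ℝ) < M) : 0 < p4sb M i := by
  unfold p4sb
  have h0 : (0 : ℝ) ≤ i := Nat.cast_nonneg i
  have h1 : 0 < 2 * M - i := by linarith
  have h2 := p4be_pos h
  have h3 : 0 < M := by linarith
  positivity

theorem p4_num_a (l i : ℕ) (hi : i < l + 1) : p4be ((l : ℝ) + 3) (i + 1) ≤ 1 / (4 * ((l : ℝ) + 2)) := by
  unfold p4be
  have hi' : (i : ℝ) ≤ l := by exact_mod_cast Nat.lt_succ_iff.mp hi
  have h0 : (0 : ℝ) ≤ i := Nat.cast_nonneg i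
  push_cast
  have h1 : 0 < (l : ℝ) + 3 - (i + 1) := by linarith
  refine one_div_le_one_div_of_le (by positivity) ?_
  nlinarith [mul_nonneg h0 (sub_nonneg.mpr hi')]

theorem p4_num_b (l j : ℕ) (hj : j < l + 1) : (((l + 2 : ℕ) : ℝ) - 1 - j) * p4sb ((l : ℝ) + 3) j ≤
    1 / 2 * (1 / ((j : ℝ) + 1) - 1 / ((j : ℝ) + 2)) + 1 / (4 * ((l : ℝ) + 6)) := by
  have hj' : (j : ℝ) ≤ l := by exact_mod_cast Nat.lt_succ_iff.mp hj
  have h0 : (0 : ℝ) ≤ j := Nat.cast_nonneg j
  have hM : 0 < (l : ℝ) + 3 - j := by linarith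
  have h2M : 0 < 2 * ((l : ℝ) + 3) - j := by linarith
  have e1 : (((l + 2 : ℕ) : ℝ) - 1 - j) * p4sb ((l : ℝ) + 3) j =
      (((l : ℝ) + 1 - j) / ((l : ℝ) + 3 - j)) *
        ((2 * ((l : ℝ) + 3) + 1) / (2 * ((j : ℝ) + 1) * ((j : ℝ) + 2) * (2 * ((l : ℝ) + 3) - j))) := by
    unfold p4sb p4be
    push_cast
    field_simp
    ring
  have e2 : (2 * ((l : ℝ) + 3) + 1) / (2 * ((j : ℝ) + 1) * ((j : ℝ) + 2) * (2 * ((l : ℝ) + 3) - j)) =
      1 / 2 * (1 / ((j : ℝ) + 1) - 1 / ((j : ℝ) + 2)) +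
        1 / (2 * ((j : ℝ) + 2) * (2 * ((l : ℝ) + 3) - j)) := by
    field_simp
    ring
  have e3 : ((l : ℝ) + 1 - j) / ((l : ℝ) + 3 - j) ≤ 1 := by
    rw [div_le_one hM]; linarith
  have e4 : 0 ≤ (2 * ((l : ℝ) + 3) + 1) / (2 * ((j : ℝ) + 1) * ((j : ℝ) + 2) * (2 * ((l : ℝ) + 3) - j)) := by
    positivity
  have e5 : 1 / (2 * ((j : ℝ) + 2) * (2 * ((l : ℝ) + 3) - j)) ≤ 1 / (4 * ((l : ℝ) + 6)) := by
    refine one_div_le_one_div_of_le (by positivity) ?_
    nlinarith
  rw [e1]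
  calc _ ≤ 1 * ((2 * ((l : ℝ) + 3) + 1) / (2 * ((j : ℝ) + 1) * ((j : ℝ) + 2) * (2 * ((l : ℝ) + 3) - j))) :=
        mul_le_mul_of_nonneg_right e3 e4
    _ ≤ _ := by rw [one_mul, e2]; linarith

theorem p4_num (m : ℕ) (hm : 3 ≤ m) (k : ℕ) (hk : k < m) :
    ∑ i ∈ Finset.range k, (p4be m i + ∑ j ∈ Finset.range i, p4sb m j) < 1 := by
  obtain ⟨l, rfl⟩ := Nat.exists_eq_add_of_le' hm
  have hcast : ((l + 3 : ℕ) : ℝ) = (l : ℝ) + 3 := by push_cast; ring
  rw [hcast]
  have hle : ∑ i ∈ Finset.range k, (p4be ((l : ℝ) + 3) i + ∑ j ∈ Finset.range i, p4sb ((l : ℝ) + 3) j) ≤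
      ∑ i ∈ Finset.range (l + 2), (p4be ((l : ℝ) + 3) i + ∑ j ∈ Finset.range i, p4sb ((l : ℝ) + 3) j) := by
    refine Finset.sum_le_sum_of_subset_of_nonneg (Finset.range_mono (by omega)) ?_
    intro i hi _
    have hi' : (i : ℝ) < (l : ℝ) + 3 := by
      have := Finset.mem_range.mp hi
      have h2 : i < l + 3 := by omega
      exact_mod_cast h2
    refine add_nonneg (p4be_pos hi').le (Finset.sum_nonneg fun j hj => (p4sb_pos ?_).le)
    have : (j : ℝ) < i := by exact_mod_cast Finset.mem_range.mp hj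
    linarith
  refine lt_of_le_of_lt hle ?_
  rw [Finset.sum_add_distrib, p4_dbl]
  have s1 : ∑ i ∈ Finset.range (l + 2), p4be ((l : ℝ) + 3) i ≤
      ((l : ℝ) + 1) * (1 / (4 * ((l : ℝ) + 2))) + 1 / (2 * ((l : ℝ) + 3)) := by
    rw [Finset.sum_range_succ']
    refine add_le_add ?_ (le_of_eq ?_)
    · calc ∑ i ∈ Finset.range (l + 1), p4be ((l : ℝ) + 3) (i + 1)
          ≤ ∑ i ∈ Finset.range (l + 1), 1 / (4 * ((l : ℝ) + 2)) :=
            Finset.sum_le_sum fun i hi => p4_num_a l i (Finset.mem_range.mp hi)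
        _ = _ := by simp
    · unfold p4be
      push_cast
      congr 1
      ring
  have s2 : ∑ j ∈ Finset.range (l + 2), (((l + 2 : ℕ) : ℝ) - 1 - j) * p4sb ((l : ℝ) + 3) j ≤
      1 / 2 * (1 - 1 / ((l : ℝ) + 2)) + ((l : ℝ) + 1) * (1 / (4 * ((l : ℝ) + 6))) := by
    rw [Finset.sum_range_succ]
    have hz : (((l + 2 : ℕ) : ℝ) - 1 - ((l + 1 : ℕ) : ℝ)) = 0 := by push_cast; ring
    rw [hz, zero_mul, add_zero]
    calc ∑ j ∈ Finset.range (l + 1), (((l + 2 : ℕ) : ℝ) - 1 - j) * p4sb ((l : ℝ) + 3) j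
        ≤ ∑ j ∈ Finset.range (l + 1), (1 / 2 * (1 / ((j : ℝ) + 1) - 1 / ((j : ℝ) + 2)) +
            1 / (4 * ((l : ℝ) + 6))) :=
          Finset.sum_le_sum fun j hj => p4_num_b l j (Finset.mem_range.mp hj)
      _ = _ := by
          rw [Finset.sum_add_distrib, ← Finset.mul_sum]
          have ht : ∑ j ∈ Finset.range (l + 1), (1 / ((j : ℝ) + 1) - 1 / ((j : ℝ) + 2)) =
              1 - 1 / ((l : ℝ) + 2) := by
            have := Finset.sum_range_sub' (fun j : ℕ => 1 / ((j : ℝ) + 1)) (l + 1)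
            simp only [Nat.cast_add, Nat.cast_one, Nat.cast_zero] at this
            rw [show (0 : ℝ) + 1 = 1 by norm_num, show (l : ℝ) + 1 + 1 = (l : ℝ) + 2 by ring] at this
            rw [div_one] at this
            rw [← this]
            refine Finset.sum_congr rfl fun j _ => ?_
            rw [show (j : ℝ) + 1 + 1 = (j : ℝ) + 2 by ring]
          rw [ht]
          simp
  have hl : (0 : ℝ) ≤ l := Nat.cast_nonneg l
  have e1 : ((l : ℝ) + 1) * (1 / (4 * ((l : ℝ) + 2))) = 1 / 4 - 1 / 4 * (1 / ((l : ℝ) + 2)) := by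
    field_simp
    ring
  have e2 : ((l : ℝ) + 1) * (1 / (4 * ((l : ℝ) + 6))) = 1 / 4 - 5 / 4 * (1 / ((l : ℝ) + 6)) := by
    field_simp
    ring
  have e3 : 1 / (2 * ((l : ℝ) + 3)) ≤ 1 / 2 * (1 / ((l : ℝ) + 2)) := by
    rw [show 1 / 2 * (1 / ((l : ℝ) + 2)) = 1 / (2 * ((l : ℝ) + 2)) by field_simp]
    refine one_div_le_one_div_of_le (by positivity) (by linarith)
  have e4 : 0 < 1 / ((l : ℝ) + 2) := by positivity
  have e5 : 0 < 1 / ((l : ℝ) + 6) := by positivity
  rw [e1] at s1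
  rw [e2] at s2
  linarith

theorem p4_core (m : ℕ) (hm : 3 ≤ m) (α w : ℕ → ℝ) (h0 : α 0 = 1)
    (hw : ∀ k < m, ((k : ℝ) + 1) * w k = α k / (2 * m) + ∑ j ∈ Finset.range (k - 1),
      ((2 * (m : ℝ) + 1) * ((j : ℝ) + 1) / (2 * ((m : ℝ) - j - 2) * (2 * m - 1 - j))) * w (j + 1) *
        α (k - 2 - j))
    (hα : ∀ k < m, α (k + 1) = α k - w k - ∑ j ∈ Finset.range k,
      ((2 * (m : ℝ) + 1) / (((j : ℝ) + 2) * (2 * m - j))) * w j * α (k - 1 - j)) :
    0 < w (m - 1) := by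
  have hmR : (3 : ℝ) ≤ m := by exact_mod_cast hm
  have key : ∀ k, k < m → (0 < α k ∧ α k ≤ 1 ∧
      1 - ∑ i ∈ Finset.range k, (p4be m i + ∑ j ∈ Finset.range i, p4sb m j) ≤ α k) ∧
      0 < w k ∧ w k ≤ p4be m k := by
    intro k
    induction k using Nat.strong_induction_on with
    | _ k ih =>
      intro hk
      have hkR : (k : ℝ) + 1 ≤ m := by exact_mod_cast hk
      -- the claim on α
      have hA : 0 < α k ∧ α k ≤ 1 ∧
          1 - ∑ i ∈ Finset.range k, (p4be m i + ∑ j ∈ Finset.range i, p4sb m j) ≤ α k := by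
        rcases Nat.eq_zero_or_pos k with rfl | hpos
        · simp [h0]
        · obtain ⟨k', rfl⟩ : ∃ k', k = k' + 1 := ⟨k - 1, by omega⟩
          obtain ⟨⟨a1, a2, a3⟩, b1, b2⟩ := ih k' (by omega) (by omega)
          have hrec := hα k' (by omega)
          have hco : ∀ j ∈ Finset.range k', 0 ≤ (2 * (m : ℝ) + 1) / (((j : ℝ) + 2) * (2 * m - j)) := by
            intro j hj
            have hj' := Finset.mem_range.mp hj
            have : (j : ℝ) < m := by exact_mod_cast (by omega : j < m)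
            have h2 : 0 < 2 * (m : ℝ) - j := by linarith
            positivity
          have hn : 0 ≤ ∑ j ∈ Finset.range k',
              ((2 * (m : ℝ) + 1) / (((j : ℝ) + 2) * (2 * m - j))) * w j * α (k' - 1 - j) := by
            refine Finset.sum_nonneg fun j hj => ?_
            have hj' := Finset.mem_range.mp hj
            have h3 := (ih j (by omega) (by omega)).2.1
            have h4 := (ih (k' - 1 - j) (by omega) (by omega)).1.1
            exact mul_nonneg (mul_nonneg (hco j hj) h3.le) h4.le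
          have hu : ∑ j ∈ Finset.range k',
              ((2 * (m : ℝ) + 1) / (((j : ℝ) + 2) * (2 * m - j))) * w j * α (k' - 1 - j) ≤
              ∑ j ∈ Finset.range k', p4sb m j := by
            refine Finset.sum_le_sum fun j hj => ?_
            have hj' := Finset.mem_range.mp hj
            have h3 := (ih j (by omega) (by omega)).2
            have h4 := (ih (k' - 1 - j) (by omega) (by omega)).1
            have h5 := hco j hj
            have h6 : ((2 * (m : ℝ) + 1) / (((j : ℝ) + 2) * (2 * m - j))) * w j ≤ p4sb m j := by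
              unfold p4sb
              exact mul_le_mul_of_nonneg_left h3.2 h5
            have h7 : 0 ≤ ((2 * (m : ℝ) + 1) / (((j : ℝ) + 2) * (2 * m - j))) * w j :=
              mul_nonneg h5 h3.1.le
            calc _ ≤ ((2 * (m : ℝ) + 1) / (((j : ℝ) + 2) * (2 * m - j))) * w j * 1 :=
                  mul_le_mul_of_nonneg_left h4.2.1 h7
              _ ≤ _ := by rw [mul_one]; exact h6
          have hnum := p4_num m hm (k' + 1) hk
          have hlow : 1 - ∑ i ∈ Finset.range (k' + 1), (p4be m i + ∑ j ∈ Finset.range i, p4sb m j) ≤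
              α (k' + 1) := by
            rw [Finset.sum_range_succ, hrec]
            linarith
          refine ⟨by linarith, ?_, hlow⟩
          rw [hrec]
          linarith
      refine ⟨hA, ?_⟩
      have hrec := hw k hk
      have hk0 : (0 : ℝ) ≤ k := Nat.cast_nonneg k
      have hmk : 0 < (m : ℝ) - k := by linarith
      have hterm : ∀ j ∈ Finset.range (k - 1),
          0 ≤ ((2 * (m : ℝ) + 1) * ((j : ℝ) + 1) / (2 * ((m : ℝ) - j - 2) * (2 * m - 1 - j))) *
            w (j + 1) * α (k - 2 - j) ∧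
          ((2 * (m : ℝ) + 1) * ((j : ℝ) + 1) / (2 * ((m : ℝ) - j - 2) * (2 * m - 1 - j))) *
            w (j + 1) * α (k - 2 - j) ≤
            1 / 2 * (1 / ((m : ℝ) - ((j + 1 : ℕ) : ℝ) - 1) - 1 / ((m : ℝ) - j - 1)) := by
        intro j hj
        have hj' := Finset.mem_range.mp hj
        have h3 := (ih (j + 1) (by omega) (by omega)).2
        have h4 := (ih (k - 2 - j) (by omega) (by omega)).1
        have hjR : (j : ℝ) + 3 ≤ m := by exact_mod_cast (by omega : j + 3 ≤ m)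
        have hj0 : (0 : ℝ) ≤ j := Nat.cast_nonneg j
        have p1 : 0 < (m : ℝ) - j - 2 := by linarith
        have p2 : 0 < 2 * (m : ℝ) - 1 - j := by linarith
        have p3 : 0 < (m : ℝ) - j - 1 := by linarith
        have hc : 0 ≤ (2 * (m : ℝ) + 1) * ((j : ℝ) + 1) / (2 * ((m : ℝ) - j - 2) * (2 * m - 1 - j)) := by
          positivity
        have hc2 : (2 * (m : ℝ) + 1) * ((j : ℝ) + 1) / (2 * ((m : ℝ) - j - 2) * (2 * m - 1 - j)) ≤
            ((j : ℝ) + 1) / ((m : ℝ) - j - 2) := by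
          rw [div_le_div_iff₀ (by positivity) p1]
          have h8 : 2 * (m : ℝ) + 1 ≤ 2 * (2 * m - 1 - j) := by linarith
          have h9 : 0 ≤ ((j : ℝ) + 1) * ((m : ℝ) - j - 2) := by positivity
          nlinarith [mul_le_mul_of_nonneg_right h8 h9]
        refine ⟨mul_nonneg (mul_nonneg hc h3.1.le) h4.1.le, ?_⟩
        have h5 : ((2 * (m : ℝ) + 1) * ((j : ℝ) + 1) / (2 * ((m : ℝ) - j - 2) * (2 * m - 1 - j))) *
            w (j + 1) ≤ ((j : ℝ) + 1) / ((m : ℝ) - j - 2) * p4be m (j + 1) :=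
          mul_le_mul hc2 h3.2 h3.1.le (by positivity)
        have h6 : ((j : ℝ) + 1) / ((m : ℝ) - j - 2) * p4be m (j + 1) ≤
            1 / 2 * (1 / ((m : ℝ) - ((j + 1 : ℕ) : ℝ) - 1) - 1 / ((m : ℝ) - j - 1)) := by
          unfold p4be
          push_cast
          have p4 : (m : ℝ) - (j + 1) - 1 = (m : ℝ) - j - 2 := by ring
          have p5 : (m : ℝ) - (j + 1) = (m : ℝ) - j - 1 := by ring
          rw [p4, p5]
          have e1 : ((j : ℝ) + 1) / ((m : ℝ) - j - 2) * (1 / (2 * ((j : ℝ) + 1 + 1) * ((m : ℝ) - j - 1))) =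
              (((j : ℝ) + 1) / ((j : ℝ) + 2)) * (1 / (2 * ((m : ℝ) - j - 2) * ((m : ℝ) - j - 1))) := by
            rw [show (j : ℝ) + 1 + 1 = (j : ℝ) + 2 by ring]
            field_simp
          have e2 : 1 / 2 * (1 / ((m : ℝ) - j - 2) - 1 / ((m : ℝ) - j - 1)) =
              1 / (2 * ((m : ℝ) - j - 2) * ((m : ℝ) - j - 1)) := by
            field_simp
            ring
          have e3 : ((j : ℝ) + 1) / ((j : ℝ) + 2) ≤ 1 := by
            rw [div_le_one (by positivity)]; linarith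
          rw [e1, e2]
          have e4 : 0 ≤ 1 / (2 * ((m : ℝ) - j - 2) * ((m : ℝ) - j - 1)) := by positivity
          calc _ ≤ 1 * (1 / (2 * ((m : ℝ) - j - 2) * ((m : ℝ) - j - 1))) :=
                mul_le_mul_of_nonneg_right e3 e4
            _ = _ := one_mul _
        have h7 : 0 ≤ ((2 * (m : ℝ) + 1) * ((j : ℝ) + 1) / (2 * ((m : ℝ) - j - 2) * (2 * m - 1 - j))) *
            w (j + 1) := mul_nonneg hc h3.1.le
        calc _ ≤ ((2 * (m : ℝ) + 1) * ((j : ℝ) + 1) / (2 * ((m : ℝ) - j - 2) * (2 * m - 1 - j))) *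
            w (j + 1) * 1 := mul_le_mul_of_nonneg_left h4.2.1 h7
          _ ≤ _ := by rw [mul_one]; exact h5.trans h6
      have hsum0 := Finset.sum_nonneg fun j hj => (hterm j hj).1
      have hsum1 := Finset.sum_le_sum fun j hj => (hterm j hj).2
      have hpos : 0 < w k := by
        have h5 : 0 < ((k : ℝ) + 1) * w k := by
          rw [hrec]
          have : 0 < α k / (2 * (m : ℝ)) := by
            have := hA.1
            positivity
          linarith
        exact pos_of_mul_pos_right h5 (by positivity)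
      refine ⟨hpos, ?_⟩
      have hαm : α k / (2 * (m : ℝ)) ≤ 1 / (2 * m) :=
        div_le_div_of_nonneg_right hA.2.1 (by positivity)
      have hgoal : ((k : ℝ) + 1) * w k ≤ 1 / 2 * (1 / ((m : ℝ) - k)) := by
        rcases Nat.eq_zero_or_pos k with rfl | hk1
        · rw [hrec]
          simp only [Nat.cast_zero, Nat.zero_sub, Finset.range_zero, Finset.sum_empty, add_zero, sub_zero]
          rw [h0]
          apply le_of_eq
          field_simp
        · rw [← Finset.mul_sum] at hsum1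
          rw [Finset.sum_range_sub (fun j : ℕ => 1 / ((m : ℝ) - j - 1)) (k - 1)] at hsum1
          have hc1 : ((k - 1 : ℕ) : ℝ) = (k : ℝ) - 1 := by
            rw [Nat.cast_sub hk1]; simp
          rw [hc1] at hsum1
          have hc2 : (m : ℝ) - ((k : ℝ) - 1) - 1 = (m : ℝ) - k := by ring
          rw [hc2, Nat.cast_zero, sub_zero] at hsum1
          have h8 : 1 / (2 * (m : ℝ)) ≤ 1 / 2 * (1 / ((m : ℝ) - 1)) := by
            have h9 : (0 : ℝ) < (m : ℝ) - 1 := by linarith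
            rw [show 1 / 2 * (1 / ((m : ℝ) - 1)) = 1 / (2 * ((m : ℝ) - 1)) by field_simp]
            exact one_div_le_one_div_of_le (by positivity) (by linarith)
          rw [hrec]
          linarith
      unfold p4be
      have h10 : 1 / (2 * ((k : ℝ) + 1) * ((m : ℝ) - k)) = (1 / 2 * (1 / ((m : ℝ) - k))) / ((k : ℝ) + 1) := by
        field_simp
      rw [h10, le_div_iff₀ (by positivity)]
      linarith
  exact (key (m - 1) (by omega)).2.1

theorem p4_ps (m : ℕ) (vt Wt Zt : ℕ → ℝ) (hv : vt 0 = 1)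
    (h3 : ∀ k < m, ∑ j ∈ Finset.range (k + 1), vt j * (((k : ℝ) + 1 - j) * Wt (k + 1 - j)) =
      ∑ j ∈ Finset.range (k + 1), Wt (k - j) * Zt j) :
    ∃ α : ℕ → ℝ, (∀ k, Wt k = ∑ i ∈ Finset.range (k + 1), vt i * α (k - i)) ∧
      (∀ k < m, ((k : ℝ) + 1) * Wt (k + 1) = ∑ i ∈ Finset.range (k + 1), Zt i * α (k - i)) := by
  have hsum : ∀ (f g : ℕ → ℝ) (k : ℕ), PowerSeries.coeff k (PowerSeries.mk f * PowerSeries.mk g) =
      ∑ i ∈ Finset.range (k + 1), f i * g (k - i) := by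
    intro f g k
    rw [PowerSeries.coeff_mul, Finset.Nat.sum_antidiagonal_eq_sum_range_succ_mk]
    simp
  obtain ⟨α, hα⟩ : ∃ α : ℕ → ℝ, PowerSeries.mk Wt * (PowerSeries.mk vt)⁻¹ = PowerSeries.mk α :=
    ⟨fun k => PowerSeries.coeff k (PowerSeries.mk Wt * (PowerSeries.mk vt)⁻¹), by ext; simp⟩
  have hc : PowerSeries.constantCoeff (PowerSeries.mk vt) ≠ 0 := by
    rw [← PowerSeries.coeff_zero_eq_constantCoeff_apply, PowerSeries.coeff_mk, hv]
    exact one_ne_zero
  have hWA : PowerSeries.mk Wt = PowerSeries.mk vt * PowerSeries.mk α := by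
    rw [← hα, mul_left_comm, PowerSeries.mul_inv_cancel _ hc, mul_one]
  refine ⟨α, fun k => ?_, fun k hk => ?_⟩
  · have := congrArg (PowerSeries.coeff k) hWA
    rw [hsum, PowerSeries.coeff_mk] at this
    exact this
  · have hdvd : (PowerSeries.X : PowerSeries ℝ) ^ m ∣ PowerSeries.mk vt *
        (PowerSeries.mk (fun k : ℕ => ((k : ℝ) + 1) * Wt (k + 1)) - PowerSeries.mk Zt * PowerSeries.mk α) := by
      rw [PowerSeries.X_pow_dvd_iff]
      intro l hl
      have e : PowerSeries.mk vt *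
        (PowerSeries.mk (fun k : ℕ => ((k : ℝ) + 1) * Wt (k + 1)) - PowerSeries.mk Zt * PowerSeries.mk α) =
          PowerSeries.mk vt * PowerSeries.mk (fun k : ℕ => ((k : ℝ) + 1) * Wt (k + 1)) -
            PowerSeries.mk Zt * PowerSeries.mk Wt := by
        rw [hWA]; ring
      rw [e, map_sub, hsum, hsum, sub_eq_zero]
      have h := h3 l hl
      calc _ = ∑ j ∈ Finset.range (l + 1), vt j * (((l : ℝ) + 1 - j) * Wt (l + 1 - j)) := by
            refine Finset.sum_congr rfl fun j hj => ?_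
            have hj' := Finset.mem_range.mp hj
            rw [Nat.cast_sub (by omega : j ≤ l), show l - j + 1 = l + 1 - j by omega]
            ring
        _ = _ := h
        _ = _ := Finset.sum_congr rfl fun j hj => mul_comm _ _
    have hdvd2 : (PowerSeries.X : PowerSeries ℝ) ^ m ∣
        (PowerSeries.mk (fun k : ℕ => ((k : ℝ) + 1) * Wt (k + 1)) - PowerSeries.mk Zt * PowerSeries.mk α) := by
      have h := Dvd.dvd.mul_left hdvd (PowerSeries.mk vt)⁻¹
      rwa [← mul_assoc, PowerSeries.inv_mul_cancel _ hc, one_mul] at h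
    rw [PowerSeries.X_pow_dvd_iff] at hdvd2
    have h := hdvd2 k hk
    rw [map_sub, hsum, PowerSeries.coeff_mk, sub_eq_zero] at h
    exact h


/- Idea.  Put `Ws k = (-1)^k W k`, `vs k = (-1)^k v k`, `Xs k = (-1)^(k+1) X k`.  Then `(k+1)(2m+1-k) vs_{k+1} = -6 Ws_k`,
`(m-k) Xs_k = -3 Ws_k - (k+1) vs_{k+1}`, and `∑_{j≤k} vs_j (k+1-j) Ws_{k+1-j} = ∑_{j≤k} Ws_{k-j} Z_j` for `k < m` with
`Z_j = (j+1) vs_{j+1} - Xs_j = 3 (j-1) Ws_j / ((m-j)(2m+1-j))`.
Let `a` be the sequence with `∑_{j≤k} vs_j a_{k-j} = Ws_k` (`a_0 = 1`).  Then (cancelling the power series `vs`)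
`(k+1) Ws_{k+1} = ∑_{j≤k} a_{k-j} Z_j` for `k < m`.  Let `c = 6/(2m+1)`, and write `Ws_k = - c^k w_k` for `k ≥ 1`, `a_k = c^k α_k`.
One gets (note `Z_0 = -3/(m(2m+1))`, `Z_1 = 0`, `vs_1 = -c`, `vs_j = 6 c^(j-1) w_{j-1}/(j(2m+2-j))` for `j ≥ 2`):
 (1) `(k+1) w_{k+1} = α_k/(2m) + ∑_{j=2}^{k} (j-1)(2m+1)/(2(m-j)(2m+1-j)) w_j α_{k-j}`   (k < m)
 (2) `α_k = α_{k-1} - w_k - ∑_{j=2}^{k} (2m+1)/(j(2m+2-j)) w_{j-1} α_{k-j}`   (1 ≤ k ≤ m).
Claim by strong induction for `k ≤ m-1`: `0 < α_k ≤ 1` and (`1 ≤ k ≤ m`) `0 ≤ w_k ≤ 1/(2k(m-k+1))`.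
Upper bound of `w_k` (k ≥ 2): `(2m+1)/(2(2m+1-j)) ≤ 1` for `j ≤ m`, so `k w_k ≤ 1/(2m) + ∑_{j=2}^{k-1} j w_j/(m-j) ≤
1/(2m) + (1/2) ∑_{j=2}^{k-1} (1/(m-j) - 1/(m-j+1)) = 1/(2m) + (1/2)(1/(m-k+1) - 1/(m-1)) ≤ 1/(2(m-k+1))`; `w_1 = 1/(2m)`.
Lower bound of `α_k` (k ≤ m-1): `α_k ≥ 1 - ∑_{i=1}^{k} w_i - ∑_{j=2}^{k} (k-j+1)(2m+1)/(j(2m+2-j)) w_{j-1}`.  First sum
`≤ 1/(2m) + (m-2)/(4(m-1))` (since `i(m-i+1) ≥ 2(m-1)` for `2 ≤ i ≤ m-1`).  Second sum: `w_{j-1} ≤ 1/(2(j-1)(m-j+2))`,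
`k-j+1 ≤ m-j+2`, and `(2m+1)/(2m+2-j) = 1 + (j-1)/(2m+2-j) ≤ 1 + (j-1)/(m+3)`, so it is
`≤ ∑_{j=2}^{m-1} (1/(2j(j-1)) + 1/(4(m+3))) = (1/2)(1 - 1/(m-1)) + (m-2)/(4(m+3))`.  The total is `< 1`.
Hence `w_m ≥ α_{m-1}/(2m^2) > 0`, so `Ws_m < 0`, `W_m = - Ws_m > 0` (`m` odd), `(m+1)^2 v_{m+1} = 6 W_m > 0`.
(It may be convenient to prove statements for finite ranges, or to define `a` by recursion.) -/
theorem pos4 (m : ℕ) (hm : Odd m) (h3m : 3 ≤ m) (v W X : ℕ → ℝ) (hv0 : v 0 = 1) (hW0 : W 0 = 1)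
    (h1 : ∀ k, k ≤ m → ((k : ℝ) + 1) * (2 * m + 1 - k) * v (k + 1) = 6 * W k)
    (h2 : ∀ k, k < m → ((m : ℝ) - k) * X k = 3 * W k - ((k : ℝ) + 1) * v (k + 1))
    (h3 : ∀ k, k < m → ∑ j ∈ Finset.range (k + 1), v j * (((k : ℝ) + 1 - j) * W (k + 1 - j)) =
        ∑ j ∈ Finset.range (k + 1), W (k - j) * (((j : ℝ) + 1) * v (j + 1) - X j)) :
    0 < v (m + 1) := by
  have hmR : (3 : ℝ) ≤ m := by exact_mod_cast h3m
  set σ : ℝ := -(2 * (m : ℝ) + 1) / 6 with hσ
  obtain ⟨α, F2, F1⟩ := p4_ps m (fun k => σ ^ k * v k) (fun k => σ ^ k * W k)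
    (fun k => σ ^ (k + 1) * (((k : ℝ) + 1) * v (k + 1) - X k)) (by simp [hv0]) (by
      intro k hk
      have h := congrArg (fun t => σ ^ (k + 1) * t) (h3 k hk)
      simp only [Finset.mul_sum] at h
      calc _ = ∑ i ∈ Finset.range (k + 1), σ ^ (k + 1) * (v i * (((k : ℝ) + 1 - i) * W (k + 1 - i))) := by
            refine Finset.sum_congr rfl fun j hj => ?_
            have hj' := Finset.mem_range.mp hj
            have : σ ^ (k + 1) = σ ^ j * σ ^ (k + 1 - j) := by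
              rw [← pow_add]; congr 1; omega
            rw [this]; ring
        _ = _ := h
        _ = _ := by
            refine Finset.sum_congr rfl fun j hj => ?_
            have hj' := Finset.mem_range.mp hj
            have : σ ^ (k + 1) = σ ^ (k - j) * σ ^ (j + 1) := by
              rw [← pow_add]; congr 1; omega
            rw [this]; ring)
  have F3 : ∀ k, k ≤ m → ((k : ℝ) + 1) * (2 * m + 1 - k) * (σ ^ (k + 1) * v (k + 1)) =
      -(2 * (m : ℝ) + 1) * (σ ^ k * W k) := by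
    intro k hk
    have h := h1 k hk
    calc _ = σ ^ (k + 1) * (((k : ℝ) + 1) * (2 * m + 1 - k) * v (k + 1)) := by ring
      _ = σ ^ k * (σ * 6) * W k := by rw [h]; ring
      _ = _ := by rw [show σ * 6 = -(2 * (m : ℝ) + 1) by rw [hσ]; ring]; ring
  have F4 : ∀ k, k < m → σ ^ (k + 1) * (((k : ℝ) + 1) * v (k + 1) - X k) =
      (2 * (m : ℝ) + 1) * ((k : ℝ) - 1) / (2 * ((m : ℝ) - k) * (2 * m + 1 - k)) * (σ ^ k * W k) := by
    intro k hk
    have hkR : (k : ℝ) + 1 ≤ m := by exact_mod_cast hk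
    have hk0 : (0 : ℝ) ≤ k := Nat.cast_nonneg k
    have p1 : (m : ℝ) - k ≠ 0 := by
      have : 0 < (m : ℝ) - k := by linarith
      exact this.ne'
    have p2 : 2 * (m : ℝ) + 1 - k ≠ 0 := by
      have : 0 < 2 * (m : ℝ) + 1 - k := by linarith
      exact this.ne'
    have a1 := h1 k hk.le
    have a2 := h2 k hk
    have a3 : ((k : ℝ) + 1) * v (k + 1) = 6 * W k / (2 * m + 1 - k) := by
      rw [eq_div_iff p2]; linarith
    have a4 : X k = (3 * W k - 6 * W k / (2 * m + 1 - k)) / ((m : ℝ) - k) := by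
      rw [eq_div_iff p1, ← a3]; linarith
    rw [a3, a4, pow_succ]
    have a5 : σ * (6 * W k / (2 * m + 1 - k) - (3 * W k - 6 * W k / (2 * m + 1 - k)) / ((m : ℝ) - k)) =
        (2 * (m : ℝ) + 1) * ((k : ℝ) - 1) / (2 * ((m : ℝ) - k) * (2 * m + 1 - k)) * W k := by
      rw [hσ]
      field_simp
      ring
    calc _ = σ ^ k * (σ * (6 * W k / (2 * m + 1 - k) -
          (3 * W k - 6 * W k / (2 * m + 1 - k)) / ((m : ℝ) - k))) := by ring
      _ = _ := by rw [a5]; ring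
  have hα0 : α 0 = 1 := by
    have h := F2 0
    simp [hv0, hW0] at h
    exact h.symm
  have hv1 : σ * v 1 = -1 := by
    have h := F3 0 (Nat.zero_le _)
    simp only [Nat.cast_zero, zero_add, pow_zero, pow_one, hW0] at h
    have h5 : (2 * (m : ℝ) + 1) ≠ 0 := by positivity
    have h6 : (2 * (m : ℝ) + 1) * (σ * v 1) = (2 * (m : ℝ) + 1) * (-1) := by linarith
    exact mul_left_cancel₀ h5 h6
  have hcore := p4_core m h3m α (fun k => -(σ ^ (k + 1) * W (k + 1))) hα0 (by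
    intro k hk
    have h := F1 k hk
    have z0 := F4 0 (by omega)
    simp only [Nat.cast_zero, zero_add, zero_sub, sub_zero, pow_zero, hW0, one_mul, mul_one] at z0
    have z0' : (2 * (m : ℝ) + 1) * -1 / (2 * (m : ℝ) * (2 * m + 1)) = -(1 / (2 * m)) := by
      have : (m : ℝ) ≠ 0 := by positivity
      field_simp
    rw [z0'] at z0
    rcases k with _ | k
    · simp only [Finset.sum_range_one, Nat.cast_zero, zero_add, one_mul, Nat.sub_self, Finset.range_zero,
        Finset.sum_empty, add_zero, Nat.zero_sub] at h ⊢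
      rw [z0] at h
      rw [h]
      ring
    · have z1 := F4 1 (by omega)
      simp only [Nat.cast_one, sub_self, mul_zero, zero_div, zero_mul] at z1
      rw [Finset.sum_range_succ', Finset.sum_range_succ'] at h
      simp only [zero_add, Nat.cast_zero, Nat.cast_one, Nat.sub_zero, one_mul] at h
      rw [z0, z1, zero_mul, add_zero] at h
      have e : ∑ j ∈ Finset.range (k + 1 - 1),
          ((2 * (m : ℝ) + 1) * ((j : ℝ) + 1) / (2 * ((m : ℝ) - j - 2) * (2 * m - 1 - j))) *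
            (-(σ ^ (j + 1 + 1) * W (j + 1 + 1))) * α (k + 1 - 2 - j) =
          -∑ j ∈ Finset.range k, σ ^ (j + 1 + 1 + 1) *
            (((j + 1 + 1 : ℕ) + 1) * v (j + 1 + 1 + 1) - X (j + 1 + 1)) * α (k + 1 - (j + 1 + 1)) := by
        rw [← Finset.sum_neg_distrib, Nat.add_sub_cancel]
        refine Finset.sum_congr rfl fun j hj => ?_
        have hj' := Finset.mem_range.mp hj
        rw [F4 (j + 1 + 1) (by omega)]
        rw [show k + 1 - 2 - j = k + 1 - (j + 1 + 1) by omega]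
        push_cast
        rw [show (m : ℝ) - (j + 1 + 1) = (m : ℝ) - j - 2 by ring,
          show 2 * (m : ℝ) + 1 - (j + 1 + 1) = 2 * m - 1 - j by ring,
          show (j : ℝ) + 1 + 1 - 1 = (j : ℝ) + 1 by ring]
        ring
      rw [e]
      push_cast at h ⊢
      linear_combination -h) (by
    intro k hk
    have h := F2 (k + 1)
    rw [Finset.sum_range_succ', Finset.sum_range_succ'] at h
    simp only [zero_add, Nat.sub_zero, pow_zero, pow_one, hv0, one_mul, hv1, Nat.add_sub_cancel] at h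
    have e : ∑ j ∈ Finset.range k, (2 * (m : ℝ) + 1) / (((j : ℝ) + 2) * (2 * m - j)) *
        (-(σ ^ (j + 1) * W (j + 1))) * α (k - 1 - j) =
        ∑ j ∈ Finset.range k, σ ^ (j + 1 + 1) * v (j + 1 + 1) * α (k + 1 - (j + 1 + 1)) := by
      refine Finset.sum_congr rfl fun j hj => ?_
      have hj' := Finset.mem_range.mp hj
      have hjR : (j : ℝ) + 2 ≤ m := by exact_mod_cast (by omega : j + 2 ≤ m)
      have hj0 : (0 : ℝ) ≤ j := Nat.cast_nonneg j
      have f3 := F3 (j + 1) (by omega)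
      push_cast at f3
      rw [show k + 1 - (j + 1 + 1) = k - 1 - j by omega]
      have p1 : ((j : ℝ) + 2) * (2 * m - j) ≠ 0 := by
        have : 0 < 2 * (m : ℝ) - j := by linarith
        positivity
      have : σ ^ (j + 1 + 1) * v (j + 1 + 1) =
          (2 * (m : ℝ) + 1) / (((j : ℝ) + 2) * (2 * m - j)) * (-(σ ^ (j + 1) * W (j + 1))) := by
        rw [div_mul_eq_mul_div, eq_div_iff p1]
        linear_combination f3
      rw [this]
    rw [e]
    linear_combination -h)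

  rw [show m - 1 + 1 = m by omega] at hcore
  have hσneg : σ < 0 := by rw [hσ]; linarith
  have hσm : σ ^ m < 0 := hm.pow_neg hσneg
  have hW : 0 < W m := by
    have h5 : σ ^ m * W m < 0 := by linarith
    exact pos_of_mul_neg_right h5 hσm.le
  have hfin := h1 m le_rfl
  have h6 : 0 < (((m : ℝ) + 1) * (2 * m + 1 - m)) * v (m + 1) := by rw [hfin]; positivity
  have h7 : 0 < ((m : ℝ) + 1) * (2 * m + 1 - m) := by
    have : 0 < 2 * (m : ℝ) + 1 - m := by linarith
    positivity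
  exact pos_of_mul_pos_right h6 h7.le


end Pool.Agent.QTot.C10
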