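import Pool.Agent.QTot.Base2

set_option autoImplicit false
open scoped ContDiff Manifold Topology Matrix
open MeasureTheory Filter Set

namespace Pool.Agent.QTot.C2
open Pool.Agent.QTot


/-! ## TARGET (prove this) -/

/- Idea: with `ρ = rr p x`, let `S' = ρ (P - y yᵀ/ρ)` (y block) and `F' = y yᵀ + δ_z`.  Then `TS * S' = P - y yᵀ/ρ =: π₁`,
`TF * F' = y yᵀ/ρ + δ_z =: π₂`, `TS * F' = 0`, `TF * S' = 0`, `π₁ + π₂ = 1`, `π₁ * TS = TS`, `π₂ * TF = TF`, `π₁ * TF = 0`,
`π₂ * TS = 0`, `tr π₁ = p`, `tr π₂ = n - p`; so `(A TS + B TF)⁻¹ = (1/A) S' + (1/B) F'` (`Matrix.inv_eq_right_inv`). -/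
theorem cyl_abs {n : ℕ} (P Y : Mt n) (r : ℝ) (hr : r ≠ 0) (hPP : P * P = P) (hPY : P * Y = Y)
    (hYP : Y * P = Y) (hYY : Y * Y = r • Y) (TS' TF' : Mt n)
    (hTS : TS' = r⁻¹ • P - (r ^ 2)⁻¹ • Y) (hTF : TF' = (r ^ 2)⁻¹ • Y + (1 - P)) :
    TS' * (r • P - Y) = P - r⁻¹ • Y ∧ TF' * (Y + (1 - P)) = 1 - (P - r⁻¹ • Y) ∧
    TS' * (Y + (1 - P)) = 0 ∧ TF' * (r • P - Y) = 0 ∧
    (r • P - Y) * TS' = P - r⁻¹ • Y ∧ (Y + (1 - P)) * TF' = 1 - (P - r⁻¹ • Y) ∧
    (Y + (1 - P)) * TS' = 0 ∧ (r • P - Y) * TF' = 0 ∧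
    (P - r⁻¹ • Y) * TS' = TS' ∧ (P - r⁻¹ • Y) * TF' = 0 := by
  subst hTS hTF
  refine ⟨?_, ?_, ?_, ?_, ?_, ?_, ?_, ?_, ?_, ?_⟩ <;>
  · simp only [mul_sub, sub_mul, mul_add, add_mul, smul_mul_assoc, mul_smul_comm, hPP, hPY, hYP,
      hYY, mul_one, one_mul, smul_smul, smul_sub, smul_add]
    match_scalars <;> field_simp <;> ring

theorem cyl_facts {n : ℕ} (p : ℕ) (hp : p + 1 ≤ n) (x : Eu n) (hx : rr p x ≠ 0) :
    ∃ S' F' E : Mt n, TS p x * S' = E ∧ TF p x * F' = 1 - E ∧ TS p x * F' = 0 ∧ TF p x * S' = 0 ∧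
      S' * TS p x = E ∧ F' * TF p x = 1 - E ∧ F' * TS p x = 0 ∧ S' * TF p x = 0 ∧
      E * TS p x = TS p x ∧ E * TF p x = 0 ∧ E.trace = p := by
  obtain ⟨y, hy⟩ : ∃ y : Fin n → ℝ, y = fun i => if i.val < p + 1 then x i else 0 := ⟨_, rfl⟩
  obtain ⟨P, hP⟩ : ∃ P : Mt n, P = Matrix.diagonal fun i => if i.val < p + 1 then 1 else 0 :=
    ⟨_, rfl⟩
  obtain ⟨Y, hY⟩ : ∃ Y : Mt n, Y = Matrix.vecMulVec y y := ⟨_, rfl⟩
  have hyy : ∑ k, y k * y k = rr p x := by
    unfold rr
    refine Finset.sum_congr rfl fun i _ => ?_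
    rw [hy]
    by_cases h : i.val < p + 1
    · simp only [h, if_true]
      ring
    · simp only [h, if_false]
      ring
  have hPP : P * P = P := by
    rw [hP, Matrix.diagonal_mul_diagonal]
    congr 1
    ext i
    split_ifs <;> norm_num
  have hPY : P * Y = Y := by
    ext i j
    rw [hP, Matrix.diagonal_mul, hY, Matrix.vecMulVec_apply, hy]
    by_cases h : i.val < p + 1
    · simp only [h, if_true, one_mul]
    · simp only [h, if_false, zero_mul]
  have hYP : Y * P = Y := by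
    ext i j
    rw [hP, Matrix.mul_diagonal, hY, Matrix.vecMulVec_apply, hy]
    by_cases h : j.val < p + 1
    · simp only [h, if_true, mul_one]
    · simp only [h, if_false, mul_zero]
  have hYY : Y * Y = rr p x • Y := by
    ext i j
    rw [Matrix.mul_apply, Matrix.smul_apply, hY, smul_eq_mul, ← hyy, Finset.sum_mul]
    refine Finset.sum_congr rfl fun k _ => ?_
    rw [Matrix.vecMulVec_apply, Matrix.vecMulVec_apply, Matrix.vecMulVec_apply]
    ring
  have hTS : TS p x = (rr p x)⁻¹ • P - ((rr p x) ^ 2)⁻¹ • Y := by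
    ext i j
    rw [Matrix.sub_apply, Matrix.smul_apply, Matrix.smul_apply, hP, hY, Matrix.vecMulVec_apply, hy,
      Matrix.diagonal_apply, smul_eq_mul, smul_eq_mul]
    unfold TS
    rw [Matrix.of_apply]
    by_cases h1 : i.val < p + 1 <;> by_cases h2 : j.val < p + 1
    · simp only [h1, h2, and_self, if_true]
      by_cases h3 : i = j
      · simp only [h3, if_true]
        ring
      · simp only [h3, if_false]
        ring
    · have h3 : i ≠ j := by
        rintro rfl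
        exact h2 h1
      simp only [h1, h2, h3, and_false, if_true, if_false]
      ring
    · have h3 : i ≠ j := by
        rintro rfl
        exact h1 h2
      simp only [h1, h2, h3, false_and, if_true, if_false]
      ring
    · simp only [h1, h2, false_and, if_false]
      split_ifs <;> ring
  have hTF : TF p x = ((rr p x) ^ 2)⁻¹ • Y + (1 - P) := by
    ext i j
    rw [Matrix.add_apply, Matrix.sub_apply, Matrix.smul_apply, hP, hY, Matrix.vecMulVec_apply, hy,
      Matrix.diagonal_apply, smul_eq_mul, Matrix.one_apply]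
    unfold TF
    rw [Matrix.of_apply]
    by_cases h1 : i.val < p + 1 <;> by_cases h2 : j.val < p + 1
    · simp only [h1, h2, and_self, if_true]
      by_cases h3 : i = j
      · simp only [h3, if_true]
        ring
      · simp only [h3, if_false]
        ring
    · have h3 : i ≠ j := by
        rintro rfl
        exact h2 h1
      simp only [h1, h2, h3, and_false, if_true, if_false]
      ring
    · have h3 : i ≠ j := by
        rintro rfl
        exact h1 h2
      simp only [h1, h2, h3, false_and, if_true, if_false]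
      ring
    · simp only [h1, h2, false_and, if_false]
      split_ifs <;> ring
  obtain ⟨e1, e2, e3, e4, e5, e6, e7, e8, e9, e10⟩ :=
    cyl_abs P Y (rr p x) hx hPP hPY hYP hYY _ _ hTS hTF
  refine ⟨_, _, _, e1, e2, e3, e4, e5, e6, e7, e8, e9, e10, ?_⟩
  rw [Matrix.trace_sub, Matrix.trace_smul]
  have h1 : P.trace = (p : ℝ) + 1 := by
    rw [hP, Matrix.trace_diagonal, Fin.sum_univ_eq_sum_range (fun i => if i < p + 1 then (1:ℝ) else 0) n,
      Finset.sum_boole]
    have h2 : (Finset.range n).filter (fun i => i < p + 1) = Finset.range (p + 1) := by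
      ext i
      rw [Finset.mem_filter, Finset.mem_range, Finset.mem_range]
      constructor
      · exact fun h => h.2
      · exact fun h => ⟨lt_of_lt_of_le h hp, h⟩
    rw [h2, Finset.card_range]
    push_cast
    ring
  have h2 : Y.trace = rr p x := by
    rw [hY, ← hyy]
    rfl
  rw [h1, h2, smul_eq_mul, inv_mul_cancel₀ hx]
  ring

theorem cyl_inv {n : ℕ} (A B : ℝ) (hA : A ≠ 0) (hB : B ≠ 0) (TS' TF' S' F' E : Mt n)
    (e1 : TS' * S' = E) (e2 : TF' * F' = 1 - E) (e3 : TS' * F' = 0) (e4 : TF' * S' = 0) :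
    (A • TS' + B • TF') * (A⁻¹ • S' + B⁻¹ • F') = 1 := by
  simp only [mul_add, add_mul, smul_mul_assoc, mul_smul_comm, e1, e2, e3, e4, smul_smul, smul_zero,
    smul_sub, add_zero, zero_add]
  rw [inv_mul_cancel₀ hA, inv_mul_cancel₀ hB, one_smul, one_smul]
  abel

theorem cyl_det {n : ℕ} (p : ℕ) (hp : p + 1 ≤ n) (A B : ℝ) (hA : A ≠ 0) (hB : B ≠ 0) (x : Eu n) (hx : rr p x ≠ 0) :
    (A • TS p x + B • TF p x).det ≠ 0 := by
  obtain ⟨S', F', E, e1, e2, e3, e4, e5, e6, e7, e8, e9, e10, e11⟩ := cyl_facts p hp x hx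
  exact Matrix.det_ne_zero_of_right_inverse (cyl_inv A B hA hB _ _ S' F' E e1 e2 e3 e4)

theorem cyl_trace {n : ℕ} (p : ℕ) (hp : p + 1 ≤ n) (A B a b : ℝ) (hA : A ≠ 0) (hB : B ≠ 0) (x : Eu n)
    (hx : rr p x ≠ 0) :
    ((A • TS p x + B • TF p x)⁻¹ * (a • TS p x + b • TF p x)).trace = (p : ℝ) * a / A + ((n : ℝ) - p) * b / B := by
  obtain ⟨S', F', E, e1, e2, e3, e4, e5, e6, e7, e8, e9, e10, e11⟩ := cyl_facts p hp x hx
  rw [Matrix.inv_eq_right_inv (cyl_inv A B hA hB _ _ S' F' E e1 e2 e3 e4)]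
  simp only [mul_add, add_mul, smul_mul_assoc, mul_smul_comm, e5, e6, e7, e8, smul_smul, smul_zero,
    add_zero, zero_add, Matrix.trace_add, Matrix.trace_smul, Matrix.trace_sub, e11,
    Matrix.trace_one, Fintype.card_fin, smul_eq_mul]
  field_simp

theorem cyl_mul {n : ℕ} (p : ℕ) (hp : p + 1 ≤ n) (A B a b c d : ℝ) (hA : A ≠ 0) (hB : B ≠ 0) (x : Eu n)
    (hx : rr p x ≠ 0) :
    (a • TS p x + b • TF p x) * (A • TS p x + B • TF p x)⁻¹ * (c • TS p x + d • TF p x) =
      (a * c / A) • TS p x + (b * d / B) • TF p x := by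
  obtain ⟨S', F', E, e1, e2, e3, e4, e5, e6, e7, e8, e9, e10, e11⟩ := cyl_facts p hp x hx
  rw [Matrix.inv_eq_right_inv (cyl_inv A B hA hB _ _ S' F' E e1 e2 e3 e4)]
  simp only [mul_add, add_mul, smul_mul_assoc, mul_smul_comm, e1, e2, e3, e4, smul_smul, smul_zero,
    add_zero, zero_add, sub_mul, one_mul, e9, e10, sub_zero, sub_self]
  match_scalars <;> field_simp

end Pool.Agent.QTot.C2
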