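import Pool.Agent.QTot.Base2
import Pool.Agent.QTot.C1
import Pool.Agent.QTot.C2

set_option autoImplicit false
open scoped ContDiff Manifold Topology Matrix
open MeasureTheory Filter Set

namespace Pool.Agent.QTot.C3
open Pool.Agent.QTot
open Pool.Agent.QTot.C1 (ric_cyl)
open Pool.Agent.QTot.C2 (cyl_det cyl_trace cyl_mul)







/-! ## TARGET (prove this) -/

theorem C3_dr_cyl {n : ℕ} (p : ℕ) {A B : ℝ → ℝ} (hA : ContDiff ℝ ∞ A) (hB : ContDiff ℝ ∞ B)
    {P : ℝ → Eu n → Mt n} (hP : ∀ r x, rr p x ≠ 0 → P r x = A r • TS p x + B r • TF p x)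
    (r : ℝ) (x : Eu n) (hx : rr p x ≠ 0) :
    dr P r x = deriv A r • TS p x + deriv B r • TF p x := by
  have hAd : Differentiable ℝ A := hA.differentiable (by simp)
  have hBd : Differentiable ℝ B := hB.differentiable (by simp)
  ext i j
  have e : (fun s => P s x i j) = fun s => A s * TS p x i j + B s * TF p x i j := by
    funext s
    rw [hP s x hx]
    simp [Matrix.add_apply, Matrix.smul_apply]
  show deriv (fun s => P s x i j) r = _
  rw [e]
  have h1 : HasDerivAt (fun s => A s * TS p x i j + B s * TF p x i j)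
      (deriv A r * TS p x i j + deriv B r * TF p x i j) r :=
    ((hAd r).hasDerivAt.mul_const _).add ((hBd r).hasDerivAt.mul_const _)
  rw [h1.deriv]
  simp [Matrix.add_apply, Matrix.smul_apply]

theorem C3_pd_congr {n : ℕ} (i : Fin n) {f g : Eu n → ℝ} {x : Eu n} (h : f =ᶠ[𝓝 x] g) :
    pd i f x = pd i g x := by
  unfold pd
  rw [h.fderiv_eq]

theorem C3_Gam_congr {n : ℕ} {G H : Eu n → Mt n} {x : Eu n} (h : G =ᶠ[𝓝 x] H) (k i j : Fin n) :
    Gam G k i j x = Gam H k i j x := by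
  unfold Gam
  have h0 : G x = H x := h.eq_of_nhds
  have h1 : ∀ a b c : Fin n, pd a (fun y => G y b c) x = pd a (fun y => H y b c) x := by
    intro a b c
    apply C3_pd_congr
    filter_upwards [h] with y hy
    rw [hy]
  simp only [h0, h1]

theorem C3_Ric_congr {n : ℕ} {G H : Eu n → Mt n} {x : Eu n} (h : G =ᶠ[𝓝 x] H) :
    Ric G x = Ric H x := by
  have h1 : ∀ k i j : Fin n, Gam G k i j =ᶠ[𝓝 x] Gam H k i j := by
    intro k i j
    filter_upwards [h.eventuallyEq_nhds] with y hy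
    exact C3_Gam_congr hy k i j
  have h2 : ∀ a k i j : Fin n, pd a (Gam G k i j) x = pd a (Gam H k i j) x := fun a k i j =>
    C3_pd_congr a (h1 k i j)
  have h3 : ∀ k i j : Fin n, Gam G k i j x = Gam H k i j x := fun k i j => C3_Gam_congr h k i j
  unfold Ric
  simp only [h2, h3]

theorem C3_rr_cont {n : ℕ} (p : ℕ) : Continuous (rr p : Eu n → ℝ) := by
  unfold rr
  refine continuous_finset_sum _ fun i _ => ?_
  split_ifs
  · exact (continuous_apply i).pow 2
  · exact continuous_const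

/- Idea: `dr P r x = A' TS + B' TF` etc. (all `r`); `Ric (P r) x` only depends on `P r` near `x` and `{rr p ≠ 0}` is
open; then `cyl_trace`, `cyl_mul`, `ric_cyl`. -/
theorem tau_cyl {n : ℕ} (p : ℕ) (hp : p + 1 ≤ n) {A B : ℝ → ℝ} (hA : ContDiff ℝ ∞ A) (hB : ContDiff ℝ ∞ B)
    {P : ℝ → Eu n → Mt n} (hP : ∀ r x, rr p x ≠ 0 → P r x = A r • TS p x + B r • TF p x)
    (r : ℝ) (x : Eu n) (hx : rr p x ≠ 0) (hAr : A r ≠ 0) (hBr : B r ≠ 0) :
    tau P r x = tauS p n A B r := by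
  unfold tau tauS
  rw [C3_dr_cyl p hA hB hP r x hx, hP r x hx, cyl_trace p hp _ _ _ _ hAr hBr x hx]

theorem efg_cyl {n : ℕ} (p : ℕ) (hp : p + 1 ≤ n) {A B : ℝ → ℝ} (hA : ContDiff ℝ ∞ A) (hB : ContDiff ℝ ∞ B)
    {P : ℝ → Eu n → Mt n} (hP : ∀ r x, rr p x ≠ 0 → P r x = A r • TS p x + B r • TF p x)
    (r : ℝ) (x : Eu n) (hx : rr p x ≠ 0) (hAr : A r ≠ 0) (hBr : B r ≠ 0) :
    EFG P r x = eS p n (p - 1) A B A r • TS p x + eS p n 0 A B B r • TF p x := by
  have hA' : ContDiff ℝ ∞ (deriv A) := (contDiff_infty_iff_deriv.1 hA).2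
  have hB' : ContDiff ℝ ∞ (deriv B) := (contDiff_infty_iff_deriv.1 hB).2
  have hdr : ∀ r x, rr p x ≠ 0 → dr P r x = deriv A r • TS p x + deriv B r • TF p x :=
    fun r x hx => C3_dr_cyl p hA hB hP r x hx
  have hddr : dr (dr P) r x = deriv (deriv A) r • TS p x + deriv (deriv B) r • TF p x :=
    C3_dr_cyl p hA' hB' hdr r x hx
  have hric : Ric (P r) x = ((p : ℝ) - 1) • TS p x := by
    rw [← ric_cyl p hp (A r) (B r) hAr hBr x hx]
    apply C3_Ric_congr
    have hop : {y : Eu n | rr p y ≠ 0} ∈ 𝓝 x :=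
      (isOpen_ne_fun (C3_rr_cont p) continuous_const).mem_nhds hx
    filter_upwards [hop] with y hy
    exact hP r y hy
  have htau := tau_cyl p hp hA hB hP r x hx hAr hBr
  have hmul : dr P r x * (P r x)⁻¹ * dr P r x = (deriv A r * deriv A r / A r) • TS p x +
      (deriv B r * deriv B r / B r) • TF p x := by
    rw [hdr r x hx, hP r x hx]
    exact cyl_mul p hp _ _ _ _ _ _ hAr hBr x hx
  unfold EFG
  rw [hmul, hddr, htau, hric, hdr r x hx, hP r x hx]
  unfold eS
  ext i j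
  simp only [Matrix.add_apply, Matrix.sub_apply, Matrix.smul_apply, smul_eq_mul]
  ring

end Pool.Agent.QTot.C3
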