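import Pool.Agent.QTot.Base2
import Pool.Agent.QTot.C2
import Pool.Agent.QTot.C3

set_option autoImplicit false
open scoped ContDiff Manifold Topology Matrix
open MeasureTheory Filter Set

namespace Pool.Agent.QTot.C4
open Pool.Agent.QTot
open Pool.Agent.QTot.C2 (cyl_det cyl_trace cyl_mul)
open Pool.Agent.QTot.C3 (tau_cyl efg_cyl)








/-! ## TARGET (prove this) -/

/- Idea: induction on `k`.  `cf k` of `EFG (amb ..) r x` (entries) only depends on `r` near `0`, where `A r, B r ≠ 0`;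
`cf k` is additive for functions smooth near `0` and commutes with constants; `trace ((TS + TF)⁻¹ (a TS + b TF)) = p a + (n - p) b`. -/
theorem solS_smooth (p n : ℝ) (h k : ℕ) :
    ContDiff ℝ ∞ (solS p n h k).1 ∧ ContDiff ℝ ∞ (solS p n h k).2 ∧ (solS p n h k).1 0 = 1 ∧ (solS p n h k).2 0 = 1 := by
  induction k with
  | zero => exact ⟨contDiff_const, contDiff_const, rfl, rfl⟩
  | succ k ih =>
    obtain ⟨h1, h2, h3, h4⟩ := ih
    refine ⟨?_, ?_, ?_, ?_⟩
    · exact h1.add ((contDiff_id.pow (k + 1)).mul contDiff_const)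
    · exact h2.add ((contDiff_id.pow (k + 1)).mul contDiff_const)
    · show (solS p n h k).1 0 + 0 ^ (k + 1) * _ = 1
      rw [h3, zero_pow (Nat.succ_ne_zero k), zero_mul, add_zero]
    · show (solS p n h k).2 0 + 0 ^ (k + 1) * _ = 1
      rw [h4, zero_pow (Nat.succ_ne_zero k), zero_mul, add_zero]

lemma cf_congrC4 {f g : ℝ → ℝ} (h : f =ᶠ[𝓝 0] g) (k : ℕ) : cf k f = cf k g := by
  unfold cf
  rw [(h.iteratedDeriv k).eq_of_nhds]

lemma cf_linC4 (k : ℕ) {a b : ℝ → ℝ} (ha : ContDiffAt ℝ ∞ a 0) (hb : ContDiffAt ℝ ∞ b 0)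
    (s t : ℝ) : cf k (fun r => a r * s + b r * t) = cf k a * s + cf k b * t := by
  unfold cf
  have ha' : ContDiffAt ℝ k (fun r => s * a r) 0 :=
    (contDiffAt_const.mul ha).of_le (by exact_mod_cast le_top)
  have hb' : ContDiffAt ℝ k (fun r => t * b r) 0 :=
    (contDiffAt_const.mul hb).of_le (by exact_mod_cast le_top)
  have e : (fun r => a r * s + b r * t) = fun r => s * a r + t * b r := by
    funext r; ring
  rw [e, iteratedDeriv_fun_add ha' hb', iteratedDeriv_const_mul_field,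
    iteratedDeriv_const_mul_field]
  ring

lemma eS_smoothC4 (p n s : ℝ) {A B X : ℝ → ℝ} (hA : ContDiff ℝ ∞ A) (hB : ContDiff ℝ ∞ B)
    (hX : ContDiff ℝ ∞ X) (hA0 : A 0 ≠ 0) (hB0 : B 0 ≠ 0) (hX0 : X 0 ≠ 0) :
    ContDiffAt ℝ ∞ (eS p n s A B X) 0 := by
  have dA : ContDiffAt ℝ ∞ (deriv A) 0 := (contDiff_infty_iff_deriv.1 hA).2.contDiffAt
  have dB : ContDiffAt ℝ ∞ (deriv B) 0 := (contDiff_infty_iff_deriv.1 hB).2.contDiffAt
  have dX : ContDiff ℝ ∞ (deriv X) := (contDiff_infty_iff_deriv.1 hX).2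
  have ddX : ContDiffAt ℝ ∞ (deriv (deriv X)) 0 := (contDiff_infty_iff_deriv.1 dX).2.contDiffAt
  have dX' := dX.contDiffAt (x := 0)
  have hX' := hX.contDiffAt (x := 0)
  have ht : ContDiffAt ℝ ∞ (tauS p n A B) 0 := by
    unfold tauS
    exact ((contDiffAt_const.mul dA).div hA.contDiffAt hA0).add
      ((contDiffAt_const.mul dB).div hB.contDiffAt hB0)
  have hid : ContDiffAt ℝ ∞ (fun r : ℝ => r) 0 := contDiffAt_id
  unfold eS
  exact (((((hid.mul ddX).sub (hid.mul ((dX'.mul dX').div hX' hX0))).add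
    (((hid.mul ht).div_const 2).mul dX')).sub (contDiffAt_const.mul dX')).sub
    ((ht.div_const 2).mul hX')).add contDiffAt_const

lemma res_cylC4 {n : ℕ} (p : ℕ) (hp : p + 1 ≤ n) {A B : ℝ → ℝ} (hA : ContDiff ℝ ∞ A)
    (hB : ContDiff ℝ ∞ B) (hA0 : A 0 = 1) (hB0 : B 0 = 1)
    {P : ℝ → Eu n → Mt n} (hP : ∀ r x, rr p x ≠ 0 → P r x = A r • TS p x + B r • TF p x)
    (k : ℕ) (x : Eu n) (hx : rr p x ≠ 0) :
    res P k x = cf k (eS p n (p - 1) A B A) • TS p x + cf k (eS p n 0 A B B) • TF p x := by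
  have hA0' : A 0 ≠ 0 := by rw [hA0]; exact one_ne_zero
  have hB0' : B 0 ≠ 0 := by rw [hB0]; exact one_ne_zero
  have hev : ∀ᶠ r in 𝓝 (0 : ℝ), A r ≠ 0 ∧ B r ≠ 0 :=
    (hA.continuous.continuousAt.eventually_ne hA0').and
      (hB.continuous.continuousAt.eventually_ne hB0')
  ext i j
  have h1 : res P k x i j = cf k (fun r => EFG P r x i j) := rfl
  rw [h1]
  have h2 : (fun r => EFG P r x i j) =ᶠ[𝓝 0]
      fun r => eS p n (p - 1) A B A r * TS p x i j + eS p n 0 A B B r * TF p x i j := by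
    filter_upwards [hev] with r hr
    rw [efg_cyl p hp hA hB hP r x hx hr.1 hr.2]
    rfl
  rw [cf_congrC4 h2, cf_linC4 k (eS_smoothC4 p n (p - 1) hA hB hA hA0' hB0' hA0')
    (eS_smoothC4 p n 0 hA hB hB hA0' hB0' hB0')]
  rfl

lemma nxt_cylC4 {n : ℕ} (p : ℕ) (hp : p + 1 ≤ n) {A B : ℝ → ℝ} (hA : ContDiff ℝ ∞ A)
    (hB : ContDiff ℝ ∞ B) (hA0 : A 0 = 1) (hB0 : B 0 = 1)
    {P : ℝ → Eu n → Mt n} (hP : ∀ r x, rr p x ≠ 0 → P r x = A r • TS p x + B r • TF p x)
    (k : ℕ) (x : Eu n) (hx : rr p x ≠ 0) :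
    nxt (fun y => TS p y + TF p y) P k x =
      (stepS p n (n / 2) A B k).1 • TS p x + (stepS p n (n / 2) A B k).2 • TF p x := by
  have h1 := res_cylC4 p hp hA hB hA0 hB0 hP k x hx
  obtain ⟨a, ha⟩ : ∃ a, a = cf k (eS p n (p - 1) A B A) := ⟨_, rfl⟩
  obtain ⟨b, hb⟩ : ∃ b, b = cf k (eS p n 0 A B B) := ⟨_, rfl⟩
  rw [← ha, ← hb] at h1
  have h2 : ((TS p x + TF p x)⁻¹ * (a • TS p x + b • TF p x)).trace =
      (p : ℝ) * a + ((n : ℝ) - p) * b := by
    have := cyl_trace p hp 1 1 a b one_ne_zero one_ne_zero x hx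
    rw [one_smul, one_smul, div_one, div_one] at this
    exact this
  unfold nxt stepS
  simp only
  rw [h1, h2, ← ha, ← hb]
  split_ifs with hk
  · ext i j
    simp only [Matrix.smul_apply, Matrix.add_apply, Matrix.sub_apply, smul_eq_mul]
    ring
  · ext i j
    simp only [Matrix.smul_apply, Matrix.add_apply, smul_eq_mul]
    ring

theorem amb_cyl {n : ℕ} (p : ℕ) (hp : p + 1 ≤ n) (k : ℕ) :
    ∀ (r : ℝ) (x : Eu n), rr p x ≠ 0 → amb (fun y => TS p y + TF p y) k r x =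
      (solS p n (n / 2) k).1 r • TS p x + (solS p n (n / 2) k).2 r • TF p x := by
  induction k with
  | zero =>
    intro r x _
    show TS p x + TF p x = (1 : ℝ) • TS p x + (1 : ℝ) • TF p x
    rw [one_smul, one_smul]
  | succ k ih =>
    intro r x hx
    obtain ⟨h1, h2, h3, h4⟩ := solS_smooth p n (n / 2) k
    have h5 := nxt_cylC4 p hp h1 h2 h3 h4 ih k x hx
    show amb (fun y => TS p y + TF p y) k r x +
      r ^ (k + 1) • nxt (fun y => TS p y + TF p y) (amb (fun y => TS p y + TF p y) k) k x = _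
    rw [h5, ih r x hx]
    show _ = ((solS p n (n / 2) k).1 r + r ^ (k + 1) *
      (stepS p n (n / 2) (solS p n (n / 2) k).1 (solS p n (n / 2) k).2 k).1) • TS p x +
      ((solS p n (n / 2) k).2 r + r ^ (k + 1) *
      (stepS p n (n / 2) (solS p n (n / 2) k).1 (solS p n (n / 2) k).2 k).2) • TF p x
    ext i j
    simp only [Matrix.smul_apply, Matrix.add_apply, smul_eq_mul]
    ring

end Pool.Agent.QTot.C4
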