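import Pool.Agent.QTot.Base2
import Pool.Agent.QTot.C3

set_option autoImplicit false
open scoped ContDiff Manifold Topology Matrix
open MeasureTheory Filter Set

namespace Pool.Agent.QTot.C5
open Pool.Agent.QTot
open Pool.Agent.QTot.C3 (tau_cyl efg_cyl)





/-! ## TARGET (prove this) -/

/- Idea: induction on `k`; the functions are locally constant in `x` on the open set `{rr p ≠ 0}`, so their Laplacian
vanishes; derivatives in `r` only need `r` near the given one. -/
theorem pd_const_ev {n : ℕ} {f : Eu n → ℝ} {c : ℝ} {x : Eu n} (h : f =ᶠ[𝓝 x] fun _ => c)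
    (i : Fin n) : pd i f x = 0 := by
  unfold pd
  rw [h.fderiv_eq]
  simp

theorem Lap_const_ev {n : ℕ} (G : Eu n → Mt n) {f : Eu n → ℝ} {c : ℝ} {x : Eu n}
    (h : f =ᶠ[𝓝 x] fun _ => c) : Lap G f x = 0 := by
  unfold Lap
  have h1 : ∀ i, pd i f x = 0 := fun i => pd_const_ev h i
  have h2 : ∀ i j, pd i (pd j f) x = 0 := by
    intro i j
    refine pd_const_ev (c := 0) ?_ i
    have := h.eventuallyEq_nhds
    filter_upwards [this] with y hy
    exact pd_const_ev hy j
  simp [h1, h2]

theorem continuous_rr {n : ℕ} (p : ℕ) : Continuous (fun x : Eu n => rr p x) := by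
  unfold rr
  refine continuous_finset_sum _ fun i _ => ?_
  split_ifs
  · fun_prop
  · exact continuous_const

theorem uu_cyl {n : ℕ} (p : ℕ) (hp : p + 1 ≤ n) {A B : ℝ → ℝ} (hA : ContDiff ℝ ∞ A) (hB : ContDiff ℝ ∞ B)
    {P : ℝ → Eu n → Mt n} (hP : ∀ r x, rr p x ≠ 0 → P r x = A r • TS p x + B r • TF p x) (k : ℕ) :
    ∀ (r : ℝ) (x : Eu n), rr p x ≠ 0 → A r ≠ 0 → B r ≠ 0 → uu P k r x = uS p n A B k r := by
  induction k with
  | zero =>
    intro r x hx hAr hBr
    simp only [uu, uS]
    rw [tau_cyl p hp hA hB hP r x hx hAr hBr]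
  | succ k ih =>
    intro r x hx hAr hBr
    simp only [uu, uS]
    unfold Dw DwS
    rw [tau_cyl p hp hA hB hP r x hx hAr hBr]
    have hev : (fun s => uu P k s x) =ᶠ[𝓝 r] uS p n A B k := by
      filter_upwards [hA.continuous.continuousAt.eventually_ne hAr,
        hB.continuous.continuousAt.eventually_ne hBr] with s h1 h2
      exact ih s x hx h1 h2
    have hL : Lap (P r) (uu P k r) x = 0 := by
      refine Lap_const_ev (P r) (c := uS p n A B k r) ?_
      filter_upwards [(continuous_rr p).continuousAt.eventually_ne hx] with y hy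
      exact ih r y hy hAr hBr
    rw [hL, hev.deriv_eq, hev.deriv.deriv_eq, ih r x hx hAr hBr]
    ring

end Pool.Agent.QTot.C5
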