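import Pool.Agent.QTot.Base2

set_option autoImplicit false
open scoped ContDiff Manifold Topology Matrix
open MeasureTheory Filter Set

namespace Pool.Agent.QTot.K1
open Pool.Agent.QTot


/-! ## TARGET (prove this) -/

/- Calculus of the Taylor coefficients `cf k f = iteratedDeriv k f 0 / k!`. -/
theorem cf_congr {f g : ℝ → ℝ} (h : f =ᶠ[𝓝 0] g) (k : ℕ) : cf k f = cf k g := by
  unfold cf
  rw [h.iteratedDeriv_eq k]

theorem cf_add {f g : ℝ → ℝ} (hf : ContDiffAt ℝ ∞ f 0) (hg : ContDiffAt ℝ ∞ g 0) (k : ℕ) :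
    cf k (fun r => f r + g r) = cf k f + cf k g := by
  unfold cf
  rw [iteratedDeriv_fun_add (hf.of_le (by exact_mod_cast le_top))
    (hg.of_le (by exact_mod_cast le_top)), add_div]

theorem cf_const_mul (c : ℝ) (f : ℝ → ℝ) (k : ℕ) : cf k (fun r => c * f r) = c * cf k f := by
  unfold cf
  rw [iteratedDeriv_const_mul_field, mul_div_assoc]

theorem cf_mul {f g : ℝ → ℝ} (hf : ContDiffAt ℝ ∞ f 0) (hg : ContDiffAt ℝ ∞ g 0) (k : ℕ) :
    cf k (fun r => f r * g r) = ∑ j ∈ Finset.range (k + 1), cf j f * cf (k - j) g := by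
  unfold cf
  rw [iteratedDeriv_fun_mul (hf.of_le (by exact_mod_cast le_top))
    (hg.of_le (by exact_mod_cast le_top)), Finset.sum_div]
  apply Finset.sum_congr rfl
  intro j hj
  rw [Finset.mem_range] at hj
  have hjk : j ≤ k := by omega
  have h1 : (k.choose j : ℝ) * (j.factorial : ℝ) * ((k - j).factorial : ℝ) =
      (k.factorial : ℝ) := by
    exact_mod_cast Nat.choose_mul_factorial_mul_factorial hjk
  have h2 : (j.factorial : ℝ) ≠ 0 := by positivity
  have h3 : ((k - j).factorial : ℝ) ≠ 0 := by positivity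
  have h4 : (k.factorial : ℝ) ≠ 0 := by positivity
  rw [div_mul_div_comm, div_eq_div_iff h4 (mul_ne_zero h2 h3), ← h1]
  ring

theorem cf_deriv {f : ℝ → ℝ} (k : ℕ) : cf k (deriv f) = ((k : ℝ) + 1) * cf (k + 1) f := by
  unfold cf
  rw [iteratedDeriv_succ', Nat.factorial_succ]
  have h1 : (k.factorial : ℝ) ≠ 0 := by positivity
  have h2 : (k : ℝ) + 1 ≠ 0 := by positivity
  push_cast
  field_simp

theorem cf_zero' (f : ℝ → ℝ) : cf 0 f = f 0 := by
  unfold cf
  rw [iteratedDeriv_zero, Nat.factorial_zero, Nat.cast_one, div_one]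

theorem cf_r_mul_zero (f : ℝ → ℝ) : cf 0 (fun r => r * f r) = 0 := by
  rw [cf_zero', zero_mul]

theorem cf_r_mul {f : ℝ → ℝ} (hf : ContDiffAt ℝ ∞ f 0) (k : ℕ) : cf (k + 1) (fun r => r * f r) = cf k f := by
  rw [cf_mul (f := fun r => r) contDiffAt_id hf]
  have h1 : ∀ j : ℕ, cf j (fun r : ℝ => r) = if j = 1 then 1 else 0 := by
    intro j
    unfold cf
    rw [iteratedDeriv_fun_id_zero]
    split_ifs with h
    · subst h
      simp
    · simp
  rw [Finset.sum_eq_single 1]
  · rw [h1, if_pos rfl, one_mul, Nat.add_sub_cancel]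
  · intro j _ hj
    rw [h1, if_neg hj, zero_mul]
  · intro h
    exact absurd (Finset.mem_range.2 (by omega)) h

theorem cf_zero (f : ℝ → ℝ) : cf 0 f = f 0 := cf_zero' f

theorem cf_const (c : ℝ) (k : ℕ) : cf k (fun _ => c) = if k = 0 then c else 0 := by
  unfold cf
  rw [iteratedDeriv_const]
  split_ifs with h
  · subst h
    simp
  · simp

theorem cf_pow (j k : ℕ) : cf k (fun r => r ^ j) = if k = j then 1 else 0 := by
  unfold cf
  rw [iteratedDeriv_fun_pow_zero]
  split_ifs with h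
  · subst h
    have : (k.factorial : ℝ) ≠ 0 := by positivity
    exact div_self this
  · simp

end Pool.Agent.QTot.K1
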