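import Pool.Agent.QTot.Base2
import Pool.Agent.QTot.K1

set_option autoImplicit false
open scoped ContDiff Manifold Topology Matrix
open MeasureTheory Filter Set

namespace Pool.Agent.QTot.C6
open Pool.Agent.QTot
open Pool.Agent.QTot.K1 (cf_congr cf_add cf_const_mul cf_mul cf_deriv cf_r_mul_zero cf_r_mul cf_zero cf_const cf_pow)













/-! ## TARGET (prove this) -/


theorem chain_top : ((1 : WithTop ℕ∞) + 1) ≤ ∞ :=
  WithTop.coe_le_coe.2 (le_top : ((1 : ℕ∞) + 1) ≤ ⊤)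

theorem chain_top' : ((∞ : WithTop ℕ∞) + 1) ≤ ∞ := le_rfl

theorem chain_at {Ω : Set ℝ} (hΩ : IsOpen Ω) {f : ℝ → ℝ} (hf : ContDiffOn ℝ ∞ f Ω) {r : ℝ}
    (hr : r ∈ Ω) : ContDiffAt ℝ ∞ f r := hf.contDiffAt (hΩ.mem_nhds hr)

theorem chain_d {Ω : Set ℝ} (hΩ : IsOpen Ω) {f : ℝ → ℝ} (hf : ContDiffOn ℝ ∞ f Ω) :
    ContDiffOn ℝ ∞ (deriv f) Ω := hf.deriv_of_isOpen hΩ chain_top'

theorem chain_hd {Ω : Set ℝ} (hΩ : IsOpen Ω) {f : ℝ → ℝ} (hf : ContDiffOn ℝ ∞ f Ω) {r : ℝ}
    (hr : r ∈ Ω) : HasDerivAt f (deriv f r) r :=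
  ((chain_at hΩ hf hr).differentiableAt (by simp)).hasDerivAt

/-- the good set -/
def chain_Om (A B : ℝ → ℝ) : Set ℝ := {r | A r ≠ 0 ∧ B r ≠ 0}

theorem chain_open {A B : ℝ → ℝ} (hA : ContDiff ℝ ∞ A) (hB : ContDiff ℝ ∞ B) :
    IsOpen (chain_Om A B) :=
  (isOpen_ne_fun hA.continuous continuous_const).inter
    (isOpen_ne_fun hB.continuous continuous_const)

theorem chain_tau {A B : ℝ → ℝ} (hA : ContDiff ℝ ∞ A) (hB : ContDiff ℝ ∞ B) (p n : ℝ) :
    ContDiffOn ℝ ∞ (tauS p n A B) (chain_Om A B) := by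
  have hA' : ContDiffOn ℝ ∞ (deriv A) (chain_Om A B) := chain_d (chain_open hA hB) hA.contDiffOn
  have hB' : ContDiffOn ℝ ∞ (deriv B) (chain_Om A B) := chain_d (chain_open hA hB) hB.contDiffOn
  exact ((contDiffOn_const.mul hA').div hA.contDiffOn fun r hr => hr.1).add
    ((contDiffOn_const.mul hB').div hB.contDiffOn fun r hr => hr.2)

theorem chain_Dw {A B : ℝ → ℝ} (hA : ContDiff ℝ ∞ A) (hB : ContDiff ℝ ∞ B) (p n w : ℝ)
    {f : ℝ → ℝ} (hf : ContDiffOn ℝ ∞ f (chain_Om A B)) :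
    ContDiffOn ℝ ∞ (DwS p n A B w f) (chain_Om A B) := by
  have hΩ := chain_open hA hB
  have h1 := chain_d hΩ hf
  have h2 := chain_d hΩ h1
  have ht := chain_tau hA hB p n
  have hid : ContDiffOn ℝ ∞ (fun r : ℝ => r) (chain_Om A B) := contDiffOn_id
  exact (((contDiffOn_const.mul hid).mul h2).add
    ((contDiffOn_const.sub (hid.mul ht)).mul h1)).add ((contDiffOn_const.mul ht).mul hf)

theorem chain_uS {A B : ℝ → ℝ} (hA : ContDiff ℝ ∞ A) (hB : ContDiff ℝ ∞ B) (p n : ℝ) (k : ℕ) :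
    ContDiffOn ℝ ∞ (uS p n A B k) (chain_Om A B) := by
  induction k with
  | zero => exact (chain_tau hA hB p n).div_const 2
  | succ k ih => exact chain_Dw hA hB p n _ ih

/-- `v` -/
noncomputable def chain_v (a b : ℕ) (A B : ℝ → ℝ) (r : ℝ) : ℝ := A r ^ a * B r ^ b

theorem chain_v_smooth (a b : ℕ) {A B : ℝ → ℝ} (hA : ContDiff ℝ ∞ A) (hB : ContDiff ℝ ∞ B) :
    ContDiff ℝ ∞ (chain_v a b A B) := (hA.pow a).mul (hB.pow b)

theorem chain_v_tau (a b : ℕ) {A B : ℝ → ℝ} (hA : ContDiff ℝ ∞ A) (hB : ContDiff ℝ ∞ B) {r : ℝ}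
    (hr : r ∈ chain_Om A B) : chain_v a b A B r * tauS (2 * a) (2 * a + 2 * b) A B r =
      2 * deriv (chain_v a b A B) r := by
  have dA : HasDerivAt A (deriv A r) r := (hA.differentiable (by simp) r).hasDerivAt
  have dB : HasDerivAt B (deriv B r) r := (hB.differentiable (by simp) r).hasDerivAt
  have hv : HasDerivAt (chain_v a b A B) _ r := (dA.pow a).mul (dB.pow b)
  rw [hv.deriv]
  have e : ∀ (m : ℕ) (x : ℝ), x ≠ 0 → (m : ℝ) * x ^ (m - 1) = m * x ^ m / x := by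
    intro m x hx
    cases m with
    | zero => simp
    | succ m =>
      rw [Nat.add_sub_cancel, pow_succ]
      field_simp
  have e1 := e a (A r) hr.1
  have e2 := e b (B r) hr.2
  unfold chain_v tauS
  have h1 := hr.1
  have h2 := hr.2
  have e3 : (a : ℝ) * A r ^ (a - 1) * deriv A r * B r ^ b + A r ^ a * (b * B r ^ (b - 1) * deriv B r)
      = (a * A r ^ a / A r) * deriv A r * B r ^ b + A r ^ a * ((b * B r ^ b / B r) * deriv B r) := by
    rw [e1, e2]
  simp only [Pi.pow_apply]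
  rw [e3]
  field_simp
  ring

theorem chain_id (a b : ℕ) {A B : ℝ → ℝ} (hA : ContDiff ℝ ∞ A) (hB : ContDiff ℝ ∞ B) (w : ℝ)
    {f : ℝ → ℝ} (hf : ContDiffOn ℝ ∞ f (chain_Om A B)) {r : ℝ} (hr : r ∈ chain_Om A B) :
    chain_v a b A B r * DwS (2 * a) (2 * a + 2 * b) A B w f r =
      -2 * deriv (fun r => r * (chain_v a b A B r * deriv f r)) r +
      ((2 * w + (2 * a + 2 * b)) * (chain_v a b A B r * deriv f r) +
        w * (deriv (chain_v a b A B) r * f r)) := by
  have hΩ := chain_open hA hB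
  have hvt := chain_v_tau a b hA hB hr
  have dv : HasDerivAt (chain_v a b A B) (deriv (chain_v a b A B) r) r :=
    ((chain_v_smooth a b hA hB).differentiable (by simp) r).hasDerivAt
  have df1 := chain_hd hΩ (chain_d hΩ hf) hr
  have h1 : HasDerivAt (fun r => r * (chain_v a b A B r * deriv f r)) _ r :=
    (hasDerivAt_id r).mul (dv.mul df1)
  rw [h1.deriv]
  unfold DwS
  simp only [id, Pi.mul_apply]
  linear_combination (-r * deriv f r + w / 2 * f r) * hvt

theorem chain_step (a b : ℕ) {A B : ℝ → ℝ} (hA : ContDiff ℝ ∞ A) (hB : ContDiff ℝ ∞ B)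
    (hA0 : A 0 = 1) (hB0 : B 0 = 1) (j : ℕ) (w : ℝ)
    (hw : w = -2 * ((a : ℝ) + b - 1 - j)) {f : ℝ → ℝ} (hf : ContDiffOn ℝ ∞ f (chain_Om A B)) :
    cf j (fun r => chain_v a b A B r * DwS (2 * a) (2 * a + 2 * b) A B w f r) =
      w * (((j : ℝ) + 1) * cf (j + 1) (fun r => chain_v a b A B r * f r)) := by
  have hΩ := chain_open hA hB
  have h0 : (0 : ℝ) ∈ chain_Om A B := by
    constructor
    · rw [hA0]; exact one_ne_zero
    · rw [hB0]; exact one_ne_zero
  have hv := chain_v_smooth a b hA hB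
  have hvO : ContDiffOn ℝ ∞ (chain_v a b A B) (chain_Om A B) := hv.contDiffOn
  have hv' : ContDiffOn ℝ ∞ (deriv (chain_v a b A B)) (chain_Om A B) := chain_d hΩ hvO
  have hf' := chain_d hΩ hf
  have s1 : ContDiffOn ℝ ∞ (fun r => chain_v a b A B r * deriv f r) (chain_Om A B) := hvO.mul hf'
  have s2 : ContDiffOn ℝ ∞ (fun r => deriv (chain_v a b A B) r * f r) (chain_Om A B) := hv'.mul hf
  have hid : ContDiffOn ℝ ∞ (fun r : ℝ => r) (chain_Om A B) := contDiffOn_id
  have s3 : ContDiffOn ℝ ∞ (fun r => r * (chain_v a b A B r * deriv f r)) (chain_Om A B) :=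
    hid.mul s1
  have s4 := chain_d hΩ s3
  have e1 : (fun r => chain_v a b A B r * DwS (2 * a) (2 * a + 2 * b) A B w f r) =ᶠ[𝓝 0]
      fun r => -2 * deriv (fun r => r * (chain_v a b A B r * deriv f r)) r +
      ((2 * w + (2 * a + 2 * b)) * (chain_v a b A B r * deriv f r) +
        w * (deriv (chain_v a b A B) r * f r)) := by
    filter_upwards [hΩ.mem_nhds h0] with r hr using chain_id a b hA hB w hf hr
  rw [cf_congr e1]
  have c1 : ContDiffAt ℝ ∞ (fun r => -2 * deriv (fun r => r * (chain_v a b A B r * deriv f r)) r) 0 :=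
    contDiffAt_const.mul (chain_at hΩ s4 h0)
  have c2 : ContDiffAt ℝ ∞ (fun r => (2 * w + (2 * a + 2 * b)) * (chain_v a b A B r * deriv f r)) 0 :=
    contDiffAt_const.mul (chain_at hΩ s1 h0)
  have c3 : ContDiffAt ℝ ∞ (fun r => w * (deriv (chain_v a b A B) r * f r)) 0 :=
    contDiffAt_const.mul (chain_at hΩ s2 h0)
  rw [cf_add c1 (c2.add c3), cf_add c2 c3, cf_const_mul, cf_const_mul, cf_const_mul,
    cf_deriv, cf_r_mul (chain_at hΩ s1 h0)]
  have e2 : (fun r => chain_v a b A B r * deriv f r + deriv (chain_v a b A B) r * f r) =ᶠ[𝓝 0]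
      deriv (fun r => chain_v a b A B r * f r) := by
    filter_upwards [hΩ.mem_nhds h0] with r hr
    have h1 : HasDerivAt (fun r => chain_v a b A B r * f r) _ r :=
      (chain_hd hΩ hvO hr).mul (chain_hd hΩ hf hr)
    rw [h1.deriv]
    ring
  have e3 := cf_congr e2 j
  rw [cf_add (chain_at hΩ s1 h0) (chain_at hΩ s2 h0), cf_deriv] at e3
  rw [← e3, hw]
  ring

theorem chain_main (a b : ℕ) {A B : ℝ → ℝ} (hA : ContDiff ℝ ∞ A) (hB : ContDiff ℝ ∞ B)
    (hA0 : A 0 = 1) (hB0 : B 0 = 1) (i : ℕ) (hi : i + 1 ≤ a + b) :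
    cf (a + b - 1 - i) (fun r => chain_v a b A B r * uS (2 * a) (2 * a + 2 * b) A B i r) *
      ((a + b - 1 - i).factorial : ℝ) =
    (-2) ^ i * (i.factorial : ℝ) * ((a + b).factorial : ℝ) * cf (a + b) (chain_v a b A B) := by
  have hΩ := chain_open hA hB
  have h0 : (0 : ℝ) ∈ chain_Om A B := by
    constructor
    · rw [hA0]; exact one_ne_zero
    · rw [hB0]; exact one_ne_zero
  induction i with
  | zero =>
    have e1 : (fun r => chain_v a b A B r * uS (2 * a) (2 * a + 2 * b) A B 0 r) =ᶠ[𝓝 0]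
        deriv (chain_v a b A B) := by
      filter_upwards [hΩ.mem_nhds h0] with r hr
      have := chain_v_tau a b hA hB hr
      show chain_v a b A B r * (tauS (2 * a) (2 * a + 2 * b) A B r / 2) = _
      linear_combination (1 / 2) * this
    rw [cf_congr e1, cf_deriv]
    obtain ⟨m, hm⟩ : ∃ m, a + b = m + 1 := ⟨a + b - 1, by omega⟩
    rw [hm, Nat.add_sub_cancel, Nat.sub_zero, Nat.factorial_succ]
    push_cast
    simp
    ring
  | succ i ih =>
    have ih' := ih (by omega)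
    have hstep := chain_step a b hA hB hA0 hB0 (a + b - 1 - (i + 1)) (-2 * ((i : ℝ) + 1)) (by
      have : a + b - 1 - (i + 1) + (i + 1) + 1 = a + b := by omega
      have h2 : ((a + b - 1 - (i + 1) : ℕ) : ℝ) + (i + 1) + 1 = a + b := by exact_mod_cast this
      linear_combination -2 * h2) (chain_uS hA hB (2 * a) (2 * a + 2 * b) i)
    have e0 : (fun r => chain_v a b A B r * uS (2 * a) (2 * a + 2 * b) A B (i + 1) r) =
        fun r => chain_v a b A B r * DwS (2 * a) (2 * a + 2 * b) A B (-2 * ((i : ℝ) + 1))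
          (uS (2 * a) (2 * a + 2 * b) A B i) r := rfl
    rw [e0, hstep]
    have e1 : a + b - 1 - (i + 1) + 1 = a + b - 1 - i := by omega
    have e2 : ((a + b - 1 - i).factorial : ℝ) = (((a + b - 1 - (i + 1) : ℕ) : ℝ) + 1) *
        ((a + b - 1 - (i + 1)).factorial : ℝ) := by
      rw [← e1, Nat.factorial_succ]
      push_cast
      rfl
    rw [e2] at ih'
    rw [e1, pow_succ, Nat.factorial_succ]
    push_cast
    linear_combination (-2 * ((i : ℝ) + 1)) * ih'

/- Idea: let `h = a + b`, `n = 2h`, `v = A^a B^b`, so `v' / v = tauS / 2 = uS 0` near `0` and `v * uS 0 = v'`.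
For `w` real and `f` smooth near `0`: `v * DwS w f = -2 (r v f')' + (2w + n) v f' + w v' f` near `0`, so
`cf j (v * DwS w f) * j! = (-2(j+1) + 2w + n) cf j (v f') j! + w cf j (v' f) j!`, and for `w = -2(h-1-j)` one has
`2w + n - 2(j+1) = w`, so `cf j (v * DwS w f) * j! = w * cf (j+1) (v * f) * (j+1)!`.  Hence
`cf (h-1-i) (v * uS i) * (h-1-i)! = (-2 i) * cf (h-i) (v * uS (i-1)) * (h-i)!` for `1 ≤ i ≤ h-1`; iterate, and
`cf (h-1) (v * uS 0) * (h-1)! = cf h v * h!`, `v 0 = 1`.  All functions are smooth near `0` because `A, B ≠ 0` there. -/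
theorem chain (a b : ℕ) (hab : 1 ≤ a + b) {A B : ℝ → ℝ} (hA : ContDiff ℝ ∞ A) (hB : ContDiff ℝ ∞ B)
    (hA0 : A 0 = 1) (hB0 : B 0 = 1) :
    uS (2 * a) (2 * a + 2 * b) A B (a + b - 1) 0 =
      (-2) ^ (a + b - 1) * ((a + b - 1).factorial : ℝ) * ((a + b).factorial : ℝ) *
        cf (a + b) (fun r => A r ^ a * B r ^ b) := by
  have h := chain_main a b hA hB hA0 hB0 (a + b - 1) (by omega)
  rw [Nat.sub_self, cf_zero, Nat.factorial_zero] at h
  have hv0 : chain_v a b A B 0 = 1 := by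
    unfold chain_v
    rw [hA0, hB0, one_pow, one_pow, one_mul]
  rw [hv0, one_mul, Nat.cast_one, mul_one] at h
  exact h

end Pool.Agent.QTot.C6
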