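import Pool.Agent.QTot.Base2
import Pool.Agent.QTot.K1
import Pool.Agent.QTot.C4

set_option autoImplicit false
open scoped ContDiff Manifold Topology Matrix
open MeasureTheory Filter Set

namespace Pool.Agent.QTot.C7
open Pool.Agent.QTot
open Pool.Agent.QTot.K1 (cf_congr cf_add cf_const_mul cf_mul cf_deriv cf_r_mul_zero cf_r_mul cf_zero cf_const cf_pow)
open Pool.Agent.QTot.C4 (solS_smooth)














theorem cf_rpow_mul {w : ℝ → ℝ} (hw : ContDiffAt ℝ ∞ w 0) (k j : ℕ) (hj : j ≤ k) :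
    cf j (fun r => r ^ k * w r) = if j = k then w 0 else 0 := by
  have h1 : ContDiffAt ℝ ∞ (fun r : ℝ => r ^ k) 0 := contDiffAt_id.pow k
  rw [cf_mul h1 hw]
  have h2 : ∀ i ∈ Finset.range (j + 1), cf i (fun r : ℝ => r ^ k) * cf (j - i) w =
      if i = k then cf (j - i) w else 0 := by
    intro i _
    rw [cf_pow]
    split_ifs <;> simp
  rw [Finset.sum_congr rfl h2]
  by_cases h : j = k
  · subst h
    rw [Finset.sum_ite_eq' (Finset.range (j + 1)) j (fun i => cf (j - i) w)]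
    simp [cf_zero]
  · rw [if_neg h]
    apply Finset.sum_eq_zero
    intro i hi
    rw [if_neg]
    rw [Finset.mem_range] at hi
    omega

theorem smooth_deriv {f : ℝ → ℝ} (hf : ContDiff ℝ ∞ f) : ContDiff ℝ ∞ (deriv f) :=
  (contDiff_infty_iff_deriv.1 hf).2

theorem deriv_step {X : ℝ → ℝ} (hX : ContDiff ℝ ∞ X) (k : ℕ) (ξ : ℝ) :
    deriv (fun r => X r + r ^ (k + 1) * ξ) = fun r => deriv X r + ((k : ℝ) + 1) * r ^ k * ξ := by
  funext r
  have h1 : DifferentiableAt ℝ X r := (hX.differentiable (by simp)) r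
  have h2 : HasDerivAt (fun r : ℝ => r ^ (k + 1) * ξ) (((k : ℝ) + 1) * r ^ k * ξ) r := by
    have := (hasDerivAt_pow (k + 1) r).mul_const ξ
    simpa using this
  exact (h1.hasDerivAt.add h2).deriv

theorem deriv2_step {X : ℝ → ℝ} (hX : ContDiff ℝ ∞ X) (k : ℕ) (ξ : ℝ) (r : ℝ) :
    r * deriv (deriv (fun r => X r + r ^ (k + 1) * ξ)) r =
      r * deriv (deriv X) r + r ^ k * (((k : ℝ) + 1) * k * ξ) := by
  rw [deriv_step hX]
  have h1 : DifferentiableAt ℝ (deriv X) r := ((smooth_deriv hX).differentiable (by simp)) r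
  have h2 : HasDerivAt (fun r : ℝ => ((k : ℝ) + 1) * r ^ k * ξ)
      (((k : ℝ) + 1) * (k * r ^ (k - 1)) * ξ) r :=
    ((hasDerivAt_pow k r).const_mul ((k : ℝ) + 1)).mul_const ξ
  have h3 : deriv (fun r => deriv X r + ((k : ℝ) + 1) * r ^ k * ξ) r =
      deriv (deriv X) r + ((k : ℝ) + 1) * (k * r ^ (k - 1)) * ξ := (h1.hasDerivAt.add h2).deriv
  rw [h3]
  rcases k with _ | k
  · simp
  · simp only [Nat.add_sub_cancel]
    push_cast
    ring

theorem tendsto_ne {X : ℝ → ℝ} (hX : ContDiff ℝ ∞ X) (h0 : X 0 = 1) : ∀ᶠ r in 𝓝 (0 : ℝ), X r ≠ 0 := by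
  have h1 : ContinuousAt X 0 := hX.continuous.continuousAt
  exact h1.eventually_ne (by rw [h0]; exact one_ne_zero)

theorem eS_smooth (p n s : ℝ) {A B X : ℝ → ℝ} (hA : ContDiff ℝ ∞ A) (hB : ContDiff ℝ ∞ B)
    (hX : ContDiff ℝ ∞ X) (hA0 : A 0 = 1) (hB0 : B 0 = 1) (hX0 : X 0 = 1) :
    ContDiffAt ℝ ∞ (eS p n s A B X) 0 := by
  have a0 := hA.contDiffAt (x := (0 : ℝ))
  have b0 := hB.contDiffAt (x := (0 : ℝ))
  have x0 := hX.contDiffAt (x := (0 : ℝ))
  have a1 := (smooth_deriv hA).contDiffAt (x := (0 : ℝ))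
  have b1 := (smooth_deriv hB).contDiffAt (x := (0 : ℝ))
  have x1 := (smooth_deriv hX).contDiffAt (x := (0 : ℝ))
  have x2 := (smooth_deriv (smooth_deriv hX)).contDiffAt (x := (0 : ℝ))
  have r0 : ContDiffAt ℝ ∞ (fun r : ℝ => r) 0 := contDiffAt_id
  have hτ : ContDiffAt ℝ ∞ (tauS p n A B) 0 := by
    have : tauS p n A B = fun r => p * deriv A r / A r + (n - p) * deriv B r / B r := by
      funext r; rfl
    rw [this]
    exact ((contDiffAt_const.mul a1).div a0 (by rw [hA0]; exact one_ne_zero)).add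
      ((contDiffAt_const.mul b1).div b0 (by rw [hB0]; exact one_ne_zero))
  have : eS p n s A B X = fun r => r * deriv (deriv X) r - r * (deriv X r * deriv X r / X r) +
    (r * tauS p n A B r / 2) * deriv X r - (n / 2 - 1) * deriv X r - (tauS p n A B r / 2) * X r + s := by
    funext r; rfl
  rw [this]
  exact (((((r0.mul x2).sub (r0.mul ((x1.mul x1).div x0 (by rw [hX0]; exact one_ne_zero)))).add
    (((r0.mul hτ).div_const 2).mul x1)).sub (contDiffAt_const.mul x1)).sub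
    ((hτ.div_const 2).mul x0)).add contDiffAt_const

/-- increment of the logarithmic derivative -/
noncomputable def WW (k : ℕ) (X : ℝ → ℝ) (ξ : ℝ) (r : ℝ) : ℝ :=
  ξ * (((k : ℝ) + 1) * X r - r * deriv X r) / (X r * (X r + r ^ (k + 1) * ξ))

theorem WW_zero (k : ℕ) {X : ℝ → ℝ} (hX0 : X 0 = 1) (ξ : ℝ) : WW k X ξ 0 = ξ * ((k : ℝ) + 1) := by
  simp [WW, hX0]

theorem WW_smooth (k : ℕ) {X : ℝ → ℝ} (hX : ContDiff ℝ ∞ X) (hX0 : X 0 = 1) (ξ : ℝ) :
    ContDiffAt ℝ ∞ (WW k X ξ) 0 := by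
  have x0 := hX.contDiffAt (x := (0 : ℝ))
  have x1 := (smooth_deriv hX).contDiffAt (x := (0 : ℝ))
  have r0 : ContDiffAt ℝ ∞ (fun r : ℝ => r) 0 := contDiffAt_id
  have : WW k X ξ = fun r => ξ * (((k : ℝ) + 1) * X r - r * deriv X r) / (X r * (X r + r ^ (k + 1) * ξ)) := by
    funext r; rfl
  rw [this]
  refine (contDiffAt_const.mul ((contDiffAt_const.mul x0).sub (r0.mul x1))).div
    (x0.mul (x0.add ((r0.pow (k + 1)).mul contDiffAt_const))) ?_
  simp [hX0]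

theorem WW_eq (k : ℕ) {X : ℝ → ℝ} (hX : ContDiff ℝ ∞ X) (ξ : ℝ) (r : ℝ) (h1 : X r ≠ 0)
    (h2 : X r + r ^ (k + 1) * ξ ≠ 0) :
    deriv (fun r => X r + r ^ (k + 1) * ξ) r / (X r + r ^ (k + 1) * ξ) =
      deriv X r / X r + r ^ k * WW k X ξ r := by
  rw [deriv_step hX]
  unfold WW
  have hY : X r + r ^ (k + 1) * ξ = X r + r ^ k * r * ξ := by ring
  generalize X r + r ^ (k + 1) * ξ = Y at *
  rw [mul_div_assoc', div_add_div _ _ h1 (mul_ne_zero h1 h2), div_eq_div_iff h2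
    (mul_ne_zero h1 (mul_ne_zero h1 h2)), hY]
  ring

theorem step_smooth (k : ℕ) {X : ℝ → ℝ} (hX : ContDiff ℝ ∞ X) (ξ : ℝ) :
    ContDiff ℝ ∞ (fun r => X r + r ^ (k + 1) * ξ) :=
  hX.add ((contDiff_id.pow (k + 1)).mul contDiff_const)

theorem eS_step (p n s : ℝ) (k : ℕ) {A B X : ℝ → ℝ} (hA : ContDiff ℝ ∞ A) (hB : ContDiff ℝ ∞ B)
    (hX : ContDiff ℝ ∞ X) (hA0 : A 0 = 1) (hB0 : B 0 = 1) (hX0 : X 0 = 1) (α β ξ : ℝ) (j : ℕ)
    (hj : j ≤ k) :
    cf j (eS p n s (fun r => A r + r ^ (k + 1) * α) (fun r => B r + r ^ (k + 1) * β)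
      (fun r => X r + r ^ (k + 1) * ξ)) = cf j (eS p n s A B X) +
      if j = k then (((k : ℝ) + 1) * k * ξ - (n / 2 - 1) * ((k : ℝ) + 1) * ξ -
        ((k : ℝ) + 1) / 2 * (p * α + (n - p) * β)) else 0 := by
  set A₁ : ℝ → ℝ := fun r => A r + r ^ (k + 1) * α with hA₁
  set B₁ : ℝ → ℝ := fun r => B r + r ^ (k + 1) * β with hB₁
  set X₁ : ℝ → ℝ := fun r => X r + r ^ (k + 1) * ξ with hX₁
  have sA₁ : ContDiff ℝ ∞ A₁ := step_smooth k hA α
  have sB₁ : ContDiff ℝ ∞ B₁ := step_smooth k hB β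
  have sX₁ : ContDiff ℝ ∞ X₁ := step_smooth k hX ξ
  have zA₁ : A₁ 0 = 1 := by simp [hA₁, hA0]
  have zB₁ : B₁ 0 = 1 := by simp [hB₁, hB0]
  have zX₁ : X₁ 0 = 1 := by simp [hX₁, hX0]
  -- the increment
  set Wτ : ℝ → ℝ := fun r => p * WW k A α r + (n - p) * WW k B β r with hWτ
  set w : ℝ → ℝ := fun r => ((k : ℝ) + 1) * k * ξ
    - r * (((k : ℝ) + 1) * ξ * (deriv X r / X r) + deriv X₁ r * WW k X ξ r)
    + (r / 2) * (tauS p n A B r * (((k : ℝ) + 1) * ξ) + Wτ r * deriv X₁ r)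
    - (n / 2 - 1) * (((k : ℝ) + 1) * ξ) - (1 / 2) * (tauS p n A B r * ξ * r + Wτ r * X₁ r) with hw
  have key : eS p n s A₁ B₁ X₁ =ᶠ[𝓝 0] fun r => eS p n s A B X r + r ^ k * w r := by
    filter_upwards [tendsto_ne hA hA0, tendsto_ne hB hB0, tendsto_ne hX hX0, tendsto_ne sA₁ zA₁,
      tendsto_ne sB₁ zB₁, tendsto_ne sX₁ zX₁] with r h1 h2 h3 h4 h5 h6
    have eA := WW_eq k hA α r h1 h4
    have eB := WW_eq k hB β r h2 h5
    have eX := WW_eq k hX ξ r h3 h6
    have dX := congrFun (deriv_step hX k ξ) r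
    have d2 := deriv2_step hX k ξ r
    simp only [← hX₁] at eX dX d2
    simp only [← hA₁] at eA
    simp only [← hB₁] at eB
    have τ₁ : tauS p n A₁ B₁ r = tauS p n A B r + r ^ k * Wτ r := by
      simp only [tauS, hWτ]
      rw [mul_div_assoc, mul_div_assoc, mul_div_assoc, mul_div_assoc]
      have eA' : deriv A₁ r / A₁ r = deriv A r / A r + r ^ k * WW k A α r := eA
      have eB' : deriv B₁ r / B₁ r = deriv B r / B r + r ^ k * WW k B β r := eB
      rw [eA', eB']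
      ring
    have eX' : deriv X₁ r / X₁ r = deriv X r / X r + r ^ k * WW k X ξ r := eX
    have x1 : X₁ r = X r + r ^ k * r * ξ := by simp only [hX₁]; ring
    simp only [eS]
    rw [mul_div_assoc, eX', d2, τ₁]
    simp only [hw]
    rw [x1]
    have dX' : deriv X₁ r = deriv X r + ((k : ℝ) + 1) * r ^ k * ξ := dX
    rw [dX']
    ring
  have sw : ContDiffAt ℝ ∞ w 0 := by
    have x0 := hX.contDiffAt (x := (0 : ℝ))
    have x1 := (smooth_deriv hX).contDiffAt (x := (0 : ℝ))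
    have r0 : ContDiffAt ℝ ∞ (fun r : ℝ => r) 0 := contDiffAt_id
    have y0 := sX₁.contDiffAt (x := (0 : ℝ))
    have y1 := (smooth_deriv sX₁).contDiffAt (x := (0 : ℝ))
    have a0 := hA.contDiffAt (x := (0 : ℝ))
    have b0 := hB.contDiffAt (x := (0 : ℝ))
    have a1 := (smooth_deriv hA).contDiffAt (x := (0 : ℝ))
    have b1 := (smooth_deriv hB).contDiffAt (x := (0 : ℝ))
    have hτ : ContDiffAt ℝ ∞ (tauS p n A B) 0 := by
      have : tauS p n A B = fun r => p * deriv A r / A r + (n - p) * deriv B r / B r := by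
        funext r; rfl
      rw [this]
      exact ((contDiffAt_const.mul a1).div a0 (by rw [hA0]; exact one_ne_zero)).add
        ((contDiffAt_const.mul b1).div b0 (by rw [hB0]; exact one_ne_zero))
    have hWs : ContDiffAt ℝ ∞ Wτ 0 :=
      (contDiffAt_const.mul (WW_smooth k hA hA0 α)).add (contDiffAt_const.mul (WW_smooth k hB hB0 β))
    have hWx := WW_smooth k hX hX0 ξ
    exact ((((contDiffAt_const).sub (r0.mul ((contDiffAt_const.mul (x1.div x0
      (by rw [hX0]; exact one_ne_zero))).add (y1.mul hWx)))).add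
      ((r0.div_const 2).mul ((hτ.mul contDiffAt_const).add (hWs.mul y1)))).sub contDiffAt_const).sub
      (contDiffAt_const.mul (((hτ.mul contDiffAt_const).mul r0).add (hWs.mul y0)))
  have w0 : w 0 = ((k : ℝ) + 1) * k * ξ - (n / 2 - 1) * ((k : ℝ) + 1) * ξ -
        ((k : ℝ) + 1) / 2 * (p * α + (n - p) * β) := by
    simp only [hw, hWτ, WW_zero k hA0 α, WW_zero k hB0 β, zX₁]
    ring
  have sE := eS_smooth p n s hA hB hX hA0 hB0 hX0
  have sP : ContDiffAt ℝ ∞ (fun r : ℝ => r ^ k * w r) 0 := (contDiffAt_id.pow k).mul sw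
  rw [cf_congr key, cf_add sE sP, cf_rpow_mul sw k j hj, w0]

theorem alg1 (a b p h k t α β : ℝ) (q1 : k + 1 ≠ 0) (q2 : h - 1 - k ≠ 0)
    (ht : (k + 1) * (2 * h - 1 - k) * t = p * a + (2 * h - p) * b)
    (hα : (k + 1) * (h - 1 - k) * α = a - (k + 1) * t / 2)
    (hβ : (k + 1) * (h - 1 - k) * β = b - (k + 1) * t / 2) :
    a + ((k + 1) * k * α - (2 * h / 2 - 1) * (k + 1) * α - (k + 1) / 2 * (p * α + (2 * h - p) * β)) = 0 ∧
    b + ((k + 1) * k * β - (2 * h / 2 - 1) * (k + 1) * β - (k + 1) / 2 * (p * α + (2 * h - p) * β)) = 0 := by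
  have h1 : p * α + (2 * h - p) * β = t := by
    have : (k + 1) * (h - 1 - k) * (p * α + (2 * h - p) * β) = (k + 1) * (h - 1 - k) * t := by
      linear_combination p * hα + (2 * h - p) * hβ - ht
    exact mul_left_cancel₀ (mul_ne_zero q1 q2) this
  rw [h1]
  constructor
  · linear_combination -hα
  · linear_combination -hβ

theorem sol_induct (h : ℕ) (p : ℝ) (m : ℕ) (hm : m ≤ h) : ∀ k, k < m → k + 1 < h →
      cf k (eS p (2 * h) (p - 1) (solS p (2 * h) h m).1 (solS p (2 * h) h m).2 (solS p (2 * h) h m).1) = 0 ∧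
      cf k (eS p (2 * h) 0 (solS p (2 * h) h m).1 (solS p (2 * h) h m).2 (solS p (2 * h) h m).2) = 0 := by
  induction m with
  | zero => intro k hk; omega
  | succ m ih =>
    intro k hk hkh
    have ih' := ih (by omega)
    obtain ⟨sA, sB, zA, zB⟩ := solS_smooth p (2 * h) h m
    have e1 : (solS p (2 * h) h (m + 1)).1 = fun r => (solS p (2 * h) h m).1 r + r ^ (m + 1) *
        (stepS p (2 * h) h (solS p (2 * h) h m).1 (solS p (2 * h) h m).2 m).1 := rfl
    have e2 : (solS p (2 * h) h (m + 1)).2 = fun r => (solS p (2 * h) h m).2 r + r ^ (m + 1) *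
        (stepS p (2 * h) h (solS p (2 * h) h m).1 (solS p (2 * h) h m).2 m).2 := rfl
    rw [e1, e2, eS_step p (2 * h) (p - 1) m sA sB sA zA zB zA _ _ _ k (by omega),
      eS_step p (2 * h) 0 m sA sB sB zA zB zB _ _ _ k (by omega)]
    rcases Nat.lt_or_ge k m with hkm | hkm
    · rw [if_neg (by omega), if_neg (by omega), add_zero, add_zero]
      exact ih' k hkm hkh
    · have hkm' : k = m := by omega
      subst hkm'
      rw [if_pos rfl, if_pos rfl]
      simp only [stepS]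
      rw [if_pos hkh]
      set a := cf k (eS p (2 * h) (p - 1) (solS p (2 * h) h k).1 (solS p (2 * h) h k).2 (solS p (2 * h) h k).1)
      set b := cf k (eS p (2 * h) 0 (solS p (2 * h) h k).1 (solS p (2 * h) h k).2 (solS p (2 * h) h k).2)
      have q1 : ((k : ℝ) + 1) ≠ 0 := by positivity
      have hk1 : (k : ℝ) + 1 < h := by exact_mod_cast hkh
      have hk0 : (0 : ℝ) ≤ k := by positivity
      have q2 : (h : ℝ) - 1 - k ≠ 0 := by
        have : (0 : ℝ) < (h : ℝ) - 1 - k := by linarith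
        exact this.ne'
      have q3 : (2 * (h : ℝ) - 1 - k) ≠ 0 := by
        have : (0 : ℝ) < 2 * (h : ℝ) - 1 - k := by linarith
        exact this.ne'
      have q4 : (2 * (h : ℝ) / 2 - 1 - k) = (h : ℝ) - 1 - k := by ring
      rw [q4]
      set t : ℝ := (p * a + (2 * h - p) * b) / (((k : ℝ) + 1) * (2 * h - 1 - k)) with ht
      refine alg1 a b p h k t _ _ q1 q2 ?_ ?_ ?_
      · rw [ht, mul_div_cancel₀ _ (mul_ne_zero q1 q3)]
      · rw [← mul_assoc, mul_one_div, div_self (mul_ne_zero q1 q2), one_mul]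
      · rw [← mul_assoc, mul_one_div, div_self (mul_ne_zero q1 q2), one_mul]

/-! ## TARGET (prove this) -/

/- The recursion `stepS` solves the equations order by order.  Idea: let `A, B` be smooth near `0` with `A 0 = B 0 = 1`
and `A₁ = A + r^(k+1) α(r)`, `B₁ = B + r^(k+1) β(r)` with `α, β` smooth.  Then for `j < k` the coefficients `cf j (eS ..)` are
unchanged, and `cf k` changes by `(k+1)(k + 1 - n/2) α(0) - (k+1)/2 (p α(0) + (n-p) β(0))` for the `A` component, and the same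
with `β(0)` in the first term for the `B` component (`n = 2h`).  With `(α(0), β(0)) = stepS`, the new `k`-th coefficients
vanish if `k + 1 < h`, and their trace `p (..) + (n - p) (..)` vanishes if `k + 1 = h`; the coefficients of order `< k` keep
vanishing, and the later steps do not change them.  (One may work with power series `∑ cf k f X^k`.) -/
theorem sol_prop (h : ℕ) (hh : 2 ≤ h) (p : ℝ) :
    (∀ k, k + 1 < h → cf k (eS p (2 * h) (p - 1) (solS p (2 * h) h h).1 (solS p (2 * h) h h).2 (solS p (2 * h) h h).1) = 0 ∧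
      cf k (eS p (2 * h) 0 (solS p (2 * h) h h).1 (solS p (2 * h) h h).2 (solS p (2 * h) h h).2) = 0) ∧
    p * cf (h - 1) (eS p (2 * h) (p - 1) (solS p (2 * h) h h).1 (solS p (2 * h) h h).2 (solS p (2 * h) h h).1) +
      (2 * h - p) * cf (h - 1) (eS p (2 * h) 0 (solS p (2 * h) h h).1 (solS p (2 * h) h h).2 (solS p (2 * h) h h).2) = 0 := by
  refine ⟨fun k hk => sol_induct h p h le_rfl k (by omega) hk, ?_⟩
  obtain ⟨m, rfl⟩ : ∃ m, h = m + 1 := ⟨h - 1, by omega⟩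
  rw [Nat.add_sub_cancel]
  obtain ⟨sA, sB, zA, zB⟩ := solS_smooth p (2 * ((m + 1 : ℕ) : ℝ)) (m + 1) m
  have e1 : (solS p (2 * ((m + 1 : ℕ) : ℝ)) (m + 1) (m + 1)).1 = fun r =>
      (solS p (2 * ((m + 1 : ℕ) : ℝ)) (m + 1) m).1 r + r ^ (m + 1) *
      (stepS p (2 * ((m + 1 : ℕ) : ℝ)) (m + 1) (solS p (2 * ((m + 1 : ℕ) : ℝ)) (m + 1) m).1
        (solS p (2 * ((m + 1 : ℕ) : ℝ)) (m + 1) m).2 m).1 := rfl
  have e2 : (solS p (2 * ((m + 1 : ℕ) : ℝ)) (m + 1) (m + 1)).2 = fun r =>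
      (solS p (2 * ((m + 1 : ℕ) : ℝ)) (m + 1) m).2 r + r ^ (m + 1) *
      (stepS p (2 * ((m + 1 : ℕ) : ℝ)) (m + 1) (solS p (2 * ((m + 1 : ℕ) : ℝ)) (m + 1) m).1
        (solS p (2 * ((m + 1 : ℕ) : ℝ)) (m + 1) m).2 m).2 := rfl
  rw [e1, e2, eS_step p (2 * ((m + 1 : ℕ) : ℝ)) (p - 1) m sA sB sA zA zB zA _ _ _ m le_rfl,
      eS_step p (2 * ((m + 1 : ℕ) : ℝ)) 0 m sA sB sB zA zB zB _ _ _ m le_rfl]
  rw [if_pos rfl, if_pos rfl]
  simp only [stepS]
  rw [if_neg (lt_irrefl _)]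
  set a := cf m (eS p (2 * ((m + 1 : ℕ) : ℝ)) (p - 1) (solS p (2 * ((m + 1 : ℕ) : ℝ)) (m + 1) m).1
    (solS p (2 * ((m + 1 : ℕ) : ℝ)) (m + 1) m).2 (solS p (2 * ((m + 1 : ℕ) : ℝ)) (m + 1) m).1)
  set b := cf m (eS p (2 * ((m + 1 : ℕ) : ℝ)) 0 (solS p (2 * ((m + 1 : ℕ) : ℝ)) (m + 1) m).1
    (solS p (2 * ((m + 1 : ℕ) : ℝ)) (m + 1) m).2 (solS p (2 * ((m + 1 : ℕ) : ℝ)) (m + 1) m).2)
  have q1 : ((m : ℝ) + 1) ≠ 0 := by positivity
  have q3 : (2 * ((m : ℝ) + 1) - 1 - m) ≠ 0 := by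
    have : (0 : ℝ) < 2 * ((m : ℝ) + 1) - 1 - m := by
      have : (0 : ℝ) ≤ m := by positivity
      linarith
    exact this.ne'
  push_cast
  have q5 : (2 * ((m : ℝ) + 1) - 1 - m) = (m : ℝ) + 1 := by ring
  rw [q5]
  field_simp
  ring

end Pool.Agent.QTot.C7
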