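import Pool.Agent.QTot.Base2
import Pool.Agent.QTot.K1

set_option autoImplicit false
open scoped ContDiff Manifold Topology Matrix
open MeasureTheory Filter Set

namespace Pool.Agent.QTot.C8
open Pool.Agent.QTot
open Pool.Agent.QTot.K1 (cf_congr cf_add cf_const_mul cf_mul cf_deriv cf_r_mul_zero cf_r_mul cf_zero cf_const cf_pow)













/-! ## TARGET (prove this) -/

/- Idea: `v k = cf k (A^a B^b)`, `W k = cf k (A^(a-1) B^b)`, `X k = cf k (A^(a-1) B^b A')`, `Y k = cf k (A^a B^(b-1) B')` (or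
`cf k (v B'/B)`).  Near `0`, with `n = 2h`: `v' = (tauS/2) v`, `2 v' = 2a X + 2b Y` (as functions), and
`W * eS(A) = r X' - (h-1) X - v' + (2a-1) W` (because `r (v A'/A)' = r v (A''/A - A'^2/A^2) + r v' A'/A`), and
`(v/B) * eS(B) = r Y' - (h-1) Y - v'`.  Since the coefficients of `eS` of order `< h-1` vanish, so do those of the products
of order `< h - 1`, and the coefficients of order `h-1` of the products are those of `eS` (as `W 0 = 1`).  So for
`k < h-1`: `(k-(h-1)) X_k - (k+1) v_{k+1} + (2a-1) W_k = 0`, `(k-(h-1)) Y_k - (k+1) v_{k+1} = 0`, and for `k ≤ h-1` the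
combination `2a (first) + 2b (second) = 0`, which with `2a X_k + 2b Y_k = 2 (k+1) v_{k+1}` gives
`(k+1)(2h-1-k) v_{k+1} = a (2a-1) W_k`.  Last relation: `v W' = W (v' - X)` as functions (`W = v/A`). -/
theorem rel_aux_deriv {f : ℝ → ℝ} (hf : ContDiffAt ℝ ∞ f 0) : ContDiffAt ℝ ∞ (deriv f) 0 := by
  have h1 : deriv f = fun x => fderiv ℝ f x 1 := by
    funext x
    exact fderiv_apply_one_eq_deriv.symm
  rw [h1]
  exact (hf.fderiv_right (m := ∞) (by simp)).clm_apply contDiffAt_const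

theorem rel_aux_diff {f : ℝ → ℝ} (hf : ContDiffAt ℝ ∞ f 0) :
    ∀ᶠ r in 𝓝 (0 : ℝ), DifferentiableAt ℝ f r := by
  have h1 : ContDiffAt ℝ 1 f 0 := hf.of_le (by norm_cast)
  filter_upwards [h1.eventually (by simp)] with r hr
  exact hr.differentiableAt (by simp)

theorem rel_aux_rmul {f : ℝ → ℝ} (hf : ContDiffAt ℝ ∞ f 0) (k : ℕ) :
    cf k (fun r => r * deriv f r) = k * cf k f := by
  cases k with
  | zero => rw [cf_r_mul_zero]; simp
  | succ k =>
    rw [cf_r_mul (rel_aux_deriv hf), cf_deriv]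
    push_cast
    ring

theorem rel_aux_gen {C M τ u : ℝ → ℝ} (hC : ContDiffAt ℝ ∞ C 0) (hM : ContDiffAt ℝ ∞ M 0)
    (hτ : ContDiffAt ℝ ∞ τ 0) (hM0 : M 0 ≠ 0) (hu : ∀ᶠ r in 𝓝 (0 : ℝ), u r = C r * M r)
    (hu' : ∀ᶠ r in 𝓝 (0 : ℝ), deriv u r = τ r * u r) (H s : ℝ) (k : ℕ) :
    ∑ j ∈ Finset.range (k + 1), cf j C * cf (k - j) (fun r => r * deriv (deriv M) r
      - r * (deriv M r * deriv M r / M r) + (r * τ r) * deriv M r - H * deriv M r
      - τ r * M r + s) =
    ((k : ℝ) - H) * cf k (fun r => C r * deriv M r) - ((k : ℝ) + 1) * cf (k + 1) u +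
      s * cf k C := by
  have hid : ContDiffAt ℝ ∞ (fun r : ℝ => r) 0 := contDiffAt_id
  have hM' := rel_aux_deriv hM
  have hM'' := rel_aux_deriv hM'
  have hCM : ContDiffAt ℝ ∞ (fun r => C r * deriv M r) 0 := hC.mul hM'
  have huS : ContDiffAt ℝ ∞ u 0 := (hC.mul hM).congr_of_eventuallyEq hu
  have hE : ContDiffAt ℝ ∞ (fun r => r * deriv (deriv M) r
      - r * (deriv M r * deriv M r / M r) + (r * τ r) * deriv M r - H * deriv M r
      - τ r * M r + s) 0 := (((((hid.mul hM'').sub (hid.mul ((hM'.mul hM').div hM hM0))).add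
    ((hid.mul hτ).mul hM')).sub (contDiffAt_const.mul hM')).sub (hτ.mul hM)).add
    contDiffAt_const
  rw [← cf_mul hC hE]
  have key : (fun r => C r * (r * deriv (deriv M) r
      - r * (deriv M r * deriv M r / M r) + (r * τ r) * deriv M r - H * deriv M r
      - τ r * M r + s)) =ᶠ[𝓝 0] (fun r => (r * deriv (fun r => C r * deriv M r) r +
        (-H) * (C r * deriv M r)) + ((-1) * deriv u r + s * C r)) := by
    filter_upwards [rel_aux_diff hC, rel_aux_diff hM, rel_aux_diff hM',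
      eventually_eventually_nhds.mpr hu, hu', hM.continuousAt.eventually_ne hM0]
      with r d1 d2 d3 e1 e2 e3
    have f1 : deriv (fun r => C r * deriv M r) r =
        deriv C r * deriv M r + C r * deriv (deriv M) r := deriv_fun_mul d1 d3
    have f2 : deriv u r = deriv C r * M r + C r * deriv M r := by
      rw [← deriv_fun_mul d1 d2]
      exact Filter.EventuallyEq.deriv_eq e1
    have f3 : u r = C r * M r := e1.self_of_nhds
    rw [f1]
    obtain ⟨q, hq⟩ : ∃ q, q = deriv M r / M r := ⟨_, rfl⟩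
    have g1 : deriv M r * deriv M r / M r = deriv M r * q := by rw [hq]; ring
    have g2 : deriv M r = q * M r := by rw [hq, div_mul_cancel₀ _ e3]
    have g3 : τ r * C r = deriv C r + C r * q := by
      have : (τ r * C r - (deriv C r + C r * q)) * M r = 0 := by
        rw [f3, f2] at e2
        linear_combination -e2 + C r * g2
      have := (mul_eq_zero.mp this).resolve_right e3
      linarith
    rw [f3] at e2
    rw [g1]
    linear_combination (r * deriv M r) * g3 + e2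
  rw [cf_congr key, cf_add (f := fun r => r * deriv (fun r => C r * deriv M r) r +
        (-H) * (C r * deriv M r)) (g := fun r => (-1) * deriv u r + s * C r)
      ((hid.mul (rel_aux_deriv hCM)).add (contDiffAt_const.mul hCM))
      ((contDiffAt_const.mul (rel_aux_deriv huS)).add (contDiffAt_const.mul hC)),
    cf_add (f := fun r => r * deriv (fun r => C r * deriv M r) r)
      (g := fun r => (-H) * (C r * deriv M r)) (hid.mul (rel_aux_deriv hCM))
      (contDiffAt_const.mul hCM),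
    cf_add (f := fun r => (-1) * deriv u r) (g := fun r => s * C r)
      (contDiffAt_const.mul (rel_aux_deriv huS)) (contDiffAt_const.mul hC),
    rel_aux_rmul hCM, cf_const_mul, cf_const_mul, cf_const_mul, cf_deriv]
  ring

theorem rel_aux_pow (a : ℕ) {x : ℝ} (hx : x ≠ 0) : (a : ℝ) * x ^ (a - 1) = a * (x ^ a / x) := by
  cases a with
  | zero => simp
  | succ a =>
    rw [Nat.add_sub_cancel, pow_succ, mul_div_assoc, div_self hx, mul_one]

/-- low order coefficients of a product -/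
theorem rel_aux_low {C E : ℝ → ℝ} {h k : ℕ} (hE : ∀ k, k + 1 < h → cf k E = 0) (hk : k + 1 < h) :
    ∑ j ∈ Finset.range (k + 1), cf j C * cf (k - j) E = 0 := by
  apply Finset.sum_eq_zero
  intro j _
  rw [hE (k - j) (by omega), mul_zero]

theorem rel_aux_top {C E : ℝ → ℝ} {h : ℕ} (hh : 1 ≤ h) (hE : ∀ k, k + 1 < h → cf k E = 0) :
    ∑ j ∈ Finset.range (h - 1 + 1), cf j C * cf (h - 1 - j) E = cf 0 C * cf (h - 1) E := by
  rw [Finset.sum_range_succ']
  rw [Finset.sum_eq_zero, zero_add, Nat.sub_zero]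
  intro j hj
  rw [Finset.mem_range] at hj
  rw [hE _ (by omega), mul_zero]

theorem rel (a b : ℕ) (ha : 1 ≤ a) (h : ℕ) (hh : a + b = h) (h2 : 2 ≤ h) {A B : ℝ → ℝ} (hA : ContDiff ℝ ∞ A)
    (hB : ContDiff ℝ ∞ B) (hA0 : A 0 = 1) (hB0 : B 0 = 1)
    (hs : ∀ k, k + 1 < h → cf k (eS (2 * a) (2 * h) (2 * a - 1) A B A) = 0 ∧ cf k (eS (2 * a) (2 * h) 0 A B B) = 0)
    (ht : (2 * a) * cf (h - 1) (eS (2 * a) (2 * h) (2 * a - 1) A B A) +
      (2 * h - 2 * a) * cf (h - 1) (eS (2 * a) (2 * h) 0 A B B) = 0) :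
    ∃ v W X : ℕ → ℝ, v h = cf h (fun r => A r ^ a * B r ^ b) ∧ v 0 = 1 ∧ W 0 = 1 ∧
      (∀ k, k + 1 ≤ h → ((k : ℝ) + 1) * (2 * h - 1 - k) * v (k + 1) = a * (2 * a - 1) * W k) ∧
      (∀ k, k + 1 < h → ((h : ℝ) - 1 - k) * X k = (2 * a - 1) * W k - ((k : ℝ) + 1) * v (k + 1)) ∧
      (∀ k, ∑ j ∈ Finset.range (k + 1), v j * (((k : ℝ) + 1 - j) * W (k + 1 - j)) =
        ∑ j ∈ Finset.range (k + 1), W (k - j) * (((j : ℝ) + 1) * v (j + 1) - X j)) := by
  have hbh : (2 * (h : ℝ) - 2 * a) = 2 * b := by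
    rw [← hh]; push_cast; ring
  have cA : ContDiffAt ℝ ∞ A 0 := hA.contDiffAt
  have cB : ContDiffAt ℝ ∞ B 0 := hB.contDiffAt
  have cA' := rel_aux_deriv cA
  have cB' := rel_aux_deriv cB
  have nA : A 0 ≠ 0 := by rw [hA0]; exact one_ne_zero
  have nB : B 0 ≠ 0 := by rw [hB0]; exact one_ne_zero
  obtain ⟨v, hv⟩ : ∃ v : ℝ → ℝ, v = fun r => A r ^ a * B r ^ b := ⟨_, rfl⟩
  obtain ⟨CA, hCA⟩ : ∃ C : ℝ → ℝ, C = fun r => v r / A r := ⟨_, rfl⟩
  obtain ⟨CB, hCB⟩ : ∃ C : ℝ → ℝ, C = fun r => v r / B r := ⟨_, rfl⟩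
  obtain ⟨τ, hτ⟩ : ∃ τ : ℝ → ℝ, τ = fun r => tauS (2 * a) (2 * h) A B r / 2 := ⟨_, rfl⟩
  have cv : ContDiffAt ℝ ∞ v 0 := by
    rw [hv]; exact (cA.pow a).mul (cB.pow b)
  have cCA : ContDiffAt ℝ ∞ CA 0 := by
    rw [hCA]; exact cv.div cA nA
  have cCB : ContDiffAt ℝ ∞ CB 0 := by
    rw [hCB]; exact cv.div cB nB
  have cτ : ContDiffAt ℝ ∞ τ 0 := by
    rw [hτ]
    unfold tauS
    exact (((contDiffAt_const.mul cA').div cA nA).add
      ((contDiffAt_const.mul cB').div cB nB)).div_const 2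
  have eA : ∀ᶠ r in 𝓝 (0 : ℝ), A r ≠ 0 := cA.continuousAt.eventually_ne nA
  have eB : ∀ᶠ r in 𝓝 (0 : ℝ), B r ≠ 0 := cB.continuousAt.eventually_ne nB
  have huA : ∀ᶠ r in 𝓝 (0 : ℝ), v r = CA r * A r := by
    filter_upwards [eA] with r hr
    rw [hCA]
    simp only
    rw [div_mul_cancel₀ _ hr]
  have huB : ∀ᶠ r in 𝓝 (0 : ℝ), v r = CB r * B r := by
    filter_upwards [eB] with r hr
    rw [hCB]
    simp only
    rw [div_mul_cancel₀ _ hr]
  have hv' : ∀ᶠ r in 𝓝 (0 : ℝ), deriv v r =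
      a * (CA r * deriv A r) + b * (CB r * deriv B r) := by
    filter_upwards [eA, eB] with r hr hr'
    have dA : DifferentiableAt ℝ A r := (hA.differentiable (by simp)) r
    have dB : DifferentiableAt ℝ B r := (hB.differentiable (by simp)) r
    have hd := ((dA.hasDerivAt.fun_pow a).fun_mul (dB.hasDerivAt.fun_pow b)).deriv
    rw [hv, hd, rel_aux_pow a hr, rel_aux_pow b hr', hCA, hCB, hv]
    ring
  have hτv : ∀ᶠ r in 𝓝 (0 : ℝ), deriv v r = τ r * v r := by
    filter_upwards [hv'] with r hr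
    rw [hr, hτ, hCA, hCB]
    unfold tauS
    rw [hbh]
    ring
  have hEA : (fun r => r * deriv (deriv A) r
      - r * (deriv A r * deriv A r / A r) + (r * τ r) * deriv A r - ((h : ℝ) - 1) * deriv A r
      - τ r * A r + (2 * (a : ℝ) - 1)) = eS (2 * a) (2 * h) (2 * a - 1) A B A := by
    funext r
    unfold eS
    rw [hτ]
    ring
  have hEB : (fun r => r * deriv (deriv B) r
      - r * (deriv B r * deriv B r / B r) + (r * τ r) * deriv B r - ((h : ℝ) - 1) * deriv B r
      - τ r * B r + 0) = eS (2 * a) (2 * h) 0 A B B := by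
    funext r
    unfold eS
    rw [hτ]
    ring
  have gA := rel_aux_gen cCA cA cτ nA huA hτv ((h : ℝ) - 1) (2 * (a : ℝ) - 1)
  have gB := rel_aux_gen cCB cB cτ nB huB hτv ((h : ℝ) - 1) 0
  rw [hEA] at gA
  rw [hEB] at gB
  have sA : ∀ k, k + 1 < h → cf k (eS (2 * a) (2 * h) (2 * a - 1) A B A) = 0 :=
    fun k hk => (hs k hk).1
  have sB : ∀ k, k + 1 < h → cf k (eS (2 * a) (2 * h) 0 A B B) = 0 :=
    fun k hk => (hs k hk).2
  have v0 : cf 0 v = 1 := by
    rw [cf_zero, hv]; simp [hA0, hB0]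
  have CA0 : cf 0 CA = 1 := by
    rw [cf_zero, hCA, hv]; simp [hA0, hB0]
  have CB0 : cf 0 CB = 1 := by
    rw [cf_zero, hCB, hv]; simp [hA0, hB0]
  have hsum : ∀ k : ℕ, ((k : ℝ) + 1) * cf (k + 1) v =
      a * cf k (fun r => CA r * deriv A r) + b * cf k (fun r => CB r * deriv B r) := by
    intro k
    rw [← cf_deriv, cf_congr hv', cf_add (f := fun r => (a : ℝ) * (CA r * deriv A r))
      (g := fun r => (b : ℝ) * (CB r * deriv B r)) (contDiffAt_const.mul (cCA.mul cA'))
      (contDiffAt_const.mul (cCB.mul cB')), cf_const_mul, cf_const_mul]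
  have hab : (h : ℝ) = a + b := by rw [← hh]; push_cast; ring
  refine ⟨fun k => cf k v, fun k => cf k CA, fun k => cf k (fun r => CA r * deriv A r),
    by rw [hv], v0, CA0, ?_, ?_, ?_⟩
  · intro k hk
    simp only
    have hcomb : (a : ℝ) * ∑ j ∈ Finset.range (k + 1), cf j CA *
          cf (k - j) (eS (2 * a) (2 * h) (2 * a - 1) A B A) +
        b * ∑ j ∈ Finset.range (k + 1), cf j CB *
          cf (k - j) (eS (2 * a) (2 * h) 0 A B B) = 0 := by
      rcases Nat.lt_or_ge (k + 1) h with hk1 | hk1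
      · rw [rel_aux_low sA hk1, rel_aux_low sB hk1]; ring
      · have hk2 : k = h - 1 := by omega
        subst hk2
        rw [rel_aux_top (by omega) sA, rel_aux_top (by omega) sB, CA0, CB0]
        rw [hbh] at ht
        linear_combination ht / 2
    rw [gA k, gB k] at hcomb
    have h5 := hsum k
    linear_combination (-1 : ℝ) * hcomb - ((k : ℝ) - (h - 1)) * h5 +
      ((k : ℝ) + 1) * cf (k + 1) v * hab
  · intro k hk
    simp only
    have h5 := gA k
    rw [rel_aux_low sA hk] at h5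
    linear_combination h5
  · intro k
    simp only
    have hW : (fun r => v r * deriv CA r) =ᶠ[𝓝 0]
        (fun r => (deriv v r + (-1) * (CA r * deriv A r)) * CA r) := by
      filter_upwards [eventually_eventually_nhds.mpr huA, rel_aux_diff cCA, rel_aux_diff cA, eA]
        with r e1 d1 d2 e3
      have f2 : deriv v r = deriv CA r * A r + CA r * deriv A r := by
        rw [← deriv_fun_mul d1 d2]
        exact Filter.EventuallyEq.deriv_eq e1
      have f3 : v r = CA r * A r := e1.self_of_nhds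
      rw [f3, f2]
      ring
    have h5 := cf_congr hW k
    have cCA' := rel_aux_deriv cCA
    have cX : ContDiffAt ℝ ∞ (fun r => (-1) * (CA r * deriv A r)) 0 :=
      contDiffAt_const.mul (cCA.mul cA')
    rw [cf_mul cv cCA', cf_mul (f := fun r => deriv v r + (-1) * (CA r * deriv A r))
      ((rel_aux_deriv cv).add cX) cCA] at h5
    have h6 : ∀ j ∈ Finset.range (k + 1), cf j v * (((k : ℝ) + 1 - j) * cf (k + 1 - j) CA) =
        cf j v * cf (k - j) (deriv CA) := by
      intro j hj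
      rw [Finset.mem_range] at hj
      rw [cf_deriv]
      have e1 : k - j + 1 = k + 1 - j := by omega
      rw [e1, Nat.cast_sub (by omega)]
      ring
    have h7 : ∀ j ∈ Finset.range (k + 1), cf (k - j) CA * (((j : ℝ) + 1) * cf (j + 1) v -
        cf j (fun r => CA r * deriv A r)) =
        cf j (fun r => deriv v r + (-1) * (CA r * deriv A r)) * cf (k - j) CA := by
      intro j _
      rw [cf_add (rel_aux_deriv cv) cX, cf_const_mul, cf_deriv]
      ring
    rw [Finset.sum_congr rfl h6, Finset.sum_congr rfl h7]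
    exact h5

end Pool.Agent.QTot.C8
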