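import Pool.Agent.QTot.Base2

set_option autoImplicit false
open scoped ContDiff Manifold Topology Matrix
open MeasureTheory Filter Set

namespace Pool.Agent.QTot.C9
open Pool.Agent.QTot


/-! ## TARGET (prove this) -/

/- Idea: `Z_j := (j+1) v_{j+1} - X_j = - m W_j / ((2m+1-j)(m-j))` for `j < m`, `v_j = W_{j-1}/(j (2m+2-j))` for `1 ≤ j ≤ m+1`.
Claim: `0 < (-1)^k W_k` for all `k ≤ m` (strong induction): by `h3` (the term `j = 0` on the left is `(k+1) W_{k+1}`),
`(k+1) W_{k+1} = ∑_{j ≤ k} W_{k-j} Z_j - ∑_{1 ≤ j ≤ k} v_j (k+1-j) W_{k+1-j}`, and `(-1)^(k+1)` times each term is `≥ 0`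
(the term `j = 0` of the first sum is `> 0`): `(-1)^(k+1) W_{k-j} Z_j = ((-1)^(k-j) W_{k-j}) ((-1)^j W_j) m / (..)`, and
`-(-1)^(k+1) v_j W_{k+1-j} = ((-1)^(j-1) v_j) ((-1)^(k+1-j) W_{k+1-j})`.  Finally `(m+1)^2 v_{m+1} = W_m > 0` as `m` is even. -/
theorem pos2 (m : ℕ) (hm : Even m) (v W X : ℕ → ℝ) (hv0 : v 0 = 1) (hW0 : W 0 = 1)
    (h1 : ∀ k, k ≤ m → ((k : ℝ) + 1) * (2 * m + 1 - k) * v (k + 1) = W k)
    (h2 : ∀ k, k < m → ((m : ℝ) - k) * X k = W k - ((k : ℝ) + 1) * v (k + 1))
    (h3 : ∀ k, k < m → ∑ j ∈ Finset.range (k + 1), v j * (((k : ℝ) + 1 - j) * W (k + 1 - j)) =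
        ∑ j ∈ Finset.range (k + 1), W (k - j) * (((j : ℝ) + 1) * v (j + 1) - X j)) :
    0 < v (m + 1) := by
  have hv : ∀ j, j ≤ m → v (j + 1) = W j / (((j : ℝ) + 1) * (2 * m + 1 - j)) := by
    intro j hj
    have hj' : (j : ℝ) ≤ m := by exact_mod_cast hj
    have hne : ((j : ℝ) + 1) * (2 * m + 1 - j) ≠ 0 := by
      have h1 : 0 < (j : ℝ) + 1 := by positivity
      have h2 : 0 < 2 * (m : ℝ) + 1 - j := by
        have : (0 : ℝ) ≤ m := by positivity
        linarith
      exact (mul_pos h1 h2).ne'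
    rw [eq_div_iff hne, ← h1 j hj]
    ring
  have hZ : ∀ j, j < m → ((j : ℝ) + 1) * v (j + 1) - X j =
      -(m * W j / ((2 * m + 1 - j) * (m - j))) := by
    intro j hj
    have hj' : (j : ℝ) < m := by exact_mod_cast hj
    have a1 : 0 < (m : ℝ) - j := by linarith
    have a2 : 0 < 2 * (m : ℝ) + 1 - j := by
      have : (0 : ℝ) ≤ j := by positivity
      linarith
    have a3 : 0 < (j : ℝ) + 1 := by positivity
    have e1 : ((j : ℝ) + 1) * v (j + 1) = W j / (2 * m + 1 - j) := by
      rw [hv j hj.le]; field_simp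
    have e2 : X j = (W j - ((j : ℝ) + 1) * v (j + 1)) / (m - j) := by
      rw [eq_div_iff a1.ne', ← h2 j hj]; ring
    rw [e2, e1]
    field_simp
    ring
  have key : ∀ k, k ≤ m → 0 < (-1 : ℝ) ^ k * W k := by
    intro k
    induction k using Nat.strong_induction_on with
    | _ k ih =>
      intro hk
      cases k with
      | zero => simp [hW0]
      | succ k =>
        have hkm : k < m := hk
        have hm0 : (0 : ℝ) < m := by
          have : 0 < m := by omega
          exact_mod_cast this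
        have h := h3 k hkm
        rw [Finset.sum_range_succ'] at h
        simp only [hv0, Nat.cast_zero, sub_zero, one_mul, Nat.sub_zero] at h
        have hs1 : ∀ j ∈ Finset.range (k + 1),
            0 < (-1 : ℝ) ^ (k + 1) * (W (k - j) * (((j : ℝ) + 1) * v (j + 1) - X j)) := by
          intro j hj
          have hjk : j ≤ k := by
            have := Finset.mem_range.1 hj
            omega
          have hjm : j < m := by omega
          have hj' : (j : ℝ) < m := by exact_mod_cast hjm
          have hj0 : (0 : ℝ) ≤ j := by positivity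
          have a1 : 0 < (m : ℝ) - j := by linarith
          have a2 : 0 < 2 * (m : ℝ) + 1 - j := by linarith
          have p1 := ih j (by omega) (by omega)
          have p2 := ih (k - j) (by omega) (by omega)
          have hpow : (-1 : ℝ) ^ k = (-1) ^ (k - j) * (-1) ^ j := by
            rw [← pow_add, Nat.sub_add_cancel hjk]
          rw [hZ j hjm]
          have e : (-1 : ℝ) ^ (k + 1) * (W (k - j) * -(m * W j / ((2 * m + 1 - j) * (m - j)))) =
              m * (((-1) ^ (k - j) * W (k - j)) * ((-1) ^ j * W j)) /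
                ((2 * m + 1 - j) * (m - j)) := by
            rw [pow_succ, hpow]; ring
          rw [e]
          positivity
        have hs2 : ∀ j ∈ Finset.range k, 0 ≤ (-1 : ℝ) ^ k *
            (v (j + 1) * (((k : ℝ) + 1 - ((j + 1 : ℕ) : ℝ)) * W (k + 1 - (j + 1)))) := by
          intro j hj
          have hjk : j < k := Finset.mem_range.1 hj
          have hjm : j < m := by omega
          have hj' : (j : ℝ) < m := by exact_mod_cast hjm
          have hjk' : (j : ℝ) < k := by exact_mod_cast hjk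
          have hj0 : (0 : ℝ) ≤ j := by positivity
          have a2 : 0 < 2 * (m : ℝ) + 1 - j := by linarith
          have a3 : 0 < (j : ℝ) + 1 := by positivity
          have a4 : 0 < (k : ℝ) - j := by linarith
          have p1 := ih j (by omega) (by omega)
          have p2 := ih (k - j) (by omega) (by omega)
          have hpow : (-1 : ℝ) ^ k = (-1) ^ (k - j) * (-1) ^ j := by
            rw [← pow_add, Nat.sub_add_cancel hjk.le]
          have hidx : k + 1 - (j + 1) = k - j := by omega
          rw [hidx, hv j hjm.le]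
          have e : (-1 : ℝ) ^ k * (W j / (((j : ℝ) + 1) * (2 * m + 1 - j)) *
              (((k : ℝ) + 1 - ((j + 1 : ℕ) : ℝ)) * W (k - j))) =
              (k - j) * (((-1) ^ (k - j) * W (k - j)) * ((-1) ^ j * W j)) /
                (((j : ℝ) + 1) * (2 * m + 1 - j)) := by
            rw [hpow]; push_cast; ring
          rw [e]
          positivity
        have t1 : 0 < ∑ j ∈ Finset.range (k + 1),
            (-1 : ℝ) ^ (k + 1) * (W (k - j) * (((j : ℝ) + 1) * v (j + 1) - X j)) :=
          Finset.sum_pos hs1 ⟨0, by simp⟩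
        have t2 : 0 ≤ ∑ j ∈ Finset.range k, (-1 : ℝ) ^ k *
            (v (j + 1) * (((k : ℝ) + 1 - ((j + 1 : ℕ) : ℝ)) * W (k + 1 - (j + 1)))) :=
          Finset.sum_nonneg hs2
        rw [← Finset.mul_sum, ← h] at t1
        rw [← Finset.mul_sum] at t2
        have hk1 : (0 : ℝ) < (k : ℝ) + 1 := by positivity
        have t3 : 0 < ((k : ℝ) + 1) * ((-1 : ℝ) ^ (k + 1) * W (k + 1)) := by
          have e : ((k : ℝ) + 1) * ((-1 : ℝ) ^ (k + 1) * W (k + 1)) =
              (-1 : ℝ) ^ (k + 1) * (∑ j ∈ Finset.range k,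
                v (j + 1) * (((k : ℝ) + 1 - ((j + 1 : ℕ) : ℝ)) * W (k + 1 - (j + 1))) +
                ((k : ℝ) + 1) * W (k + 1)) +
              (-1 : ℝ) ^ k * ∑ j ∈ Finset.range k,
                v (j + 1) * (((k : ℝ) + 1 - ((j + 1 : ℕ) : ℝ)) * W (k + 1 - (j + 1))) := by
            rw [pow_succ]; ring
          rw [e]
          linarith
        exact (mul_pos_iff_of_pos_left hk1).1 t3
  have hWm := key m le_rfl
  rw [hm.neg_one_pow, one_mul] at hWm
  rw [hv m le_rfl]
  have : (0 : ℝ) ≤ m := by positivity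
  have a2 : 0 < 2 * (m : ℝ) + 1 - m := by linarith
  positivity

end Pool.Agent.QTot.C9
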