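import Pool.Agent.QTot.Base2
import Pool.Agent.QTot.C4
import Pool.Agent.QTot.C5
import Pool.Agent.QTot.C6
import Pool.Agent.QTot.C7
import Pool.Agent.QTot.C8
import Pool.Agent.QTot.C9
import Pool.Agent.QTot.C10

set_option autoImplicit false
open scoped ContDiff Manifold Topology Matrix
open MeasureTheory Filter Set

namespace Pool.Agent.QTot.C11
open Pool.Agent.QTot
open Pool.Agent.QTot.C4 (solS_smooth amb_cyl)
open Pool.Agent.QTot.C5 (uu_cyl)
open Pool.Agent.QTot.C6 (chain)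
open Pool.Agent.QTot.C7 (sol_prop)
open Pool.Agent.QTot.C8 (rel)
open Pool.Agent.QTot.C9 (pos2)
open Pool.Agent.QTot.C10 (pos4)











/-! ## TARGET (prove this) -/

theorem cp_Qloc (a b n : ℕ) (ha : 1 ≤ a) (hb : 1 ≤ b) (hn : n = 2 * (a + b)) :
    ∀ x : Eu n, rr (2 * a) x ≠ 0 → Qloc (fun y : Eu n => TS (2 * a) y + TF (2 * a) y) x =
      2 ^ (a + b - 1) * ((a + b - 1).factorial : ℝ) * ((a + b).factorial : ℝ) *
        cf (a + b) (fun r => (solS (2 * a) (2 * ((a + b : ℕ) : ℝ)) (a + b) (a + b)).1 r ^ a *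
          (solS (2 * a) (2 * ((a + b : ℕ) : ℝ)) (a + b) (a + b)).2 r ^ b) := by
  intro x hx
  subst hn
  have hn2 : (2 * (a + b)) / 2 = a + b := by omega
  have hp : 2 * a + 1 ≤ 2 * (a + b) := by omega
  have hnc : ((2 * (a + b) : ℕ) : ℝ) = 2 * ((a + b : ℕ) : ℝ) := by push_cast; ring
  have hpc : ((2 * a : ℕ) : ℝ) = 2 * (a : ℝ) := by push_cast; ring
  have hP := amb_cyl (n := 2 * (a + b)) (2 * a) hp (a + b)
  rw [hn2, hnc, hpc] at hP
  obtain ⟨hA, hB, hA0, hB0⟩ := solS_smooth (2 * a) (2 * ((a + b : ℕ) : ℝ)) (a + b) (a + b)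
  have h1 := uu_cyl (n := 2 * (a + b)) (2 * a) hp hA hB hP (a + b - 1) 0 x hx
    (by rw [hA0]; exact one_ne_zero) (by rw [hB0]; exact one_ne_zero)
  unfold Qloc
  rw [hn2, h1, hnc, hpc]
  have h2 := chain a b (by omega) hA hB hA0 hB0
  have h3 : (2 * (a : ℝ) + 2 * (b : ℝ)) = 2 * ((a + b : ℕ) : ℝ) := by push_cast; ring
  rw [h3] at h2
  rw [h2]
  obtain ⟨m, hm⟩ : ∃ m, a + b = m + 1 := ⟨a + b - 1, by omega⟩
  have h4 : -(-1 : ℝ) ^ (a + b) * (-2) ^ (a + b - 1) = 2 ^ (a + b - 1) := by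
    rw [hm, Nat.add_sub_cancel, pow_succ]
    have : (-(( -1 : ℝ) ^ m * -1)) * (-2) ^ m = ((-1) * (-2)) ^ m := by
      rw [mul_pow]; ring
    rw [this]; norm_num
  rw [← h4]
  ring

theorem cp_pos_odd (h : ℕ) (hh : Odd h) (h3 : 3 ≤ h) :
    0 < cf h (fun r => (solS (2 * (1 : ℕ)) (2 * (h : ℝ)) h h).1 r ^ 1 *
          (solS (2 * (1 : ℕ)) (2 * (h : ℝ)) h h).2 r ^ (h - 1)) := by
  obtain ⟨hA, hB, hA0, hB0⟩ := solS_smooth (2 * (1 : ℕ)) (2 * (h : ℝ)) h h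
  obtain ⟨hs, ht⟩ := sol_prop h (by omega) (2 * (1 : ℕ))
  obtain ⟨v, W, X, hv, hv0, hW0, h1, h2, h3'⟩ := rel 1 (h - 1) le_rfl h (by omega) (by omega) hA hB hA0 hB0
    hs ht
  rw [← hv]
  obtain ⟨m, rfl⟩ : ∃ m, h = m + 1 := ⟨h - 1, by omega⟩
  refine pos2 m ?_ v W X hv0 hW0 ?_ ?_ ?_
  · rcases Nat.even_or_odd m with hm | hm
    · exact hm
    · exact absurd hh (by rw [Nat.not_odd_iff_even]; exact hm.add_odd odd_one)
  · intro k hk
    have := h1 k (by omega)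
    push_cast at this ⊢
    linear_combination this
  · intro k hk
    have := h2 k (by omega)
    push_cast at this ⊢
    linear_combination this
  · intro k _
    exact h3' k

theorem cp_pos_even (h : ℕ) (hh : Even h) (h3 : 3 ≤ h) :
    0 < cf h (fun r => (solS (2 * (2 : ℕ)) (2 * (h : ℝ)) h h).1 r ^ 2 *
          (solS (2 * (2 : ℕ)) (2 * (h : ℝ)) h h).2 r ^ (h - 2)) := by
  obtain ⟨hA, hB, hA0, hB0⟩ := solS_smooth (2 * (2 : ℕ)) (2 * (h : ℝ)) h h
  obtain ⟨hs, ht⟩ := sol_prop h (by omega) (2 * (2 : ℕ))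
  obtain ⟨v, W, X, hv, hv0, hW0, h1, h2, h3'⟩ := rel 2 (h - 2) (by omega) h (by omega) (by omega) hA hB hA0 hB0
    hs ht
  rw [← hv]
  obtain ⟨m, rfl⟩ : ∃ m, h = m + 1 := ⟨h - 1, by omega⟩
  have hodd : Odd m := by
    rcases Nat.even_or_odd m with hm | hm
    · exact absurd hh (by rw [Nat.not_even_iff_odd]; exact hm.add_odd odd_one)
    · exact hm
  refine pos4 m hodd ?_ v W X hv0 hW0 ?_ ?_ ?_
  · obtain ⟨j, hj⟩ := hodd
    omega
  · intro k hk
    have := h1 k (by omega)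
    push_cast at this ⊢
    linear_combination this
  · intro k hk
    have := h2 k (by omega)
    push_cast at this ⊢
    linear_combination this
  · intro k _
    exact h3' k

/- Idea: `n = 2h`.  If `h` is odd take `p = 2` (`a = 1`), if `h` is even take `p = 4` (`a = 2`), `b = h - a`, `m = h - 1`.
`Qloc = -(-1)^h uu (amb G h) (h-1) 0 x = -(-1)^h uS (h-1) 0` by `amb_cyl`, `uu_cyl` (`A 0 = B 0 = 1`), and `chain` gives
`Qloc = 2^(h-1) (h-1)! h! cf h (A^a B^b)`, positive by `sol_prop`, `rel` and `pos2` / `pos4`. -/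
theorem cyl_pos (n : ℕ) (hn : Even n) (h6 : 6 ≤ n) :
    ∃ p : ℕ, 2 ≤ p ∧ p + 2 ≤ n ∧ Even p ∧ ∃ Q0 : ℝ, 0 < Q0 ∧
      ∀ x : Eu n, rr p x ≠ 0 → Qloc (fun y : Eu n => TS p y + TF p y) x = Q0 := by
  obtain ⟨h, hh⟩ := hn
  have hn2 : n = 2 * h := by omega
  rcases Nat.even_or_odd h with he | ho
  · have h4 : 4 ≤ h := by
      obtain ⟨j, hj⟩ := he
      omega
    have hb : 2 + (h - 2) = h := by omega
    have hQ := cp_Qloc 2 (h - 2) n (by omega) (by omega) (by omega)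
    rw [hb] at hQ
    refine ⟨2 * 2, by omega, by omega, ⟨2, rfl⟩, _, ?_, hQ⟩
    have h5 := cp_pos_even h he (by omega)
    exact mul_pos (by positivity) h5
  · have hb : 1 + (h - 1) = h := by omega
    have hQ := cp_Qloc 1 (h - 1) n (by omega) (by omega) (by omega)
    rw [hb] at hQ
    refine ⟨2 * 1, by omega, by omega, ⟨1, rfl⟩, _, ?_, hQ⟩
    have h5 := cp_pos_odd h ho (by omega)
    exact mul_pos (by positivity) h5

end Pool.Agent.QTot.C11
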