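import Pool.Agent.QTot.Base2

set_option autoImplicit false
open scoped ContDiff Manifold Topology Matrix
open MeasureTheory Filter Set

namespace Pool.Agent.QTot.FL
open Pool.Agent.QTot


/-! ## TARGET (prove this) -/

theorem q_flat_pd {n : ℕ} (i : Fin n) (c : ℝ) (x : Eu n) : pd i (fun _ : Eu n => c) x = 0 := by
  unfold pd
  rw [fderiv_const_apply]
  rfl

theorem q_flat_Gam {n : ℕ} (A : Mt n) (k i j : Fin n) :
    Gam (fun _ : Eu n => A) k i j = fun _ => 0 := by
  funext x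
  unfold Gam
  simp [q_flat_pd]

theorem q_flat_Ric {n : ℕ} (A : Mt n) (x : Eu n) : Ric (fun _ : Eu n => A) x = 0 := by
  ext i j
  unfold Ric
  simp [q_flat_Gam, q_flat_pd]

theorem q_flat_dr {n : ℕ} (A : Mt n) : dr (fun (_ : ℝ) (_ : Eu n) => A) = fun _ _ => 0 := by
  funext r x
  ext i j
  simp [dr]

theorem q_flat_tau {n : ℕ} (A : Mt n) (r : ℝ) (x : Eu n) :
    tau (fun (_ : ℝ) (_ : Eu n) => A) r x = 0 := by
  unfold tau
  rw [q_flat_dr]
  simp

theorem q_flat_EFG {n : ℕ} (A : Mt n) (r : ℝ) (x : Eu n) :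
    EFG (fun (_ : ℝ) (_ : Eu n) => A) r x = 0 := by
  unfold EFG
  rw [q_flat_dr, q_flat_dr, q_flat_tau, q_flat_Ric]
  simp

theorem q_flat_res {n : ℕ} (A : Mt n) (k : ℕ) (x : Eu n) :
    res (fun (_ : ℝ) (_ : Eu n) => A) k x = 0 := by
  ext i j
  unfold res cf
  have h : (fun r : ℝ => EFG (fun (_ : ℝ) (_ : Eu n) => A) r x i j) = fun _ => (0 : ℝ) := by
    funext r
    rw [q_flat_EFG]
    rfl
  simp only [Matrix.of_apply, Matrix.zero_apply]
  rw [h]
  have h2 : iteratedDeriv k (fun _ : ℝ => (0 : ℝ)) 0 = 0 := by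
    simp [iteratedDeriv_const]
  rw [h2, zero_div]

theorem q_flat_amb {n : ℕ} (k : ℕ) :
    amb (fun _ : Eu n => (1 : Mt n)) k = fun _ _ => (1 : Mt n) := by
  induction k with
  | zero => rfl
  | succ k ih =>
    funext r x
    have h : nxt (fun _ : Eu n => (1 : Mt n)) (fun _ _ => (1 : Mt n)) k x = 0 := by
      unfold nxt
      simp [q_flat_res]
    show amb (fun _ : Eu n => (1 : Mt n)) k r x +
      r ^ (k + 1) • nxt (fun _ : Eu n => (1 : Mt n)) (amb (fun _ : Eu n => (1 : Mt n)) k) k x = 1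
    rw [ih, h, smul_zero, add_zero]

theorem q_flat_uu {n : ℕ} (A : Mt n) (k : ℕ) :
    uu (fun (_ : ℝ) (_ : Eu n) => A) k = fun _ _ => 0 := by
  induction k with
  | zero =>
    funext r x
    show tau (fun (_ : ℝ) (_ : Eu n) => A) r x / 2 = 0
    rw [q_flat_tau, zero_div]
  | succ k ih =>
    funext r x
    show Dw (fun (_ : ℝ) (_ : Eu n) => A) (-2 * ((k : ℝ) + 1))
      (uu (fun (_ : ℝ) (_ : Eu n) => A) k) r x = 0
    rw [ih]
    unfold Dw Lap
    have h : ∀ j : Fin n, pd j (fun _ : Eu n => (0 : ℝ)) = fun _ => 0 := fun j =>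
      funext fun x => q_flat_pd j 0 x
    simp [h, q_flat_pd]

/- Idea: `Ric` of a constant matrix field is `0`, `EFG` of a constant family is `0`, so `amb (fun _ => 1) k r x = 1` for
all `k` by induction, `tau = 0`, `uu = 0`. -/
theorem q_flat {n : ℕ} (hn2 : 2 ≤ n) (x : Eu n) : Qloc (fun _ : Eu n => (1 : Mt n)) x = 0 := by
  unfold Qloc
  rw [q_flat_amb, q_flat_uu, mul_zero]

end Pool.Agent.QTot.FL
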