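import Pool.Agent.QTot.Base2

set_option autoImplicit false
open scoped ContDiff Manifold Topology Matrix
open MeasureTheory Filter Set

namespace Pool.Agent.QTot.N1
open Pool.Agent.QTot


private theorem pd_mul' {n : ℕ} {f g : Eu n → ℝ} {x : Eu n} (hf : DifferentiableAt ℝ f x)
    (hg : DifferentiableAt ℝ g x) (i : Fin n) :
    pd i (fun y => f y * g y) x = pd i f x * g x + f x * pd i g x := by
  unfold pd
  rw [fderiv_fun_mul hf hg]
  simp [smul_eq_mul]
  ring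

private theorem pd_sum' {n : ℕ} {ι : Type} [Fintype ι] {f : ι → Eu n → ℝ} {x : Eu n}
    (hf : ∀ a, DifferentiableAt ℝ (f a) x) (i : Fin n) :
    pd i (fun y => ∑ a, f a y) x = ∑ a, pd i (f a) x := by
  unfold pd
  rw [fderiv_fun_sum (fun a _ => hf a)]
  simp

private theorem contDiffAt_pd {n : ℕ} {f : Eu n → ℝ} {x : Eu n} (hf : ContDiffAt ℝ ∞ f x)
    (i : Fin n) : ContDiffAt ℝ ∞ (pd i f) x := by
  have h1 : ContDiffAt ℝ ∞ (fderiv ℝ f) x := hf.fderiv_right (by simp)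
  exact h1.clm_apply contDiffAt_const

private theorem pd_pd {n : ℕ} {f : Eu n → ℝ} {x : Eu n} (hf : ContDiffAt ℝ ∞ f x)
    (k i : Fin n) : pd k (pd i f) x =
      fderiv ℝ (fderiv ℝ f) x (Pi.single k 1) (Pi.single i 1) := by
  have h1 : ContDiffAt ℝ ∞ (fderiv ℝ f) x := hf.fderiv_right (by simp)
  have h2 : DifferentiableAt ℝ (fderiv ℝ f) x := h1.differentiableAt (by simp)
  have h3 : pd i f = fun y => fderiv ℝ f y (Pi.single i 1) := rfl
  rw [h3]
  unfold pd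
  rw [fderiv_clm_apply h2 (differentiableAt_const _)]
  simp

private theorem pd_comm {n : ℕ} {f : Eu n → ℝ} {x : Eu n} (hf : ContDiffAt ℝ ∞ f x)
    (k i : Fin n) : pd k (pd i f) x = pd i (pd k f) x := by
  rw [pd_pd hf, pd_pd hf]
  have : IsSymmSndFDerivAt ℝ f x := hf.isSymmSndFDerivAt (by
    rw [minSmoothness_of_isRCLikeNormedField]
    exact WithTop.coe_le_coe.2 le_top)
  exact this _ _

private theorem pd_comp {n : ℕ} {φ : Eu n → Eu n} {x : Eu n} (hφ : DifferentiableAt ℝ φ x)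
    {g : Eu n → ℝ} (hg : DifferentiableAt ℝ g (φ x)) (k : Fin n) :
    pd k (fun y => g (φ y)) x = ∑ c, pd c g (φ x) * Jac φ x c k := by
  unfold pd
  have h1 : fderiv ℝ (fun y => g (φ y)) x = (fderiv ℝ g (φ x)).comp (fderiv ℝ φ x) :=
    fderiv_comp x hg hφ
  rw [h1, ContinuousLinearMap.comp_apply]
  have h2 : fderiv ℝ φ x (Pi.single k 1) = ∑ c, Jac φ x c k • (Pi.single c (1:ℝ) : Eu n) := by
    funext d
    rw [Finset.sum_apply]
    simp only [Pi.smul_apply, smul_eq_mul]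
    rw [Finset.sum_eq_single d]
    · rw [Pi.single_eq_same, mul_one]
      unfold Jac
      rw [Matrix.of_apply]
      unfold pd
      rw [fderiv_apply hφ]
      rfl
    · intro c _ hc
      rw [Pi.single_eq_of_ne hc.symm, mul_zero]
    · intro h
      exact absurd (Finset.mem_univ d) h
  rw [h2, map_sum]
  apply Finset.sum_congr rfl
  intro c _
  rw [map_smul, smul_eq_mul, mul_comm]

/-- the derivative of the pull-back -/
private theorem pd_pull {n : ℕ} {φ : Eu n → Eu n} {x₀ : Eu n} (hφ : ContDiffAt ℝ ∞ φ x₀)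
    {G : Eu n → Mt n} (hG : ∀ i j, ContDiffAt ℝ ∞ (fun x => G x i j) (φ x₀)) (k i j : Fin n) :
    pd k (fun y => pull φ G y i j) x₀ =
      ∑ b, ∑ a, (pd k (pd i (fun y => φ y a)) x₀ * G (φ x₀) a b * Jac φ x₀ b j
        + Jac φ x₀ a i * (∑ c, pd c (fun y => G y a b) (φ x₀) * Jac φ x₀ c k) * Jac φ x₀ b j
        + Jac φ x₀ a i * G (φ x₀) a b * pd k (pd j (fun y => φ y b)) x₀) := by
  have hφd : DifferentiableAt ℝ φ x₀ := hφ.differentiableAt (by simp)
  have hφa : ∀ a, ContDiffAt ℝ ∞ (fun y => φ y a) x₀ := fun a => (contDiffAt_pi.1 hφ) a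
  have hJ : ∀ a i, DifferentiableAt ℝ (pd i (fun y => φ y a)) x₀ := fun a i =>
    (contDiffAt_pd (hφa a) i).differentiableAt (by simp)
  have hGd : ∀ a b, DifferentiableAt ℝ (fun y => G y a b) (φ x₀) := fun a b =>
    (hG a b).differentiableAt (by simp)
  have hGφ : ∀ a b, DifferentiableAt ℝ (fun y => G (φ y) a b) x₀ := fun a b =>
    DifferentiableAt.comp x₀ (g := fun y => G y a b) (hGd a b) hφd
  have h1 : (fun y => pull φ G y i j) = fun y => ∑ b,
      (∑ a, pd i (fun z => φ z a) y * G (φ y) a b) * pd j (fun z => φ z b) y := by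
    funext y
    simp only [pull, Matrix.mul_apply, Matrix.transpose_apply, Jac, Matrix.of_apply]
  have h2 : ∀ b, DifferentiableAt ℝ (fun y => ∑ a, pd i (fun z => φ z a) y * G (φ y) a b) x₀ := by
    intro b
    apply DifferentiableAt.fun_sum
    intro a _
    exact (hJ a i).mul (hGφ a b)
  rw [h1, pd_sum' (fun b => (h2 b).fun_mul (hJ b j))]
  apply Finset.sum_congr rfl
  intro b _
  rw [pd_mul' (h2 b) (hJ b j), pd_sum' (fun a => (hJ a i).fun_mul (hGφ a b)), Finset.sum_mul,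
    Finset.sum_mul, ← Finset.sum_add_distrib]
  apply Finset.sum_congr rfl
  intro a _
  rw [pd_mul' (hJ a i) (hGφ a b), pd_comp hφd (hGd a b)]
  simp only [Jac, Matrix.of_apply]
  ring

/-! ## TARGET (prove this) -/

/- The transformation law of the Christoffel symbols.  Idea: write `H = pull φ G`, `H_{ij} = ∑_{ab} J_{ai} G_{ab}(φ) J_{bj}`;
product and chain rule give `∂_k H_{ij} = ∑ ∂_k J_{ai} G_{ab} J_{bj} + ∑ J_{ai} (∂_c G_{ab}) J_{ck} J_{bj} + ∑ J_{ai} G_{ab} ∂_k J_{bj}`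
with `∂_k J_{ai} = ∂_k ∂_i φ_a` symmetric in `i, k`.  Then `(1/2)(∂_i H_{jl} + ∂_j H_{il} - ∂_l H_{ij}) =
∑_{ab} J_{al} G_{ab} (∂_i ∂_j φ_b) + ∑ (Christoffel of G of the first kind) J J J`, and `H⁻¹ = J⁻¹ G⁻¹ J⁻ᵀ`. -/
theorem gam_pull {n : ℕ} {φ : Eu n → Eu n} {x₀ : Eu n} (hφ : ContDiffAt ℝ ∞ φ x₀) (hJ : (Jac φ x₀).det ≠ 0)
    {G : Eu n → Mt n} (hG : ∀ i j, ContDiffAt ℝ ∞ (fun x => G x i j) (φ x₀))
    (hs : ∀ᶠ x in 𝓝 (φ x₀), (G x).IsSymm) (hd : (G (φ x₀)).det ≠ 0) (a i j : Fin n) :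
    ∑ k, Jac φ x₀ a k * Gam (pull φ G) k i j x₀ =
      ∑ b, ∑ c, Gam G a b c (φ x₀) * Jac φ x₀ b i * Jac φ x₀ c j + pd i (pd j (fun y => φ y a)) x₀ := by
  have hφa : ∀ a, ContDiffAt ℝ ∞ (fun y => φ y a) x₀ := fun a => (contDiffAt_pi.1 hφ) a
  have hsx : (G (φ x₀)).IsSymm := hs.self_of_nhds
  have hsymm : ∀ a b, G (φ x₀) a b = G (φ x₀) b a := fun a b => (hsx.apply a b).symm
  have hD : ∀ a k i, pd k (pd i (fun y => φ y a)) x₀ = pd i (pd k (fun y => φ y a)) x₀ :=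
    fun a k i => pd_comm (hφa a) k i
  -- first kind symbols
  have key : ∀ l, pd i (fun y => pull φ G y j l) x₀ + pd j (fun y => pull φ G y i l) x₀
      - pd l (fun y => pull φ G y i j) x₀ =
      ∑ m, (Jac φ x₀)ᵀ l m * (2 * (∑ a, G (φ x₀) m a * pd i (pd j (fun y => φ y a)) x₀) +
        ∑ b, ∑ c, Jac φ x₀ b i * Jac φ x₀ c j * (pd b (fun y => G y c m) (φ x₀)
          + pd c (fun y => G y b m) (φ x₀) - pd m (fun y => G y b c) (φ x₀))) := by
    intro l
    rw [pd_pull hφ hG, pd_pull hφ hG, pd_pull hφ hG]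
    simp only [Finset.sum_add_distrib]
    have e1 : ∑ b, ∑ a, pd j (pd i fun y => φ y a) x₀ * G (φ x₀) a b * Jac φ x₀ b l =
        ∑ b, ∑ a, pd i (pd j fun y => φ y a) x₀ * G (φ x₀) a b * Jac φ x₀ b l := by
      simp only [hD _ j i]
    have e2 : ∑ b, ∑ a, pd l (pd i fun y => φ y a) x₀ * G (φ x₀) a b * Jac φ x₀ b j =
        ∑ b, ∑ a, Jac φ x₀ a j * G (φ x₀) a b * pd i (pd l fun y => φ y b) x₀ := by
      rw [Finset.sum_comm]
      apply Finset.sum_congr rfl; intro b _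
      apply Finset.sum_congr rfl; intro a _
      rw [hD b l i, hsymm b a]; ring
    have e3 : ∑ b, ∑ a, Jac φ x₀ a i * G (φ x₀) a b * pd l (pd j fun y => φ y b) x₀ =
        ∑ b, ∑ a, Jac φ x₀ a i * G (φ x₀) a b * pd j (pd l fun y => φ y b) x₀ := by
      simp only [hD _ l j]
    have e4 : ∑ b, ∑ a, pd i (pd j fun y => φ y a) x₀ * G (φ x₀) a b * Jac φ x₀ b l =
        ∑ m, (Jac φ x₀)ᵀ l m * (∑ a, G (φ x₀) m a * pd i (pd j (fun y => φ y a)) x₀) := by
      apply Finset.sum_congr rfl; intro b _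
      rw [Finset.mul_sum]
      apply Finset.sum_congr rfl; intro a _
      rw [hsymm a b, Matrix.transpose_apply]; ring
    have e5 : ∑ b, ∑ a, Jac φ x₀ a j * (∑ c, pd c (fun y => G y a b) (φ x₀) * Jac φ x₀ c i) *
          Jac φ x₀ b l =
        ∑ m, (Jac φ x₀)ᵀ l m * (∑ b, ∑ c, Jac φ x₀ b i * Jac φ x₀ c j *
          pd b (fun y => G y c m) (φ x₀)) := by
      apply Finset.sum_congr rfl; intro m _
      rw [Finset.sum_comm (γ := Fin n), Finset.mul_sum]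
      apply Finset.sum_congr rfl; intro a _
      rw [Finset.mul_sum, Finset.sum_mul, Finset.mul_sum]
      apply Finset.sum_congr rfl; intro c _
      rw [Matrix.transpose_apply]; ring
    have e6 : ∑ b, ∑ a, Jac φ x₀ a i * (∑ c, pd c (fun y => G y a b) (φ x₀) * Jac φ x₀ c j) *
          Jac φ x₀ b l =
        ∑ m, (Jac φ x₀)ᵀ l m * (∑ b, ∑ c, Jac φ x₀ b i * Jac φ x₀ c j *
          pd c (fun y => G y b m) (φ x₀)) := by
      apply Finset.sum_congr rfl; intro m _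
      rw [Finset.mul_sum]
      apply Finset.sum_congr rfl; intro a _
      rw [Finset.mul_sum, Finset.sum_mul, Finset.mul_sum]
      apply Finset.sum_congr rfl; intro c _
      rw [Matrix.transpose_apply]; ring
    have e7 : ∑ b, ∑ a, Jac φ x₀ a i * (∑ c, pd c (fun y => G y a b) (φ x₀) * Jac φ x₀ c l) *
          Jac φ x₀ b j =
        ∑ m, (Jac φ x₀)ᵀ l m * (∑ b, ∑ c, Jac φ x₀ b i * Jac φ x₀ c j *
          pd m (fun y => G y b c) (φ x₀)) := by
      have q1 : ∑ b, ∑ a, Jac φ x₀ a i * (∑ c, pd c (fun y => G y a b) (φ x₀) * Jac φ x₀ c l) *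
          Jac φ x₀ b j = ∑ b, ∑ a, ∑ c, Jac φ x₀ a i * (pd c (fun y => G y a b) (φ x₀) *
            Jac φ x₀ c l) * Jac φ x₀ b j := by
        simp only [Finset.mul_sum, Finset.sum_mul]
      have q2 : ∑ m, (Jac φ x₀)ᵀ l m * (∑ b, ∑ c, Jac φ x₀ b i * Jac φ x₀ c j *
          pd m (fun y => G y b c) (φ x₀)) = ∑ c, ∑ a, ∑ b, Jac φ x₀ a i *
            (pd c (fun y => G y a b) (φ x₀) * Jac φ x₀ c l) * Jac φ x₀ b j := by
        simp only [Finset.mul_sum]
        apply Finset.sum_congr rfl; intro c _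
        apply Finset.sum_congr rfl; intro a _
        apply Finset.sum_congr rfl; intro b _
        rw [Matrix.transpose_apply]; ring
      rw [q1, q2, Finset.sum_comm]
      have q3 : ∀ a : Fin n, ∑ b, ∑ c, Jac φ x₀ a i * (pd c (fun y => G y a b) (φ x₀) *
            Jac φ x₀ c l) * Jac φ x₀ b j = ∑ c, ∑ b, Jac φ x₀ a i *
            (pd c (fun y => G y a b) (φ x₀) * Jac φ x₀ c l) * Jac φ x₀ b j := by
        intro a
        rw [Finset.sum_comm]
      simp only [q3]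
      rw [Finset.sum_comm]
    rw [e1, e2, e3, e4, e5, e6, e7]
    simp only [mul_add, mul_sub, Finset.sum_add_distrib, Finset.sum_sub_distrib]
    have e8 : ∑ m, (Jac φ x₀)ᵀ l m * (2 * ∑ a, G (φ x₀) m a * pd i (pd j fun y => φ y a) x₀) =
        2 * ∑ m, (Jac φ x₀)ᵀ l m * ∑ a, G (φ x₀) m a * pd i (pd j fun y => φ y a) x₀ := by
      rw [Finset.mul_sum]
      apply Finset.sum_congr rfl; intro m _
      ring
    rw [e8]
    ring
  have hGu : IsUnit (G (φ x₀)).det := isUnit_iff_ne_zero.2 hd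
  have hJu : IsUnit (Jac φ x₀).det := isUnit_iff_ne_zero.2 hJ
  have hJtu : IsUnit (Jac φ x₀)ᵀ.det := by rw [Matrix.det_transpose]; exact hJu
  have hinv : Jac φ x₀ * (pull φ G x₀)⁻¹ * (Jac φ x₀)ᵀ = (G (φ x₀))⁻¹ := by
    unfold pull
    rw [Matrix.mul_inv_rev, Matrix.mul_inv_rev, ← Matrix.mul_assoc, Matrix.mul_nonsing_inv _ hJu,
      Matrix.one_mul, Matrix.mul_assoc, Matrix.nonsing_inv_mul _ hJtu, Matrix.mul_one]
  set V : Fin n → ℝ := fun m => 2 * (∑ a, G (φ x₀) m a * pd i (pd j (fun y => φ y a)) x₀) +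
        ∑ b, ∑ c, Jac φ x₀ b i * Jac φ x₀ c j * (pd b (fun y => G y c m) (φ x₀)
          + pd c (fun y => G y b m) (φ x₀) - pd m (fun y => G y b c) (φ x₀)) with hV
  have lhs : ∑ k, Jac φ x₀ a k * Gam (pull φ G) k i j x₀ =
      (1 / 2) * ∑ m, (G (φ x₀))⁻¹ a m * V m := by
    have h1 : ∑ k, Jac φ x₀ a k * Gam (pull φ G) k i j x₀ =
        (1 / 2) * (Jac φ x₀ *ᵥ ((pull φ G x₀)⁻¹ *ᵥ ((Jac φ x₀)ᵀ *ᵥ V))) a := by
      unfold Gam
      simp only [key]
      simp only [Matrix.mulVec, dotProduct, hV]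
      rw [Finset.mul_sum]
      apply Finset.sum_congr rfl; intro k _
      ring
    rw [h1, Matrix.mulVec_mulVec, Matrix.mulVec_mulVec, hinv]
    rfl
  rw [lhs]
  have h3 : ∑ m, (G (φ x₀))⁻¹ a m * (∑ a', G (φ x₀) m a' * pd i (pd j (fun y => φ y a')) x₀) =
      pd i (pd j (fun y => φ y a)) x₀ := by
    have : ∑ m, (G (φ x₀))⁻¹ a m * (∑ a', G (φ x₀) m a' * pd i (pd j (fun y => φ y a')) x₀) =
        ((G (φ x₀))⁻¹ *ᵥ (G (φ x₀) *ᵥ fun a' => pd i (pd j (fun y => φ y a')) x₀)) a := rfl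
    rw [this, Matrix.mulVec_mulVec, Matrix.nonsing_inv_mul _ hGu, Matrix.one_mulVec]
  have h4 : ∑ b, ∑ c, Gam G a b c (φ x₀) * Jac φ x₀ b i * Jac φ x₀ c j =
      (1 / 2) * ∑ m, (G (φ x₀))⁻¹ a m * ∑ b, ∑ c, Jac φ x₀ b i * Jac φ x₀ c j *
        (pd b (fun y => G y c m) (φ x₀) + pd c (fun y => G y b m) (φ x₀)
          - pd m (fun y => G y b c) (φ x₀)) := by
    unfold Gam
    simp only [Finset.mul_sum, Finset.sum_mul]
    symm
    rw [Finset.sum_comm]
    apply Finset.sum_congr rfl; intro b _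
    rw [Finset.sum_comm]
    apply Finset.sum_congr rfl; intro c _
    apply Finset.sum_congr rfl; intro m _
    ring
  rw [h4, ← h3]
  simp only [hV, mul_add, Finset.sum_add_distrib]
  have h5 : ∑ m, (G (φ x₀))⁻¹ a m * (2 * ∑ a', G (φ x₀) m a' * pd i (pd j fun y => φ y a') x₀) =
      2 * ∑ m, (G (φ x₀))⁻¹ a m * ∑ a', G (φ x₀) m a' * pd i (pd j fun y => φ y a') x₀ := by
    rw [Finset.mul_sum]
    apply Finset.sum_congr rfl; intro m _
    ring
  rw [h5]
  ring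

end Pool.Agent.QTot.N1
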