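import Pool.Agent.QTot.Base2
import Pool.Agent.QTot.N1

set_option autoImplicit false
open scoped ContDiff Manifold Topology Matrix
open MeasureTheory Filter Set

namespace Pool.Agent.QTot.N2
open Pool.Agent.QTot
open Pool.Agent.QTot.N1 (gam_pull)




/-! ## TARGET (prove this) -/

theorem pd_congr {n : ℕ} {i : Fin n} {f g : Eu n → ℝ} {x : Eu n} (h : f =ᶠ[𝓝 x] g) :
    pd i f x = pd i g x := by
  unfold pd
  rw [h.fderiv_eq]

theorem pd_add' {n : ℕ} {i : Fin n} {f g : Eu n → ℝ} {x : Eu n} (hf : DifferentiableAt ℝ f x)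
    (hg : DifferentiableAt ℝ g x) : pd i (fun y => f y + g y) x = pd i f x + pd i g x := by
  unfold pd
  rw [fderiv_fun_add hf hg]
  rfl

theorem pd_mul' {n : ℕ} {i : Fin n} {f g : Eu n → ℝ} {x : Eu n} (hf : DifferentiableAt ℝ f x)
    (hg : DifferentiableAt ℝ g x) :
    pd i (fun y => f y * g y) x = pd i f x * g x + f x * pd i g x := by
  unfold pd
  rw [fderiv_fun_mul hf hg]
  simp only [add_apply, smul_apply, smul_eq_mul]
  ring

theorem pd_sum' {n : ℕ} {ι : Type*} {i : Fin n} (s : Finset ι) {F : ι → Eu n → ℝ} {x : Eu n}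
    (h : ∀ a ∈ s, DifferentiableAt ℝ (F a) x) :
    pd i (fun y => ∑ a ∈ s, F a y) x = ∑ a ∈ s, pd i (F a) x := by
  unfold pd
  rw [fderiv_fun_sum h]
  simp

theorem pd_comp' {n : ℕ} {m : Fin n} {F : Eu n → ℝ} {φ : Eu n → Eu n} {x : Eu n}
    (hφ : DifferentiableAt ℝ φ x) (hF : DifferentiableAt ℝ F (φ x)) :
    pd m (fun y => F (φ y)) x = ∑ d, pd d F (φ x) * Jac φ x d m := by
  have h1 : HasFDerivAt (fun y => F (φ y)) ((fderiv ℝ F (φ x)).comp (fderiv ℝ φ x)) x :=
    hF.hasFDerivAt.comp x hφ.hasFDerivAt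
  have h2 : ∀ d, Jac φ x d m = (fderiv ℝ φ x (Pi.single m 1)) d := by
    intro d
    have := (hasFDerivAt_pi'.1 hφ.hasFDerivAt d).fderiv
    simp only [Jac, Matrix.of_apply, pd]
    rw [this]
    rfl
  unfold pd
  rw [h1.fderiv, ContinuousLinearMap.comp_apply]
  set v := fderiv ℝ φ x (Pi.single m 1) with hv
  have h3 : v = ∑ d, v d • (Pi.single d 1 : Eu n) := by
    ext e
    simp [Finset.sum_apply, Pi.single_apply]
  conv_lhs => rw [h3]
  rw [map_sum]
  refine Finset.sum_congr rfl fun d _ => ?_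
  rw [map_smul, smul_eq_mul, h2 d, mul_comm]

theorem pd_smooth {n : ℕ} {i : Fin n} {f : Eu n → ℝ} {x : Eu n} {k : ℕ}
    (hf : ContDiffAt ℝ (k + 1 : ℕ) f x) : ContDiffAt ℝ k (pd i f) x := by
  unfold pd
  have h := hf.fderiv_right (m := (k : WithTop ℕ∞)) (by norm_cast)
  exact h.clm_apply contDiffAt_const

theorem pd_symm {n : ℕ} {i j : Fin n} {f : Eu n → ℝ} {x : Eu n}
    (hf : ContDiffAt ℝ 2 f x) : pd i (pd j f) x = pd j (pd i f) x := by
  have hsym : IsSymmSndFDerivAt ℝ f x := hf.isSymmSndFDerivAt (by simp)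
  have hd : DifferentiableAt ℝ (fderiv ℝ f) x :=
    (hf.fderiv_right (m := 1) (by norm_num)).differentiableAt (by norm_num)
  have key : ∀ a b : Fin n, pd a (pd b f) x =
      fderiv ℝ (fderiv ℝ f) x (Pi.single a 1) (Pi.single b 1) := by
    intro a b
    unfold pd
    have h := (hd.hasFDerivAt).clm_apply (hasFDerivAt_const (Pi.single b (1:ℝ) : Eu n) x)
    rw [h.fderiv]
    simp
  rw [key, key]
  exact hsym _ _

/-- smoothness of the inverse entries -/
theorem inv_smooth {n : ℕ} {G : Eu n → Mt n} {x : Eu n} {k : ℕ}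
    (hG : ∀ i j, ContDiffAt ℝ k (fun y => G y i j) x) (hd : (G x).det ≠ 0) (a b : Fin n) :
    ContDiffAt ℝ k (fun y => (G y)⁻¹ a b) x := by
  classical
  have hdet : ∀ M : Eu n → Mt n, (∀ i j, ContDiffAt ℝ k (fun y => M y i j) x) →
      ContDiffAt ℝ k (fun y => (M y).det) x := by
    intro M hM
    simp only [Matrix.det_apply]
    refine ContDiffAt.sum fun σ _ => ?_
    refine ContDiffAt.const_smul _ ?_
    exact contDiffAt_prod fun i _ => hM _ _
  have hadj : ContDiffAt ℝ k (fun y => (G y).adjugate a b) x := by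
    simp only [Matrix.adjugate_apply]
    apply hdet
    intro i j
    by_cases h : i = b
    · subst h
      simp only [Matrix.updateRow_self]
      exact contDiffAt_const
    · simp only [Matrix.updateRow_ne h]
      exact hG i j
  have : (fun y => (G y)⁻¹ a b) = fun y => ((G y).det)⁻¹ * (G y).adjugate a b := by
    funext y
    rw [Matrix.inv_def, Ring.inverse_eq_inv']
    rfl
  rw [this]
  exact ((hdet G hG).inv hd).mul hadj

theorem det_cont {n : ℕ} {M : Eu n → Mt n} {x : Eu n}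
    (hM : ∀ i j, ContinuousAt (fun y => M y i j) x) : ContinuousAt (fun y => (M y).det) x := by
  simp only [Matrix.det_apply]
  refine tendsto_finsetSum _ fun σ _ => ?_
  refine Tendsto.const_smul ?_ _
  exact tendsto_finsetProd _ fun i _ => hM _ _

/-- the Christoffel symbols are differentiable -/
theorem gam_smooth {n : ℕ} {G : Eu n → Mt n} {x : Eu n} {k : ℕ}
    (hG : ∀ i j, ContDiffAt ℝ (k + 1 : ℕ) (fun y => G y i j) x) (hd : (G x).det ≠ 0)
    (a b c : Fin n) : ContDiffAt ℝ k (Gam G a b c) x := by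
  unfold Gam
  refine contDiffAt_const.mul (ContDiffAt.sum fun l _ => ?_)
  refine (inv_smooth (fun i j => (hG i j).of_le (by norm_cast; omega)) hd a l).mul ?_
  exact ((pd_smooth (hG _ _)).add (pd_smooth (hG _ _))).sub (pd_smooth (hG _ _))

theorem gam_sym {n : ℕ} {G : Eu n → Mt n} {x : Eu n} (hs : ∀ᶠ y in 𝓝 x, (G y).IsSymm)
    (a b c : Fin n) : Gam G a b c x = Gam G a c b x := by
  unfold Gam
  congr 1
  refine Finset.sum_congr rfl fun l _ => ?_
  have : pd l (fun y => G y b c) x = pd l (fun y => G y c b) x :=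
    pd_congr (hs.mono fun y hy => hy.apply _ _)
  rw [this]
  ring

/-- derivative of an entry of the pull-back -/
theorem pd_pull {n : ℕ} {φ : Eu n → Eu n} {x : Eu n} (hφ : ContDiffAt ℝ 2 φ x)
    {G : Eu n → Mt n} (hG : ∀ i j, DifferentiableAt ℝ (fun y => G y i j) (φ x)) (i j l : Fin n) :
    pd i (fun y => pull φ G y j l) x =
      ∑ c, ∑ b, ((∑ d, pd d (fun y => G y b c) (φ x) * Jac φ x d i) * Jac φ x b j * Jac φ x c l
        + G (φ x) b c * pd i (pd j (fun y => φ y b)) x * Jac φ x c l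
        + G (φ x) b c * Jac φ x b j * pd i (pd l (fun y => φ y c)) x) := by
  have hφd : DifferentiableAt ℝ φ x := hφ.differentiableAt (by norm_num)
  have hφa : ∀ a, ContDiffAt ℝ 2 (fun y => φ y a) x := fun a => contDiffAt_pi.1 hφ a
  have hJ : ∀ a k, DifferentiableAt ℝ (fun y => Jac φ y a k) x := by
    intro a k
    have : ContDiffAt ℝ (1 : ℕ) (pd k (fun y => φ y a)) x := pd_smooth (by exact_mod_cast hφa a)
    exact (this.differentiableAt (by norm_num))
  have hGφ : ∀ b c, DifferentiableAt ℝ (fun y => G (φ y) b c) x := by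
    intro b c
    exact (hG b c).comp x hφd
  have e1 : (fun y => pull φ G y j l) =
      fun y => ∑ c, (∑ b, Jac φ y b j * G (φ y) b c) * Jac φ y c l := by
    funext y
    simp only [pull, Matrix.mul_apply, Matrix.transpose_apply]
  have hm : ∀ b c, DifferentiableAt ℝ (fun y => Jac φ y b j * G (φ y) b c) x :=
    fun b c => (hJ b j).mul (hGφ b c)
  have hm2 : ∀ c, DifferentiableAt ℝ (fun y => ∑ b, Jac φ y b j * G (φ y) b c) x :=
    fun c => DifferentiableAt.fun_sum fun b _ => hm b c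
  have hm3 : ∀ c, DifferentiableAt ℝ (fun y => (∑ b, Jac φ y b j * G (φ y) b c) * Jac φ y c l) x :=
    fun c => (hm2 c).mul (hJ c l)
  rw [e1, pd_sum' _ (fun c _ => hm3 c)]
  refine Finset.sum_congr rfl fun c _ => ?_
  rw [pd_mul' (hm2 c) (hJ c l),
    pd_sum' _ (fun b _ => hm b c), Finset.sum_mul, Finset.sum_mul,
    ← Finset.sum_add_distrib]
  refine Finset.sum_congr rfl fun b _ => ?_
  rw [pd_mul' (hJ b j) (hGφ b c), pd_comp' hφd (hG b c)]
  have e2 : pd i (fun y => Jac φ y b j) x = pd i (pd j (fun y => φ y b)) x := rfl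
  have e3 : pd i (fun y => Jac φ y c l) x = pd i (pd l (fun y => φ y c)) x := rfl
  rw [e2, e3]
  ring

theorem gam_pull' {n : ℕ} {φ : Eu n → Eu n} {x : Eu n} (hφ : ContDiffAt ℝ 2 φ x)
    (hJ : (Jac φ x).det ≠ 0)
    {G : Eu n → Mt n} (hG : ∀ i j, DifferentiableAt ℝ (fun y => G y i j) (φ x))
    (hs : ∀ᶠ y in 𝓝 (φ x), (G y).IsSymm) (hd : (G (φ x)).det ≠ 0) (a i j : Fin n) :
    ∑ k, Jac φ x a k * Gam (pull φ G) k i j x =
      ∑ b, ∑ c, Gam G a b c (φ x) * Jac φ x b i * Jac φ x c j + pd i (pd j (fun y => φ y a)) x := by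
  classical
  have hφa : ∀ a, ContDiffAt ℝ 2 (fun y => φ y a) x := fun a => contDiffAt_pi.1 hφ a
  set J := Jac φ x with hJdef
  set g := G (φ x) with hg
  set H : Fin n → Fin n → Fin n → ℝ := fun a i j => pd i (pd j (fun y => φ y a)) x with hH
  set D : Fin n → Fin n → Fin n → ℝ := fun d b c => pd d (fun y => G y b c) (φ x) with hD
  have Hs : ∀ a i j, H a i j = H a j i := fun a i j => pd_symm (hφa a)
  have gs : ∀ b c, g b c = g c b := fun b c => hs.self_of_nhds.apply _ _
  have hgT : gᵀ = g := hs.self_of_nhds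
  -- the derivative of the pulled back metric
  let A : Fin n → Fin n → Fin n → ℝ := fun i j l =>
    ∑ c, ∑ b, (∑ d, D d b c * J d i) * J b j * J c l
  let B : Fin n → Fin n → Fin n → ℝ := fun i j l => ∑ c, ∑ b, g b c * H b i j * J c l
  have hpd : ∀ i j l, pd i (fun y => pull φ G y j l) x = A i j l + B i j l + B i l j := by
    intro i j l
    rw [pd_pull hφ hG]
    have e : B i l j = ∑ c, ∑ b, g b c * J b j * H c i l := by
      simp only [B]
      rw [Finset.sum_comm]
      refine Finset.sum_congr rfl fun c _ => Finset.sum_congr rfl fun b _ => ?_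
      rw [gs c b]
      ring
    rw [e]
    simp only [A, B, ← Finset.sum_add_distrib]
    rfl
  have Bs : ∀ i j l, B i j l = B j i l := by
    intro i j l
    simp only [B]
    refine Finset.sum_congr rfl fun c _ => Finset.sum_congr rfl fun b _ => ?_
    rw [Hs b i j]
  -- V
  let W : Fin n → ℝ := fun e => ∑ b, ∑ c, (D b c e + D c b e - D e b c) * J b i * J c j
  have hW : ∀ l, A i j l + A j i l - A l i j = ∑ e, J e l * W e := by
    intro l
    have a1 : A i j l = ∑ e, ∑ b, ∑ c, D b c e * J b i * J c j * J e l := by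
      simp only [A]
      refine Finset.sum_congr rfl fun e _ => ?_
      rw [Finset.sum_comm]
      refine Finset.sum_congr rfl fun c _ => ?_
      rw [Finset.sum_mul, Finset.sum_mul]
    have a2 : A j i l = ∑ e, ∑ b, ∑ c, D c b e * J b i * J c j * J e l := by
      simp only [A]
      refine Finset.sum_congr rfl fun e _ => ?_
      refine Finset.sum_congr rfl fun b _ => ?_
      rw [Finset.sum_mul, Finset.sum_mul]
      refine Finset.sum_congr rfl fun c _ => ?_
      ring
    have a3 : A l i j = ∑ e, ∑ b, ∑ c, D e b c * J b i * J c j * J e l := by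
      have : A l i j = ∑ c, ∑ b, ∑ e, D e b c * J b i * J c j * J e l := by
        simp only [A]
        refine Finset.sum_congr rfl fun c _ => Finset.sum_congr rfl fun b _ => ?_
        rw [Finset.sum_mul, Finset.sum_mul]
        refine Finset.sum_congr rfl fun e _ => ?_
        ring
      rw [this]
      calc _ = ∑ c, ∑ e, ∑ b, D e b c * J b i * J c j * J e l :=
            Finset.sum_congr rfl fun c _ => Finset.sum_comm
        _ = ∑ e, ∑ c, ∑ b, D e b c * J b i * J c j * J e l := Finset.sum_comm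
        _ = _ := Finset.sum_congr rfl fun c _ => Finset.sum_comm
    rw [a1, a2, a3, ← Finset.sum_add_distrib, ← Finset.sum_sub_distrib]
    refine Finset.sum_congr rfl fun e _ => ?_
    simp only [W, Finset.mul_sum]
    rw [← Finset.sum_add_distrib, ← Finset.sum_sub_distrib]
    refine Finset.sum_congr rfl fun b _ => ?_
    rw [← Finset.sum_add_distrib, ← Finset.sum_sub_distrib]
    refine Finset.sum_congr rfl fun c _ => ?_
    ring
  have hB : ∀ l, B i j l = ∑ e, J e l * ∑ b, g e b * H b i j := by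
    intro l
    simp only [B]
    refine Finset.sum_congr rfl fun e _ => ?_
    rw [Finset.mul_sum]
    refine Finset.sum_congr rfl fun b _ => ?_
    rw [gs b e]
    ring
  have hT : ∀ l, pd i (fun y => pull φ G y j l) x + pd j (fun y => pull φ G y i l) x
      - pd l (fun y => pull φ G y i j) x = (Jᵀ.mulVec (W + (2:ℝ) • g.mulVec (fun b => H b i j))) l := by
    intro l
    rw [hpd, hpd, hpd]
    have e1 := hW l
    have e2 := hB l
    have e3 : (Jᵀ.mulVec (W + (2:ℝ) • g.mulVec (fun b => H b i j))) l =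
        (∑ e, J e l * W e) + 2 * ∑ e, J e l * ∑ b, g e b * H b i j := by
      simp only [Matrix.mulVec, dotProduct, Matrix.transpose_apply, Pi.add_apply, Pi.smul_apply,
        smul_eq_mul]
      rw [Finset.mul_sum, ← Finset.sum_add_distrib]
      refine Finset.sum_congr rfl fun e _ => ?_
      ring
    rw [e3, ← e1, ← e2, Bs i l j, Bs j l i, Bs j i l]
    ring
  -- the inverse of the pulled back metric
  have hJu : IsUnit J.det := isUnit_iff_ne_zero.2 hJ
  have hJTu : IsUnit (Jᵀ).det := by rw [Matrix.det_transpose]; exact hJu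
  have hgu : IsUnit g.det := isUnit_iff_ne_zero.2 hd
  have hinv : J * (pull φ G x)⁻¹ * Jᵀ = g⁻¹ := by
    have : pull φ G x = Jᵀ * g * J := rfl
    rw [this, Matrix.mul_inv_rev, Matrix.mul_inv_rev]
    rw [← Matrix.mul_assoc, Matrix.mul_nonsing_inv _ hJu, Matrix.one_mul, Matrix.mul_assoc,
      Matrix.nonsing_inv_mul _ hJTu, Matrix.mul_one]
  have h1 : ∑ k, J a k * Gam (pull φ G) k i j x =
      (1 / 2) * (g⁻¹.mulVec (W + (2:ℝ) • g.mulVec (fun b => H b i j))) a := by
    rw [← hinv, ← Matrix.mulVec_mulVec, ← Matrix.mulVec_mulVec]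
    rw [show (J.mulVec ((pull φ G x)⁻¹.mulVec (Jᵀ.mulVec (W + (2:ℝ) • g.mulVec (fun b => H b i j))))) a
      = ∑ k, J a k * ((pull φ G x)⁻¹.mulVec (Jᵀ.mulVec (W + (2:ℝ) • g.mulVec (fun b => H b i j)))) k
      from rfl, Finset.mul_sum]
    refine Finset.sum_congr rfl fun k _ => ?_
    have : Gam (pull φ G) k i j x = 1 / 2 *
        ((pull φ G x)⁻¹.mulVec (Jᵀ.mulVec (W + (2:ℝ) • g.mulVec (fun b => H b i j)))) k := by
      unfold Gam
      congr 1
      refine Finset.sum_congr rfl fun l _ => ?_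
      rw [hT l]
    rw [this]
    ring
  rw [h1, Matrix.mulVec_add, Matrix.mulVec_smul, Matrix.mulVec_mulVec, Matrix.nonsing_inv_mul _ hgu,
    Matrix.one_mulVec]
  have h2 : (1 / 2) * (g⁻¹.mulVec W) a = ∑ b, ∑ c, Gam G a b c (φ x) * J b i * J c j := by
    simp only [Matrix.mulVec, dotProduct, W, Gam, Finset.mul_sum, Finset.sum_mul]
    rw [Finset.sum_comm]
    refine Finset.sum_congr rfl fun b _ => ?_
    rw [Finset.sum_comm]
    refine Finset.sum_congr rfl fun c _ => Finset.sum_congr rfl fun e _ => ?_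
    simp only [D]
    ring
  simp only [Pi.add_apply, Pi.smul_apply, smul_eq_mul]
  rw [mul_add, h2]
  simp only [H]
  ring

/-- curvature coefficients `R^a_{b c d} = ∂_c Γ^a_{b d} - ∂_d Γ^a_{b c} + Γ^a_{c e} Γ^e_{b d} - Γ^a_{d e} Γ^e_{b c}` -/
noncomputable def Rm {n : ℕ} (G : Eu n → Mt n) (a b c d : Fin n) (x : Eu n) : ℝ :=
  pd c (Gam G a b d) x - pd d (Gam G a b c) x +
    ∑ e, (Gam G a c e x * Gam G e b d x - Gam G a d e x * Gam G e b c x)

theorem Ric_eq {n : ℕ} (G : Eu n → Mt n) (x : Eu n) (i j : Fin n) :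
    Ric G x i j = ∑ k, Rm G k i k j x := by
  simp only [Ric, Matrix.of_apply, Rm]
  rw [← Finset.sum_sub_distrib, ← Finset.sum_add_distrib]

theorem rm_pull {n : ℕ} {φ : Eu n → Eu n} {x₀ : Eu n} (hφ : ContDiffAt ℝ ∞ φ x₀) (hJ : (Jac φ x₀).det ≠ 0)
    {G : Eu n → Mt n} (hG : ∀ i j, ContDiffAt ℝ ∞ (fun x => G x i j) (φ x₀))
    (hs : ∀ᶠ x in 𝓝 (φ x₀), (G x).IsSymm) (hd : (G (φ x₀)).det ≠ 0) (a i m j : Fin n) :
    ∑ k, Jac φ x₀ a k * Rm (pull φ G) k i m j x₀ =
      ∑ b, ∑ c, ∑ d, Rm G a b c d (φ x₀) * Jac φ x₀ b i * Jac φ x₀ c m * Jac φ x₀ d j := by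
  classical
  have hφ4 : ContDiffAt ℝ (4 : ℕ) φ x₀ := contDiffAt_infty.1 hφ 4
  have hφd : DifferentiableAt ℝ φ x₀ := hφ4.differentiableAt (by norm_num)
  have hφa : ∀ a, ContDiffAt ℝ (4 : ℕ) (fun y => φ y a) x₀ := fun a => contDiffAt_pi.1 hφ4 a
  have hG2 : ∀ i j, ContDiffAt ℝ (2 : ℕ) (fun x => G x i j) (φ x₀) :=
    fun i j => contDiffAt_infty.1 (hG i j) 2
  -- near points
  have hcφ : ContinuousAt φ x₀ := hφd.continuousAt
  have n1 : ∀ᶠ x in 𝓝 x₀, ContDiffAt ℝ 2 φ x := by
    have : ContDiffAt ℝ 2 φ x₀ := contDiffAt_infty.1 hφ 2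
    exact this.eventually (by simp)
  have hJc : ∀ a k, ContDiffAt ℝ (3 : ℕ) (fun y => Jac φ y a k) x₀ := fun a k =>
    pd_smooth (hφa a)
  have n2 : ∀ᶠ x in 𝓝 x₀, (Jac φ x).det ≠ 0 :=
    (det_cont (M := Jac φ) fun a k => (hJc a k).continuousAt).eventually_ne hJ
  have n3 : ∀ᶠ x in 𝓝 x₀, ∀ i j, DifferentiableAt ℝ (fun y => G y i j) (φ x) := by
    have : ∀ᶠ z in 𝓝 (φ x₀), ∀ i j, DifferentiableAt ℝ (fun y => G y i j) z := by
      rw [Filter.eventually_all]
      intro i
      rw [Filter.eventually_all]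
      intro j
      exact ((hG2 i j).eventually (by simp)).mono fun z hz => hz.differentiableAt (by norm_num)
    exact hcφ.eventually this
  have n4 : ∀ᶠ x in 𝓝 x₀, ∀ᶠ y in 𝓝 (φ x), (G y).IsSymm := hcφ.eventually hs.eventually_nhds
  have n5 : ∀ᶠ x in 𝓝 x₀, (G (φ x)).det ≠ 0 := by
    have : ∀ᶠ z in 𝓝 (φ x₀), (G z).det ≠ 0 :=
      (det_cont (M := G) fun a k => (hG2 a k).continuousAt).eventually_ne hd
    exact hcφ.eventually this
  -- smoothness of the Christoffel symbols
  have hGam : ∀ a b c, DifferentiableAt ℝ (Gam G a b c) (φ x₀) := fun a b c =>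
    (gam_smooth (k := 1) hG2 hd a b c).differentiableAt (by norm_num)
  have hpull : ∀ i j, ContDiffAt ℝ (2 : ℕ) (fun x => pull φ G x i j) x₀ := by
    intro i j
    have e1 : (fun y => pull φ G y i j) =
        fun y => ∑ c, (∑ b, Jac φ y b i * G (φ y) b c) * Jac φ y c j := by
      funext y
      simp only [pull, Matrix.mul_apply, Matrix.transpose_apply]
    rw [e1]
    refine ContDiffAt.sum fun c _ => ContDiffAt.mul (ContDiffAt.sum fun b _ => ContDiffAt.mul ?_ ?_) ?_
    · exact (hJc b i).of_le (by norm_cast)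
    · exact (hG2 b c).comp x₀ (hφ4.of_le (by norm_cast))
    · exact (hJc c j).of_le (by norm_cast)
  have hpulld : (pull φ G x₀).det ≠ 0 := by
    unfold pull
    rw [Matrix.det_mul, Matrix.det_mul, Matrix.det_transpose]
    exact mul_ne_zero (mul_ne_zero hJ hd) hJ
  have hGamt : ∀ a b c, DifferentiableAt ℝ (Gam (pull φ G) a b c) x₀ := fun a b c =>
    (gam_smooth (k := 1) hpull hpulld a b c).differentiableAt (by norm_num)
  have hGamφ : ∀ a b c, DifferentiableAt ℝ (fun y => Gam G a b c (φ y)) x₀ := fun a b c =>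
    (hGam a b c).comp x₀ hφd
  have hJd : ∀ a k, DifferentiableAt ℝ (fun y => Jac φ y a k) x₀ := fun a k =>
    (hJc a k).differentiableAt (by norm_num)
  -- numbers
  set J := Jac φ x₀ with hJdef
  set H : Fin n → Fin n → Fin n → ℝ := fun a i j => pd i (pd j (fun y => φ y a)) x₀ with hH
  set H3 : Fin n → Fin n → Fin n → Fin n → ℝ :=
    fun a m i j => pd m (pd i (pd j (fun y => φ y a))) x₀ with hH3
  set Γ : Fin n → Fin n → Fin n → ℝ := fun a b c => Gam G a b c (φ x₀) with hΓ
  set T : Fin n → Fin n → Fin n → ℝ := fun a b c => Gam (pull φ G) a b c x₀ with hT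
  set dΓ : Fin n → Fin n → Fin n → Fin n → ℝ := fun d a b c => pd d (Gam G a b c) (φ x₀) with hdΓ
  set dT : Fin n → Fin n → Fin n → Fin n → ℝ := fun d a b c => pd d (Gam (pull φ G) a b c) x₀ with hdT
  have Hs : ∀ a i j, H a i j = H a j i := fun a i j =>
    pd_symm ((hφa a).of_le (by norm_cast))
  have Γs : ∀ a b c, Γ a b c = Γ a c b := fun a b c => gam_sym hs a b c
  have H3s : ∀ a m i j, H3 a m i j = H3 a j i m := by
    intro a m i j
    have near : ∀ p q, pd p (pd q (fun y => φ y a)) =ᶠ[𝓝 x₀] pd q (pd p (fun y => φ y a)) := by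
      intro p q
      filter_upwards [((hφa a).of_le (by norm_cast : ((2 : ℕ) : WithTop ℕ∞) ≤ (4 : ℕ))).eventually (by simp)]
        with z hz
      exact pd_symm hz
    have hc : ∀ p, ContDiffAt ℝ 2 (pd p (fun y => φ y a)) x₀ := fun p =>
      (pd_smooth (k := 3) (hφa a)).of_le (by norm_cast)
    calc H3 a m i j = pd m (pd j (pd i (fun y => φ y a))) x₀ := pd_congr (near i j)
      _ = pd j (pd m (pd i (fun y => φ y a))) x₀ := pd_symm (hc i)
      _ = pd j (pd i (pd m (fun y => φ y a))) x₀ := pd_congr (near m i)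
      _ = H3 a j i m := rfl
  -- the transformation law at x₀
  have E0 : ∀ a i j, ∑ k, J a k * T k i j = ∑ b, ∑ c, Γ a b c * J b i * J c j + H a i j := by
    intro a i j
    exact gam_pull' (n1.self_of_nhds) hJ (n3.self_of_nhds) hs hd a i j
  -- the differentiated law
  have E1 : ∀ m i j, ∑ k, (H a m k * T k i j + J a k * dT m k i j) =
      ∑ b, ∑ c, ((∑ d, dΓ d a b c * J d m) * J b i * J c j + Γ a b c * H b m i * J c j
        + Γ a b c * J b i * H c m j) + H3 a m i j := by
    intro m i j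
    have near : (fun x => ∑ k, Jac φ x a k * Gam (pull φ G) k i j x) =ᶠ[𝓝 x₀]
        fun x => (∑ b, ∑ c, Gam G a b c (φ x) * Jac φ x b i * Jac φ x c j)
          + pd i (pd j (fun y => φ y a)) x := by
      filter_upwards [n1, n2, n3, n4, n5] with x h1 h2 h3 h4 h5
      exact gam_pull' h1 h2 h3 h4 h5 a i j
    have h := pd_congr (i := m) near
    have q1 : ∀ k, DifferentiableAt ℝ (fun x => Jac φ x a k * Gam (pull φ G) k i j x) x₀ :=
      fun k => (hJd a k).mul (hGamt k i j)
    have q2 : ∀ b c, DifferentiableAt ℝ (fun x => Gam G a b c (φ x) * Jac φ x b i) x₀ :=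
      fun b c => (hGamφ a b c).mul (hJd b i)
    have q3 : ∀ b c, DifferentiableAt ℝ (fun x => Gam G a b c (φ x) * Jac φ x b i * Jac φ x c j) x₀ :=
      fun b c => (q2 b c).mul (hJd c j)
    have q4 : ∀ b, DifferentiableAt ℝ (fun x => ∑ c, Gam G a b c (φ x) * Jac φ x b i * Jac φ x c j) x₀ :=
      fun b => DifferentiableAt.fun_sum fun c _ => q3 b c
    have q5 : DifferentiableAt ℝ (fun x => ∑ b, ∑ c, Gam G a b c (φ x) * Jac φ x b i * Jac φ x c j) x₀ :=
      DifferentiableAt.fun_sum fun b _ => q4 b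
    have q6 : DifferentiableAt ℝ (pd i (pd j (fun y => φ y a))) x₀ :=
      (pd_smooth (k := 2) (pd_smooth (k := 3) (hφa a))).differentiableAt (by norm_num)
    rw [pd_sum' _ (fun k _ => q1 k), pd_add' q5 q6, pd_sum' _ (fun b _ => q4 b)] at h
    have r1 : ∀ k, pd m (fun x => Jac φ x a k * Gam (pull φ G) k i j x) x₀ =
        H a m k * T k i j + J a k * dT m k i j := by
      intro k
      rw [pd_mul' (hJd a k) (hGamt k i j)]
      rfl
    have r2 : ∀ b, pd m (fun x => ∑ c, Gam G a b c (φ x) * Jac φ x b i * Jac φ x c j) x₀ =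
        ∑ c, ((∑ d, dΓ d a b c * J d m) * J b i * J c j + Γ a b c * H b m i * J c j
        + Γ a b c * J b i * H c m j) := by
      intro b
      rw [pd_sum' _ (fun c _ => q3 b c)]
      refine Finset.sum_congr rfl fun c _ => ?_
      rw [pd_mul' (q2 b c) (hJd c j), pd_mul' (hGamφ a b c) (hJd b i), pd_comp' hφd (hGam a b c)]
      have e2 : pd m (fun y => Jac φ y b i) x₀ = H b m i := rfl
      have e3 : pd m (fun y => Jac φ y c j) x₀ = H c m j := rfl
      rw [e2, e3]
      simp only [hdΓ, hΓ, ← hJdef]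
      ring
    simp only [r1, r2] at h
    exact h
  -- abbreviations
  let P : Fin n → Fin n → Fin n → ℝ := fun m i j => ∑ k, J a k * ∑ l, T k m l * T l i j
  let Q : Fin n → Fin n → Fin n → ℝ := fun m i j =>
    ∑ b, ∑ c, Γ a b c * J b m * ∑ d, ∑ e, Γ c d e * J d i * J e j
  let U : Fin n → Fin n → Fin n → ℝ := fun m i j => ∑ b, ∑ c, Γ a b c * J b m * H c i j
  let X : Fin n → Fin n → Fin n → ℝ := fun m i j =>
    ∑ b, ∑ c, (∑ d, dΓ d a b c * J d m) * J b i * J c j
  have Us : ∀ m i j, U m i j = U m j i := by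
    intro m i j
    simp only [U]
    refine Finset.sum_congr rfl fun b _ => Finset.sum_congr rfl fun c _ => ?_
    rw [Hs c i j]
  have hP : ∀ m i j, P m i j = Q m i j + U m i j + ∑ l, H a m l * T l i j := by
    intro m i j
    have s1 : P m i j = ∑ l, (∑ k, J a k * T k m l) * T l i j := by
      simp only [P, Finset.mul_sum, Finset.sum_mul]
      rw [Finset.sum_comm]
      refine Finset.sum_congr rfl fun l _ => Finset.sum_congr rfl fun k _ => ?_
      ring
    have s2 : ∑ l, (∑ k, J a k * T k m l) * T l i j =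
        ∑ l, (∑ b, ∑ c, Γ a b c * J b m * J c l) * T l i j + ∑ l, H a m l * T l i j := by
      rw [← Finset.sum_add_distrib]
      refine Finset.sum_congr rfl fun l _ => ?_
      rw [E0 a m l]
      ring
    have s3 : ∑ l, (∑ b, ∑ c, Γ a b c * J b m * J c l) * T l i j =
        ∑ b, ∑ c, Γ a b c * J b m * ∑ l, J c l * T l i j := by
      simp only [Finset.sum_mul, Finset.mul_sum]
      rw [Finset.sum_comm]
      refine Finset.sum_congr rfl fun b _ => ?_
      rw [Finset.sum_comm]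
      refine Finset.sum_congr rfl fun c _ => Finset.sum_congr rfl fun l _ => ?_
      ring
    have s4 : ∑ b, ∑ c, Γ a b c * J b m * ∑ l, J c l * T l i j = Q m i j + U m i j := by
      simp only [Q, U, ← Finset.sum_add_distrib]
      refine Finset.sum_congr rfl fun b _ => Finset.sum_congr rfl fun c _ => ?_
      rw [E0 c i j]
      ring
    rw [s1, s2, s3, s4]
  have E2 : ∀ m i j, P m i j + ∑ k, J a k * dT m k i j =
      Q m i j + X m i j + (U m i j + U j m i + U i m j) + H3 a m i j := by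
    intro m i j
    have h := E1 m i j
    rw [Finset.sum_add_distrib] at h
    have y1 : ∑ b, ∑ c, Γ a b c * H b m i * J c j = U j m i := by
      simp only [U]
      rw [Finset.sum_comm]
      refine Finset.sum_congr rfl fun b _ => Finset.sum_congr rfl fun c _ => ?_
      rw [Γs a c b]
      ring
    have y2 : ∑ b, ∑ c, Γ a b c * J b i * H c m j = U i m j := rfl
    have y3 : ∑ b, ∑ c, ((∑ d, dΓ d a b c * J d m) * J b i * J c j + Γ a b c * H b m i * J c j
        + Γ a b c * J b i * H c m j) = X m i j + U j m i + U i m j := by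
      rw [← y1, ← y2]
      simp only [X, ← Finset.sum_add_distrib]
    rw [y3] at h
    rw [hP m i j]
    linarith
  have E3 : P m i j - P j i m + ∑ k, J a k * (dT m k i j - dT j k i m) =
      Q m i j - Q j i m + (X m i j - X j i m) := by
    have h1 := E2 m i j
    have h2 := E2 j i m
    have h3 : ∑ k, J a k * (dT m k i j - dT j k i m) =
        ∑ k, J a k * dT m k i j - ∑ k, J a k * dT j k i m := by
      rw [← Finset.sum_sub_distrib]
      refine Finset.sum_congr rfl fun k _ => ?_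
      ring
    rw [h3]
    have u1 := Us m i j
    have u2 := Us j m i
    have u3 := Us i m j
    have h4 := H3s a m i j
    linarith
  -- left side
  have L : ∑ k, J a k * Rm (pull φ G) k i m j x₀ =
      P m i j - P j i m + ∑ k, J a k * (dT m k i j - dT j k i m) := by
    simp only [P, ← Finset.sum_sub_distrib, ← Finset.sum_add_distrib]
    refine Finset.sum_congr rfl fun k _ => ?_
    have : Rm (pull φ G) k i m j x₀ = dT m k i j - dT j k i m +
        (∑ e, T k m e * T e i j - ∑ e, T k j e * T e i m) := by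
      rw [← Finset.sum_sub_distrib]
      rfl
    rw [this]
    ring
  rw [L, E3]
  -- right side
  have X1 : X m i j = ∑ b, ∑ c, ∑ d, dΓ c a b d * J b i * J c m * J d j := by
    simp only [X, Finset.sum_mul]
    refine Finset.sum_congr rfl fun b _ => ?_
    rw [Finset.sum_comm]
    refine Finset.sum_congr rfl fun c _ => Finset.sum_congr rfl fun d _ => ?_
    ring
  have X2 : X j i m = ∑ b, ∑ c, ∑ d, dΓ d a b c * J b i * J c m * J d j := by
    simp only [X, Finset.sum_mul]
    refine Finset.sum_congr rfl fun b _ => ?_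
    refine Finset.sum_congr rfl fun c _ => Finset.sum_congr rfl fun d _ => ?_
    ring
  have Q1 : Q m i j = ∑ b, ∑ c, ∑ d, (∑ e, Γ a c e * Γ e b d) * J b i * J c m * J d j := by
    have z1 : Q m i j = ∑ c, ∑ e, ∑ b, ∑ d, Γ a c e * Γ e b d * J b i * J c m * J d j := by
      simp only [Q, Finset.mul_sum]
      refine Finset.sum_congr rfl fun c _ => Finset.sum_congr rfl fun e _ =>
        Finset.sum_congr rfl fun b _ => Finset.sum_congr rfl fun d _ => ?_
      ring
    have z2 : ∑ b, ∑ c, ∑ d, (∑ e, Γ a c e * Γ e b d) * J b i * J c m * J d j =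
        ∑ b, ∑ c, ∑ e, ∑ d, Γ a c e * Γ e b d * J b i * J c m * J d j := by
      refine Finset.sum_congr rfl fun b _ => Finset.sum_congr rfl fun c _ => ?_
      rw [Finset.sum_comm]
      refine Finset.sum_congr rfl fun d _ => ?_
      rw [Finset.sum_mul, Finset.sum_mul, Finset.sum_mul]
    rw [z1, z2, Finset.sum_comm (f := fun b c => ∑ e, ∑ d, Γ a c e * Γ e b d * J b i * J c m * J d j)]
    refine Finset.sum_congr rfl fun c _ => ?_
    rw [Finset.sum_comm]
  have Q2 : Q j i m = ∑ b, ∑ c, ∑ d, (∑ e, Γ a d e * Γ e b c) * J b i * J c m * J d j := by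
    have z1 : Q j i m = ∑ d, ∑ e, ∑ b, ∑ c, Γ a d e * Γ e b c * J b i * J c m * J d j := by
      simp only [Q, Finset.mul_sum]
      refine Finset.sum_congr rfl fun c _ => Finset.sum_congr rfl fun e _ =>
        Finset.sum_congr rfl fun b _ => Finset.sum_congr rfl fun d _ => ?_
      ring
    have z2 : ∑ b, ∑ c, ∑ d, (∑ e, Γ a d e * Γ e b c) * J b i * J c m * J d j =
        ∑ b, ∑ c, ∑ d, ∑ e, Γ a d e * Γ e b c * J b i * J c m * J d j := by
      refine Finset.sum_congr rfl fun b _ => Finset.sum_congr rfl fun c _ =>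
        Finset.sum_congr rfl fun d _ => ?_
      rw [Finset.sum_mul, Finset.sum_mul, Finset.sum_mul]
    rw [z1, z2]
    calc ∑ d, ∑ e, ∑ b, ∑ c, Γ a d e * Γ e b c * J b i * J c m * J d j
        = ∑ d, ∑ b, ∑ e, ∑ c, Γ a d e * Γ e b c * J b i * J c m * J d j :=
          Finset.sum_congr rfl fun d _ => Finset.sum_comm
      _ = ∑ b, ∑ d, ∑ e, ∑ c, Γ a d e * Γ e b c * J b i * J c m * J d j := Finset.sum_comm
      _ = ∑ b, ∑ d, ∑ c, ∑ e, Γ a d e * Γ e b c * J b i * J c m * J d j :=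
          Finset.sum_congr rfl fun b _ => Finset.sum_congr rfl fun d _ => Finset.sum_comm
      _ = ∑ b, ∑ c, ∑ d, ∑ e, Γ a d e * Γ e b c * J b i * J c m * J d j :=
          Finset.sum_congr rfl fun b _ => Finset.sum_comm
  rw [X1, X2, Q1, Q2]
  simp only [← Finset.sum_sub_distrib, ← Finset.sum_add_distrib]
  refine Finset.sum_congr rfl fun b _ => Finset.sum_congr rfl fun c _ =>
    Finset.sum_congr rfl fun d _ => ?_
  have : Rm G a b c d (φ x₀) = dΓ c a b d - dΓ d a b c +
      (∑ e, Γ a c e * Γ e b d - ∑ e, Γ a d e * Γ e b c) := by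
    rw [← Finset.sum_sub_distrib]
    rfl
  rw [this]
  ring

theorem ric_pull {n : ℕ} {φ : Eu n → Eu n} {x₀ : Eu n} (hφ : ContDiffAt ℝ ∞ φ x₀) (hJ : (Jac φ x₀).det ≠ 0)
    {G : Eu n → Mt n} (hG : ∀ i j, ContDiffAt ℝ ∞ (fun x => G x i j) (φ x₀))
    (hs : ∀ᶠ x in 𝓝 (φ x₀), (G x).IsSymm) (hd : (G (φ x₀)).det ≠ 0) :
    Ric (pull φ G) x₀ = (Jac φ x₀)ᵀ * Ric G (φ x₀) * Jac φ x₀ := by
  classical
  have hJu : IsUnit (Jac φ x₀).det := isUnit_iff_ne_zero.2 hJ
  set J := Jac φ x₀ with hJdef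
  have key : ∀ i m j k, Rm (pull φ G) k i m j x₀ =
      ∑ a, J⁻¹ k a * ∑ b, ∑ c, ∑ d, Rm G a b c d (φ x₀) * J b i * J c m * J d j := by
    intro i m j k
    have h : J.mulVec (fun k => Rm (pull φ G) k i m j x₀) =
        fun a => ∑ b, ∑ c, ∑ d, Rm G a b c d (φ x₀) * J b i * J c m * J d j := by
      funext a
      exact rm_pull hφ hJ hG hs hd a i m j
    have h2 := congrArg (fun v => J⁻¹.mulVec v) h
    simp only [Matrix.mulVec_mulVec, Matrix.nonsing_inv_mul _ hJu, Matrix.one_mulVec] at h2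
    have h3 := congrFun h2 k
    rw [h3]
    rfl
  ext i j
  rw [Ric_eq]
  simp only [key]
  have s1 : ∑ k, ∑ a, J⁻¹ k a * ∑ b, ∑ c, ∑ d, Rm G a b c d (φ x₀) * J b i * J c k * J d j =
      ∑ c, ∑ a, (∑ k, J c k * J⁻¹ k a) * ∑ b, ∑ d, Rm G a b c d (φ x₀) * J b i * J d j := by
    have t1 : ∀ k a, J⁻¹ k a * ∑ b, ∑ c, ∑ d, Rm G a b c d (φ x₀) * J b i * J c k * J d j =
        ∑ c, J c k * J⁻¹ k a * ∑ b, ∑ d, Rm G a b c d (φ x₀) * J b i * J d j := by
      intro k a
      rw [Finset.sum_comm, Finset.mul_sum]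
      refine Finset.sum_congr rfl fun c _ => ?_
      rw [Finset.mul_sum, Finset.mul_sum]
      refine Finset.sum_congr rfl fun b _ => ?_
      rw [Finset.mul_sum, Finset.mul_sum]
      refine Finset.sum_congr rfl fun d _ => ?_
      ring
    simp only [t1]
    calc ∑ k, ∑ a, ∑ c, J c k * J⁻¹ k a * ∑ b, ∑ d, Rm G a b c d (φ x₀) * J b i * J d j
        = ∑ k, ∑ c, ∑ a, J c k * J⁻¹ k a * ∑ b, ∑ d, Rm G a b c d (φ x₀) * J b i * J d j :=
          Finset.sum_congr rfl fun k _ => Finset.sum_comm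
      _ = ∑ c, ∑ k, ∑ a, J c k * J⁻¹ k a * ∑ b, ∑ d, Rm G a b c d (φ x₀) * J b i * J d j :=
          Finset.sum_comm
      _ = ∑ c, ∑ a, ∑ k, J c k * J⁻¹ k a * ∑ b, ∑ d, Rm G a b c d (φ x₀) * J b i * J d j :=
          Finset.sum_congr rfl fun c _ => Finset.sum_comm
      _ = _ := by
          refine Finset.sum_congr rfl fun c _ => Finset.sum_congr rfl fun a _ => ?_
          rw [Finset.sum_mul]
  rw [s1]
  have s2 : ∀ c a, ∑ k, J c k * J⁻¹ k a = if c = a then 1 else 0 := by
    intro c a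
    have : (J * J⁻¹) c a = (1 : Mt n) c a := by rw [Matrix.mul_nonsing_inv _ hJu]
    rw [Matrix.mul_apply, Matrix.one_apply] at this
    exact this
  simp only [s2, ite_mul, one_mul, zero_mul, Finset.sum_ite_eq, Finset.mem_univ, if_true]
  rw [Matrix.mul_apply]
  have s3 : ∀ d, (Jᵀ * Ric G (φ x₀)) i d * J d j =
      ∑ b, ∑ c, Rm G c b c d (φ x₀) * J b i * J d j := by
    intro d
    rw [Matrix.mul_apply, Finset.sum_mul]
    refine Finset.sum_congr rfl fun b _ => ?_
    rw [Matrix.transpose_apply, Ric_eq, Finset.mul_sum, Finset.sum_mul]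
    refine Finset.sum_congr rfl fun c _ => ?_
    ring
  simp only [s3]
  calc ∑ c, ∑ b, ∑ d, Rm G c b c d (φ x₀) * J b i * J d j
      = ∑ c, ∑ d, ∑ b, Rm G c b c d (φ x₀) * J b i * J d j :=
        Finset.sum_congr rfl fun c _ => Finset.sum_comm
    _ = ∑ d, ∑ c, ∑ b, Rm G c b c d (φ x₀) * J b i * J d j := Finset.sum_comm
    _ = ∑ d, ∑ b, ∑ c, Rm G c b c d (φ x₀) * J b i * J d j :=
        Finset.sum_congr rfl fun d _ => Finset.sum_comm

end Pool.Agent.QTot.N2
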