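import Pool.Agent.QTot.Base2
import Pool.Agent.QTot.N1

set_option autoImplicit false
open scoped ContDiff Manifold Topology Matrix
open MeasureTheory Filter Set

namespace Pool.Agent.QTot.N3
open Pool.Agent.QTot
open Pool.Agent.QTot.N1 (gam_pull)




/-! ## TARGET (prove this) -/

/- Idea: `∂_j (f ∘ φ) = ∑_a (∂_a f)(φ) J_{aj}` near `x₀`, `∂_i ∂_j (f ∘ φ) = ∑ (∂_b ∂_a f)(φ) J_{bi} J_{aj} + ∑_a (∂_a f)(φ) ∂_i ∂_j φ_a`,
use `gam_pull` for the last term, and `(pull φ G x₀)⁻¹ = J⁻¹ G⁻¹ J⁻ᵀ`. -/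
theorem n3_chain {n : ℕ} {φ : Eu n → Eu n} {f : Eu n → ℝ} {x : Eu n}
    (hφ : DifferentiableAt ℝ φ x) (hf : DifferentiableAt ℝ f (φ x)) (j : Fin n) :
    pd j (fun y => f (φ y)) x = ∑ a, pd a f (φ x) * Jac φ x a j := by
  have h1 : HasFDerivAt (fun y => f (φ y)) ((fderiv ℝ f (φ x)).comp (fderiv ℝ φ x)) x :=
    hf.hasFDerivAt.comp x hφ.hasFDerivAt
  have h2 : ∀ a, Jac φ x a j = (fderiv ℝ φ x (Pi.single j 1)) a := by
    intro a
    have h := (hasFDerivAt_pi'.mp hφ.hasFDerivAt a).fderiv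
    change fderiv ℝ (fun y => φ y a) x (Pi.single j 1) = _
    rw [h]
    rfl
  have h3 : ∀ v : Eu n, fderiv ℝ f (φ x) v = ∑ a, fderiv ℝ f (φ x) (Pi.single a 1) * v a := by
    intro v
    conv_lhs => rw [← Finset.univ_sum_single v]
    rw [map_sum]
    refine Finset.sum_congr rfl fun a _ => ?_
    have h4 : (Pi.single a (v a) : Eu n) = v a • Pi.single a 1 := by
      rw [← Pi.single_smul, smul_eq_mul, mul_one]
    rw [h4, map_smul, smul_eq_mul, mul_comm]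
  change fderiv ℝ (fun y => f (φ y)) x (Pi.single j 1) = _
  rw [h1.fderiv]
  change fderiv ℝ f (φ x) (fderiv ℝ φ x (Pi.single j 1)) = _
  rw [h3]
  refine Finset.sum_congr rfl fun a _ => ?_
  rw [h2]
  rfl

theorem n3_pd_diff {n : ℕ} {f : Eu n → ℝ} {x : Eu n} (hf : ContDiffAt ℝ ∞ f x) (a : Fin n) :
    DifferentiableAt ℝ (pd a f) x := by
  have h1 : ContDiffAt ℝ 1 (fderiv ℝ f) x := hf.fderiv_right (by
    rw [one_add_one_eq_two]
    exact (WithTop.coe_le_coe.mpr le_top : ((2:ℕ∞) : WithTop ℕ∞) ≤ ((⊤:ℕ∞) : WithTop ℕ∞)))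
  exact (h1.differentiableAt (by norm_num)).clm_apply (differentiableAt_const _)

theorem n3_hess {n : ℕ} {φ : Eu n → Eu n} {x₀ : Eu n} (hφ : ContDiffAt ℝ ∞ φ x₀)
    {f : Eu n → ℝ} (hf : ContDiffAt ℝ ∞ f (φ x₀)) (i j : Fin n) :
    pd i (pd j (fun y => f (φ y))) x₀ =
      ∑ a, (pd a f (φ x₀) * pd i (pd j (fun y => φ y a)) x₀ +
        Jac φ x₀ a j * ∑ b, pd b (pd a f) (φ x₀) * Jac φ x₀ b i) := by
  have hφ1 : ContDiffAt ℝ 1 φ x₀ := hφ.of_le (by exact_mod_cast le_top)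
  have hf1 : ContDiffAt ℝ 1 f (φ x₀) := hf.of_le (by exact_mod_cast le_top)
  have hev : (pd j (fun y => f (φ y))) =ᶠ[𝓝 x₀] fun x => ∑ a, pd a f (φ x) * Jac φ x a j := by
    have q1 := hφ1.eventually (by norm_num)
    have q2 := hφ.continuousAt.eventually (hf1.eventually (by norm_num))
    filter_upwards [q1, q2] with x h1 h2
    exact n3_chain (h1.differentiableAt (by norm_num)) (h2.differentiableAt (by norm_num)) j
  have e1 : pd i (pd j (fun y => f (φ y))) x₀ =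
      fderiv ℝ (fun x => ∑ a, pd a f (φ x) * Jac φ x a j) x₀ (Pi.single i 1) := by
    change fderiv ℝ (pd j fun y => f (φ y)) x₀ (Pi.single i 1) = _
    rw [hev.fderiv_eq]
  have hφd : DifferentiableAt ℝ φ x₀ := hφ1.differentiableAt (by norm_num)
  have hA : ∀ a, DifferentiableAt ℝ (fun x => pd a f (φ x)) x₀ := fun a =>
    (n3_pd_diff hf a).comp x₀ hφd
  have hB : ∀ a, DifferentiableAt ℝ (fun x => Jac φ x a j) x₀ := by
    intro a
    exact n3_pd_diff ((contDiffAt_pi.mp hφ) a) j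
  have hS : HasFDerivAt (fun x => ∑ a, pd a f (φ x) * Jac φ x a j)
      (∑ a, (pd a f (φ x₀) • fderiv ℝ (fun x => Jac φ x a j) x₀ +
        Jac φ x₀ a j • fderiv ℝ (fun x => pd a f (φ x)) x₀)) x₀ :=
    HasFDerivAt.fun_sum (u := Finset.univ)
      (fun a _ => (hA a).hasFDerivAt.mul (hB a).hasFDerivAt)
  rw [e1, hS.fderiv, ContinuousLinearMap.sum_apply]
  refine Finset.sum_congr rfl fun a _ => ?_
  have e2 := n3_chain hφd (n3_pd_diff hf a) i
  rw [← e2]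
  rfl

theorem n3_swap {n : ℕ} (t : Fin n → Fin n → Fin n → ℝ) :
    ∑ a, ∑ b, ∑ c, t a b c = ∑ c, ∑ b, ∑ a, t a b c := by
  rw [Finset.sum_comm]
  exact (Finset.sum_congr rfl fun b _ => Finset.sum_comm).trans Finset.sum_comm

theorem n3_tr {n : ℕ} (A B : Mt n) : (A * Bᵀ).trace = ∑ i, ∑ j, A i j * B i j := by
  simp [Matrix.trace, Matrix.mul_apply, Matrix.transpose_apply]

theorem lap_pull {n : ℕ} {φ : Eu n → Eu n} {x₀ : Eu n} (hφ : ContDiffAt ℝ ∞ φ x₀) (hJ : (Jac φ x₀).det ≠ 0)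
    {G : Eu n → Mt n} (hG : ∀ i j, ContDiffAt ℝ ∞ (fun x => G x i j) (φ x₀))
    (hs : ∀ᶠ x in 𝓝 (φ x₀), (G x).IsSymm) (hd : (G (φ x₀)).det ≠ 0)
    {f : Eu n → ℝ} (hf : ContDiffAt ℝ ∞ f (φ x₀)) :
    Lap (pull φ G) (fun y => f (φ y)) x₀ = Lap G f (φ x₀) := by
  have hφd : DifferentiableAt ℝ φ x₀ := hφ.differentiableAt (by norm_num)
  have hfd : DifferentiableAt ℝ f (φ x₀) := hf.differentiableAt (by norm_num)
  let J := Jac φ x₀
  let H : Mt n := Matrix.of fun a b =>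
    pd a (pd b f) (φ x₀) - ∑ c, Gam G c a b (φ x₀) * pd c f (φ x₀)
  have hM : ∀ i j, pd i (pd j (fun y => f (φ y))) x₀ -
      ∑ k, Gam (pull φ G) k i j x₀ * pd k (fun y => f (φ y)) x₀ = (Jᵀ * H * J) i j := by
    intro i j
    have e1 : ∑ k, Gam (pull φ G) k i j x₀ * pd k (fun y => f (φ y)) x₀ =
        ∑ a, pd a f (φ x₀) * (∑ b, ∑ c, Gam G a b c (φ x₀) * Jac φ x₀ b i * Jac φ x₀ c j +
          pd i (pd j (fun y => φ y a)) x₀) := by
      simp_rw [← gam_pull hφ hJ hG hs hd, n3_chain hφd hfd, Finset.mul_sum]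
      rw [Finset.sum_comm]
      refine Finset.sum_congr rfl fun a _ => Finset.sum_congr rfl fun k _ => by ring
    rw [e1, n3_hess hφ hf i j, ← Finset.sum_sub_distrib]
    have e2 : (Jᵀ * H * J) i j = ∑ b, ∑ a, J a i * H a b * J b j := by
      rw [Matrix.mul_apply]
      refine Finset.sum_congr rfl fun b _ => ?_
      rw [Matrix.mul_apply, Finset.sum_mul]
      rfl
    have e3 : ∀ b a, J a i * H a b * J b j = J a i * pd a (pd b f) (φ x₀) * J b j -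
        ∑ c, J a i * (Gam G c a b (φ x₀) * pd c f (φ x₀)) * J b j := by
      intro b a
      have : H a b = pd a (pd b f) (φ x₀) - ∑ c, Gam G c a b (φ x₀) * pd c f (φ x₀) := rfl
      rw [this, mul_sub, sub_mul, Finset.mul_sum, Finset.sum_mul]
    rw [e2]
    simp_rw [e3, Finset.sum_sub_distrib]
    have e4 : ∑ b, ∑ a, ∑ c, J a i * (Gam G c a b (φ x₀) * pd c f (φ x₀)) * J b j =
        ∑ a, pd a f (φ x₀) * ∑ b, ∑ c, Gam G a b c (φ x₀) * Jac φ x₀ b i * Jac φ x₀ c j := by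
      rw [n3_swap]
      refine Finset.sum_congr rfl fun a _ => ?_
      rw [Finset.mul_sum]
      refine Finset.sum_congr rfl fun b _ => ?_
      rw [Finset.mul_sum]
      refine Finset.sum_congr rfl fun c _ => ?_
      change Jac φ x₀ b i * _ * Jac φ x₀ c j = _
      ring
    have e5 : ∑ b, ∑ a, J a i * pd a (pd b f) (φ x₀) * J b j =
        ∑ a, Jac φ x₀ a j * ∑ b, pd b (pd a f) (φ x₀) * Jac φ x₀ b i := by
      refine Finset.sum_congr rfl fun a _ => ?_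
      rw [Finset.mul_sum]
      refine Finset.sum_congr rfl fun b _ => ?_
      change Jac φ x₀ b i * _ * Jac φ x₀ a j = _
      ring
    rw [e4, e5, Finset.sum_add_distrib]
    simp_rw [mul_add, Finset.sum_add_distrib]
    ring
  have hL : Lap (pull φ G) (fun y => f (φ y)) x₀ =
      ((pull φ G x₀)⁻¹ * (Jᵀ * H * J)ᵀ).trace := by
    rw [n3_tr]
    unfold Lap
    refine Finset.sum_congr rfl fun i _ => Finset.sum_congr rfl fun j _ => ?_
    rw [hM]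
  have hR : Lap G f (φ x₀) = ((G (φ x₀))⁻¹ * Hᵀ).trace := by
    rw [n3_tr]
    rfl
  have hJu : IsUnit J.det := isUnit_iff_ne_zero.mpr hJ
  have hJtu : IsUnit (Jᵀ).det := by rw [Matrix.det_transpose]; exact hJu
  have hP : pull φ G x₀ = Jᵀ * G (φ x₀) * J := rfl
  rw [hL, hR, hP, Matrix.mul_inv_rev, Matrix.mul_inv_rev, Matrix.transpose_mul,
    Matrix.transpose_mul, Matrix.transpose_transpose]
  have e6 : J⁻¹ * ((G (φ x₀))⁻¹ * Jᵀ⁻¹) * (Jᵀ * (Hᵀ * J)) = J⁻¹ * ((G (φ x₀))⁻¹ * Hᵀ * J) := by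
    calc J⁻¹ * ((G (φ x₀))⁻¹ * Jᵀ⁻¹) * (Jᵀ * (Hᵀ * J)) =
        J⁻¹ * (G (φ x₀))⁻¹ * (Jᵀ⁻¹ * Jᵀ) * (Hᵀ * J) := by simp only [Matrix.mul_assoc]
      _ = J⁻¹ * ((G (φ x₀))⁻¹ * Hᵀ * J) := by
        rw [Matrix.nonsing_inv_mul _ hJtu, Matrix.mul_one]
        simp only [Matrix.mul_assoc]
  rw [e6, Matrix.trace_mul_comm, Matrix.mul_assoc, Matrix.mul_nonsing_inv _ hJu, Matrix.mul_one]

end Pool.Agent.QTot.N3
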