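import Pool.Agent.QTot.Base2

set_option autoImplicit false
open scoped ContDiff Manifold Topology Matrix
open MeasureTheory Filter Set

namespace Pool.Agent.QTot.R1
open Pool.Agent.QTot


/-! ## TARGET (prove this) -/

/- Smoothness of partial derivatives and of the inverse matrix (entries: adjugate / determinant, or Cramer). -/
theorem smf_deriv {n : ℕ} {Ω : Set (ℝ × Eu n)} (hΩ : IsOpen Ω) {f : ℝ → Eu n → ℝ} (hf : SmF Ω f) :
    SmF Ω (fun r x => deriv (fun s => f s x) r) := by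
  unfold SmF at hf ⊢
  have h1 : ContDiffOn ℝ ∞ (fderiv ℝ (fun p : ℝ × Eu n => f p.1 p.2)) Ω :=
    hf.fderiv_of_isOpen hΩ (by simp)
  have h2 : ContDiffOn ℝ ∞ (fun p => fderiv ℝ (fun p : ℝ × Eu n => f p.1 p.2) p ((1 : ℝ), (0 : Eu n))) Ω :=
    h1.clm_apply contDiffOn_const
  refine h2.congr fun p hp => ?_
  have h3 : HasFDerivAt (fun p : ℝ × Eu n => f p.1 p.2) (fderiv ℝ (fun p : ℝ × Eu n => f p.1 p.2) p) p :=
    ((hf.differentiableOn (by simp)).differentiableAt (hΩ.mem_nhds hp)).hasFDerivAt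
  have h4 : HasDerivAt (fun s : ℝ => ((s, p.2) : ℝ × Eu n)) ((1 : ℝ), (0 : Eu n)) p.1 :=
    (hasDerivAt_id p.1).prodMk (hasDerivAt_const p.1 p.2)
  exact (h3.comp_hasDerivAt p.1 h4).deriv

theorem smf_pd {n : ℕ} {Ω : Set (ℝ × Eu n)} (hΩ : IsOpen Ω) {f : ℝ → Eu n → ℝ} (hf : SmF Ω f) (i : Fin n) :
    SmF Ω (fun r x => pd i (f r) x) := by
  unfold SmF at hf ⊢
  have h1 : ContDiffOn ℝ ∞ (fderiv ℝ (fun p : ℝ × Eu n => f p.1 p.2)) Ω :=
    hf.fderiv_of_isOpen hΩ (by simp)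
  have h2 : ContDiffOn ℝ ∞ (fun p => fderiv ℝ (fun p : ℝ × Eu n => f p.1 p.2) p ((0 : ℝ), (Pi.single i 1 : Eu n))) Ω :=
    h1.clm_apply contDiffOn_const
  refine h2.congr fun p hp => ?_
  have h3 : HasFDerivAt (fun p : ℝ × Eu n => f p.1 p.2) (fderiv ℝ (fun p : ℝ × Eu n => f p.1 p.2) p) p :=
    ((hf.differentiableOn (by simp)).differentiableAt (hΩ.mem_nhds hp)).hasFDerivAt
  have h4 : HasFDerivAt (fun x : Eu n => ((p.1, x) : ℝ × Eu n))
      ((0 : Eu n →L[ℝ] ℝ).prod (ContinuousLinearMap.id ℝ (Eu n))) p.2 :=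
    (hasFDerivAt_const p.1 p.2).prodMk (hasFDerivAt_id p.2)
  have h5 := HasFDerivAt.comp (x := p.2) (g := fun p : ℝ × Eu n => f p.1 p.2)
    (f := fun x : Eu n => ((p.1, x) : ℝ × Eu n)) (g' := fderiv ℝ (fun p : ℝ × Eu n => f p.1 p.2) p) h3 h4
  have h6 : fderiv ℝ (f p.1) p.2 = (fderiv ℝ (fun p : ℝ × Eu n => f p.1 p.2) p).comp
      ((0 : Eu n →L[ℝ] ℝ).prod (ContinuousLinearMap.id ℝ (Eu n))) := h5.fderiv
  show fderiv ℝ (f p.1) p.2 (Pi.single i 1) = _
  rw [h6]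
  simp

theorem smf_det {n : ℕ} {Ω : Set (ℝ × Eu n)} {P : ℝ → Eu n → Mt n} (hP : SmM Ω P) :
    SmF Ω (fun r x => (P r x).det) := by
  unfold SmF
  simp_rw [Matrix.det_apply]
  refine ContDiffOn.sum fun σ _ => ?_
  refine ContDiffOn.const_smul _ ?_
  refine contDiffOn_prod fun i _ => ?_
  exact hP _ _

theorem smm_inv {n : ℕ} {Ω : Set (ℝ × Eu n)} {P : ℝ → Eu n → Mt n} (hP : SmM Ω P) (hd : Nd Ω P) :
    SmM Ω (fun r x => (P r x)⁻¹) := by
  intro i j
  have h1 : SmF Ω (fun r x => (P r x).det) := smf_det hP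
  have h2 : SmF Ω (fun r x => (P r x).adjugate i j) := by
    have h3 : SmM Ω (fun r x => (P r x).updateRow j (Pi.single i 1)) := by
      intro k l
      by_cases hk : k = j
      · subst hk
        unfold SmF
        simp only [Matrix.updateRow_self]
        exact contDiffOn_const
      · unfold SmF
        simp only [Matrix.updateRow_ne hk]
        exact hP k l
    have h4 := smf_det h3
    unfold SmF at h4 ⊢
    refine h4.congr fun p _ => ?_
    exact Matrix.adjugate_apply (P p.1 p.2) i j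
  unfold SmF at h1 h2 ⊢
  have h5 : ContDiffOn ℝ ∞ (fun p : ℝ × Eu n => ((P p.1 p.2).det)⁻¹ * (P p.1 p.2).adjugate i j) Ω :=
    (h1.inv fun p hp => hd p hp).mul h2
  refine h5.congr fun p _ => ?_
  show (P p.1 p.2)⁻¹ i j = _
  rw [Matrix.inv_def, Matrix.smul_apply, smul_eq_mul, Ring.inverse_eq_inv']

end Pool.Agent.QTot.R1
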