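import Pool.Agent.QTot.Base2
import Pool.Agent.QTot.R1

set_option autoImplicit false
open scoped ContDiff Manifold Topology Matrix
open MeasureTheory Filter Set

namespace Pool.Agent.QTot.R2
open Pool.Agent.QTot
open Pool.Agent.QTot.R1 (smf_deriv smf_pd smm_inv)






/-! ## TARGET (prove this) -/


theorem r2_const {n : ℕ} (Ω : Set (ℝ × Eu n)) (c : ℝ) : SmF Ω (fun _ _ => c) :=
  contDiffOn_const

theorem r2_fst {n : ℕ} (Ω : Set (ℝ × Eu n)) : SmF Ω (fun r _ => r) :=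
  contDiffOn_fst

theorem r2_add {n : ℕ} {Ω : Set (ℝ × Eu n)} {f g : ℝ → Eu n → ℝ} (hf : SmF Ω f) (hg : SmF Ω g) :
    SmF Ω (fun r x => f r x + g r x) := ContDiffOn.add hf hg

theorem r2_sub {n : ℕ} {Ω : Set (ℝ × Eu n)} {f g : ℝ → Eu n → ℝ} (hf : SmF Ω f) (hg : SmF Ω g) :
    SmF Ω (fun r x => f r x - g r x) := ContDiffOn.sub hf hg

theorem r2_mul {n : ℕ} {Ω : Set (ℝ × Eu n)} {f g : ℝ → Eu n → ℝ} (hf : SmF Ω f) (hg : SmF Ω g) :
    SmF Ω (fun r x => f r x * g r x) := ContDiffOn.mul hf hg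

theorem r2_sum {n : ℕ} {Ω : Set (ℝ × Eu n)} {ι : Type} (s : Finset ι) {f : ι → ℝ → Eu n → ℝ}
    (hf : ∀ i, SmF Ω (f i)) : SmF Ω (fun r x => ∑ i ∈ s, f i r x) :=
  ContDiffOn.sum fun i _ => hf i

theorem r2_smm_mul {n : ℕ} {Ω : Set (ℝ × Eu n)} {P Q : ℝ → Eu n → Mt n} (hP : SmM Ω P)
    (hQ : SmM Ω Q) : SmM Ω (fun r x => P r x * Q r x) := by
  intro i j
  have : SmF Ω (fun r x => ∑ k, P r x i k * Q r x k j) :=
    r2_sum Finset.univ fun k => r2_mul (hP i k) (hQ k j)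
  exact this

theorem smf_gam {n : ℕ} {Ω : Set (ℝ × Eu n)} (hΩ : IsOpen Ω) {P : ℝ → Eu n → Mt n} (hP : SmM Ω P) (hd : Nd Ω P)
    (k i j : Fin n) : SmF Ω (fun r x => Gam (P r) k i j x) := by
  have h : SmF Ω (fun r x => (1 / 2) * ∑ l, (P r x)⁻¹ k l *
    (pd i (fun y => P r y j l) x + pd j (fun y => P r y i l) x - pd l (fun y => P r y i j) x)) :=
    r2_mul (r2_const Ω _) (r2_sum Finset.univ fun l => r2_mul (smm_inv hP hd k l)
      (r2_sub (r2_add (smf_pd hΩ (hP j l) i) (smf_pd hΩ (hP i l) j)) (smf_pd hΩ (hP i j) l)))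
  exact h

theorem smm_ric {n : ℕ} {Ω : Set (ℝ × Eu n)} (hΩ : IsOpen Ω) {P : ℝ → Eu n → Mt n} (hP : SmM Ω P) (hd : Nd Ω P) :
    SmM Ω (fun r x => Ric (P r) x) := by
  intro i j
  have h : SmF Ω (fun r x => ∑ k, pd k (Gam (P r) k i j) x - ∑ k, pd j (Gam (P r) k i k) x +
    ∑ k, ∑ l, (Gam (P r) k k l x * Gam (P r) l i j x - Gam (P r) k j l x * Gam (P r) l i k x)) :=
    r2_add (r2_sub (r2_sum Finset.univ fun k => smf_pd hΩ (smf_gam hΩ hP hd k i j) k)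
      (r2_sum Finset.univ fun k => smf_pd hΩ (smf_gam hΩ hP hd k i k) j))
      (r2_sum Finset.univ fun k => r2_sum Finset.univ fun l =>
        r2_sub (r2_mul (smf_gam hΩ hP hd k k l) (smf_gam hΩ hP hd l i j))
          (r2_mul (smf_gam hΩ hP hd k j l) (smf_gam hΩ hP hd l i k)))
  exact h

theorem smm_dr {n : ℕ} {Ω : Set (ℝ × Eu n)} (hΩ : IsOpen Ω) {P : ℝ → Eu n → Mt n} (hP : SmM Ω P) :
    SmM Ω (dr P) := by
  intro i j
  exact smf_deriv hΩ (hP i j)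

theorem smf_tau {n : ℕ} {Ω : Set (ℝ × Eu n)} (hΩ : IsOpen Ω) {P : ℝ → Eu n → Mt n} (hP : SmM Ω P) (hd : Nd Ω P) :
    SmF Ω (tau P) := by
  have h : SmF Ω (fun r x => ∑ i, ((P r x)⁻¹ * dr P r x) i i) :=
    r2_sum Finset.univ fun i => r2_smm_mul (smm_inv hP hd) (smm_dr hΩ hP) i i
  exact h

theorem smm_efg {n : ℕ} {Ω : Set (ℝ × Eu n)} (hΩ : IsOpen Ω) {P : ℝ → Eu n → Mt n} (hP : SmM Ω P) (hd : Nd Ω P) :
    SmM Ω (EFG P) := by
  intro i j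
  have hdr := smm_dr hΩ hP
  have htau := smf_tau hΩ hP hd
  have h1 : SmF Ω (fun r x => r * dr (dr P) r x i j) :=
    r2_mul (r2_fst Ω) (smm_dr hΩ hdr i j)
  have h2 : SmF Ω (fun r x => r * (dr P r x * (P r x)⁻¹ * dr P r x) i j) :=
    r2_mul (r2_fst Ω) (r2_smm_mul (r2_smm_mul hdr (smm_inv hP hd)) hdr i j)
  have h3 : SmF Ω (fun r x => (r * tau P r x * (1 / 2)) * dr P r x i j) :=
    r2_mul (r2_mul (r2_mul (r2_fst Ω) htau) (r2_const Ω _)) (hdr i j)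
  have h4 : SmF Ω (fun r x => ((n : ℝ) / 2 - 1) * dr P r x i j) :=
    r2_mul (r2_const Ω _) (hdr i j)
  have h5 : SmF Ω (fun r x => (tau P r x * (1 / 2)) * P r x i j) :=
    r2_mul (r2_mul htau (r2_const Ω _)) (hP i j)
  have h := r2_add (r2_sub (r2_sub (r2_add (r2_sub h1 h2) h3) h4) h5) (smm_ric hΩ hP hd i j)
  refine ContDiffOn.congr h fun p _ => ?_
  change EFG P p.1 p.2 i j = _
  unfold EFG
  simp only [Matrix.add_apply, Matrix.sub_apply, Matrix.smul_apply, smul_eq_mul]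
  ring

theorem smf_dw {n : ℕ} {Ω : Set (ℝ × Eu n)} (hΩ : IsOpen Ω) {P : ℝ → Eu n → Mt n} (hP : SmM Ω P) (hd : Nd Ω P)
    (w : ℝ) {f : ℝ → Eu n → ℝ} (hf : SmF Ω f) : SmF Ω (Dw P w f) := by
  have htau := smf_tau hΩ hP hd
  have h1 : SmF Ω (fun r x => (-2 * r) * deriv (deriv (fun s => f s x)) r) :=
    r2_mul (r2_mul (r2_const Ω _) (r2_fst Ω)) (smf_deriv hΩ (smf_deriv hΩ hf))
  have h2 : SmF Ω (fun r x => ((2 * w + n - 2) - r * tau P r x) * deriv (fun s => f s x) r) :=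
    r2_mul (r2_sub (r2_const Ω _) (r2_mul (r2_fst Ω) htau)) (smf_deriv hΩ hf)
  have h3 : SmF Ω (fun r x => Lap (P r) (f r) x) := by
    have h : SmF Ω (fun r x => ∑ i, ∑ j, (P r x)⁻¹ i j * (pd i (pd j (f r)) x -
        ∑ k, Gam (P r) k i j x * pd k (f r) x)) :=
      r2_sum Finset.univ fun i => r2_sum Finset.univ fun j => r2_mul (smm_inv hP hd i j)
        (r2_sub (smf_pd hΩ (smf_pd hΩ hf j) i)
          (r2_sum Finset.univ fun k => r2_mul (smf_gam hΩ hP hd k i j) (smf_pd hΩ hf k)))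
    exact h
  have h4 : SmF Ω (fun r x => w / 2 * tau P r x * f r x) :=
    r2_mul (r2_mul (r2_const Ω _) htau) hf
  exact r2_add (r2_add (r2_add h1 h2) h3) h4

theorem smf_uu {n : ℕ} {Ω : Set (ℝ × Eu n)} (hΩ : IsOpen Ω) {P : ℝ → Eu n → Mt n} (hP : SmM Ω P) (hd : Nd Ω P)
    (k : ℕ) : SmF Ω (uu P k) := by
  induction k with
  | zero =>
    have h : SmF Ω (fun r x => tau P r x * (1 / 2)) :=
      r2_mul (smf_tau hΩ hP hd) (r2_const Ω _)
    refine ContDiffOn.congr h fun p _ => ?_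
    change tau P p.1 p.2 / 2 = tau P p.1 p.2 * (1 / 2)
    ring
  | succ k ih => exact smf_dw hΩ hP hd _ ih

end Pool.Agent.QTot.R2
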