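import Pool.Agent.QTot.Base2
import Pool.Agent.QTot.N2
import Pool.Agent.QTot.N3
import Pool.Agent.QTot.R2

set_option autoImplicit false
open scoped ContDiff Manifold Topology Matrix
open MeasureTheory Filter Set

namespace Pool.Agent.QTot.N4
open Pool.Agent.QTot
open Pool.Agent.QTot.N2 (ric_pull)
open Pool.Agent.QTot.N3 (lap_pull)
open Pool.Agent.QTot.R2 (smf_uu)






/-! ## auxiliary lemmas -/

theorem pd_congr {n : ℕ} {i : Fin n} {f g : Eu n → ℝ} {x : Eu n} (h : f =ᶠ[𝓝 x] g) :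
    pd i f x = pd i g x := by
  unfold pd
  rw [h.fderiv_eq]

theorem pd_congr_ev {n : ℕ} {i : Fin n} {f g : Eu n → ℝ} {x : Eu n} (h : f =ᶠ[𝓝 x] g) :
    pd i f =ᶠ[𝓝 x] pd i g := by
  filter_upwards [h.eventuallyEq_nhds] with y hy
  exact pd_congr hy

theorem gam_congr {n : ℕ} {G H : Eu n → Mt n} {x : Eu n} (h : G =ᶠ[𝓝 x] H) (k i j : Fin n) :
    Gam G k i j x = Gam H k i j x := by
  unfold Gam
  have e : ∀ a b : Fin n, (fun y => G y a b) =ᶠ[𝓝 x] (fun y => H y a b) := by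
    intro a b
    filter_upwards [h] with y hy
    rw [hy]
  rw [h.eq_of_nhds]
  simp only [pd_congr (e _ _)]

theorem gam_congr_ev {n : ℕ} {G H : Eu n → Mt n} {x : Eu n} (h : G =ᶠ[𝓝 x] H) (k i j : Fin n) :
    Gam G k i j =ᶠ[𝓝 x] Gam H k i j := by
  filter_upwards [h.eventuallyEq_nhds] with y hy
  exact gam_congr hy k i j

theorem ric_congr {n : ℕ} {G H : Eu n → Mt n} {x : Eu n} (h : G =ᶠ[𝓝 x] H) :
    Ric G x = Ric H x := by
  unfold Ric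
  ext i j
  simp only [Matrix.of_apply, gam_congr h, pd_congr (gam_congr_ev h _ _ _)]

theorem lap_congr {n : ℕ} {G H : Eu n → Mt n} {x : Eu n} (h : G =ᶠ[𝓝 x] H) {f g : Eu n → ℝ}
    (hfg : f =ᶠ[𝓝 x] g) : Lap G f x = Lap H g x := by
  unfold Lap
  rw [h.eq_of_nhds]
  simp only [gam_congr h, pd_congr hfg, pd_congr (pd_congr_ev hfg)]

theorem slice_t {n : ℕ} {Ω : Set (ℝ × Eu n)} (hΩ : IsOpen Ω) {f : ℝ → Eu n → ℝ} (hf : SmF Ω f)
    {r : ℝ} {y : Eu n} (hr : (r, y) ∈ Ω) : ContDiffAt ℝ ∞ (fun s => f s y) r := by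
  have h : ContDiffAt ℝ ∞ (fun p : ℝ × Eu n => f p.1 p.2) (r, y) :=
    hf.contDiffAt (hΩ.mem_nhds hr)
  exact h.comp r ((contDiffAt_id (x := r)).prodMk (contDiffAt_const (c := y)))

theorem slice_x {n : ℕ} {Ω : Set (ℝ × Eu n)} (hΩ : IsOpen Ω) {f : ℝ → Eu n → ℝ} (hf : SmF Ω f)
    {r : ℝ} {y : Eu n} (hr : (r, y) ∈ Ω) : ContDiffAt ℝ ∞ (fun z => f r z) y := by
  have h : ContDiffAt ℝ ∞ (fun p : ℝ × Eu n => f p.1 p.2) (r, y) :=
    hf.contDiffAt (hΩ.mem_nhds hr)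
  exact h.comp y ((contDiffAt_const (c := r)).prodMk (contDiffAt_id (x := y)))

theorem diff_deriv {g : ℝ → ℝ} {r : ℝ} (h : ContDiffAt ℝ ∞ g r) :
    DifferentiableAt ℝ (deriv g) r := by
  have h1 : ContDiffAt ℝ ∞ (fderiv ℝ g) r := h.fderiv_right (by simp)
  have h2 := (h1.differentiableAt (by simp)).clm_apply (differentiableAt_const (c := (1 : ℝ)))
  exact h2

theorem open_slice {n : ℕ} {Ω : Set (ℝ × Eu n)} (hΩ : IsOpen Ω) {r : ℝ} {y : Eu n}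
    (hr : (r, y) ∈ Ω) : ∀ᶠ s in 𝓝 r, (s, y) ∈ Ω := by
  have hc : ContinuousAt (fun s : ℝ => (s, y)) r := by fun_prop
  exact hc.eventually (hΩ.mem_nhds hr)

theorem open_slice' {n : ℕ} {Ω : Set (ℝ × Eu n)} (hΩ : IsOpen Ω) {r : ℝ} {y : Eu n}
    (hr : (r, y) ∈ Ω) : ∀ᶠ z in 𝓝 y, (r, z) ∈ Ω := by
  have hc : ContinuousAt (fun z : Eu n => (r, z)) y := by fun_prop
  exact hc.eventually (hΩ.mem_nhds hr)

theorem deriv_sandwich {n : ℕ} (A B : Mt n) {M : ℝ → Mt n} {s : ℝ}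
    (hM : ∀ i j, DifferentiableAt ℝ (fun t => M t i j) s) (i j : Fin n) :
    deriv (fun t => (A * M t * B) i j) s =
      (A * (Matrix.of fun a b => deriv (fun t => M t a b) s) * B) i j := by
  have h1 : HasDerivAt (fun t => (A * M t * B) i j)
      ((A * (Matrix.of fun a b => deriv (fun t => M t a b) s) * B) i j) s := by
    simp only [Matrix.mul_apply, Matrix.of_apply]
    apply HasDerivAt.fun_sum
    intro b _
    apply HasDerivAt.mul_const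
    apply HasDerivAt.fun_sum
    intro a _
    exact (hM a b).hasDerivAt.const_mul _
  exact h1.deriv

theorem dr_pull {n : ℕ} {U : Set (Eu n)} {φ : Eu n → Eu n}
    {Ω : Set (ℝ × Eu n)} (hΩ : IsOpen Ω) {P Pt : ℝ → Eu n → Mt n}
    (hP : SmM Ω P) (hPt : ∀ r, ∀ x ∈ U, Pt r x = pull φ (P r) x)
    {r : ℝ} {x : Eu n} (hx : x ∈ U) (hr : (r, φ x) ∈ Ω) :
    dr Pt r x = (Jac φ x)ᵀ * dr P r (φ x) * Jac φ x := by
  have e : ∀ s, Pt s x = (Jac φ x)ᵀ * P s (φ x) * Jac φ x := fun s => hPt s x hx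
  ext i j
  simp only [dr, Matrix.of_apply]
  simp only [e]
  exact deriv_sandwich _ _ (M := fun s => P s (φ x))
    (fun a b => (slice_t hΩ (hP a b) hr).differentiableAt (by simp)) i j

theorem drdr_pull {n : ℕ} {U : Set (Eu n)} {φ : Eu n → Eu n}
    {Ω : Set (ℝ × Eu n)} (hΩ : IsOpen Ω) {P Pt : ℝ → Eu n → Mt n}
    (hP : SmM Ω P) (hPt : ∀ r, ∀ x ∈ U, Pt r x = pull φ (P r) x)
    {r : ℝ} {x : Eu n} (hx : x ∈ U) (hr : (r, φ x) ∈ Ω) :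
    dr (dr Pt) r x = (Jac φ x)ᵀ * dr (dr P) r (φ x) * Jac φ x := by
  ext i j
  have h1 : dr (dr Pt) r x i j = deriv (fun s => dr Pt s x i j) r := rfl
  have h2 : (fun s => dr Pt s x i j) =ᶠ[𝓝 r]
      (fun s => ((Jac φ x)ᵀ * dr P s (φ x) * Jac φ x) i j) := by
    filter_upwards [open_slice hΩ hr] with s hs
    rw [dr_pull hΩ hP hPt hx hs]
  rw [h1, h2.deriv_eq]
  exact deriv_sandwich _ _ (M := fun s => dr P s (φ x))
    (fun a b => diff_deriv (slice_t hΩ (hP a b) hr)) i j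

/-! ## TARGET (prove this) -/

/- Idea: everything only depends on germs at `(r, x)`; `Pt s x i j = ∑ J_{ai} P s (φ x) a b J_{bj}` for all `s`, so
`dr Pt s x = Jᵀ (dr P s (φ x)) J` for `s` near `r`, etc.; `Pt r = pull φ (P r)` near `x`. -/
theorem tau_pull {n : ℕ} {U : Set (Eu n)} (hU : IsOpen U) {φ : Eu n → Eu n} (hφ : ContDiffOn ℝ ∞ φ U)
    (hJ : ∀ x ∈ U, (Jac φ x).det ≠ 0) {Ω : Set (ℝ × Eu n)} (hΩ : IsOpen Ω) {P Pt : ℝ → Eu n → Mt n}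
    (hP : SmM Ω P) (hd : Nd Ω P) (hs : Sy Ω P) (hPt : ∀ r, ∀ x ∈ U, Pt r x = pull φ (P r) x)
    {r : ℝ} {x : Eu n} (hx : x ∈ U) (hr : (r, φ x) ∈ Ω) :
    tau Pt r x = tau P r (φ x) := by
  have hJd : IsUnit (Jac φ x).det := isUnit_iff_ne_zero.2 (hJ x hx)
  have hJt : IsUnit (Jac φ x)ᵀ.det := by rw [Matrix.det_transpose]; exact hJd
  unfold tau
  rw [dr_pull hΩ hP hPt hx hr, hPt r x hx, pull, Matrix.mul_inv_rev, Matrix.mul_inv_rev]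
  have e1 : (Jac φ x)⁻¹ * ((P r (φ x))⁻¹ * (Jac φ x)ᵀ⁻¹) *
      ((Jac φ x)ᵀ * dr P r (φ x) * Jac φ x) =
      (Jac φ x)⁻¹ * (((P r (φ x))⁻¹ * dr P r (φ x)) * Jac φ x) := by
    calc (Jac φ x)⁻¹ * ((P r (φ x))⁻¹ * (Jac φ x)ᵀ⁻¹) *
      ((Jac φ x)ᵀ * dr P r (φ x) * Jac φ x) =
      (Jac φ x)⁻¹ * ((P r (φ x))⁻¹ * (((Jac φ x)ᵀ⁻¹ * (Jac φ x)ᵀ) * (dr P r (φ x) * Jac φ x))) := by
          simp only [Matrix.mul_assoc]
      _ = _ := by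
          rw [Matrix.nonsing_inv_mul _ hJt, Matrix.one_mul]
          simp only [Matrix.mul_assoc]
  rw [e1, Matrix.trace_mul_comm, Matrix.mul_assoc, Matrix.mul_nonsing_inv _ hJd, Matrix.mul_one]

theorem efg_pull {n : ℕ} {U : Set (Eu n)} (hU : IsOpen U) {φ : Eu n → Eu n} (hφ : ContDiffOn ℝ ∞ φ U)
    (hJ : ∀ x ∈ U, (Jac φ x).det ≠ 0) {Ω : Set (ℝ × Eu n)} (hΩ : IsOpen Ω) {P Pt : ℝ → Eu n → Mt n}
    (hP : SmM Ω P) (hd : Nd Ω P) (hs : Sy Ω P) (hPt : ∀ r, ∀ x ∈ U, Pt r x = pull φ (P r) x)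
    {r : ℝ} {x : Eu n} (hx : x ∈ U) (hr : (r, φ x) ∈ Ω) :
    EFG Pt r x = (Jac φ x)ᵀ * EFG P r (φ x) * Jac φ x := by
  have hJd : IsUnit (Jac φ x).det := isUnit_iff_ne_zero.2 (hJ x hx)
  have hJt : IsUnit (Jac φ x)ᵀ.det := by rw [Matrix.det_transpose]; exact hJd
  have hric : Ric (Pt r) x = (Jac φ x)ᵀ * Ric (P r) (φ x) * Jac φ x := by
    have h1 : Pt r =ᶠ[𝓝 x] pull φ (P r) := by
      filter_upwards [hU.mem_nhds hx] with y hy
      exact hPt r y hy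
    rw [ric_congr h1]
    apply ric_pull (hφ.contDiffAt (hU.mem_nhds hx)) (hJ x hx)
      (fun i j => slice_x hΩ (hP i j) hr)
    · filter_upwards [open_slice' hΩ hr] with z hz
      exact hs _ hz
    · exact hd _ hr
  have hquad : ((Jac φ x)ᵀ * dr P r (φ x) * Jac φ x) * ((Jac φ x)ᵀ * P r (φ x) * Jac φ x)⁻¹ *
      ((Jac φ x)ᵀ * dr P r (φ x) * Jac φ x) =
      (Jac φ x)ᵀ * (dr P r (φ x) * (P r (φ x))⁻¹ * dr P r (φ x)) * Jac φ x := by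
    rw [Matrix.mul_inv_rev, Matrix.mul_inv_rev]
    calc _ = (Jac φ x)ᵀ * dr P r (φ x) * (Jac φ x * (Jac φ x)⁻¹) * (P r (φ x))⁻¹ *
          ((Jac φ x)ᵀ⁻¹ * (Jac φ x)ᵀ) * dr P r (φ x) * Jac φ x := by
          simp only [Matrix.mul_assoc]
      _ = _ := by
          rw [Matrix.nonsing_inv_mul _ hJt, Matrix.mul_nonsing_inv _ hJd]
          simp only [Matrix.mul_assoc, Matrix.mul_one, Matrix.one_mul]
  have hPx : Pt r x = (Jac φ x)ᵀ * P r (φ x) * Jac φ x := hPt r x hx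
  unfold EFG
  rw [tau_pull hU hφ hJ hΩ hP hd hs hPt hx hr, drdr_pull hΩ hP hPt hx hr,
    dr_pull hΩ hP hPt hx hr, hric, hPx, hquad]
  simp only [Matrix.mul_add, Matrix.add_mul, Matrix.mul_sub, Matrix.sub_mul, Matrix.mul_smul,
    Matrix.smul_mul]

theorem dw_pull {n : ℕ} {U : Set (Eu n)} (hU : IsOpen U) {φ : Eu n → Eu n} (hφ : ContDiffOn ℝ ∞ φ U)
    (hJ : ∀ x ∈ U, (Jac φ x).det ≠ 0) {Ω : Set (ℝ × Eu n)} (hΩ : IsOpen Ω) {P Pt : ℝ → Eu n → Mt n}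
    (hP : SmM Ω P) (hd : Nd Ω P) (hs : Sy Ω P) (hPt : ∀ r, ∀ x ∈ U, Pt r x = pull φ (P r) x)
    {r : ℝ} {x : Eu n} (hx : x ∈ U) (hr : (r, φ x) ∈ Ω)
    (w : ℝ) {f ft : ℝ → Eu n → ℝ} (hf : SmF Ω f) (hft : ∀ r, ∀ x ∈ U, (r, φ x) ∈ Ω → ft r x = f r (φ x)) :
    Dw Pt w ft r x = Dw P w f r (φ x) := by
  have h1 : (fun s => ft s x) =ᶠ[𝓝 r] (fun s => f s (φ x)) := by
    filter_upwards [open_slice hΩ hr] with s hs
    exact hft s x hx hs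
  have h2 : deriv (fun s => ft s x) =ᶠ[𝓝 r] deriv (fun s => f s (φ x)) := h1.deriv
  have hφc : ContinuousAt φ x := (hφ.contDiffAt (hU.mem_nhds hx)).continuousAt
  have hlap : Lap (Pt r) (ft r) x = Lap (P r) (f r) (φ x) := by
    have h3 : Pt r =ᶠ[𝓝 x] pull φ (P r) := by
      filter_upwards [hU.mem_nhds hx] with y hy
      exact hPt r y hy
    have h4 : ft r =ᶠ[𝓝 x] (fun y => f r (φ y)) := by
      filter_upwards [hU.mem_nhds hx, hφc.eventually (open_slice' hΩ hr)] with y hy hy2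
      exact hft r y hy hy2
    rw [lap_congr h3 h4]
    apply lap_pull (hφ.contDiffAt (hU.mem_nhds hx)) (hJ x hx)
      (fun i j => slice_x hΩ (hP i j) hr)
    · filter_upwards [open_slice' hΩ hr] with z hz
      exact hs _ hz
    · exact hd _ hr
    · exact slice_x hΩ hf hr
  unfold Dw
  rw [tau_pull hU hφ hJ hΩ hP hd hs hPt hx hr, hlap, h2.deriv_eq, h1.deriv_eq,
    hft r x hx hr]

theorem uu_pull {n : ℕ} {U : Set (Eu n)} (hU : IsOpen U) {φ : Eu n → Eu n} (hφ : ContDiffOn ℝ ∞ φ U)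
    (hJ : ∀ x ∈ U, (Jac φ x).det ≠ 0) {Ω : Set (ℝ × Eu n)} (hΩ : IsOpen Ω) {P Pt : ℝ → Eu n → Mt n}
    (hP : SmM Ω P) (hd : Nd Ω P) (hs : Sy Ω P) (hPt : ∀ r, ∀ x ∈ U, Pt r x = pull φ (P r) x)
    {r : ℝ} {x : Eu n} (hx : x ∈ U) (hr : (r, φ x) ∈ Ω) (k : ℕ) :
    uu Pt k r x = uu P k r (φ x) := by
  induction k generalizing r x with
  | zero =>
    simp only [uu]
    rw [tau_pull hU hφ hJ hΩ hP hd hs hPt hx hr]
  | succ k ih =>
    simp only [uu]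
    exact dw_pull hU hφ hJ hΩ hP hd hs hPt hx hr _ (smf_uu hΩ hP hd k)
      (fun r x hx hr => ih hx hr)

end Pool.Agent.QTot.N4
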