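import Pool.Agent.QTot.Base2
import Pool.Agent.QTot.R1

set_option autoImplicit false
open scoped ContDiff Manifold Topology Matrix
open MeasureTheory Filter Set

namespace Pool.Agent.QTot.R3
open Pool.Agent.QTot
open Pool.Agent.QTot.R1 (smf_deriv)




/-! ## TARGET (prove this) -/

theorem smf_iter {n : ℕ} {Ω : Set (ℝ × Eu n)} (hΩ : IsOpen Ω) {f : ℝ → Eu n → ℝ} (hf : SmF Ω f)
    (k : ℕ) : SmF Ω (fun r x => iteratedDeriv k (fun s => f s x) r) := by
  induction k with
  | zero =>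
    have h1 : (fun (r : ℝ) (x : Eu n) => iteratedDeriv 0 (fun s => f s x) r) = f := by
      funext r x
      rw [iteratedDeriv_zero]
    rw [h1]
    exact hf
  | succ k ih =>
    have h1 : (fun (r : ℝ) (x : Eu n) => iteratedDeriv (k + 1) (fun s => f s x) r) =
        fun r x => deriv (fun s => (fun (r : ℝ) (x : Eu n) =>
          iteratedDeriv k (fun s => f s x) r) s x) r := by
      funext r x
      rw [iteratedDeriv_succ]
    rw [h1]
    exact smf_deriv hΩ ih

/- Idea: `iteratedDeriv k (fun r => f r x) r` at `(r, x) ∈ Ω` is obtained by iterating `smf_deriv`. -/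
theorem cf_smooth {n : ℕ} {Ω : Set (ℝ × Eu n)} (hΩ : IsOpen Ω) {f : ℝ → Eu n → ℝ} (hf : SmF Ω f)
    {U : Set (Eu n)} (hU : IsOpen U) (h0 : ∀ x ∈ U, ((0 : ℝ), x) ∈ Ω) (k : ℕ) :
    ContDiffOn ℝ ∞ (fun x => cf k (fun r => f r x)) U := by
  have h1 : ContDiffOn ℝ ∞ (fun p : ℝ × Eu n => iteratedDeriv k (fun s => f s p.2) p.1) Ω :=
    smf_iter hΩ hf k
  have h2 : ContDiffOn ℝ ∞ (fun x : Eu n => ((0 : ℝ), x)) U :=
    (contDiff_const.prodMk contDiff_id).contDiffOn
  have h3 := h1.comp h2 h0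
  have h4 : (fun x : Eu n => cf k (fun r => f r x)) = fun x =>
      ((fun p : ℝ × Eu n => iteratedDeriv k (fun s => f s p.2) p.1) ∘
        fun x : Eu n => ((0 : ℝ), x)) x / (k.factorial : ℝ) := rfl
  rw [h4]
  exact h3.div_const _

end Pool.Agent.QTot.R3
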