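import Pool.Agent.QTot.Base2
import Pool.Agent.QTot.R3
import Pool.Agent.QTot.R2

set_option autoImplicit false
open scoped ContDiff Manifold Topology Matrix
open MeasureTheory Filter Set

namespace Pool.Agent.QTot.R4
open Pool.Agent.QTot
open Pool.Agent.QTot.R3 (cf_smooth)
open Pool.Agent.QTot.R2 (smm_efg smf_uu)






/-! ## TARGET (prove this) -/

/- Idea: by induction on `k`; on the open set `{p | p.2 ∈ U ∧ (amb G k p.1 p.2).det ≠ 0}`, which contains
`{0} × U` by `amb_zero`, the family is smooth and nondegenerate, so `EFG` is smooth there and `cf_smooth` applies to its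
entries (this gives the smoothness of `res (amb G k) k`, hence of `nxt`, on `U`). -/
theorem amb_zero {n : ℕ} (G : Eu n → Mt n) (k : ℕ) (x : Eu n) : amb G k 0 x = G x := by
  induction k with
  | zero => rfl
  | succ k ih =>
    show amb G k 0 x + (0 : ℝ) ^ (k + 1) • nxt G (amb G k) k x = G x
    rw [ih, zero_pow (Nat.succ_ne_zero k), zero_smul, add_zero]

theorem det_smooth {n : ℕ} {E : Type*} [NormedAddCommGroup E] [NormedSpace ℝ E] {s : Set E}
    {A : E → Mt n} (hA : ∀ i j, ContDiffOn ℝ ∞ (fun x => A x i j) s) :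
    ContDiffOn ℝ ∞ (fun x => (A x).det) s := by
  simp only [Matrix.det_apply]
  refine ContDiffOn.sum fun σ _ => ?_
  refine ContDiffOn.const_smul _ ?_
  exact contDiffOn_prod fun i _ => hA _ _

theorem inv_smooth {n : ℕ} {E : Type*} [NormedAddCommGroup E] [NormedSpace ℝ E] {s : Set E}
    {A : E → Mt n} (hA : ∀ i j, ContDiffOn ℝ ∞ (fun x => A x i j) s) (hd : ∀ x ∈ s, (A x).det ≠ 0)
    (i j : Fin n) : ContDiffOn ℝ ∞ (fun x => (A x)⁻¹ i j) s := by
  have h1 : ∀ x, (A x)⁻¹ i j = ((A x).det)⁻¹ * (A x).adjugate i j := by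
    intro x
    rw [Matrix.inv_def, Ring.inverse_eq_inv', Matrix.smul_apply, smul_eq_mul]
  simp only [h1]
  refine ((det_smooth hA).inv hd).mul ?_
  simp only [Matrix.adjugate_apply]
  refine det_smooth fun k l => ?_
  by_cases hk : k = j
  · subst hk
    simp only [Matrix.updateRow_self]
    exact contDiffOn_const
  · simp only [Matrix.updateRow_ne hk]
    exact hA k l

theorem V_facts {n : ℕ} {U : Set (Eu n)} (hU : IsOpen U) {G : Eu n → Mt n}
    (hd : ∀ x ∈ U, (G x).det ≠ 0) (k : ℕ) (hs : SmM (univ ×ˢ U) (amb G k)) :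
    ∃ V : Set (ℝ × Eu n), IsOpen V ∧ SmM V (amb G k) ∧ Nd V (amb G k) ∧ ∀ x ∈ U, ((0 : ℝ), x) ∈ V := by
  have hO : IsOpen ((univ : Set ℝ) ×ˢ U) := isOpen_univ.prod hU
  have hdet : ContDiffOn ℝ ∞ (fun p : ℝ × Eu n => (amb G k p.1 p.2).det) (univ ×ˢ U) :=
    det_smooth (A := fun p : ℝ × Eu n => amb G k p.1 p.2) hs
  refine ⟨(univ ×ˢ U) ∩ (fun p : ℝ × Eu n => (amb G k p.1 p.2).det) ⁻¹' {0}ᶜ, ?_, ?_, ?_, ?_⟩
  · exact hdet.continuousOn.isOpen_inter_preimage hO isOpen_compl_singleton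
  · intro i j
    exact (hs i j).mono inter_subset_left
  · intro p hp
    exact hp.2
  · intro x hx
    refine ⟨⟨mem_univ _, hx⟩, ?_⟩
    show (amb G k 0 x).det ∈ ({0}ᶜ : Set ℝ)
    rw [amb_zero]
    exact hd x hx

theorem nxt_smooth {n : ℕ} {U : Set (Eu n)} {G : Eu n → Mt n}
    (hG : ∀ i j, ContDiffOn ℝ ∞ (fun x => G x i j) U) (hd : ∀ x ∈ U, (G x).det ≠ 0)
    (P : ℝ → Eu n → Mt n) (k : ℕ)
    (hr : ∀ i j, ContDiffOn ℝ ∞ (fun x => res P k x i j) U) (i j : Fin n) :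
    ContDiffOn ℝ ∞ (fun x => nxt G P k x i j) U := by
  have ht : ContDiffOn ℝ ∞ (fun x => ((G x)⁻¹ * res P k x).trace /
      (((k : ℝ) + 1) * ((n : ℝ) - 1 - k))) U := by
    refine ContDiffOn.div_const ?_ _
    simp only [Matrix.trace, Matrix.diag_apply, Matrix.mul_apply]
    refine ContDiffOn.sum fun a _ => ContDiffOn.sum fun b _ => ?_
    exact (inv_smooth hG hd a b).mul (hr b a)
  by_cases hk : k + 1 < n / 2
  · have e : (fun x => nxt G P k x i j) = fun x =>
        (1 / (((k : ℝ) + 1) * ((n : ℝ) / 2 - 1 - k))) * (res P k x i j -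
          (((k : ℝ) + 1) * (((G x)⁻¹ * res P k x).trace /
            (((k : ℝ) + 1) * ((n : ℝ) - 1 - k))) / 2) * G x i j) := by
      funext x
      simp only [nxt, if_pos hk, Matrix.smul_apply, Matrix.sub_apply, smul_eq_mul]
    rw [e]
    exact contDiffOn_const.mul ((hr i j).sub (((contDiffOn_const.mul ht).div_const _).mul (hG i j)))
  · have e : (fun x => nxt G P k x i j) = fun x =>
        ((((G x)⁻¹ * res P k x).trace / (((k : ℝ) + 1) * ((n : ℝ) - 1 - k))) / n) * G x i j := by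
      funext x
      simp only [nxt, if_neg hk, Matrix.smul_apply, smul_eq_mul]
    rw [e]
    exact (ht.div_const _).mul (hG i j)

theorem amb_smooth {n : ℕ} {U : Set (Eu n)} (hU : IsOpen U) {G : Eu n → Mt n}
    (hG : ∀ i j, ContDiffOn ℝ ∞ (fun x => G x i j) U) (hd : ∀ x ∈ U, (G x).det ≠ 0) (k : ℕ) :
    SmM (univ ×ˢ U) (amb G k) := by
  induction k with
  | zero =>
    intro i j
    exact (hG i j).comp (f := fun p : ℝ × Eu n => p.2) contDiffOn_snd (fun p hp => hp.2)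
  | succ k ih =>
    obtain ⟨V, hV, hVs, hVn, hV0⟩ := V_facts hU hd k ih
    have hE := smm_efg hV hVs hVn
    have hr : ∀ i j, ContDiffOn ℝ ∞ (fun x => res (amb G k) k x i j) U := by
      intro i j
      exact cf_smooth hV (hE i j) hU hV0 k
    intro i j
    have h1 := nxt_smooth hG hd (amb G k) k hr i j
    have h2 : ContDiffOn ℝ ∞ (fun p : ℝ × Eu n => nxt G (amb G k) k p.2 i j) (univ ×ˢ U) :=
      h1.comp (f := fun p : ℝ × Eu n => p.2) contDiffOn_snd (fun p hp => hp.2)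
    have h3 : ContDiffOn ℝ ∞ (fun p : ℝ × Eu n => p.1 ^ (k + 1)) (univ ×ˢ U) :=
      contDiffOn_fst.pow _
    exact (ih i j).add (h3.mul h2)

theorem q_smooth {n : ℕ} {U : Set (Eu n)} (hU : IsOpen U) {G : Eu n → Mt n}
    (hG : ∀ i j, ContDiffOn ℝ ∞ (fun x => G x i j) U) (hd : ∀ x ∈ U, (G x).det ≠ 0) :
    ContDiffOn ℝ ∞ (Qloc G) U := by
  obtain ⟨V, hV, hVs, hVn, hV0⟩ := V_facts hU hd (n / 2) (amb_smooth hU hG hd (n / 2))
  have h := smf_uu hV hVs hVn (n / 2 - 1)
  have h2 : ContDiffOn ℝ ∞ (fun x : Eu n => uu (amb G (n / 2)) (n / 2 - 1) 0 x) U :=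
    ContDiffOn.comp (g := fun p : ℝ × Eu n => uu (amb G (n / 2)) (n / 2 - 1) p.1 p.2)
      (f := fun x : Eu n => ((0 : ℝ), x)) h
      ((contDiff_const.prodMk contDiff_id).contDiffOn) hV0
  exact contDiffOn_const.mul h2

end Pool.Agent.QTot.R4
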