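import Pool.Agent.QTot.Base2

set_option autoImplicit false
open scoped ContDiff Manifold Topology Matrix
open MeasureTheory Filter Set

namespace Pool.Agent.QTot.S1
open Pool.Agent.QTot


theorem pd_congr235 {n : ℕ} {f g : Eu n → ℝ} {x : Eu n} (h : f =ᶠ[𝓝 x] g) (i : Fin n) :
    pd i f x = pd i g x := by
  unfold pd
  rw [h.fderiv_eq]

theorem pd_mul235 {n : ℕ} {f g : Eu n → ℝ} {x : Eu n} (hf : DifferentiableAt ℝ f x)
    (hg : DifferentiableAt ℝ g x) (i : Fin n) :
    pd i (fun y => f y * g y) x = f x * pd i g x + g x * pd i f x := by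
  unfold pd
  rw [fderiv_fun_mul hf hg]
  simp

theorem pd_sum235 {n : ℕ} {ι : Type*} (s : Finset ι) {F : ι → Eu n → ℝ} {x : Eu n}
    (h : ∀ a ∈ s, DifferentiableAt ℝ (F a) x) (i : Fin n) :
    pd i (fun y => ∑ a ∈ s, F a y) x = ∑ a ∈ s, pd i (F a) x := by
  unfold pd
  rw [fderiv_fun_sum h]
  simp

theorem pd_const_mul235 {n : ℕ} {f : Eu n → ℝ} {x : Eu n} (hf : DifferentiableAt ℝ f x) (c : ℝ)
    (i : Fin n) : pd i (fun y => c * f y) x = c * pd i f x := by
  unfold pd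
  rw [fderiv_const_mul hf]
  simp

theorem pd_const235 {n : ℕ} (c : ℝ) (x : Eu n) (i : Fin n) : pd i (fun _ : Eu n => c) x = 0 := by
  unfold pd
  simp

theorem pd_smooth235 {n : ℕ} {U : Set (Eu n)} (hU : IsOpen U) {f : Eu n → ℝ}
    (hf : ContDiffOn ℝ ∞ f U) (i : Fin n) : ContDiffOn ℝ ∞ (pd i f) U := by
  unfold pd
  exact (hf.fderiv_of_isOpen hU (by simp)).clm_apply contDiffOn_const

theorem diffAt235 {n : ℕ} {U : Set (Eu n)} (hU : IsOpen U) {f : Eu n → ℝ}
    (hf : ContDiffOn ℝ ∞ f U) {x : Eu n} (hx : x ∈ U) : DifferentiableAt ℝ f x :=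
  (hf.contDiffAt (hU.mem_nhds hx)).differentiableAt (by simp)

theorem pd_comm235 {n : ℕ} {U : Set (Eu n)} (hU : IsOpen U) {f : Eu n → ℝ}
    (hf : ContDiffOn ℝ ∞ f U) {x : Eu n} (hx : x ∈ U) (i j : Fin n) :
    pd j (pd i f) x = pd i (pd j f) x := by
  have hat : ContDiffAt ℝ ∞ f x := hf.contDiffAt (hU.mem_nhds hx)
  have h2 : minSmoothness ℝ 2 ≤ (∞ : WithTop ℕ∞) := by
    rw [minSmoothness_of_isRCLikeNormedField]
    exact WithTop.coe_le_coe.2 (le_top : (2 : ℕ∞) ≤ ⊤)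
  have hs : IsSymmSndFDerivAt ℝ f x := hat.isSymmSndFDerivAt h2
  have hd : DifferentiableAt ℝ (fderiv ℝ f) x :=
    ((hf.fderiv_of_isOpen hU (m := ∞) (by simp)).contDiffAt (hU.mem_nhds hx)).differentiableAt
      (by simp)
  have key : ∀ v w : Eu n, fderiv ℝ (fun y => fderiv ℝ f y v) x w = fderiv ℝ (fderiv ℝ f) x w v := by
    intro v w
    rw [fderiv_clm_apply hd (differentiableAt_const v)]
    simp
  unfold pd
  rw [key, key]
  exact hs _ _

theorem det_smooth235 {n : ℕ} {U : Set (Eu n)} {M : Eu n → Mt n}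
    (hM : ∀ i j, ContDiffOn ℝ ∞ (fun x => M x i j) U) : ContDiffOn ℝ ∞ (fun x => (M x).det) U := by
  simp only [Matrix.det_apply']
  refine ContDiffOn.sum fun σ _ => contDiffOn_const.mul ?_
  exact contDiffOn_prod fun i _ => hM (σ i) i

theorem inv_smooth235 {n : ℕ} {U : Set (Eu n)} {G : Eu n → Mt n}
    (hG : ∀ i j, ContDiffOn ℝ ∞ (fun x => G x i j) U) (hd : ∀ x ∈ U, (G x).det ≠ 0)
    (k l : Fin n) : ContDiffOn ℝ ∞ (fun x => (G x)⁻¹ k l) U := by
  have e : ∀ x, (G x)⁻¹ k l = ((G x).det)⁻¹ * (G x).adjugate k l := by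
    intro x
    rw [Matrix.inv_def, Matrix.smul_apply, smul_eq_mul, Ring.inverse_eq_inv']
  simp only [e]
  refine ((det_smooth235 hG).inv hd).mul ?_
  simp only [Matrix.adjugate_apply]
  apply det_smooth235
  intro i j
  by_cases hil : i = l
  · subst hil
    simp only [Matrix.updateRow_self]
    exact contDiffOn_const
  · have e2 : ∀ x, (G x).updateRow l (Pi.single k 1) i j = G x i j := by
      intro x
      rw [Matrix.updateRow_ne hil]
    simp only [e2]
    exact hG i j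

theorem Gam_smooth235 {n : ℕ} {U : Set (Eu n)} (hU : IsOpen U) {G : Eu n → Mt n}
    (hG : ∀ i j, ContDiffOn ℝ ∞ (fun x => G x i j) U) (hd : ∀ x ∈ U, (G x).det ≠ 0)
    (k i j : Fin n) : ContDiffOn ℝ ∞ (Gam G k i j) U := by
  unfold Gam
  refine contDiffOn_const.mul (ContDiffOn.sum fun l _ => (inv_smooth235 hG hd k l).mul ?_)
  exact ((pd_smooth235 hU (hG j l) i).add (pd_smooth235 hU (hG i l) j)).sub
    (pd_smooth235 hU (hG i j) l)

theorem pdG_symm235 {n : ℕ} {U : Set (Eu n)} (hU : IsOpen U) {G : Eu n → Mt n}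
    (hs : ∀ x ∈ U, (G x).IsSymm) {x : Eu n} (hx : x ∈ U) (l i j : Fin n) :
    pd l (fun y => G y i j) x = pd l (fun y => G y j i) x := by
  apply pd_congr235
  filter_upwards [hU.mem_nhds hx] with y hy
  exact (hs y hy).apply j i

theorem Gam_symm235 {n : ℕ} {U : Set (Eu n)} (hU : IsOpen U) {G : Eu n → Mt n}
    (hs : ∀ x ∈ U, (G x).IsSymm) {x : Eu n} (hx : x ∈ U) (k i j : Fin n) :
    Gam G k i j x = Gam G k j i x := by
  unfold Gam
  congr 1
  refine Finset.sum_congr rfl fun l _ => ?_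
  rw [pdG_symm235 hU hs hx l i j]
  ring

theorem inv_symm235 {n : ℕ} {M : Mt n} (h : M.IsSymm) : (M⁻¹).IsSymm := by
  unfold Matrix.IsSymm at *
  rw [Matrix.transpose_nonsing_inv, h]

theorem trace_Gam235 {n : ℕ} {U : Set (Eu n)} {G : Eu n → Mt n}
    (hs : ∀ x ∈ U, (G x).IsSymm) {x : Eu n} (hx : x ∈ U) (i : Fin n) :
    ∑ k, Gam G k i k x = (1 / 2) * ∑ k, ∑ l, (G x)⁻¹ k l * pd i (fun y => G y k l) x := by
  unfold Gam
  rw [← Finset.mul_sum]
  congr 1
  have h1 : ∑ k, ∑ l, (G x)⁻¹ k l * pd l (fun y => G y i k) x =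
      ∑ k, ∑ l, (G x)⁻¹ k l * pd k (fun y => G y i l) x := by
    rw [Finset.sum_comm]
    refine Finset.sum_congr rfl fun k _ => Finset.sum_congr rfl fun l _ => ?_
    rw [(inv_symm235 (hs x hx)).apply k l]
  have h2 : ∀ k l, (G x)⁻¹ k l * (pd i (fun y => G y k l) x + pd k (fun y => G y i l) x -
      pd l (fun y => G y i k) x) = (G x)⁻¹ k l * pd i (fun y => G y k l) x +
      (G x)⁻¹ k l * pd k (fun y => G y i l) x - (G x)⁻¹ k l * pd l (fun y => G y i k) x := by
    intro k l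
    ring
  simp only [h2, Finset.sum_sub_distrib, Finset.sum_add_distrib]
  rw [h1]
  ring

/-- derivative of the inverse matrix -/
theorem pd_inv235 {n : ℕ} {U : Set (Eu n)} (hU : IsOpen U) {G : Eu n → Mt n}
    (hG : ∀ i j, ContDiffOn ℝ ∞ (fun x => G x i j) U) (hd : ∀ x ∈ U, (G x).det ≠ 0)
    {x : Eu n} (hx : x ∈ U) (j : Fin n) :
    Matrix.of (fun k l => pd j (fun y => (G y)⁻¹ k l) x) =
      -((G x)⁻¹ * Matrix.of (fun a b => pd j (fun y => G y a b) x) * (G x)⁻¹) := by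
  have hunit : IsUnit (G x).det := isUnit_iff_ne_zero.2 (hd x hx)
  have h1 : (G x)⁻¹ * Matrix.of (fun a b => pd j (fun y => G y a b) x) +
      Matrix.of (fun k l => pd j (fun y => (G y)⁻¹ k l) x) * G x = 0 := by
    ext k m
    rw [Matrix.add_apply, Matrix.mul_apply, Matrix.mul_apply, ← Finset.sum_add_distrib,
      Matrix.zero_apply]
    simp only [Matrix.of_apply]
    have h2 : pd j (fun y => ∑ l, (G y)⁻¹ k l * G y l m) x = 0 := by
      rw [pd_congr235 (g := fun _ => (1 : Mt n) k m) _ j, pd_const235]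
      filter_upwards [hU.mem_nhds hx] with y hy
      rw [← Matrix.mul_apply, Matrix.nonsing_inv_mul _ (isUnit_iff_ne_zero.2 (hd y hy))]
    have hF : ∀ l ∈ (Finset.univ : Finset (Fin n)),
        DifferentiableAt ℝ (fun y => (G y)⁻¹ k l * G y l m) x := fun l _ =>
      (diffAt235 hU (inv_smooth235 hG hd k l) hx).mul (diffAt235 hU (hG l m) hx)
    rw [pd_sum235 (F := fun l y => (G y)⁻¹ k l * G y l m) _ hF] at h2
    rw [← h2]
    refine Finset.sum_congr rfl fun l _ => ?_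
    rw [pd_mul235 (diffAt235 hU (inv_smooth235 hG hd k l) hx) (diffAt235 hU (hG l m) hx)]
    ring
  have h3 : Matrix.of (fun k l => pd j (fun y => (G y)⁻¹ k l) x) * G x =
      -((G x)⁻¹ * Matrix.of (fun a b => pd j (fun y => G y a b) x)) :=
    eq_neg_of_add_eq_zero_right h1
  calc Matrix.of (fun k l => pd j (fun y => (G y)⁻¹ k l) x) =
      Matrix.of (fun k l => pd j (fun y => (G y)⁻¹ k l) x) * G x * (G x)⁻¹ := by
        rw [Matrix.mul_assoc, Matrix.mul_nonsing_inv _ hunit, Matrix.mul_one]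
    _ = _ := by rw [h3, Matrix.neg_mul]

/-- the second term of the Ricci tensor -/
theorem second235 {n : ℕ} {U : Set (Eu n)} (hU : IsOpen U) {G : Eu n → Mt n}
    (hG : ∀ i j, ContDiffOn ℝ ∞ (fun x => G x i j) U) (hs : ∀ x ∈ U, (G x).IsSymm)
    (hd : ∀ x ∈ U, (G x).det ≠ 0) {x : Eu n} (hx : x ∈ U) (i j : Fin n) :
    ∑ k, pd j (Gam G k i k) x =
      (1 / 2) * ((∑ k, ∑ l, (G x)⁻¹ k l * pd j (pd i (fun y => G y k l)) x) -
        ((G x)⁻¹ * Matrix.of (fun a b => pd j (fun y => G y a b) x) * (G x)⁻¹ *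
          Matrix.of (fun a b => pd i (fun y => G y a b) x)).trace) := by
  have hdi := fun k l => diffAt235 hU (inv_smooth235 hG hd k l) hx
  have hdp := fun k l => diffAt235 hU (pd_smooth235 hU (hG k l) i) hx
  have h1 : ∑ k, pd j (Gam G k i k) x = pd j (fun y => ∑ k, Gam G k i k y) x := by
    rw [pd_sum235 _ fun k _ => diffAt235 hU (Gam_smooth235 hU hG hd k i k) hx]
  have h2 : pd j (fun y => ∑ k, Gam G k i k y) x = pd j (fun y => (1 / 2) *
      ∑ k, ∑ l, (G y)⁻¹ k l * pd i (fun z => G z k l) y) x := by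
    apply pd_congr235
    filter_upwards [hU.mem_nhds hx] with y hy
    exact trace_Gam235 hs hy i
  have hd1 : ∀ k, DifferentiableAt ℝ (fun y => ∑ l, (G y)⁻¹ k l * pd i (fun z => G z k l) y) x :=
    fun k => DifferentiableAt.fun_sum fun l _ => (hdi k l).mul (hdp k l)
  have h3 : pd j (fun y => (1 / 2) * ∑ k, ∑ l, (G y)⁻¹ k l * pd i (fun z => G z k l) y) x =
      (1 / 2) * ∑ k, ∑ l, ((G x)⁻¹ k l * pd j (pd i (fun y => G y k l)) x +
        pd i (fun y => G y k l) x * pd j (fun y => (G y)⁻¹ k l) x) := by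
    rw [pd_const_mul235 (DifferentiableAt.fun_sum fun k _ => hd1 k), pd_sum235 _ fun k _ => hd1 k]
    congr 1
    refine Finset.sum_congr rfl fun k _ => ?_
    have hF : ∀ l ∈ (Finset.univ : Finset (Fin n)),
        DifferentiableAt ℝ (fun y => (G y)⁻¹ k l * pd i (fun z => G z k l) y) x := fun l _ =>
      (hdi k l).mul (hdp k l)
    rw [pd_sum235 (F := fun l y => (G y)⁻¹ k l * pd i (fun z => G z k l) y) _ hF]
    refine Finset.sum_congr rfl fun l _ => ?_
    rw [pd_mul235 (hdi k l) (hdp k l)]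
  have h4 : ∑ k, ∑ l, pd i (fun y => G y k l) x * pd j (fun y => (G y)⁻¹ k l) x =
      -((G x)⁻¹ * Matrix.of (fun a b => pd j (fun y => G y a b) x) * (G x)⁻¹ *
          Matrix.of (fun a b => pd i (fun y => G y a b) x)).trace := by
    have h5 := pd_inv235 hU hG hd hx j
    rw [← Matrix.trace_neg, ← Matrix.neg_mul, ← h5, Matrix.trace]
    refine Finset.sum_congr rfl fun k _ => ?_
    rw [Matrix.diag_apply, Matrix.mul_apply]
    refine Finset.sum_congr rfl fun l _ => ?_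
    rw [Matrix.of_apply, Matrix.of_apply, pdG_symm235 hU hs hx i l k, mul_comm]
  rw [h1, h2, h3]
  simp only [Finset.sum_add_distrib]
  rw [h4]
  ring

/-! ## TARGET (prove this) -/

/- Idea: `Γ^k_{ij} = Γ^k_{ji}` by symmetry of `G`; `∑_k Γ^k_{ik} = (1/2) tr (G⁻¹ ∂_i G) = ∂_i log √|det G|`
(Jacobi's formula: derivative of `det`; write e.g. `∑_k Γ^k_{ik} = (1/2) ∂_i (det G) / det G`), so
`∂_j ∑_k Γ^k_{ik}` is symmetric in `i, j` (symmetry of second derivatives of a smooth function). -/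
theorem ric_symm {n : ℕ} {U : Set (Eu n)} (hU : IsOpen U) {G : Eu n → Mt n}
    (hG : ∀ i j, ContDiffOn ℝ ∞ (fun x => G x i j) U) (hs : ∀ x ∈ U, (G x).IsSymm) (hd : ∀ x ∈ U, (G x).det ≠ 0)
    (x : Eu n) (hx : x ∈ U) : (Ric G x).IsSymm := by
  unfold Matrix.IsSymm
  ext i j
  rw [Matrix.transpose_apply]
  unfold Ric
  rw [Matrix.of_apply, Matrix.of_apply]
  have h1 : ∑ k, pd k (Gam G k j i) x = ∑ k, pd k (Gam G k i j) x := by
    refine Finset.sum_congr rfl fun k _ => ?_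
    apply pd_congr235
    filter_upwards [hU.mem_nhds hx] with y hy
    exact Gam_symm235 hU hs hy k j i
  have h2 : ∑ k, pd i (Gam G k j k) x = ∑ k, pd j (Gam G k i k) x := by
    rw [second235 hU hG hs hd hx j i, second235 hU hG hs hd hx i j]
    congr 2
    · refine Finset.sum_congr rfl fun k _ => Finset.sum_congr rfl fun l _ => ?_
      rw [pd_comm235 hU (hG k l) hx j i]
    · rw [Matrix.mul_assoc, Matrix.trace_mul_comm, ← Matrix.mul_assoc]
  have h3 : ∑ k, ∑ l, (Gam G k k l x * Gam G l j i x - Gam G k i l x * Gam G l j k x) =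
      ∑ k, ∑ l, (Gam G k k l x * Gam G l i j x - Gam G k j l x * Gam G l i k x) := by
    simp only [Finset.sum_sub_distrib]
    congr 1
    · refine Finset.sum_congr rfl fun k _ => Finset.sum_congr rfl fun l _ => ?_
      rw [Gam_symm235 hU hs hx l j i]
    · rw [Finset.sum_comm]
      refine Finset.sum_congr rfl fun k _ => Finset.sum_congr rfl fun l _ => ?_
      ring
  rw [h1, h2, h3]

end Pool.Agent.QTot.S1
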