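import Pool.Agent.QTot.Base2
import Pool.Agent.QTot.S1
import Pool.Agent.QTot.R4

set_option autoImplicit false
open scoped ContDiff Manifold Topology Matrix
open MeasureTheory Filter Set

namespace Pool.Agent.QTot.S2
open Pool.Agent.QTot
open Pool.Agent.QTot.S1 (ric_symm)
open Pool.Agent.QTot.R4 (amb_zero amb_smooth)






theorem efg_symm_aux {n : ℕ} {U : Set (Eu n)} (hU : IsOpen U) {P : ℝ → Eu n → Mt n}
    (hP : SmM (univ ×ˢ U) P) (hs : ∀ r : ℝ, ∀ x ∈ U, (P r x).IsSymm) (x : Eu n) (hx : x ∈ U)
    (r : ℝ) (hdr : (P r x).det ≠ 0) : (EFG P r x).IsSymm := by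
  have hdrs : ∀ s, (dr P s x).IsSymm := by
    intro s
    apply Matrix.IsSymm.ext
    intro i j
    unfold dr
    simp only [Matrix.of_apply]
    congr 1
    funext s'
    exact (hs s' x hx).apply i j
  have hddrs : (dr (dr P) r x).IsSymm := by
    apply Matrix.IsSymm.ext
    intro i j
    have h1 : ∀ a b, dr (dr P) r x a b = deriv (fun s => dr P s x a b) r := fun a b => rfl
    rw [h1, h1]
    congr 1
    funext s'
    exact (hdrs s').apply i j
  have hinv : ((P r x)⁻¹).IsSymm := by
    rw [Matrix.IsSymm, Matrix.transpose_nonsing_inv, (hs r x hx).eq]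
  have hmul : (dr P r x * (P r x)⁻¹ * dr P r x).IsSymm := by
    rw [Matrix.IsSymm, Matrix.transpose_mul, Matrix.transpose_mul, (hdrs r).eq, hinv.eq,
      Matrix.mul_assoc]
  have hric : (Ric (P r) x).IsSymm := by
    have hc : ContinuousOn (fun y => (P r y).det) U := by
      have h1 : ContinuousOn (fun y => P r y) U := by
        refine continuousOn_pi.2 fun i => continuousOn_pi.2 fun j => ?_
        have h2 : ContinuousOn (fun y : Eu n => (r, y)) U := by fun_prop
        exact (hP i j).continuousOn.comp h2 (fun y hy => ⟨mem_univ _, hy⟩)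
      exact (continuous_id.matrix_det).comp_continuousOn h1
    have hV : IsOpen (U ∩ {y | (P r y).det ≠ 0}) :=
      hc.isOpen_inter_preimage hU isOpen_ne
    refine ric_symm hV (G := P r) (fun i j => ?_) (fun y hy => hs r y hy.1) (fun y hy => hy.2) x
      ⟨hx, hdr⟩
    have h2 : ContDiffOn ℝ ∞ (fun y : Eu n => (r, y)) (U ∩ {y | (P r y).det ≠ 0}) :=
      (contDiff_const.prodMk contDiff_id).contDiffOn
    exact ContDiffOn.comp (hP i j) h2 (fun y hy => ⟨mem_univ _, hy.1⟩)
  unfold EFG
  exact (((((hddrs.smul _).sub (hmul.smul _)).add ((hdrs r).smul _)).sub ((hdrs r).smul _)).sub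
    ((hs r x hx).smul _)).add hric

/-! ## TARGET (prove this) -/

/- Idea: induction on `k`.  For `x ∈ U` and `r` near `0` the family `amb G k r` is symmetric, smooth and nondegenerate
near `x` (openness of `det ≠ 0`, `amb_zero`), so `EFG (amb G k) r x` is symmetric for `r` near `0` (`ric_symm` on a
small open set around `x`), hence `res (amb G k) k x` is symmetric (`cf k` only depends on the germ at `0`), hence `nxt`. -/
theorem amb_symm {n : ℕ} {U : Set (Eu n)} (hU : IsOpen U) {G : Eu n → Mt n}
    (hG : ∀ i j, ContDiffOn ℝ ∞ (fun x => G x i j) U) (hs : ∀ x ∈ U, (G x).IsSymm) (hd : ∀ x ∈ U, (G x).det ≠ 0)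
    (k : ℕ) : ∀ r : ℝ, ∀ x ∈ U, (amb G k r x).IsSymm := by
  induction k with
  | zero => intro r x hx; exact hs x hx
  | succ k ih =>
    intro r x hx
    have hsm := amb_smooth hU hG hd k
    have hres : (res (amb G k) k x).IsSymm := by
      have hdet : ContinuousAt (fun s : ℝ => (amb G k s x).det) 0 := by
        have h1 : Continuous (fun s : ℝ => amb G k s x) := by
          refine continuous_pi fun i => continuous_pi fun j => ?_
          have h2 : ContinuousOn (fun s : ℝ => (s, x)) univ := by fun_prop
          have h3 := (hsm i j).continuousOn.comp h2 (fun y hy => ⟨mem_univ _, hx⟩)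
          exact continuousOn_univ.1 h3
        exact (h1.matrix_det).continuousAt
      have hne : (amb G k 0 x).det ≠ 0 := by
        rw [amb_zero]; exact hd x hx
      have hev : ∀ᶠ s in 𝓝 (0:ℝ), (EFG (amb G k) s x).IsSymm := by
        filter_upwards [hdet.eventually_ne hne] with s hs'
        exact efg_symm_aux hU hsm ih x hx s hs'
      apply Matrix.IsSymm.ext
      intro i j
      unfold res cf
      simp only [Matrix.of_apply]
      congr 1
      apply Filter.EventuallyEq.iteratedDeriv_eq
      filter_upwards [hev] with s hs'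
      exact hs'.apply i j
    have hn : (nxt G (amb G k) k x).IsSymm := by
      unfold nxt
      simp only
      split_ifs
      · exact (hres.sub ((hs x hx).smul _)).smul _
      · exact (hs x hx).smul _
    change (amb G k r x + r ^ (k + 1) • nxt G (amb G k) k x).IsSymm
    exact (ih r x hx).add (hn.smul _)

end Pool.Agent.QTot.S2
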