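import Pool.Agent.QTot.Base2
import Pool.Agent.QTot.R4
import Pool.Agent.QTot.S2
import Pool.Agent.QTot.N4

set_option autoImplicit false
open scoped ContDiff Manifold Topology Matrix
open MeasureTheory Filter Set

namespace Pool.Agent.QTot.N5
open Pool.Agent.QTot
open Pool.Agent.QTot.R4 (amb_zero amb_smooth)
open Pool.Agent.QTot.S2 (amb_symm)
open Pool.Agent.QTot.N4 (efg_pull uu_pull)








/-! ## TARGET (prove this) -/

/-! Auxiliary lemmas copied from the solutions of the jobs R1 and R2 (replace by imports if wanted). -/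

theorem smf_deriv {n : ℕ} {Ω : Set (ℝ × Eu n)} (hΩ : IsOpen Ω) {f : ℝ → Eu n → ℝ} (hf : SmF Ω f) :
    SmF Ω (fun r x => deriv (fun s => f s x) r) := by
  unfold SmF at hf ⊢
  have h1 : ContDiffOn ℝ ∞ (fderiv ℝ (fun p : ℝ × Eu n => f p.1 p.2)) Ω :=
    hf.fderiv_of_isOpen hΩ (by simp)
  have h2 : ContDiffOn ℝ ∞ (fun p => fderiv ℝ (fun p : ℝ × Eu n => f p.1 p.2) p ((1 : ℝ), (0 : Eu n))) Ω :=
    h1.clm_apply contDiffOn_const
  refine h2.congr fun p hp => ?_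
  have h3 : HasFDerivAt (fun p : ℝ × Eu n => f p.1 p.2) (fderiv ℝ (fun p : ℝ × Eu n => f p.1 p.2) p) p :=
    ((hf.differentiableOn (by simp)).differentiableAt (hΩ.mem_nhds hp)).hasFDerivAt
  have h4 : HasDerivAt (fun s : ℝ => ((s, p.2) : ℝ × Eu n)) ((1 : ℝ), (0 : Eu n)) p.1 :=
    (hasDerivAt_id p.1).prodMk (hasDerivAt_const p.1 p.2)
  exact (h3.comp_hasDerivAt p.1 h4).deriv

theorem smf_pd {n : ℕ} {Ω : Set (ℝ × Eu n)} (hΩ : IsOpen Ω) {f : ℝ → Eu n → ℝ} (hf : SmF Ω f) (i : Fin n) :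
    SmF Ω (fun r x => pd i (f r) x) := by
  unfold SmF at hf ⊢
  have h1 : ContDiffOn ℝ ∞ (fderiv ℝ (fun p : ℝ × Eu n => f p.1 p.2)) Ω :=
    hf.fderiv_of_isOpen hΩ (by simp)
  have h2 : ContDiffOn ℝ ∞ (fun p => fderiv ℝ (fun p : ℝ × Eu n => f p.1 p.2) p ((0 : ℝ), (Pi.single i 1 : Eu n))) Ω :=
    h1.clm_apply contDiffOn_const
  refine h2.congr fun p hp => ?_
  have h3 : HasFDerivAt (fun p : ℝ × Eu n => f p.1 p.2) (fderiv ℝ (fun p : ℝ × Eu n => f p.1 p.2) p) p :=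
    ((hf.differentiableOn (by simp)).differentiableAt (hΩ.mem_nhds hp)).hasFDerivAt
  have h4 : HasFDerivAt (fun x : Eu n => ((p.1, x) : ℝ × Eu n))
      ((0 : Eu n →L[ℝ] ℝ).prod (ContinuousLinearMap.id ℝ (Eu n))) p.2 :=
    (hasFDerivAt_const p.1 p.2).prodMk (hasFDerivAt_id p.2)
  have h5 := HasFDerivAt.comp (x := p.2) (g := fun p : ℝ × Eu n => f p.1 p.2)
    (f := fun x : Eu n => ((p.1, x) : ℝ × Eu n)) (g' := fderiv ℝ (fun p : ℝ × Eu n => f p.1 p.2) p) h3 h4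
  have h6 : fderiv ℝ (f p.1) p.2 = (fderiv ℝ (fun p : ℝ × Eu n => f p.1 p.2) p).comp
      ((0 : Eu n →L[ℝ] ℝ).prod (ContinuousLinearMap.id ℝ (Eu n))) := h5.fderiv
  show fderiv ℝ (f p.1) p.2 (Pi.single i 1) = _
  rw [h6]
  simp

theorem smf_det {n : ℕ} {Ω : Set (ℝ × Eu n)} {P : ℝ → Eu n → Mt n} (hP : SmM Ω P) :
    SmF Ω (fun r x => (P r x).det) := by
  unfold SmF
  simp_rw [Matrix.det_apply]
  refine ContDiffOn.sum fun σ _ => ?_
  refine ContDiffOn.const_smul _ ?_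
  refine contDiffOn_prod fun i _ => ?_
  exact hP _ _

theorem smm_inv {n : ℕ} {Ω : Set (ℝ × Eu n)} {P : ℝ → Eu n → Mt n} (hP : SmM Ω P) (hd : Nd Ω P) :
    SmM Ω (fun r x => (P r x)⁻¹) := by
  intro i j
  have h1 : SmF Ω (fun r x => (P r x).det) := smf_det hP
  have h2 : SmF Ω (fun r x => (P r x).adjugate i j) := by
    have h3 : SmM Ω (fun r x => (P r x).updateRow j (Pi.single i 1)) := by
      intro k l
      by_cases hk : k = j
      · subst hk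
        unfold SmF
        simp only [Matrix.updateRow_self]
        exact contDiffOn_const
      · unfold SmF
        simp only [Matrix.updateRow_ne hk]
        exact hP k l
    have h4 := smf_det h3
    unfold SmF at h4 ⊢
    refine h4.congr fun p _ => ?_
    exact Matrix.adjugate_apply (P p.1 p.2) i j
  unfold SmF at h1 h2 ⊢
  have h5 : ContDiffOn ℝ ∞ (fun p : ℝ × Eu n => ((P p.1 p.2).det)⁻¹ * (P p.1 p.2).adjugate i j) Ω :=
    (h1.inv fun p hp => hd p hp).mul h2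
  refine h5.congr fun p _ => ?_
  show (P p.1 p.2)⁻¹ i j = _
  rw [Matrix.inv_def, Matrix.smul_apply, smul_eq_mul, Ring.inverse_eq_inv']

theorem r2_const {n : ℕ} (Ω : Set (ℝ × Eu n)) (c : ℝ) : SmF Ω (fun _ _ => c) :=
  contDiffOn_const

theorem r2_fst {n : ℕ} (Ω : Set (ℝ × Eu n)) : SmF Ω (fun r _ => r) :=
  contDiffOn_fst

theorem r2_add {n : ℕ} {Ω : Set (ℝ × Eu n)} {f g : ℝ → Eu n → ℝ} (hf : SmF Ω f) (hg : SmF Ω g) :
    SmF Ω (fun r x => f r x + g r x) := ContDiffOn.add hf hg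

theorem r2_sub {n : ℕ} {Ω : Set (ℝ × Eu n)} {f g : ℝ → Eu n → ℝ} (hf : SmF Ω f) (hg : SmF Ω g) :
    SmF Ω (fun r x => f r x - g r x) := ContDiffOn.sub hf hg

theorem r2_mul {n : ℕ} {Ω : Set (ℝ × Eu n)} {f g : ℝ → Eu n → ℝ} (hf : SmF Ω f) (hg : SmF Ω g) :
    SmF Ω (fun r x => f r x * g r x) := ContDiffOn.mul hf hg

theorem r2_sum {n : ℕ} {Ω : Set (ℝ × Eu n)} {ι : Type} (s : Finset ι) {f : ι → ℝ → Eu n → ℝ}
    (hf : ∀ i, SmF Ω (f i)) : SmF Ω (fun r x => ∑ i ∈ s, f i r x) :=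
  ContDiffOn.sum fun i _ => hf i

theorem r2_smm_mul {n : ℕ} {Ω : Set (ℝ × Eu n)} {P Q : ℝ → Eu n → Mt n} (hP : SmM Ω P)
    (hQ : SmM Ω Q) : SmM Ω (fun r x => P r x * Q r x) := by
  intro i j
  have : SmF Ω (fun r x => ∑ k, P r x i k * Q r x k j) :=
    r2_sum Finset.univ fun k => r2_mul (hP i k) (hQ k j)
  exact this

theorem smf_gam {n : ℕ} {Ω : Set (ℝ × Eu n)} (hΩ : IsOpen Ω) {P : ℝ → Eu n → Mt n} (hP : SmM Ω P) (hd : Nd Ω P)
    (k i j : Fin n) : SmF Ω (fun r x => Gam (P r) k i j x) := by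
  have h : SmF Ω (fun r x => (1 / 2) * ∑ l, (P r x)⁻¹ k l *
    (pd i (fun y => P r y j l) x + pd j (fun y => P r y i l) x - pd l (fun y => P r y i j) x)) :=
    r2_mul (r2_const Ω _) (r2_sum Finset.univ fun l => r2_mul (smm_inv hP hd k l)
      (r2_sub (r2_add (smf_pd hΩ (hP j l) i) (smf_pd hΩ (hP i l) j)) (smf_pd hΩ (hP i j) l)))
  exact h

theorem smm_ric {n : ℕ} {Ω : Set (ℝ × Eu n)} (hΩ : IsOpen Ω) {P : ℝ → Eu n → Mt n} (hP : SmM Ω P) (hd : Nd Ω P) :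
    SmM Ω (fun r x => Ric (P r) x) := by
  intro i j
  have h : SmF Ω (fun r x => ∑ k, pd k (Gam (P r) k i j) x - ∑ k, pd j (Gam (P r) k i k) x +
    ∑ k, ∑ l, (Gam (P r) k k l x * Gam (P r) l i j x - Gam (P r) k j l x * Gam (P r) l i k x)) :=
    r2_add (r2_sub (r2_sum Finset.univ fun k => smf_pd hΩ (smf_gam hΩ hP hd k i j) k)
      (r2_sum Finset.univ fun k => smf_pd hΩ (smf_gam hΩ hP hd k i k) j))
      (r2_sum Finset.univ fun k => r2_sum Finset.univ fun l =>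
        r2_sub (r2_mul (smf_gam hΩ hP hd k k l) (smf_gam hΩ hP hd l i j))
          (r2_mul (smf_gam hΩ hP hd k j l) (smf_gam hΩ hP hd l i k)))
  exact h

theorem smm_dr {n : ℕ} {Ω : Set (ℝ × Eu n)} (hΩ : IsOpen Ω) {P : ℝ → Eu n → Mt n} (hP : SmM Ω P) :
    SmM Ω (dr P) := by
  intro i j
  exact smf_deriv hΩ (hP i j)

theorem smf_tau {n : ℕ} {Ω : Set (ℝ × Eu n)} (hΩ : IsOpen Ω) {P : ℝ → Eu n → Mt n} (hP : SmM Ω P) (hd : Nd Ω P) :
    SmF Ω (tau P) := by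
  have h : SmF Ω (fun r x => ∑ i, ((P r x)⁻¹ * dr P r x) i i) :=
    r2_sum Finset.univ fun i => r2_smm_mul (smm_inv hP hd) (smm_dr hΩ hP) i i
  exact h

theorem smm_efg {n : ℕ} {Ω : Set (ℝ × Eu n)} (hΩ : IsOpen Ω) {P : ℝ → Eu n → Mt n} (hP : SmM Ω P) (hd : Nd Ω P) :
    SmM Ω (EFG P) := by
  intro i j
  have hdr := smm_dr hΩ hP
  have htau := smf_tau hΩ hP hd
  have h1 : SmF Ω (fun r x => r * dr (dr P) r x i j) :=
    r2_mul (r2_fst Ω) (smm_dr hΩ hdr i j)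
  have h2 : SmF Ω (fun r x => r * (dr P r x * (P r x)⁻¹ * dr P r x) i j) :=
    r2_mul (r2_fst Ω) (r2_smm_mul (r2_smm_mul hdr (smm_inv hP hd)) hdr i j)
  have h3 : SmF Ω (fun r x => (r * tau P r x * (1 / 2)) * dr P r x i j) :=
    r2_mul (r2_mul (r2_mul (r2_fst Ω) htau) (r2_const Ω _)) (hdr i j)
  have h4 : SmF Ω (fun r x => ((n : ℝ) / 2 - 1) * dr P r x i j) :=
    r2_mul (r2_const Ω _) (hdr i j)
  have h5 : SmF Ω (fun r x => (tau P r x * (1 / 2)) * P r x i j) :=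
    r2_mul (r2_mul htau (r2_const Ω _)) (hP i j)
  have h := r2_add (r2_sub (r2_sub (r2_add (r2_sub h1 h2) h3) h4) h5) (smm_ric hΩ hP hd i j)
  refine ContDiffOn.congr h fun p _ => ?_
  change EFG P p.1 p.2 i j = _
  unfold EFG
  simp only [Matrix.add_apply, Matrix.sub_apply, Matrix.smul_apply, smul_eq_mul]
  ring


/-! Auxiliary lemmas of this job. -/

theorem n5_facts {n : ℕ} {V : Set (Eu n)} (hV : IsOpen V) {G : Eu n → Mt n}
    (hG : ∀ i j, ContDiffOn ℝ ∞ (fun x => G x i j) V) (hs : ∀ x ∈ V, (G x).IsSymm)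
    (hd : ∀ x ∈ V, (G x).det ≠ 0) (k : ℕ) :
    ∃ Ω : Set (ℝ × Eu n), IsOpen Ω ∧ SmM Ω (amb G k) ∧ Nd Ω (amb G k) ∧ Sy Ω (amb G k) ∧
      ∀ x ∈ V, ((0 : ℝ), x) ∈ Ω := by
  have hS := amb_smooth hV hG hd k
  have hO : IsOpen ((univ : Set ℝ) ×ˢ V) := isOpen_univ.prod hV
  have hdet : SmF (univ ×ˢ V) (fun r x => (amb G k r x).det) := smf_det hS
  have hdet' : ContinuousOn (fun p : ℝ × Eu n => (amb G k p.1 p.2).det) (univ ×ˢ V) :=
    ContDiffOn.continuousOn hdet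
  refine ⟨(univ ×ˢ V) ∩ (fun p : ℝ × Eu n => (amb G k p.1 p.2).det) ⁻¹' {0}ᶜ, ?_, ?_, ?_, ?_, ?_⟩
  · exact hdet'.isOpen_inter_preimage hO isOpen_compl_singleton
  · intro i j
    exact (hS i j).mono inter_subset_left
  · intro p hp
    exact hp.2
  · intro p hp
    exact amb_symm hV hG hs hd k p.1 p.2 hp.1.2
  · intro x hx
    refine ⟨⟨mem_univ _, hx⟩, ?_⟩
    show (amb G k 0 x).det ∈ ({0}ᶜ : Set ℝ)
    rw [amb_zero]
    exact hd x hx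

theorem n5_cf_congr {f g : ℝ → ℝ} (h : f =ᶠ[𝓝 0] g) (k : ℕ) : cf k f = cf k g := by
  unfold cf
  rw [h.iteratedDeriv_eq k]

theorem n5_cf_const_mul (c : ℝ) (f : ℝ → ℝ) (k : ℕ) : cf k (fun r => c * f r) = c * cf k f := by
  unfold cf
  rw [iteratedDeriv_const_mul_field, mul_div_assoc]

theorem n5_cf_sum {ι : Type} (s : Finset ι) (f : ι → ℝ → ℝ) (k : ℕ)
    (hf : ∀ i ∈ s, ContDiffAt ℝ k (f i) 0) :
    cf k (fun r => ∑ i ∈ s, f i r) = ∑ i ∈ s, cf k (f i) := by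
  unfold cf
  rw [iteratedDeriv_fun_sum hf, Finset.sum_div]

theorem n5_slice {n : ℕ} {Ω : Set (ℝ × Eu n)} (hΩ : IsOpen Ω) {f : ℝ → Eu n → ℝ} (hf : SmF Ω f)
    {y : Eu n} (hy : ((0 : ℝ), y) ∈ Ω) (k : ℕ) : ContDiffAt ℝ k (fun r => f r y) 0 := by
  have h1 : ContDiffAt ℝ ∞ (fun p : ℝ × Eu n => f p.1 p.2) (0, y) :=
    ContDiffOn.contDiffAt hf (hΩ.mem_nhds hy)
  have h2 : ContDiffAt ℝ ∞ (fun r : ℝ => (r, y)) 0 := contDiffAt_id.prodMk contDiffAt_const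
  have h3 : ContDiffAt ℝ ∞ (fun r => f r y) 0 :=
    ContDiffAt.comp (g := fun p : ℝ × Eu n => f p.1 p.2) (f := fun r : ℝ => (r, y)) (0 : ℝ) h1 h2
  exact h3.of_le (by exact_mod_cast le_top)

theorem n5_conj {n : ℕ} (J E : Mt n) (i j : Fin n) :
    (Jᵀ * E * J) i j = ∑ b, ∑ a, (J a i * J b j) * E a b := by
  rw [Matrix.mul_apply]
  refine Finset.sum_congr rfl fun b _ => ?_
  rw [Matrix.mul_apply, Finset.sum_mul]
  refine Finset.sum_congr rfl fun a _ => ?_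
  rw [Matrix.transpose_apply]
  ring

theorem n5_res {n : ℕ} {Ω : Set (ℝ × Eu n)} (hΩ : IsOpen Ω) {P : ℝ → Eu n → Mt n}
    (hE : SmM Ω (EFG P)) {y : Eu n} (hy : ((0 : ℝ), y) ∈ Ω) (J : Mt n) (k : ℕ)
    {P' : ℝ → Eu n → Mt n} {x : Eu n}
    (h : ∀ᶠ r in 𝓝 (0 : ℝ), EFG P' r x = Jᵀ * EFG P r y * J) :
    res P' k x = Jᵀ * res P k y * J := by
  ext i j
  rw [n5_conj]
  have h1 : (fun r => EFG P' r x i j) =ᶠ[𝓝 0]
      (fun r => ∑ b, ∑ a, (J a i * J b j) * EFG P r y a b) := by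
    filter_upwards [h] with r hr
    rw [hr, n5_conj]
  have hs : ∀ a b, ContDiffAt ℝ k (fun r => (J a i * J b j) * EFG P r y a b) 0 := fun a b =>
    contDiffAt_const.mul (n5_slice hΩ (hE a b) hy k)
  show cf k (fun r => EFG P' r x i j) = _
  rw [n5_cf_congr h1, n5_cf_sum _ (fun b r => ∑ a, (J a i * J b j) * EFG P r y a b) k
    (fun b _ => ContDiffAt.sum fun a _ => hs a b)]
  refine Finset.sum_congr rfl fun b _ => ?_
  rw [n5_cf_sum _ (fun a r => (J a i * J b j) * EFG P r y a b) k (fun a _ => hs a b)]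
  refine Finset.sum_congr rfl fun a _ => ?_
  rw [n5_cf_const_mul]
  rfl

theorem n5_trace {n : ℕ} (J G R : Mt n) (hJ : J.det ≠ 0) :
    ((Jᵀ * G * J)⁻¹ * (Jᵀ * R * J)).trace = (G⁻¹ * R).trace := by
  have hJu : IsUnit J.det := isUnit_iff_ne_zero.mpr hJ
  have hJt : IsUnit (Jᵀ).det := by rw [Matrix.det_transpose]; exact hJu
  have h1 : (Jᵀ * G * J)⁻¹ * (Jᵀ * R * J) = J⁻¹ * (G⁻¹ * R * J) := by
    rw [Matrix.mul_inv_rev, Matrix.mul_inv_rev]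
    have h2 : (Jᵀ)⁻¹ * (Jᵀ * R * J) = R * J := by
      rw [Matrix.mul_assoc, Matrix.nonsing_inv_mul_cancel_left _ _ hJt]
    rw [Matrix.mul_assoc, Matrix.mul_assoc, h2, Matrix.mul_assoc]
  rw [h1, Matrix.trace_mul_comm, Matrix.mul_nonsing_inv_cancel_right _ _ hJu]

theorem n5_nxt {n : ℕ} {G G' : Eu n → Mt n} {P P' : ℝ → Eu n → Mt n} {x y : Eu n} {J : Mt n}
    (hJ : J.det ≠ 0) {k : ℕ} (hG : G' x = Jᵀ * G y * J) (hR : res P' k x = Jᵀ * res P k y * J) :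
    nxt G' P' k x = Jᵀ * nxt G P k y * J := by
  unfold nxt
  simp only [hG, hR, n5_trace J _ _ hJ]
  split_ifs
  · simp only [Matrix.mul_smul, Matrix.smul_mul, Matrix.mul_sub, Matrix.sub_mul]
  · simp only [Matrix.mul_smul, Matrix.smul_mul]


/- Idea: induction on `k`.  Apply `efg_pull` with the open set `Ω = {p | p.2 ∈ V ∧ (amb G k p.1 p.2).det ≠ 0}`
(it contains `{0} × V` by `amb_zero`); so `EFG (amb Gt k) r x = Jᵀ EFG (amb G k) r (φ x) J` for `r` near `0`, and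
`cf k` is linear in the function and depends only on its germ at `0`, so `res` and `nxt` transform in the same way
(`tr ((Jᵀ G J)⁻¹ (Jᵀ R J)) = tr (G⁻¹ R)`).  For `q_pull` use `uu_pull` at `r = 0`. -/
theorem amb_pull {n : ℕ} {U V : Set (Eu n)} (hU : IsOpen U) (hV : IsOpen V) {φ : Eu n → Eu n} (hφ : ContDiffOn ℝ ∞ φ U)
    (hJ : ∀ x ∈ U, (Jac φ x).det ≠ 0) (hUV : ∀ x ∈ U, φ x ∈ V) {G Gt : Eu n → Mt n}
    (hG : ∀ i j, ContDiffOn ℝ ∞ (fun x => G x i j) V) (hs : ∀ x ∈ V, (G x).IsSymm) (hd : ∀ x ∈ V, (G x).det ≠ 0)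
    (hGt : ∀ x ∈ U, Gt x = pull φ G x) (k : ℕ) :
    ∀ r : ℝ, ∀ x ∈ U, amb Gt k r x = pull φ (amb G k r) x := by
  induction k with
  | zero => exact fun _ x hx => hGt x hx
  | succ k ih =>
    intro r x hx
    obtain ⟨Ω, hΩ, hΩs, hΩn, hΩy, hΩ0⟩ := n5_facts hV hG hs hd k
    have h0 : ((0 : ℝ), φ x) ∈ Ω := hΩ0 _ (hUV x hx)
    have hev : ∀ᶠ r in 𝓝 (0 : ℝ), EFG (amb Gt k) r x =
        (Jac φ x)ᵀ * EFG (amb G k) r (φ x) * Jac φ x := by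
      have hc : Continuous (fun r : ℝ => (r, φ x)) := by fun_prop
      have := hc.continuousAt.preimage_mem_nhds (x := (0 : ℝ)) (hΩ.mem_nhds h0)
      filter_upwards [this] with r hr
      exact efg_pull hU hφ hJ hΩ hΩs hΩn hΩy ih hx hr
    have hres := n5_res hΩ (smm_efg hΩ hΩs hΩn) h0 (Jac φ x) k hev
    have hn := n5_nxt (G := G) (G' := Gt) (P := amb G k) (P' := amb Gt k) (x := x) (y := φ x)
      (hJ x hx) (hGt x hx) hres
    show amb Gt k r x + r ^ (k + 1) • nxt Gt (amb Gt k) k x =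
      (Jac φ x)ᵀ * (amb G k r (φ x) + r ^ (k + 1) • nxt G (amb G k) k (φ x)) * Jac φ x
    rw [hn, ih r x hx]
    unfold pull
    simp only [Matrix.mul_add, Matrix.add_mul, Matrix.mul_smul, Matrix.smul_mul]

theorem q_pull {n : ℕ} {U V : Set (Eu n)} (hU : IsOpen U) (hV : IsOpen V) {φ : Eu n → Eu n} (hφ : ContDiffOn ℝ ∞ φ U)
    (hJ : ∀ x ∈ U, (Jac φ x).det ≠ 0) (hUV : ∀ x ∈ U, φ x ∈ V) {G Gt : Eu n → Mt n}
    (hG : ∀ i j, ContDiffOn ℝ ∞ (fun x => G x i j) V) (hs : ∀ x ∈ V, (G x).IsSymm) (hd : ∀ x ∈ V, (G x).det ≠ 0)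
    (hGt : ∀ x ∈ U, Gt x = pull φ G x) :
    ∀ x ∈ U, Qloc Gt x = Qloc G (φ x) := by
  intro x hx
  obtain ⟨Ω, hΩ, hΩs, hΩn, hΩy, hΩ0⟩ := n5_facts hV hG hs hd (n / 2)
  have h0 : ((0 : ℝ), φ x) ∈ Ω := hΩ0 _ (hUV x hx)
  unfold Qloc
  rw [uu_pull hU hφ hJ hΩ hΩs hΩn hΩy (amb_pull hU hV hφ hJ hUV hG hs hd hGt (n / 2)) hx h0]

end Pool.Agent.QTot.N5
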