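import Pool.Agent.QTot.Base2
import Pool.Agent.QTot.R4
import Pool.Agent.QTot.N5
import Pool.Agent.QTot.FL

set_option autoImplicit false
open scoped ContDiff Manifold Topology Matrix
open MeasureTheory Filter Set

namespace Pool.Agent.QTot.HA
open Pool.Agent.QTot
open Pool.Agent.QTot.R4 (q_smooth)
open Pool.Agent.QTot.N5 (q_pull)
open Pool.Agent.QTot.FL (q_flat)






/-! ## TARGET (prove this) -/

section localaux
variable {n : ℕ} {U : Set (Eu n)}

theorem pd_congr (hU : IsOpen U) {f f' : Eu n → ℝ} (h : ∀ y ∈ U, f y = f' y) (i : Fin n) :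
    ∀ y ∈ U, pd i f y = pd i f' y := by
  intro y hy
  unfold pd
  have : f =ᶠ[𝓝 y] f' := Filter.eventuallyEq_of_mem (hU.mem_nhds hy) h
  rw [this.fderiv_eq]

theorem Gam_congr (hU : IsOpen U) {G G' : Eu n → Mt n} (h : ∀ y ∈ U, G y = G' y) (k i j : Fin n) :
    ∀ y ∈ U, Gam G k i j y = Gam G' k i j y := by
  intro y hy
  unfold Gam
  rw [h y hy]
  congr 1
  refine Finset.sum_congr rfl fun l _ => ?_
  rw [pd_congr hU (fun z hz => by rw [h z hz] : ∀ z ∈ U, G z j l = G' z j l) i y hy,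
    pd_congr hU (fun z hz => by rw [h z hz] : ∀ z ∈ U, G z i l = G' z i l) j y hy,
    pd_congr hU (fun z hz => by rw [h z hz] : ∀ z ∈ U, G z i j = G' z i j) l y hy]

theorem Ric_congr (hU : IsOpen U) {G G' : Eu n → Mt n} (h : ∀ y ∈ U, G y = G' y) :
    ∀ y ∈ U, Ric G y = Ric G' y := by
  intro y hy
  unfold Ric
  ext i j
  simp only [Matrix.of_apply]
  have h1 : ∀ k i j, Gam G k i j y = Gam G' k i j y := fun k i j => Gam_congr hU h k i j y hy
  have h2 : ∀ l k i j, pd l (Gam G k i j) y = pd l (Gam G' k i j) y := fun l k i j =>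
    pd_congr hU (Gam_congr hU h k i j) l y hy
  simp only [h1, h2]

theorem Lap_congr (hU : IsOpen U) {G G' : Eu n → Mt n} (h : ∀ y ∈ U, G y = G' y)
    {f f' : Eu n → ℝ} (hf : ∀ y ∈ U, f y = f' y) :
    ∀ y ∈ U, Lap G f y = Lap G' f' y := by
  intro y hy
  unfold Lap
  have h1 : ∀ k i j, Gam G k i j y = Gam G' k i j y := fun k i j => Gam_congr hU h k i j y hy
  have h2 : ∀ k, pd k f y = pd k f' y := fun k => pd_congr hU hf k y hy
  have h3 : ∀ i j, pd i (pd j f) y = pd i (pd j f') y := fun i j =>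
    pd_congr hU (pd_congr hU hf j) i y hy
  simp only [h1, h2, h3, h y hy]

theorem dr_congr {P P' : ℝ → Eu n → Mt n} (h : ∀ r, ∀ y ∈ U, P r y = P' r y) :
    ∀ r, ∀ y ∈ U, dr P r y = dr P' r y := by
  intro r y hy
  unfold dr
  ext i j
  simp only [Matrix.of_apply]
  have : (fun s => P s y i j) = fun s => P' s y i j := by
    funext s
    rw [h s y hy]
  rw [this]

theorem tau_congr {P P' : ℝ → Eu n → Mt n} (h : ∀ r, ∀ y ∈ U, P r y = P' r y) :
    ∀ r, ∀ y ∈ U, tau P r y = tau P' r y := by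
  intro r y hy
  unfold tau
  rw [h r y hy, dr_congr h r y hy]

theorem EFG_congr (hU : IsOpen U) {P P' : ℝ → Eu n → Mt n} (h : ∀ r, ∀ y ∈ U, P r y = P' r y) :
    ∀ r, ∀ y ∈ U, EFG P r y = EFG P' r y := by
  intro r y hy
  unfold EFG
  rw [h r y hy, dr_congr h r y hy, dr_congr (dr_congr h) r y hy, tau_congr h r y hy,
    Ric_congr hU (h r) y hy]

theorem res_congr (hU : IsOpen U) {P P' : ℝ → Eu n → Mt n} (h : ∀ r, ∀ y ∈ U, P r y = P' r y)
    (k : ℕ) : ∀ y ∈ U, res P k y = res P' k y := by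
  intro y hy
  unfold res
  ext i j
  simp only [Matrix.of_apply]
  have : (fun r => EFG P r y i j) = fun r => EFG P' r y i j := by
    funext r
    rw [EFG_congr hU h r y hy]
  rw [this]

theorem nxt_congr (hU : IsOpen U) {G G' : Eu n → Mt n} (hG : ∀ y ∈ U, G y = G' y)
    {P P' : ℝ → Eu n → Mt n} (h : ∀ r, ∀ y ∈ U, P r y = P' r y)
    (k : ℕ) : ∀ y ∈ U, nxt G P k y = nxt G' P' k y := by
  intro y hy
  unfold nxt
  rw [hG y hy, res_congr hU h k y hy]

theorem amb_congr (hU : IsOpen U) {G G' : Eu n → Mt n} (hG : ∀ y ∈ U, G y = G' y) (k : ℕ) :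
    ∀ r, ∀ y ∈ U, amb G k r y = amb G' k r y := by
  induction k with
  | zero => intro r y hy; exact hG y hy
  | succ k ih =>
    intro r y hy
    show amb G k r y + r ^ (k + 1) • nxt G (amb G k) k y =
      amb G' k r y + r ^ (k + 1) • nxt G' (amb G' k) k y
    rw [ih r y hy, nxt_congr hU hG ih k y hy]

theorem Dw_congr (hU : IsOpen U) {P P' : ℝ → Eu n → Mt n} (h : ∀ r, ∀ y ∈ U, P r y = P' r y)
    (w : ℝ) {f f' : ℝ → Eu n → ℝ} (hf : ∀ r, ∀ y ∈ U, f r y = f' r y) :
    ∀ r, ∀ y ∈ U, Dw P w f r y = Dw P' w f' r y := by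
  intro r y hy
  unfold Dw
  have h1 : (fun s => f s y) = fun s => f' s y := by
    funext s
    exact hf s y hy
  rw [h1, tau_congr h r y hy, Lap_congr hU (h r) (hf r) y hy, hf r y hy]

theorem uu_congr (hU : IsOpen U) {P P' : ℝ → Eu n → Mt n} (h : ∀ r, ∀ y ∈ U, P r y = P' r y)
    (k : ℕ) : ∀ r, ∀ y ∈ U, uu P k r y = uu P' k r y := by
  induction k with
  | zero =>
    intro r y hy
    show tau P r y / 2 = tau P' r y / 2
    rw [tau_congr h r y hy]
  | succ k ih =>
    intro r y hy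
    show Dw P (-2 * ((k : ℝ) + 1)) (uu P k) r y = Dw P' (-2 * ((k : ℝ) + 1)) (uu P' k) r y
    exact Dw_congr hU h _ ih r y hy

theorem Qloc_congr (hU : IsOpen U) {G G' : Eu n → Mt n} (hG : ∀ y ∈ U, G y = G' y) :
    ∀ y ∈ U, Qloc G y = Qloc G' y := by
  intro y hy
  unfold Qloc
  rw [uu_congr hU (amb_congr hU hG (n / 2)) (n / 2 - 1) 0 y hy]

end localaux

/- Idea: `CM` is a diagonal matrix.  For the affine map `ψ x = fun i => d i * x i + b i` one has
`Jac ψ x = Matrix.diagonal d`, so `pull ψ (CM p f) x = CM p (fun x => lam^2 * f (ψ x)) x`, and `q_pull` applies.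
`CM p 1 = 1`. `ContDiffAt ℝ ∞ f x` gives smoothness on a neighbourhood. -/
theorem cm_det {n : ℕ} (p : ℕ) (hp : p + 1 ≤ n) (f : Eu n → ℝ) (x : Eu n) : (CM p f x).det = f x ^ (p + 1) := by
  unfold CM
  rw [Matrix.det_diagonal, Finset.prod_ite, Finset.prod_const, Finset.prod_const_one, mul_one]
  congr 1
  have h1 : (Finset.univ.filter fun i : Fin n => i.val < p + 1) =
      (Finset.univ : Finset (Fin (p + 1))).map (Fin.castLEEmb hp) := by
    ext i
    simp only [Finset.mem_filter, Finset.mem_univ, true_and, Finset.mem_map, Fin.castLEEmb_apply]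
    constructor
    · intro h
      exact ⟨⟨i.val, h⟩, Fin.ext rfl⟩
    · rintro ⟨j, rfl⟩
      exact j.2
  rw [h1, Finset.card_map, Finset.card_univ, Fintype.card_fin]

theorem cm_symm {n : ℕ} (p : ℕ) (f : Eu n → ℝ) (x : Eu n) : (CM p f x).IsSymm := by
  unfold CM
  exact Matrix.diagonal_transpose _

theorem cm_posDef {n : ℕ} (p : ℕ) (f : Eu n → ℝ) (x : Eu n) (hx : 0 < f x) : (CM p f x).PosDef := by
  unfold CM
  refine Matrix.PosDef.diagonal fun i => ?_
  split_ifs
  · exact hx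
  · exact one_pos

theorem cm_smooth {n : ℕ} (p : ℕ) {f : Eu n → ℝ} {U : Set (Eu n)} (hf : ContDiffOn ℝ ∞ f U) (i j : Fin n) :
    ContDiffOn ℝ ∞ (fun x => CM p f x i j) U := by
  unfold CM
  by_cases hij : i = j
  · subst hij
    simp only [Matrix.diagonal_apply_eq]
    by_cases h : i.val < p + 1
    · simp only [if_pos h]; exact hf
    · simp only [if_neg h]; exact contDiffOn_const
  · simp only [Matrix.diagonal_apply_ne _ hij]
    exact contDiffOn_const

theorem cm_cyl {n : ℕ} (p : ℕ) (x : Eu n) (hx : rr p x ≠ 0) : CM p (fun y => 1 / rr p y) x = TS p x + TF p x := by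
  ext i j
  rw [Matrix.add_apply]
  unfold CM TS TF
  simp only [Matrix.of_apply, Matrix.diagonal_apply]
  by_cases hij : i = j
  · subst hij
    by_cases h : i.val < p + 1
    · simp [h]
    · simp [h]
  · by_cases h : i.val < p + 1 ∧ j.val < p + 1
    · simp [hij, h]
    · rw [if_neg hij, if_neg h, if_neg h, if_neg hij, add_zero]

theorem dens_cont {n : ℕ} (p : ℕ) (hp : p + 1 ≤ n) {f : Eu n → ℝ} {U : Set (Eu n)} (hU : IsOpen U)
    (hf : ContDiffOn ℝ ∞ f U) (hpos : ∀ x ∈ U, 0 < f x) : ContinuousOn (dens (CM p f)) U := by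
  unfold dens
  refine ContinuousOn.mul ?_ ?_
  · refine (q_smooth hU (cm_smooth p hf) ?_).continuousOn
    intro x hx
    rw [cm_det p hp]
    exact (pow_pos (hpos x hx) _).ne'
  · have h1 : (fun x => Real.sqrt (CM p f x).det) = fun x => Real.sqrt (f x ^ (p + 1)) := by
      funext x
      rw [cm_det p hp]
    rw [h1]
    exact Real.continuous_sqrt.comp_continuousOn (hf.continuousOn.pow _)

theorem Jac_aff {n : ℕ} (d b : Eu n) (x : Eu n) :
    Jac (fun x i => d i * x i + b i) x = Matrix.diagonal d := by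
  ext a i
  unfold Jac pd
  rw [Matrix.of_apply]
  have h1 : HasFDerivAt (fun y : Eu n => d a * y a + b a)
      (d a • (ContinuousLinearMap.proj a : Eu n →L[ℝ] ℝ)) x := by
    have h2 : HasFDerivAt (fun y : Eu n => y a) (ContinuousLinearMap.proj a : Eu n →L[ℝ] ℝ) x :=
      (ContinuousLinearMap.proj a : Eu n →L[ℝ] ℝ).hasFDerivAt
    exact (h2.const_mul (d a)).add_const (b a)
  rw [h1.fderiv]
  simp only [ContinuousLinearMap.smul_apply, ContinuousLinearMap.proj_apply, smul_eq_mul]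
  by_cases h : a = i
  · subst h; simp
  · rw [Pi.single_eq_of_ne h, Matrix.diagonal_apply_ne _ h, mul_zero]

theorem dens_aff {n : ℕ} (p : ℕ) (hp : p + 1 ≤ n) (d b : Eu n) (lam : ℝ) (hlam : 0 < lam)
    (h1 : ∀ i : Fin n, i.val < p + 1 → d i = lam) (h2 : ∀ i : Fin n, p + 1 ≤ i.val → d i ^ 2 = 1)
    {U V : Set (Eu n)} (hU : IsOpen U) (hV : IsOpen V) (hUV : ∀ x ∈ U, (fun i => d i * x i + b i) ∈ V)
    {f f' : Eu n → ℝ} (hf : ContDiffOn ℝ ∞ f V) (hpos : ∀ x ∈ V, 0 < f x)
    (hf' : ∀ x ∈ U, f' x = lam ^ 2 * f (fun i => d i * x i + b i)) :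
    ∀ x ∈ U, dens (CM p f') x = lam ^ (p + 1) * dens (CM p f) (fun i => d i * x i + b i) := by
  intro x hx
  have hd0 : ∀ i, d i ≠ 0 := by
    intro i
    rcases lt_or_ge i.val (p + 1) with h | h
    · rw [h1 i h]; exact hlam.ne'
    · intro h0
      have := h2 i h
      rw [h0] at this
      norm_num at this
  have hφ : ContDiffOn ℝ ∞ (fun (x : Eu n) (i : Fin n) => d i * x i + b i) U := by
    apply ContDiff.contDiffOn
    rw [contDiff_pi]
    intro i
    fun_prop
  have hQ : Qloc (CM p f') x = Qloc (CM p f) (fun i => d i * x i + b i) := by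
    refine q_pull (φ := fun x i => d i * x i + b i) hU hV hφ ?_ hUV (cm_smooth p hf)
      (fun y _ => cm_symm p f y) ?_ ?_ x hx
    · intro y _
      rw [Jac_aff, Matrix.det_diagonal]
      exact Finset.prod_ne_zero_iff.mpr fun i _ => hd0 i
    · intro y hy
      rw [cm_det p hp]
      exact (pow_pos (hpos y hy) _).ne'
    · intro y hy
      unfold pull
      rw [Jac_aff, Matrix.diagonal_transpose]
      unfold CM
      rw [Matrix.diagonal_mul_diagonal, Matrix.diagonal_mul_diagonal]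
      congr 1
      funext i
      rcases lt_or_ge i.val (p + 1) with h | h
      · rw [if_pos h, if_pos h, h1 i h, hf' y hy]; ring
      · rw [if_neg (not_lt.mpr h), if_neg (not_lt.mpr h)]
        have := h2 i h
        linear_combination -this
  unfold dens
  rw [hQ, cm_det p hp, cm_det p hp, hf' x hx, mul_pow, ← pow_mul, mul_comm 2 (p + 1), pow_mul,
    Real.sqrt_mul (by positivity), Real.sqrt_sq (by positivity)]
  ring

theorem dens_congr {n : ℕ} (p : ℕ) (hp : p + 1 ≤ n) {f f' : Eu n → ℝ} {x : Eu n} (hf : ContDiffAt ℝ ∞ f x) (hpos : 0 < f x)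
    (h : f' =ᶠ[𝓝 x] f) : dens (CM p f') x = dens (CM p f) x := by
  obtain ⟨U, hUf, hU, hxU⟩ := eventually_nhds_iff.mp h
  have hG : ∀ y ∈ U, CM p f' y = CM p f y := by
    intro y hy
    unfold CM
    rw [hUf y hy]
  unfold dens
  rw [Qloc_congr hU hG x hxU, hG x hxU]

theorem dens_flat {n : ℕ} (hn2 : 2 ≤ n) (p : ℕ) (hp : p + 1 ≤ n) {f : Eu n → ℝ} {x : Eu n} (h : ∀ᶠ y in 𝓝 x, f y = 1) :
    dens (CM p f) x = 0 := by
  obtain ⟨U, hUf, hU, hxU⟩ := eventually_nhds_iff.mp h
  have hG : ∀ y ∈ U, CM p f y = (fun _ : Eu n => (1 : Mt n)) y := by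
    intro y hy
    unfold CM
    rw [hUf y hy]
    simp
  unfold dens
  rw [Qloc_congr hU hG x hxU, q_flat hn2 x, zero_mul]

end Pool.Agent.QTot.HA
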