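import Pool.Agent.QTot.Base2

set_option autoImplicit false
open scoped ContDiff Manifold Topology Matrix
open MeasureTheory Filter Set

namespace Pool.Agent.QTot.HB
open Pool.Agent.QTot


/-! ## TARGET (prove this) -/

/- Measure theory on `Fin n → ℝ`.  Idea for `box_int`: split the coordinates into `{i | i.val < p + 1}` and its complement
(`MeasurableEquiv.piEquivPiSubtypeProd`, `volume_preserving_piEquivPiSubtypeProd`), where the integral is a product
(`setIntegral_prod_mul` or `integral_prod_mul` with indicator functions); the complement has `n - (p + 1)` elements.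
Idea for `dil_int`: `dl p lam` is a linear equivalence (a diagonal matrix of determinant `lam^(p+1)`); use
`MeasureTheory.integral_image_eq_integral_abs_det_fderiv_smul`-type results or
`Measure.map_linearMap_addHaar_eq_smul_addHaar` with `MeasurableEmbedding.setIntegral_map` (any set `S`, any function). -/
theorem h170_prod {n : ℕ} (k : ℕ) (hk : k ≤ n) (r s : ℝ) :
    ∏ i : Fin n, (if i.val < k then r else s) = r ^ k * s ^ (n - k) := by
  obtain ⟨m, rfl⟩ := Nat.exists_eq_add_of_le hk
  rw [Fin.prod_univ_eq_prod_range (fun i => if i < k then r else s) (k + m), Finset.prod_range_add]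
  have e1 : ∏ x ∈ Finset.range k, (if x < k then r else s) = r ^ k := by
    rw [Finset.prod_congr rfl (g := fun _ => r) (fun x hx => if_pos (Finset.mem_range.1 hx))]
    simp
  have e2 : ∏ x ∈ Finset.range m, (if k + x < k then r else s) = s ^ m := by
    rw [Finset.prod_congr rfl (g := fun _ => s) (fun x _ => if_neg (by omega))]
    simp
  rw [e1, e2, Nat.add_sub_cancel_left]

/-- diagonal affine change of variables -/
theorem h170_aff {n : ℕ} (c d : Fin n → ℝ) (hd : ∀ i, 0 < d i) (g : Eu n → ℝ) (S : Set (Eu n)) :
    ∫ x in (fun (x : Eu n) (i : Fin n) => c i + d i * x i) ⁻¹' S, (∏ i, d i) * g (fun i => c i + d i * x i) =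
      ∫ x in S, g x := by
  set ψ : Eu n → Eu n := fun x i => c i + d i * x i with hψ
  have hdpos : 0 < ∏ i, d i := Finset.prod_pos fun i _ => hd i
  have hdet : LinearMap.det (Matrix.toLin' (Matrix.diagonal d)) = ∏ i, d i := by
    rw [LinearMap.det_toLin', Matrix.det_diagonal]
  have hL : Measure.map (Matrix.toLin' (Matrix.diagonal d)) (volume : Measure (Eu n)) =
      ENNReal.ofReal |(∏ i, d i)⁻¹| • (volume : Measure (Eu n)) := by
    have h := Measure.map_linearMap_addHaar_eq_smul_addHaar (volume : Measure (Eu n))
      (f := Matrix.toLin' (Matrix.diagonal d)) (by rw [hdet]; exact hdpos.ne')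
    rw [hdet] at h
    exact h
  have hcomp : ψ = (fun x : Eu n => c + x) ∘ (Matrix.toLin' (Matrix.diagonal d)) := by
    funext x i
    simp [hψ, Matrix.mulVec_diagonal]
  have hLm : Measurable (Matrix.toLin' (Matrix.diagonal d) : Eu n → Eu n) := by
    have : Continuous (Matrix.toLin' (Matrix.diagonal d) : Eu n → Eu n) := LinearMap.continuous_of_finiteDimensional _
    exact this.measurable
  have hmap : Measure.map ψ (volume : Measure (Eu n)) = ENNReal.ofReal |(∏ i, d i)⁻¹| • (volume : Measure (Eu n)) := by
    rw [hcomp, ← Measure.map_map (measurable_const_add c) hLm, hL, Measure.map_smul, map_add_left_eq_self]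
  let e : Eu n ≃ₜ Eu n :=
    { toFun := ψ
      invFun := fun x i => (x i - c i) / d i
      left_inv := by
        intro x
        funext i
        simp only [hψ]
        rw [add_sub_cancel_left, mul_div_cancel_left₀ _ (hd i).ne']
      right_inv := by
        intro x
        funext i
        simp only [hψ]
        rw [mul_div_cancel₀ _ (hd i).ne']
        ring
      continuous_toFun := by
        rw [hψ]
        fun_prop
      continuous_invFun := by
        refine continuous_pi fun i => ?_
        exact ((continuous_apply i).sub continuous_const).div_const _ }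
  have hemb : MeasurableEmbedding ψ := e.measurableEmbedding
  rw [integral_const_mul]
  have h1 : ∫ x in ψ ⁻¹' S, g (ψ x) = ∫ y in S, g y ∂(Measure.map ψ volume) := (hemb.setIntegral_map g S).symm
  have h2 : ∫ x in ψ ⁻¹' S, g (fun i => c i + d i * x i) = ∫ x in ψ ⁻¹' S, g (ψ x) := rfl
  rw [h2, h1, hmap, Measure.restrict_smul, integral_smul_measure, abs_of_pos (inv_pos.2 hdpos),
    ENNReal.toReal_ofReal (inv_pos.2 hdpos).le, smul_eq_mul, ← mul_assoc, mul_inv_cancel₀ hdpos.ne', one_mul]

theorem box_int {n : ℕ} (p : ℕ) (hp : p + 1 ≤ n) (g : Eu n → ℝ) (hg : Yonly p g) (a b : ℝ) (hab : a ≤ b) :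
    ∫ x in Zb p a b, g x = (b - a) ^ (n - (p + 1)) * ∫ x in Zb p 0 1, g x := by
  rcases hab.eq_or_lt with h | h
  · subst h
    rcases hp.eq_or_lt with h2 | h2
    · have e1 : ∀ a b : ℝ, (Zb p a b : Set (Eu n)) = Set.univ := by
        intro a b
        ext x
        simp only [Set.mem_univ, iff_true]
        intro i hi
        have := i.2
        omega
      have e2 : n - (p + 1) = 0 := by omega
      rw [e1, e1, e2, pow_zero, one_mul]
    · have hz : (volume : Measure (Eu n)) (Zb p a a) = 0 := by
        have h3 : (volume : Measure (Fin n → ℝ)) {f : Fin n → ℝ | f ⟨p + 1, h2⟩ = a} = 0 := by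
          rw [volume_pi]
          exact Measure.pi_hyperplane (fun _ : Fin n => (volume : Measure ℝ)) ⟨p + 1, h2⟩ a
        refine measure_mono_null (t := {f : Eu n | f ⟨p + 1, h2⟩ = a}) ?_ h3
        intro x hx
        have := hx ⟨p + 1, h2⟩ le_rfl
        exact le_antisymm this.2 this.1
      rw [Measure.restrict_eq_zero.2 hz, integral_zero_measure, sub_self, zero_pow (by omega), zero_mul]
  · have haff := h170_aff (n := n) (fun i => if i.val < p + 1 then 0 else a) (fun i => if i.val < p + 1 then 1 else b - a)
      (fun i => by split_ifs <;> linarith) g (Zb p a b)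
    rw [← haff]
    have hset : (fun (x : Eu n) (i : Fin n) => (if i.val < p + 1 then 0 else a) + (if i.val < p + 1 then 1 else b - a) * x i) ⁻¹'
        (Zb p a b) = (Zb p 0 1 : Set (Eu n)) := by
      ext x
      constructor
      · intro hx i hi
        have h3 := hx i hi
        simp only [if_neg (not_lt.2 hi)] at h3
        obtain ⟨h4, h5⟩ := h3
        have hba : 0 < b - a := by linarith
        constructor
        · by_contra hcon
          push Not at hcon
          nlinarith
        · by_contra hcon
          push Not at hcon
          nlinarith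
      · intro hx i hi
        have h3 := hx i hi
        simp only [if_neg (not_lt.2 hi)]
        obtain ⟨h4, h5⟩ := h3
        have hba : 0 < b - a := by linarith
        constructor <;> nlinarith
    have hprod := h170_prod (n := n) (p + 1) hp 1 (b - a)
    rw [one_pow, one_mul] at hprod
    rw [hset, hprod, integral_const_mul]
    congr 1
    refine integral_congr_ae (Filter.Eventually.of_forall fun x => ?_)
    refine hg _ _ fun i hi => ?_
    simp only [if_pos hi]
    ring

theorem dil_int {n : ℕ} (p : ℕ) (hp : p + 1 ≤ n) (lam : ℝ) (hlam : 0 < lam) (g : Eu n → ℝ) (S : Set (Eu n)) :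
    ∫ x in (dl p lam) ⁻¹' S, lam ^ (p + 1) * g (dl p lam x) = ∫ x in S, g x := by
  have haff := h170_aff (n := n) (fun _ => 0) (fun i => if i.val < p + 1 then lam else 1)
    (fun i => by split_ifs <;> linarith) g S
  have hprod := h170_prod (n := n) (p + 1) hp lam 1
  rw [one_pow, mul_one] at hprod
  have hfun : (fun (x : Eu n) (i : Fin n) => (0:ℝ) + (if i.val < p + 1 then lam else 1) * x i) = dl p lam := by
    funext x i
    unfold dl
    split_ifs <;> ring
  rw [← haff, hfun, hprod]
  refine integral_congr_ae (Filter.Eventually.of_forall fun x => ?_)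
  simp only
  rw [← hfun]

end Pool.Agent.QTot.HB
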