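import Pool.Agent.QTot.Base2

set_option autoImplicit false
open scoped ContDiff Manifold Topology Matrix
open MeasureTheory Filter Set

namespace Pool.Agent.QTot.HC
open Pool.Agent.QTot


/-! ## TARGET (prove this) -/

/- Idea for `profiles`: with `s = Real.smoothTransition` (`0` for `t ≤ 0`, `1` for `t ≥ 1`, smooth) and `l = (1/2) log (rr p x)`,
`fo x = exp (-2 l (1 - s (l - 1)))` (equal to `1/rr` for `l ≤ 1`, to `1` for `l ≥ 2`) and `fi x = exp (-2 l (1 - s (-l - 1)))`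
(equal to `1/rr` for `l ≥ -1`, to `1` for `l ≤ -2`, and also at `rr = 0` since `Real.log 0 = 0` and `s (-1) = 0`, so `fi = 1` near
`rr = 0`).  `exp 2 > 4`.
Idea for `longf`: `f x = if (1/4)^L < rr p x then fo x else (2^L)^2 * fi (dl p (2^L) x)`; `rr p (dl p (2^L) x) = 4^L rr p x`, so
both formulas give `1 / rr` on the open set `(1/4)^(L+1) < rr p x < 4`. -/
theorem rr_smooth301 {n : ℕ} (p : ℕ) : ContDiff ℝ ∞ (rr p : Eu n → ℝ) := by
  unfold rr
  refine ContDiff.sum fun i _ => ?_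
  by_cases h : i.val < p + 1
  · simp only [h, if_true]
    exact (contDiff_apply ℝ ℝ i).pow 2
  · simp only [h, if_false]
    exact contDiff_const

theorem rr_nonneg301 {n : ℕ} (p : ℕ) (x : Eu n) : 0 ≤ rr p x := by
  unfold rr
  refine Finset.sum_nonneg fun i _ => ?_
  split_ifs
  · positivity
  · exact le_refl _

theorem rr_congr301 {n : ℕ} (p : ℕ) {x x' : Eu n} (h : ∀ i : Fin n, i.val < p + 1 → x i = x' i) :
    rr p x = rr p x' := by
  unfold rr
  refine Finset.sum_congr rfl fun i _ => ?_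
  by_cases hi : i.val < p + 1
  · simp only [hi, if_true, h i hi]
  · simp only [hi, if_false]

theorem rr_dl301 {n : ℕ} (p : ℕ) (lam : ℝ) (x : Eu n) : rr p (dl p lam x) = lam ^ 2 * rr p x := by
  unfold rr dl
  rw [Finset.mul_sum]
  refine Finset.sum_congr rfl fun i _ => ?_
  by_cases hi : i.val < p + 1
  · simp only [hi, if_true]; ring
  · simp only [hi, if_false, mul_zero]

theorem dl_smooth301 {n : ℕ} (p : ℕ) (lam : ℝ) : ContDiff ℝ ∞ (dl p lam : Eu n → Eu n) := by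
  rw [contDiff_pi]
  intro i
  unfold dl
  by_cases hi : i.val < p + 1
  · simp only [hi, if_true]
    exact contDiff_const.mul (contDiff_apply ℝ ℝ i)
  · simp only [hi, if_false]
    exact contDiff_apply ℝ ℝ i

noncomputable def Fo301 (t : ℝ) : ℝ :=
  Real.exp (-(2 * (1 / 2 * Real.log t)) * (1 - Real.smoothTransition (1 / 2 * Real.log t - 1)))

noncomputable def Fi301 (t : ℝ) : ℝ :=
  Real.exp (-(2 * (1 / 2 * Real.log t)) * (1 - Real.smoothTransition (-(1 / 2 * Real.log t) - 1)))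

theorem Fo_smooth301 {t : ℝ} (ht : t ≠ 0) : ContDiffAt ℝ ∞ Fo301 t := by
  unfold Fo301
  have h1 : ContDiffAt ℝ ∞ Real.log t := Real.contDiffAt_log.mpr ht
  have h2 : ContDiffAt ℝ ∞ (fun t => 1 / 2 * Real.log t) t := contDiffAt_const.mul h1
  have h3 : ContDiffAt ℝ ∞ (fun t => Real.smoothTransition (1 / 2 * Real.log t - 1)) t :=
    (Real.smoothTransition.contDiff.contDiffAt (n := ∞)).comp t (h2.sub contDiffAt_const)
  exact Real.contDiff_exp.contDiffAt.comp t
    ((contDiffAt_const.mul h2).neg.mul (contDiffAt_const.sub h3))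

theorem Fi_smooth301 (t : ℝ) (ht0 : 0 ≤ t) : ∃ U ∈ 𝓝 t, ∃ H : ℝ → ℝ, ContDiffAt ℝ ∞ H t ∧
    ∀ s ∈ U, 0 ≤ s → Fi301 s = H s := by
  rcases eq_or_ne t 0 with ht | ht
  · subst ht
    refine ⟨Set.Iio (Real.exp (-4)), Iio_mem_nhds (Real.exp_pos _), fun _ => 1, contDiffAt_const, ?_⟩
    intro s hs hs0
    rcases eq_or_lt_of_le hs0 with h | h
    · rw [← h]; simp [Fi301]
    · have h1 : Real.log s < -4 := by
        rw [← Real.log_exp (-4)]
        exact Real.log_lt_log h hs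
      unfold Fi301
      rw [Real.smoothTransition.one_of_one_le (by linarith)]
      simp
  · refine ⟨Set.univ, Filter.univ_mem, Fi301, ?_, fun _ _ _ => rfl⟩
    unfold Fi301
    have h1 : ContDiffAt ℝ ∞ Real.log t := Real.contDiffAt_log.mpr ht
    have h2 : ContDiffAt ℝ ∞ (fun t => 1 / 2 * Real.log t) t := contDiffAt_const.mul h1
    have h3 : ContDiffAt ℝ ∞ (fun t => Real.smoothTransition (-(1 / 2 * Real.log t) - 1)) t :=
      (Real.smoothTransition.contDiff.contDiffAt (n := ∞)).comp t (h2.neg.sub contDiffAt_const)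
    exact Real.contDiff_exp.contDiffAt.comp t
      ((contDiffAt_const.mul h2).neg.mul (contDiffAt_const.sub h3))

theorem profiles {n : ℕ} (p : ℕ) (hp : p + 1 ≤ n) : ∃ (fo fi : Eu n → ℝ) (R : ℝ), 4 < R ∧
    (∀ x, 0 < fo x) ∧ (∀ x, 0 < fi x) ∧ Yonly p fo ∧ Yonly p fi ∧
    ContDiffOn ℝ ∞ fo {x | rr p x ≠ 0} ∧ ContDiff ℝ ∞ fi ∧
    (∀ x, 0 < rr p x → rr p x < 4 → fo x = 1 / rr p x) ∧ (∀ x, R ≤ rr p x → fo x = 1) ∧
    (∀ x, 1 / 4 < rr p x → fi x = 1 / rr p x) := by
  have hlog4 : Real.log 4 < 2 := by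
    have h1 : Real.log 4 = 2 * Real.log 2 := by
      rw [show (4 : ℝ) = 2 ^ 2 by norm_num, Real.log_pow]; norm_num
    have := Real.log_two_lt_d9
    rw [h1]; linarith
  have hexp : ∀ t : ℝ, 0 < t → Real.exp (-(2 * (1 / 2 * Real.log t))) = 1 / t := by
    intro t ht
    rw [show -(2 * (1 / 2 * Real.log t)) = -Real.log t by ring, Real.exp_neg, Real.exp_log ht,
      one_div]
  refine ⟨fun x => Fo301 (rr p x), fun x => Fi301 (rr p x), Real.exp 4, ?_, ?_, ?_, ?_, ?_, ?_, ?_,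
    ?_, ?_, ?_⟩
  · have := Real.add_one_lt_exp (x := 4) (by norm_num)
    linarith
  · intro x; exact Real.exp_pos _
  · intro x; exact Real.exp_pos _
  · intro x x' h
    show Fo301 (rr p x) = Fo301 (rr p x')
    rw [rr_congr301 p h]
  · intro x x' h
    show Fi301 (rr p x) = Fi301 (rr p x')
    rw [rr_congr301 p h]
  · intro x hx
    exact ((Fo_smooth301 hx).comp x (rr_smooth301 p).contDiffAt).contDiffWithinAt
  · rw [contDiff_iff_contDiffAt]
    intro x
    obtain ⟨U, hU, H, hH, hUH⟩ := Fi_smooth301 (rr p x) (rr_nonneg301 p x)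
    have h1 : ContDiffAt ℝ ∞ (fun y => H (rr p y)) x := hH.comp x (rr_smooth301 p).contDiffAt
    refine h1.congr_of_eventuallyEq ?_
    have h2 : ∀ᶠ y in 𝓝 x, rr p y ∈ U := (rr_smooth301 p).continuous.continuousAt hU
    filter_upwards [h2] with y hy
    exact hUH _ hy (rr_nonneg301 p y)
  · intro x hx hx4
    show Fo301 (rr p x) = _
    have h1 : Real.log (rr p x) < 2 := (Real.log_lt_log hx hx4).trans hlog4
    unfold Fo301
    rw [Real.smoothTransition.zero_of_nonpos (by linarith), sub_zero, mul_one, hexp _ hx]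
  · intro x hx
    show Fo301 (rr p x) = _
    have h1 : 4 ≤ Real.log (rr p x) := by
      rw [← Real.log_exp 4]
      exact Real.log_le_log (Real.exp_pos _) hx
    unfold Fo301
    rw [Real.smoothTransition.one_of_one_le (by linarith)]
    simp
  · intro x hx
    show Fi301 (rr p x) = _
    have hx0 : 0 < rr p x := by linarith
    have h1 : -2 < Real.log (rr p x) := by
      have h2 := Real.log_lt_log (by norm_num) hx
      rw [one_div, Real.log_inv] at h2
      linarith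
    unfold Fi301
    rw [Real.smoothTransition.zero_of_nonpos (by linarith), sub_zero, mul_one, hexp _ hx0]

theorem longf {n : ℕ} (p : ℕ) (hp : p + 1 ≤ n) {fo fi : Eu n → ℝ} {R : ℝ} (hR : 4 < R)
    (ho0 : ∀ x, 0 < fo x) (hi0 : ∀ x, 0 < fi x) (hoy : Yonly p fo) (hiy : Yonly p fi)
    (hos : ContDiffOn ℝ ∞ fo {x | rr p x ≠ 0}) (his : ContDiff ℝ ∞ fi)
    (ho : ∀ x, 0 < rr p x → rr p x < 4 → fo x = 1 / rr p x) (hoR : ∀ x, R ≤ rr p x → fo x = 1)
    (hi : ∀ x, 1 / 4 < rr p x → fi x = 1 / rr p x) (L : ℕ) (hL : 1 ≤ L) :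
    ∃ f : Eu n → ℝ, (∀ x, 0 < f x) ∧ Yonly p f ∧ ContDiff ℝ ∞ f ∧ (∀ x, R ≤ rr p x → f x = 1) ∧
      (∀ x, 1 ≤ rr p x → f =ᶠ[𝓝 x] fo) ∧
      (∀ x, (1 / 4 : ℝ) ^ L < rr p x → rr p x ≤ 1 → f =ᶠ[𝓝 x] fun y => 1 / rr p y) ∧
      (∀ x, rr p x ≤ (1 / 4 : ℝ) ^ L → f =ᶠ[𝓝 x] fun y => ((2 : ℝ) ^ L) ^ 2 * fi (dl p (2 ^ L) y)) := by
  have h4L : (0 : ℝ) < (1 / 4) ^ L := by positivity
  have h4L1 : (1 / 4 : ℝ) ^ L < 1 := pow_lt_one₀ (by norm_num) (by norm_num) (by omega)
  have hlam : ((2 : ℝ) ^ L) ^ 2 * (1 / 4) ^ L = 1 := by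
    rw [← pow_mul, mul_comm L 2, pow_mul, ← mul_pow]; norm_num
  have hlam0 : (0 : ℝ) < ((2 : ℝ) ^ L) ^ 2 := by positivity
  set inner : Eu n → ℝ := fun y => ((2 : ℝ) ^ L) ^ 2 * fi (dl p (2 ^ L) y) with hinner
  set f : Eu n → ℝ := fun x => if (1 / 4 : ℝ) ^ L < rr p x then fo x else inner x with hf
  have hU1 : ∀ x, (1 / 4 : ℝ) ^ L < rr p x → f =ᶠ[𝓝 x] fo := by
    intro x hx
    have h2 : ∀ᶠ y in 𝓝 x, (1 / 4 : ℝ) ^ L < rr p y :=
      (rr_smooth301 p).continuous.continuousAt.eventually (lt_mem_nhds hx)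
    filter_upwards [h2] with y hy
    simp only [hf, hy, if_true]
  have hinv : ∀ y, (1 / 4 : ℝ) ^ L < rr p y → inner y = 1 / rr p y := by
    intro y hy
    have hy0 : 0 < rr p y := h4L.trans hy
    simp only [hinner]
    have h1 : rr p (dl p (2 ^ L) y) = ((2 : ℝ) ^ L) ^ 2 * rr p y := rr_dl301 p _ y
    have h2 : 1 < ((2 : ℝ) ^ L) ^ 2 * rr p y := by
      rw [← hlam]
      exact mul_lt_mul_of_pos_left hy hlam0
    rw [hi _ (by rw [h1]; linarith), h1]
    field_simp
  have hW : ∀ x, rr p x < 4 → f =ᶠ[𝓝 x] inner := by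
    intro x hx
    have h2 : ∀ᶠ y in 𝓝 x, rr p y < 4 :=
      (rr_smooth301 p).continuous.continuousAt.eventually (gt_mem_nhds hx)
    filter_upwards [h2] with y hy
    by_cases h : (1 / 4 : ℝ) ^ L < rr p y
    · simp only [hf, h, if_true]
      rw [ho y (h4L.trans h) hy, hinv y h]
    · simp only [hf, h, if_false]
  have hinner_s : ContDiff ℝ ∞ inner := contDiff_const.mul (his.comp (dl_smooth301 p _))
  refine ⟨f, ?_, ?_, ?_, ?_, ?_, ?_, ?_⟩
  · intro x
    simp only [hf]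
    split_ifs
    · exact ho0 x
    · exact mul_pos hlam0 (hi0 _)
  · intro x x' h
    have e1 : rr p x = rr p x' := rr_congr301 p h
    have e2 : fo x = fo x' := hoy x x' h
    have e3 : fi (dl p (2 ^ L) x) = fi (dl p (2 ^ L) x') := by
      apply hiy
      intro i hi'
      simp only [dl, hi', if_true, h i hi']
    simp only [hf, hinner, e1, e2, e3]
  · rw [contDiff_iff_contDiffAt]
    intro x
    by_cases h : (1 / 4 : ℝ) ^ L < rr p x
    · have hx0 : rr p x ≠ 0 := (h4L.trans h).ne'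
      have hopen : IsOpen {x : Eu n | rr p x ≠ 0} :=
        isOpen_ne_fun (rr_smooth301 p).continuous continuous_const
      exact (hos.contDiffAt (hopen.mem_nhds hx0)).congr_of_eventuallyEq (hU1 x h)
    · have hx4 : rr p x < 4 := by
        have := not_lt.mp h
        linarith
      exact hinner_s.contDiffAt.congr_of_eventuallyEq (hW x hx4)
  · intro x hx
    have h : (1 / 4 : ℝ) ^ L < rr p x := by linarith
    simp only [hf, h, if_true]
    exact hoR x hx
  · intro x hx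
    exact hU1 x (by linarith)
  · intro x hx hx1
    have h2 : ∀ᶠ y in 𝓝 x, (1 / 4 : ℝ) ^ L < rr p y :=
      (rr_smooth301 p).continuous.continuousAt.eventually (lt_mem_nhds hx)
    filter_upwards [hW x (by linarith), h2] with y hy hy2
    rw [hy, hinv y hy2]
  · intro x hx
    exact hW x (by linarith)

end Pool.Agent.QTot.HC
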