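import Pool.Agent.QTot.Base2
import Pool.Agent.QTot.HA
import Pool.Agent.QTot.HB
import Pool.Agent.QTot.HC
import Pool.Agent.QTot.N5

set_option autoImplicit false
open scoped ContDiff Manifold Topology Matrix
open MeasureTheory Filter Set

namespace Pool.Agent.QTot.HD
open Pool.Agent.QTot
open Pool.Agent.QTot.HA (cm_det cm_symm cm_posDef cm_smooth cm_cyl dens_cont dens_aff dens_congr dens_flat)
open Pool.Agent.QTot.HB (dil_int)
open Pool.Agent.QTot.HC (profiles longf)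
open Pool.Agent.QTot.N5 (q_pull)
















/-! ## TARGET (prove this) -/

theorem lc_rr_contDiff {n : ℕ} (p : ℕ) : ContDiff ℝ ∞ (fun x : Eu n => rr p x) := by
  unfold rr
  refine ContDiff.sum (fun i _ => ?_)
  split_ifs
  · exact (contDiff_apply ℝ ℝ i).pow 2
  · exact contDiff_const

theorem lc_rr_cont {n : ℕ} (p : ℕ) : Continuous (fun x : Eu n => rr p x) :=
  (lc_rr_contDiff p).continuous

theorem lc_rr_nonneg {n : ℕ} (p : ℕ) (x : Eu n) : 0 ≤ rr p x := by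
  unfold rr
  refine Finset.sum_nonneg (fun i _ => ?_)
  split_ifs
  · exact sq_nonneg _
  · exact le_rfl

theorem lc_rr_dl {n : ℕ} (p : ℕ) (lam : ℝ) (x : Eu n) :
    rr p (dl p lam x) = lam ^ 2 * rr p x := by
  unfold rr dl
  rw [Finset.mul_sum]
  refine Finset.sum_congr rfl (fun i _ => ?_)
  split_ifs
  · ring
  · ring

theorem lc_dl_mem {n : ℕ} (p : ℕ) (lam : ℝ) (x : Eu n) :
    dl p lam x ∈ Zb p 0 1 ↔ x ∈ Zb p 0 1 := by
  have h : ∀ i : Fin n, p + 1 ≤ i.val → dl p lam x i = x i := by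
    intro i hi
    unfold dl
    rw [if_neg (by omega)]
  constructor
  · intro hx i hi
    rw [← h i hi]
    exact hx i hi
  · intro hx i hi
    rw [h i hi]
    exact hx i hi

/-- bounded part of the cylinder -/
def lcSle {n : ℕ} (p : ℕ) (b : ℝ) : Set (Eu n) := {x | x ∈ Zb p 0 1 ∧ rr p x ≤ b}

/-- shell of the cylinder -/
def lcSab {n : ℕ} (p : ℕ) (a b : ℝ) : Set (Eu n) :=
  {x | x ∈ Zb p 0 1 ∧ a < rr p x ∧ rr p x ≤ b}

theorem lc_Zclosed {n : ℕ} (p : ℕ) : IsClosed (Zb p 0 1 : Set (Eu n)) := by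
  have h : (Zb p 0 1 : Set (Eu n)) = ⋂ (i : Fin n), ⋂ (_ : p + 1 ≤ i.val),
      {x : Eu n | x i ∈ Set.Icc (0:ℝ) 1} := by
    ext x
    simp only [Set.mem_iInter]
    exact Iff.rfl
  rw [h]
  exact isClosed_iInter (fun i => isClosed_iInter (fun _ =>
    isClosed_Icc.preimage (continuous_apply i)))

theorem lc_Sle_closed {n : ℕ} (p : ℕ) (b : ℝ) : IsClosed (lcSle p b : Set (Eu n)) :=
  (lc_Zclosed p).inter (isClosed_le (lc_rr_cont p) continuous_const)

theorem lc_Sle_compact {n : ℕ} (p : ℕ) (b : ℝ) (hb : 0 ≤ b) :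
    IsCompact (lcSle p b : Set (Eu n)) := by
  refine (isCompact_Icc (a := (fun _ => -(b+1) : Eu n)) (b := fun _ => b + 1)).of_isClosed_subset
    (lc_Sle_closed p b) ?_
  rintro x ⟨hx, hr⟩
  have h : ∀ i : Fin n, |x i| ≤ b + 1 := by
    intro i
    by_cases hi : i.val < p + 1
    · have h1 : x i ^ 2 ≤ rr p x := by
        have h2 := Finset.single_le_sum
          (f := fun i : Fin n => if i.val < p + 1 then x i ^ 2 else 0) (s := Finset.univ)
          (fun i _ => by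
            split_ifs
            · exact sq_nonneg _
            · exact le_rfl) (Finset.mem_univ i)
        simp only [if_pos hi] at h2
        exact h2
      apply abs_le_of_sq_le_sq _ (by linarith)
      nlinarith
    · have h1 := hx i (by omega)
      rw [abs_le]
      constructor <;> linarith [h1.1, h1.2]
  exact ⟨fun i => (abs_le.mp (h i)).1, fun i => (abs_le.mp (h i)).2⟩

theorem lc_Sab_meas {n : ℕ} (p : ℕ) (a b : ℝ) : MeasurableSet (lcSab p a b : Set (Eu n)) := by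
  have h1 : IsOpen {x : Eu n | a < rr p x} := isOpen_lt continuous_const (lc_rr_cont p)
  have h2 : IsClosed {x : Eu n | rr p x ≤ b} := isClosed_le (lc_rr_cont p) continuous_const
  exact (lc_Zclosed p).measurableSet.inter (h1.measurableSet.inter h2.measurableSet)

theorem lc_split {n : ℕ} (p : ℕ) (a b : ℝ) (hab : a ≤ b) (g : Eu n → ℝ)
    (hg : IntegrableOn g (lcSle p b)) :
    ∫ x in lcSle p b, g x = (∫ x in lcSle p a, g x) + ∫ x in lcSab p a b, g x := by
  have h1 : (lcSle p b : Set (Eu n)) = lcSle p a ∪ lcSab p a b := by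
    ext x
    constructor
    · rintro ⟨h, h'⟩
      rcases le_or_gt (rr p x) a with h2 | h2
      · exact Or.inl ⟨h, h2⟩
      · exact Or.inr ⟨h, h2, h'⟩
    · rintro (⟨h, h'⟩ | ⟨h, h', h''⟩)
      · exact ⟨h, h'.trans hab⟩
      · exact ⟨h, h''⟩
  have h2 : Disjoint (lcSle p a : Set (Eu n)) (lcSab p a b) := by
    rw [Set.disjoint_left]
    rintro x ⟨_, h⟩ ⟨_, h', _⟩
    linarith
  rw [h1] at hg ⊢
  exact setIntegral_union h2 (lc_Sab_meas p a b) (hg.mono_set Set.subset_union_left)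
    (hg.mono_set Set.subset_union_right)

theorem lc_split2 {n : ℕ} (p : ℕ) (a b c : ℝ) (hab : a ≤ b) (hbc : b ≤ c) (g : Eu n → ℝ)
    (hg : IntegrableOn g (lcSab p a c)) :
    ∫ x in lcSab p a c, g x = (∫ x in lcSab p a b, g x) + ∫ x in lcSab p b c, g x := by
  have h1 : (lcSab p a c : Set (Eu n)) = lcSab p a b ∪ lcSab p b c := by
    ext x
    constructor
    · rintro ⟨h, h', h''⟩
      rcases le_or_gt (rr p x) b with h2 | h2
      · exact Or.inl ⟨h, h', h2⟩
      · exact Or.inr ⟨h, h2, h''⟩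
    · rintro (⟨h, h', h''⟩ | ⟨h, h', h''⟩)
      · exact ⟨h, h', h''.trans hbc⟩
      · exact ⟨h, lt_of_le_of_lt hab h', h''⟩
  have h2 : Disjoint (lcSab p a b : Set (Eu n)) (lcSab p b c) := by
    rw [Set.disjoint_left]
    rintro x ⟨_, _, h⟩ ⟨_, h', _⟩
    linarith
  rw [h1] at hg ⊢
  exact setIntegral_union h2 (lc_Sab_meas p b c) (hg.mono_set Set.subset_union_left)
    (hg.mono_set Set.subset_union_right)

theorem lc_jac {n : ℕ} (x : Eu n) : Jac (id : Eu n → Eu n) x = 1 := by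
  ext a i
  unfold Jac pd
  rw [Matrix.of_apply]
  have h : HasFDerivAt (fun y : Eu n => (id y : Eu n) a)
      (ContinuousLinearMap.proj a : (Eu n) →L[ℝ] ℝ) x := hasFDerivAt_apply a x
  rw [h.fderiv, ContinuousLinearMap.proj_apply, Pi.single_apply, Matrix.one_apply]

theorem lc_pull {n : ℕ} (G : Eu n → Mt n) (x : Eu n) : pull id G x = G x := by
  unfold pull
  rw [lc_jac]
  simp

theorem lc_U {n : ℕ} (p : ℕ) : IsOpen {x : Eu n | rr p x ≠ 0} :=
  isOpen_ne.preimage (lc_rr_cont p)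

theorem lc_inv_smooth {n : ℕ} (p : ℕ) :
    ContDiffOn ℝ ∞ (fun y : Eu n => 1 / rr p y) {x | rr p x ≠ 0} :=
  contDiffOn_const.div (lc_rr_contDiff p).contDiffOn (fun _ hx => hx)

theorem lc_inv_pos {n : ℕ} (p : ℕ) (x : Eu n) (hx : rr p x ≠ 0) : 0 < 1 / rr p x :=
  one_div_pos.mpr (lt_of_le_of_ne (lc_rr_nonneg p x) hx.symm)

theorem lc_E {n : ℕ} (p : ℕ) (hp : p + 1 ≤ n) (Q0 : ℝ)
    (hQ : ∀ x : Eu n, rr p x ≠ 0 → Qloc (fun y : Eu n => TS p y + TF p y) x = Q0)
    (x : Eu n) (hx : rr p x ≠ 0) :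
    dens (CM p (fun y => 1 / rr p y)) x = Q0 * Real.sqrt ((1 / rr p x) ^ (p + 1)) := by
  have h1 := q_pull (lc_U (n := n) p) (lc_U (n := n) p) (φ := id) contDiffOn_id
    (fun x _ => by rw [lc_jac]; simp) (fun x hx => hx)
    (G := CM p (fun y => 1 / rr p y)) (Gt := fun y => TS p y + TF p y)
    (fun i j => cm_smooth p (lc_inv_smooth p) i j) (fun x _ => cm_symm p _ x)
    (fun x hx => by rw [cm_det p hp]; exact pow_ne_zero _ (lc_inv_pos p x hx).ne')
    (fun x hx => by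
      rw [lc_pull]
      exact (cm_cyl p x hx).symm) x hx
  have h2 : Qloc (CM p fun y => 1 / rr p y) x = Q0 := by
    rw [← hQ x hx]
    exact h1.symm
  unfold dens
  rw [cm_det p hp, h2]

theorem lc_E_scale {n : ℕ} (p : ℕ) (hp : p + 1 ≤ n) (Q0 : ℝ)
    (hQ : ∀ x : Eu n, rr p x ≠ 0 → Qloc (fun y : Eu n => TS p y + TF p y) x = Q0)
    (lam : ℝ) (hlam : 0 < lam) (x : Eu n) (hx : rr p x ≠ 0) :
    dens (CM p (fun y => 1 / rr p y)) x =
      lam ^ (p + 1) * dens (CM p (fun y => 1 / rr p y)) (dl p lam x) := by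
  have hr : 0 < rr p x := lt_of_le_of_ne (lc_rr_nonneg p x) hx.symm
  have hx' : rr p (dl p lam x) ≠ 0 := by
    rw [lc_rr_dl]
    positivity
  rw [lc_E p hp Q0 hQ x hx, lc_E p hp Q0 hQ _ hx', lc_rr_dl]
  have h1 : (1 / (lam ^ 2 * rr p x)) ^ (p + 1)
      = ((1 / lam) ^ (p + 1)) ^ 2 * (1 / rr p x) ^ (p + 1) := by
    rw [← pow_mul, mul_comm (p + 1) 2, pow_mul, ← mul_pow]
    congr 1
    field_simp
  rw [h1, Real.sqrt_mul (sq_nonneg _), Real.sqrt_sq (by positivity)]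
  have h2 : lam ^ (p + 1) * (1 / lam) ^ (p + 1) = 1 := by
    rw [← mul_pow, mul_one_div_cancel hlam.ne', one_pow]
  calc Q0 * √((1 / rr p x) ^ (p + 1))
      = (lam ^ (p + 1) * (1 / lam) ^ (p + 1)) * (Q0 * √((1 / rr p x) ^ (p + 1))) := by
        rw [h2, one_mul]
    _ = _ := by ring

theorem lc_E_int {n : ℕ} (p : ℕ) (hp : p + 1 ≤ n) (a b : ℝ) (ha : 0 < a) (hb : 0 ≤ b) :
    IntegrableOn (dens (CM p (fun y : Eu n => 1 / rr p y))) (lcSab p a b) := by
  have hc : ContinuousOn (dens (CM p (fun y : Eu n => 1 / rr p y))) {x | rr p x ≠ 0} :=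
    dens_cont p hp (lc_U p) (lc_inv_smooth p) (fun x hx => lc_inv_pos p x hx)
  have hK : IsCompact ((lcSle p b : Set (Eu n)) ∩ {x | a ≤ rr p x}) :=
    (lc_Sle_compact p b hb).inter_right (isClosed_le continuous_const (lc_rr_cont p))
  have hsub : ((lcSle p b : Set (Eu n)) ∩ {x | a ≤ rr p x}) ⊆ {x | rr p x ≠ 0} := by
    rintro x ⟨_, hx⟩
    have hx' : a ≤ rr p x := hx
    exact (lt_of_lt_of_le ha hx').ne'
  refine ((hc.mono hsub).integrableOn_compact hK).mono_set ?_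
  rintro x ⟨h, h', h''⟩
  exact ⟨⟨h, h''⟩, le_of_lt h'⟩

theorem lc_pow (L : ℕ) : ((2:ℝ) ^ L) ^ 2 * (1 / 4 : ℝ) ^ L = 1 := by
  rw [← pow_mul, mul_comm L 2, pow_mul, ← mul_pow]
  norm_num

theorem lc_pre_le {n : ℕ} (p : ℕ) (L : ℕ) :
    (lcSle p ((1 / 4 : ℝ) ^ L) : Set (Eu n)) = (dl p (2 ^ L)) ⁻¹' (lcSle p 1) := by
  have h4 := lc_pow L
  have hpos : (0:ℝ) < ((2:ℝ) ^ L) ^ 2 := by positivity
  ext x
  constructor
  · rintro ⟨h, h'⟩
    refine ⟨(lc_dl_mem p _ x).mpr h, ?_⟩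
    rw [lc_rr_dl]
    have := mul_le_mul_of_nonneg_left h' hpos.le
    linarith
  · rintro ⟨h, h'⟩
    refine ⟨(lc_dl_mem p _ x).mp h, ?_⟩
    rw [lc_rr_dl, ← h4] at h'
    exact le_of_mul_le_mul_left h' hpos

theorem lc_pre_ab {n : ℕ} (p : ℕ) (L : ℕ) :
    (lcSab p ((1 / 4 : ℝ) ^ (L + 1)) ((1 / 4 : ℝ) ^ L) : Set (Eu n))
      = (dl p (2 ^ L)) ⁻¹' (lcSab p (1 / 4) 1) := by
  have h4 := lc_pow L
  have h5 : ((2:ℝ) ^ L) ^ 2 * (1 / 4 : ℝ) ^ (L + 1) = 1 / 4 := by
    rw [pow_succ (1 / 4 : ℝ), ← mul_assoc, h4, one_mul]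
  have hpos : (0:ℝ) < ((2:ℝ) ^ L) ^ 2 := by positivity
  ext x
  constructor
  · rintro ⟨h, h', h''⟩
    refine ⟨(lc_dl_mem p _ x).mpr h, ?_, ?_⟩
    · rw [lc_rr_dl]
      have := mul_lt_mul_of_pos_left h' hpos
      linarith
    · rw [lc_rr_dl]
      have := mul_le_mul_of_nonneg_left h'' hpos.le
      linarith
  · rintro ⟨h, h', h''⟩
    refine ⟨(lc_dl_mem p _ x).mp h, ?_, ?_⟩
    · rw [lc_rr_dl, ← h5] at h'
      exact lt_of_mul_lt_mul_left h' hpos.le
    · rw [lc_rr_dl, ← h4] at h''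
      exact le_of_mul_le_mul_left h'' hpos

theorem lc_W {n : ℕ} (p : ℕ) (hp : p + 1 ≤ n) (Q0 : ℝ)
    (hQ : ∀ x : Eu n, rr p x ≠ 0 → Qloc (fun y : Eu n => TS p y + TF p y) x = Q0) (L : ℕ) :
    ∫ x in lcSab p ((1 / 4 : ℝ) ^ L) 1, dens (CM p (fun y : Eu n => 1 / rr p y)) x =
      L * ∫ x in lcSab p (1 / 4) 1, dens (CM p (fun y : Eu n => 1 / rr p y)) x := by
  induction L with
  | zero =>
    have h : (lcSab p ((1 / 4 : ℝ) ^ 0) 1 : Set (Eu n)) = ∅ := by
      rw [Set.eq_empty_iff_forall_notMem]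
      rintro x ⟨_, h1, h2⟩
      rw [pow_zero] at h1
      linarith
    rw [h]
    simp
  | succ L ih =>
    have hle : (1 / 4 : ℝ) ^ (L + 1) ≤ (1 / 4 : ℝ) ^ L :=
      pow_le_pow_of_le_one (by norm_num) (by norm_num) (Nat.le_succ L)
    have hle1 : (1 / 4 : ℝ) ^ L ≤ 1 := pow_le_one₀ (by norm_num) (by norm_num)
    rw [lc_split2 p _ _ 1 hle hle1 _ (lc_E_int p hp _ 1 (by positivity) zero_le_one), ih]
    have h1 : ∫ x in lcSab p ((1 / 4 : ℝ) ^ (L + 1)) ((1 / 4 : ℝ) ^ L),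
        dens (CM p (fun y : Eu n => 1 / rr p y)) x
        = ∫ x in lcSab p (1 / 4) 1, dens (CM p (fun y : Eu n => 1 / rr p y)) x := by
      rw [← dil_int p hp (2 ^ L) (by positivity)
        (dens (CM p (fun y : Eu n => 1 / rr p y))) (lcSab p (1 / 4) 1), ← lc_pre_ab]
      apply setIntegral_congr_fun (lc_Sab_meas p _ _)
      rintro x ⟨_, h2, _⟩
      have h3 : (0:ℝ) < (1 / 4 : ℝ) ^ (L + 1) := by positivity
      exact lc_E_scale p hp Q0 hQ _ (by positivity) x (h3.trans h2).ne'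
    rw [h1]
    push_cast
    ring

theorem lc_omega {n : ℕ} (p : ℕ) (hp : p + 1 ≤ n) (Q0 : ℝ) (hQ0 : 0 < Q0)
    (hQ : ∀ x : Eu n, rr p x ≠ 0 → Qloc (fun y : Eu n => TS p y + TF p y) x = Q0) :
    0 < ∫ x in lcSab p (1 / 4) 1, dens (CM p (fun y : Eu n => 1 / rr p y)) x := by
  have hpos : ∀ x ∈ (lcSab p (1 / 4) 1 : Set (Eu n)),
      0 < dens (CM p (fun y : Eu n => 1 / rr p y)) x := by
    rintro x ⟨_, h, _⟩
    have hx : rr p x ≠ 0 := by
      intro h0
      rw [h0] at h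
      norm_num at h
    rw [lc_E p hp Q0 hQ x hx]
    have := lc_inv_pos p x hx
    positivity
  rw [setIntegral_pos_iff_support_of_nonneg_ae]
  · obtain ⟨O, hO⟩ : ∃ O : Set (Eu n), O = (⋂ (i : Fin n), ⋂ (_ : p + 1 ≤ i.val),
      {x : Eu n | x i ∈ Set.Ioo (0:ℝ) 1}) ∩ {x | 1 / 4 < rr p x ∧ rr p x < 1} := ⟨_, rfl⟩
    have hOo : IsOpen O := by
      rw [hO]
      apply IsOpen.inter
      · exact isOpen_iInter_of_finite (fun i => isOpen_iInter_of_finite (fun _ =>
          isOpen_Ioo.preimage (continuous_apply i)))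
      · exact (isOpen_lt continuous_const (lc_rr_cont p)).inter
          (isOpen_lt (lc_rr_cont p) continuous_const)
    have hOn : O.Nonempty := by
      refine ⟨fun i => if i.val = 0 then 3 / 4 else if i.val < p + 1 then 0 else 1 / 2, ?_⟩
      rw [hO]
      refine ⟨?_, ?_⟩
      · simp only [Set.mem_iInter]
        intro i hi
        change (if i.val = 0 then (3:ℝ) / 4 else if i.val < p + 1 then 0 else 1 / 2) ∈
          Set.Ioo (0:ℝ) 1
        rw [if_neg (by omega), if_neg (by omega)]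
        constructor <;> norm_num
      · have h1 : rr p (fun i : Fin n => if i.val = 0 then (3:ℝ) / 4 else
            if i.val < p + 1 then 0 else 1 / 2) = 9 / 16 := by
          unfold rr
          rw [Finset.sum_eq_single (⟨0, by omega⟩ : Fin n)]
          · simp
            norm_num
          · intro i _ hi
            have hi0 : i.val ≠ 0 := fun h => hi (Fin.ext h)
            by_cases h : i.val < p + 1
            · rw [if_pos h]
              simp [hi0, h]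
            · rw [if_neg h]
          · intro h
            exact absurd (Finset.mem_univ _) h
        constructor
        · rw [h1]
          norm_num
        · rw [h1]
          norm_num
    refine lt_of_lt_of_le (hOo.measure_pos volume hOn) (measure_mono ?_)
    intro x hx
    rw [hO] at hx
    obtain ⟨h1, h2, h3⟩ := hx
    simp only [Set.mem_iInter] at h1
    have hS : x ∈ (lcSab p (1 / 4) 1 : Set (Eu n)) := by
      refine ⟨fun i hi => ?_, h2, h3.le⟩
      exact Set.Ioo_subset_Icc_self (h1 i hi)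
    exact ⟨(hpos x hS).ne', hS⟩
  · rw [Filter.EventuallyLE, ae_restrict_iff' (lc_Sab_meas p _ _)]
    exact Filter.Eventually.of_forall (fun x hx => (hpos x hx).le)
  · exact lc_E_int p hp _ 1 (by norm_num) zero_le_one

/- Idea: for `L ≥ 1` let `f_L` be the function of `longf` and `T(L) = ∫ x in Zb p 0 1, dens (CM p f_L) x`.  Near a point with
`(1/4)^L < rr ≤ 1` the metric is `CM p (1/rr) = TS + TF` (`cm_cyl`), so its density is `Q0 * √det > 0`, `√det = √(rr^-(p+1))`.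
`T(L) = ∫_{Zb ∩ {rr > 1}} dens (CM p fo) + Q0 * ∑_{i < L} ∫_{Zb ∩ {(1/4)^(i+1) < rr ≤ (1/4)^i}} √det + ∫_{Zb ∩ {rr ≤ (1/4)^L}} dens (CM p f_L)`.
The `i`-th integral in the sum equals the one for `i = 0`, call it `ω > 0` (`dil_int` with `lam = 2^i`), and the last term is
`∫_{Zb ∩ {rr ≤ 1}} dens (CM p fi)` (`dens_aff` with `lam = 2^L`, then `dil_int`).  So `T(L) = c + L Q0 ω`, which is positive for
`L` large.  Integrability: the sets are bounded apart from `{rr > R}`, where `dens (CM p fo) = 0` (`dens_flat`), and the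
densities are continuous on neighbourhoods of the relevant compact sets; `Zb ∩ {rr ≤ R}` is compact. -/
theorem long_cyl {n : ℕ} (hn2 : 2 ≤ n) (p : ℕ) (hp : p + 1 ≤ n) (Q0 : ℝ) (hQ0 : 0 < Q0)
    (hQ : ∀ x : Eu n, rr p x ≠ 0 → Qloc (fun y : Eu n => TS p y + TF p y) x = Q0) :
    ∃ (f : Eu n → ℝ) (R : ℝ), (∀ x, 0 < f x) ∧ Yonly p f ∧ ContDiff ℝ ∞ f ∧ (∀ x, R ≤ rr p x → f x = 1) ∧
      0 < ∫ x in Zb p 0 1, dens (CM p f) x := by
  obtain ⟨fo, fi, R, hR, ho0, hi0, hoy, hiy, hos, his, ho, hoR, hi⟩ := profiles (n := n) p hp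
  obtain ⟨w, hw⟩ : ∃ w : ℝ, w = ∫ x in lcSab p (1 / 4) 1,
    dens (CM p (fun y : Eu n => 1 / rr p y)) x := ⟨_, rfl⟩
  have hw0 : 0 < w := by
    rw [hw]
    exact lc_omega p hp Q0 hQ0 hQ
  obtain ⟨c1, hc1⟩ : ∃ c1 : ℝ, c1 = ∫ x in lcSab p 1 R, dens (CM p fo) x := ⟨_, rfl⟩
  obtain ⟨c2, hc2⟩ : ∃ c2 : ℝ, c2 = ∫ x in lcSle p 1, dens (CM p fi) x := ⟨_, rfl⟩
  obtain ⟨N, hN⟩ := exists_nat_gt ((-(c1 + c2)) / w)
  obtain ⟨L, hL⟩ : ∃ L : ℕ, L = N + 1 := ⟨_, rfl⟩
  have hL1 : 1 ≤ L := by omega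
  have hLw : 0 < c1 + c2 + L * w := by
    rw [div_lt_iff₀ hw0] at hN
    rw [hL]
    push_cast
    linarith
  obtain ⟨f, hf0, hfy, hfs, hfR, hf1, hf2, hf3⟩ :=
    longf p hp hR ho0 hi0 hoy hiy hos his ho hoR hi L hL1
  refine ⟨f, R, hf0, hfy, hfs, hfR, ?_⟩
  have hDc : Continuous (dens (CM p f)) := by
    rw [← continuousOn_univ]
    exact dens_cont p hp isOpen_univ hfs.contDiffOn (fun x _ => hf0 x)
  have hint : ∀ b : ℝ, 0 ≤ b → IntegrableOn (dens (CM p f)) (lcSle p b) := fun b hb =>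
    hDc.continuousOn.integrableOn_compact (lc_Sle_compact p b hb)
  have hs0 : ∫ x in Zb p 0 1, dens (CM p f) x = ∫ x in lcSle p R, dens (CM p f) x := by
    apply setIntegral_eq_of_subset_of_forall_diff_eq_zero (lc_Zclosed p).measurableSet
    · rintro x ⟨h, _⟩
      exact h
    · rintro x ⟨h, h'⟩
      have hx : R < rr p x := by
        by_contra hc
        exact h' ⟨h, not_lt.mp hc⟩
      apply dens_flat hn2 p hp
      have ho : IsOpen {y : Eu n | R < rr p y} := isOpen_lt continuous_const (lc_rr_cont p)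
      filter_upwards [ho.mem_nhds hx] with y hy
      have hy' : R < rr p y := hy
      exact hfR y hy'.le
  have hle1 : (1 / 4 : ℝ) ^ L ≤ 1 := pow_le_one₀ (by norm_num) (by norm_num)
  have hs1 : ∫ x in lcSab p 1 R, dens (CM p f) x = c1 := by
    rw [hc1]
    apply setIntegral_congr_fun (lc_Sab_meas p _ _)
    rintro x ⟨_, h2, _⟩
    have hx : rr p x ≠ 0 := by
      intro h0
      rw [h0] at h2
      linarith
    exact dens_congr p hp (hos.contDiffAt ((lc_U p).mem_nhds hx)) (ho0 x) (hf1 x h2.le)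
  have hs2 : ∫ x in lcSab p ((1 / 4 : ℝ) ^ L) 1, dens (CM p f) x = L * w := by
    rw [hw, ← lc_W p hp Q0 hQ L]
    apply setIntegral_congr_fun (lc_Sab_meas p _ _)
    rintro x ⟨_, h2, h3⟩
    have hx : rr p x ≠ 0 := by
      intro h0
      rw [h0] at h2
      have : (0:ℝ) < (1 / 4 : ℝ) ^ L := by positivity
      linarith
    exact dens_congr p hp ((lc_inv_smooth p).contDiffAt ((lc_U p).mem_nhds hx))
      (lc_inv_pos p x hx) (hf2 x h2 h3)
  have hs3 : ∫ x in lcSle p ((1 / 4 : ℝ) ^ L), dens (CM p f) x = c2 := by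
    rw [hc2, ← dil_int p hp (2 ^ L) (by positivity) (dens (CM p fi)) (lcSle p 1), ← lc_pre_le]
    apply setIntegral_congr_fun (lc_Sle_closed p _).measurableSet
    rintro x ⟨_, h2⟩
    have hdl : ∀ x : Eu n, (fun i => (if i.val < p + 1 then (2:ℝ) ^ L else 1) * x i
        + (0 : Eu n) i) = dl p (2 ^ L) x := by
      intro x
      funext i
      unfold dl
      split_ifs
      · simp
      · simp
    have hdls : ContDiff ℝ ∞ (fun y : Eu n => dl p (2 ^ L) y) := by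
      rw [contDiff_pi]
      intro i
      unfold dl
      split_ifs
      · exact contDiff_const.mul (contDiff_apply ℝ ℝ i)
      · exact contDiff_apply ℝ ℝ i
    have hgs : ContDiff ℝ ∞ (fun y : Eu n => ((2 : ℝ) ^ L) ^ 2 * fi (dl p (2 ^ L) y)) :=
      contDiff_const.mul (his.comp hdls)
    have e1 := dens_congr p hp (hgs.contDiffAt (x := x))
      (mul_pos (by positivity) (hi0 _)) (hf3 x h2)
    have e2 := dens_aff p hp (fun i => if i.val < p + 1 then (2:ℝ) ^ L else 1) 0 (2 ^ L)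
      (by positivity) (fun i hi => if_pos hi)
      (fun i hi => by
        rw [if_neg (by omega)]
        norm_num) isOpen_univ isOpen_univ (fun x _ => Set.mem_univ _)
      (f := fi) (f' := fun y : Eu n => ((2 : ℝ) ^ L) ^ 2 * fi (dl p (2 ^ L) y))
      his.contDiffOn (fun x _ => hi0 x) (fun x _ => by rw [hdl]) x (Set.mem_univ x)
    rw [hdl] at e2
    exact e1.trans e2
  rw [hs0, lc_split p 1 R (by linarith) _ (hint R (by linarith)),
    lc_split p _ 1 hle1 _ (hint 1 zero_le_one), hs1, hs2, hs3]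
  linarith

end Pool.Agent.QTot.HD
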