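import Pool.Agent.QTot.Base2
import Pool.Agent.QTot.HA

set_option autoImplicit false
open scoped ContDiff Manifold Topology Matrix
open MeasureTheory Filter Set

namespace Pool.Agent.QTot.HE
open Pool.Agent.QTot
open Pool.Agent.QTot.HA (cm_det cm_symm cm_posDef cm_smooth cm_cyl dens_cont dens_aff dens_congr dens_flat)












/-! ## TARGET (prove this) -/

/- Idea for `cut_bound`: let `χ t = 1 - Real.smoothTransition t` (`1` for `t ≤ 0`, `0` for `t ≥ 1`) and
`F x = 1 + (∏_{i ≥ p+1} χ (x i)) (f x - 1)` (one-sided cut-off, smooth and positive on all of `ℝ^n`).  For given `x` and `N`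
let, for `i ≥ p+1`, `ε_i = 1` if `x i ≥ 0` and `-1` otherwise, and `b_i` such that `ε_i x_i + b_i = max (|x i| - N) (-1)`.  Near
`x`, `cutf p f N x' = F (fun i => if i < p+1 then x' i else ε_i x'_i + b_i)` (if `|x i| - N ≥ -1` then `b_i = -N` and the
factor is `χ (ε_i x'_i - N)`, equal to `χ (|x'_i| - N)` near `x` because `N ≥ 1`: where `x_i` is near `0` both are `1`;
if `|x i| - N < -1` both factors are `1` near `x`).
By `dens_aff` (`lam = 1`) `dens (CM p (cutf p f N)) x = dens (CM p F) x''` with `x''_i ∈ [-1, ∞)` for `i ≥ p + 1`.  If some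
`x''_i > 1` or `rr p x > R` the density is `0` (`dens_flat`), otherwise `x''` is in the compact set
`{rr p ≤ max R 0, x_i ∈ [-1,1] for i ≥ p+1}`, on which the continuous function `dens (CM p F)` is bounded. -/
theorem chi_split (t N : ℝ) (hN : 0 ≤ N) : 1 - Real.smoothTransition (|t| - N) =
    (1 - Real.smoothTransition (t - N)) * (1 - Real.smoothTransition (-t - N)) := by
  rcases le_total 0 t with h | h
  · rw [abs_of_nonneg h, Real.smoothTransition.zero_of_nonpos (x := -t - N) (by linarith), sub_zero,
      mul_one]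
  · rw [abs_of_nonpos h, Real.smoothTransition.zero_of_nonpos (x := t - N) (by linarith), sub_zero,
      one_mul]

theorem chi_smooth {n : ℕ} (c d : ℝ) (i : Fin n) :
    ContDiff ℝ ∞ (fun x : Eu n => 1 - Real.smoothTransition (c * x i - d)) := by
  have h1 : ContDiff ℝ ∞ (fun x : Eu n => c * x i - d) :=
    (contDiff_const.mul (contDiff_apply ℝ ℝ i)).sub contDiff_const
  exact contDiff_const.sub (Real.smoothTransition.contDiff.comp h1)

theorem cut_smooth {n : ℕ} (p : ℕ) {f : Eu n → ℝ} (hf : ContDiff ℝ ∞ f) (N : ℕ) (hN : 1 ≤ N) :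
    ContDiff ℝ ∞ (cutf p f N) := by
  have e : cutf p f N = fun x => 1 + (∏ i : Fin n, if i.val < p + 1 then 1 else
      (1 - Real.smoothTransition (1 * x i - N)) * (1 - Real.smoothTransition ((-1) * x i - N))) * (f x - 1) := by
    funext x
    unfold cutf
    congr 2
    apply Finset.prod_congr rfl
    intro i _
    split_ifs
    · rfl
    · rw [chi_split (x i) N (Nat.cast_nonneg N), one_mul, neg_one_mul]
  rw [e]
  apply contDiff_const.add
  apply ContDiff.mul
  · apply contDiff_prod
    intro i _
    split_ifs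
    · exact contDiff_const
    · exact (chi_smooth 1 N i).mul (chi_smooth (-1) N i)
  · exact hf.sub contDiff_const

theorem prod01 {n : ℕ} (p : ℕ) (g : Fin n → ℝ) (h0 : ∀ i, 0 ≤ g i) (h1 : ∀ i, g i ≤ 1) :
    0 ≤ (∏ i : Fin n, if i.val < p + 1 then 1 else g i) ∧
      (∏ i : Fin n, if i.val < p + 1 then 1 else g i) ≤ 1 := by
  have a0 : ∀ i : Fin n, 0 ≤ (if i.val < p + 1 then 1 else g i) := by
    intro i; split_ifs
    · exact zero_le_one
    · exact h0 i
  constructor
  · exact Finset.prod_nonneg fun i _ => a0 i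
  · apply Finset.prod_le_one (fun i _ => a0 i)
    intro i _
    split_ifs
    · exact le_rfl
    · exact h1 i

theorem chi01 (t : ℝ) : 0 ≤ 1 - Real.smoothTransition t ∧ 1 - Real.smoothTransition t ≤ 1 := by
  have h1 := Real.smoothTransition.le_one t
  have h2 := Real.smoothTransition.nonneg t
  constructor <;> linarith

theorem mix_pos {P f : ℝ} (h0 : 0 ≤ P) (h1 : P ≤ 1) (hf : 0 < f) : 0 < 1 + P * (f - 1) := by
  rcases h0.eq_or_lt with h | h
  · rw [← h]; norm_num
  · have : 0 < P * f := mul_pos h hf
    nlinarith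

theorem cut_pos {n : ℕ} (p : ℕ) {f : Eu n → ℝ} (hf : ∀ x, 0 < f x) (N : ℕ) (x : Eu n) : 0 < cutf p f N x := by
  unfold cutf
  obtain ⟨h0, h1⟩ := prod01 p (fun i => 1 - Real.smoothTransition (|x i| - N))
    (fun i => (chi01 _).1) (fun i => (chi01 _).2)
  exact mix_pos h0 h1 (hf x)

theorem cut_one {n : ℕ} (p : ℕ) {f : Eu n → ℝ} {R : ℝ} (hR : ∀ x, R ≤ rr p x → f x = 1) (N : ℕ) (x : Eu n)
    (hx : R ≤ rr p x ∨ ∃ i : Fin n, p + 1 ≤ i.val ∧ (N : ℝ) + 1 ≤ |x i|) : cutf p f N x = 1 := by
  unfold cutf
  rcases hx with h | ⟨i, hi, h⟩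
  · rw [hR x h, sub_self, mul_zero, add_zero]
  · rw [Finset.prod_eq_zero (i := i) (Finset.mem_univ i), zero_mul, add_zero]
    rw [if_neg (by omega), Real.smoothTransition.one_of_one_le (by linarith), sub_self]

theorem cut_main {n : ℕ} (p : ℕ) (f : Eu n → ℝ) (N : ℕ) (x : Eu n) (hx : ∀ i : Fin n, p + 1 ≤ i.val → |x i| < N) :
    cutf p f N =ᶠ[𝓝 x] f := by
  have h1 : ∀ᶠ y in 𝓝 x, ∀ i : Fin n, p + 1 ≤ i.val → |y i| < (N : ℝ) := by
    rw [Filter.eventually_all]
    intro i
    by_cases hi : p + 1 ≤ i.val
    · have hc : Continuous fun y : Eu n => |y i| := (continuous_apply i).abs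
      filter_upwards [(hc.tendsto x).eventually (gt_mem_nhds (hx i hi))] with y hy _
      exact hy
    · exact Eventually.of_forall fun y h => absurd h hi
  filter_upwards [h1] with y hy
  unfold cutf
  rw [Finset.prod_eq_one, one_mul]
  · ring
  · intro i _
    split_ifs with hi
    · rfl
    · rw [Real.smoothTransition.zero_of_nonpos, sub_zero]
      have := hy i (by omega)
      linarith

/-- the one-sided cut-off -/
noncomputable def Fos {n : ℕ} (p : ℕ) (f : Eu n → ℝ) (x : Eu n) : ℝ :=
  1 + (∏ i : Fin n, if i.val < p + 1 then 1 else (1 - Real.smoothTransition (x i))) * (f x - 1)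

theorem Fos_smooth {n : ℕ} (p : ℕ) {f : Eu n → ℝ} (hf : ContDiff ℝ ∞ f) : ContDiff ℝ ∞ (Fos p f) := by
  unfold Fos
  apply contDiff_const.add
  apply ContDiff.mul
  · apply contDiff_prod
    intro i _
    split_ifs
    · exact contDiff_const
    · exact contDiff_const.sub (Real.smoothTransition.contDiff.comp (contDiff_apply ℝ ℝ i))
  · exact hf.sub contDiff_const

theorem Fos_pos {n : ℕ} (p : ℕ) {f : Eu n → ℝ} (hf : ∀ x, 0 < f x) (x : Eu n) : 0 < Fos p f x := by
  unfold Fos
  obtain ⟨h0, h1⟩ := prod01 p (fun i => 1 - Real.smoothTransition (x i))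
    (fun i => (chi01 _).1) (fun i => (chi01 _).2)
  exact mix_pos h0 h1 (hf x)

theorem rr_cont {n : ℕ} (p : ℕ) : Continuous (rr p : Eu n → ℝ) := by
  unfold rr
  apply continuous_finsetSum
  intro i _
  split_ifs
  · exact (continuous_apply i).pow 2
  · exact continuous_const

theorem sq_le_rr {n : ℕ} (p : ℕ) (x : Eu n) (i : Fin n) (hi : i.val < p + 1) : x i ^ 2 ≤ rr p x := by
  unfold rr
  have h := Finset.single_le_sum (f := fun i : Fin n => if i.val < p + 1 then x i ^ 2 else 0)
    (fun j _ => by
      beta_reduce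
      split_ifs
      · positivity
      · exact le_rfl) (Finset.mem_univ i)
  beta_reduce at h
  rw [if_pos hi] at h
  exact h

/-- density of the one-sided cut-off is bounded on the half space -/
theorem Fos_bound {n : ℕ} (hn2 : 2 ≤ n) (p : ℕ) (hp : p + 1 ≤ n) {f : Eu n → ℝ} {R : ℝ} (hf0 : ∀ x, 0 < f x)
    (hf : ContDiff ℝ ∞ f) (hR : ∀ x, R ≤ rr p x → f x = 1) :
    ∃ C : ℝ, 0 < C ∧ ∀ x : Eu n, (∀ i : Fin n, p + 1 ≤ i.val → -1 ≤ x i) →
      |dens (CM p (Fos p f)) x| ≤ C := by
  have hcont : ContinuousOn (dens (CM p (Fos p f))) univ :=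
    dens_cont p hp isOpen_univ (Fos_smooth p hf).contDiffOn (fun x _ => Fos_pos p hf0 x)
  obtain ⟨B, hB⟩ : ∃ B, B = max (Real.sqrt (max R 0)) 1 := ⟨_, rfl⟩
  have hB1 : 1 ≤ B := by rw [hB]; exact le_max_right _ _
  have hB2 : max R 0 ≤ B ^ 2 := by
    have h1 : Real.sqrt (max R 0) ≤ B := by rw [hB]; exact le_max_left _ _
    calc max R 0 = Real.sqrt (max R 0) ^ 2 := (Real.sq_sqrt (le_max_right _ _)).symm
      _ ≤ B ^ 2 := pow_le_pow_left₀ (Real.sqrt_nonneg _) h1 2
  have hK : IsCompact (Icc (fun _ => -B) (fun _ => B) : Set (Eu n)) := isCompact_Icc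
  obtain ⟨C0, hC0⟩ := hK.exists_bound_of_continuousOn (hcont.mono (subset_univ _))
  refine ⟨max C0 1, lt_of_lt_of_le one_pos (le_max_right _ _), ?_⟩
  intro x hx
  by_cases hmem : x ∈ (Icc (fun _ => -B) (fun _ => B) : Set (Eu n))
  · have := hC0 x hmem
    rw [Real.norm_eq_abs] at this
    exact this.trans (le_max_left _ _)
  · have h1 : ∃ i : Fin n, B < |x i| := by
      by_contra hcon
      push Not at hcon
      apply hmem
      constructor
      · intro i; exact (abs_le.mp (hcon i)).1
      · intro i; exact (abs_le.mp (hcon i)).2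
    obtain ⟨i, hi⟩ := h1
    have hfl : ∀ᶠ y in 𝓝 x, Fos p f y = 1 := by
      by_cases hip : i.val < p + 1
      · have h2 : R < rr p x := by
          have h3 : B ^ 2 < |x i| ^ 2 := pow_lt_pow_left₀ hi (by linarith) (by norm_num)
          rw [sq_abs] at h3
          have h4 := sq_le_rr p x i hip
          have h5 : R ≤ max R 0 := le_max_left _ _
          linarith
        filter_upwards [((rr_cont p).tendsto x).eventually (lt_mem_nhds h2)] with y hy
        unfold Fos
        rw [hR y (le_of_lt hy), sub_self, mul_zero, add_zero]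
      · have h2 : 1 < x i := by
          have h3 := hx i (by omega)
          have h4 : 1 < |x i| := lt_of_le_of_lt hB1 hi
          rcases lt_abs.mp h4 with h5 | h5
          · exact h5
          · linarith
        filter_upwards [((continuous_apply i).tendsto x).eventually (lt_mem_nhds h2)] with y hy
        unfold Fos
        rw [Finset.prod_eq_zero (i := i) (Finset.mem_univ i), zero_mul, add_zero]
        rw [if_neg hip, Real.smoothTransition.one_of_one_le (le_of_lt hy), sub_self]
    rw [dens_flat hn2 p hp hfl, abs_zero]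
    exact le_trans zero_le_one (le_max_right _ _)

theorem cut_bound {n : ℕ} (hn2 : 2 ≤ n) (p : ℕ) (hp : p + 1 ≤ n) {f : Eu n → ℝ} {R : ℝ} (hf0 : ∀ x, 0 < f x) (hfy : Yonly p f)
    (hf : ContDiff ℝ ∞ f) (hR : ∀ x, R ≤ rr p x → f x = 1) :
    ∃ C : ℝ, 0 < C ∧ ∀ N : ℕ, 1 ≤ N → ∀ x : Eu n, |dens (CM p (cutf p f N)) x| ≤ C := by
  obtain ⟨C, hC0, hC⟩ := Fos_bound hn2 p hp hf0 hf hR
  refine ⟨C, hC0, ?_⟩
  intro N hN x
  have hN' : (1 : ℝ) ≤ N := by exact_mod_cast hN
  obtain ⟨d, hd⟩ : ∃ d : Eu n, ∀ i, d i = if i.val < p + 1 then 1 else if 0 ≤ x i then 1 else -1 :=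
    ⟨_, fun i => rfl⟩
  obtain ⟨b, hb⟩ : ∃ b : Eu n, ∀ i, b i = if i.val < p + 1 then 0 else max (|x i| - N) (-1) - |x i| :=
    ⟨_, fun i => rfl⟩
  have hdx : ∀ i : Fin n, ¬ i.val < p + 1 → d i * x i = |x i| := by
    intro i hi
    rw [hd, if_neg hi]
    split_ifs with h
    · rw [one_mul, abs_of_nonneg h]
    · rw [neg_one_mul, abs_of_neg (not_le.mp h)]
  have haff := dens_aff p hp d b 1 one_pos (fun i hi => by rw [hd, if_pos hi])
    (fun i hi => by
      rw [hd, if_neg (by omega)]
      split_ifs <;> norm_num)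
    isOpen_univ isOpen_univ (fun x _ => mem_univ _) (f := Fos p f)
    (f' := fun y => Fos p f (fun i => d i * y i + b i))
    (Fos_smooth p hf).contDiffOn (fun x _ => Fos_pos p hf0 x)
    (fun y _ => by rw [one_pow, one_mul]) x (mem_univ x)
  rw [one_pow, one_mul] at haff
  have hsm : ContDiff ℝ ∞ (fun y : Eu n => Fos p f (fun i => d i * y i + b i)) := by
    apply (Fos_smooth p hf).comp
    rw [contDiff_pi]
    intro i
    exact (contDiff_const.mul (contDiff_apply ℝ ℝ i)).add contDiff_const
  have hev : cutf p f N =ᶠ[𝓝 x] fun y => Fos p f (fun i => d i * y i + b i) := by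
    have h1 : ∀ᶠ y in 𝓝 x, ∀ i : Fin n, ¬ i.val < p + 1 →
        1 - Real.smoothTransition (|y i| - N) = 1 - Real.smoothTransition (d i * y i + b i) := by
      rw [Filter.eventually_all]
      intro i
      by_cases hi : i.val < p + 1
      · exact Eventually.of_forall fun y h => absurd hi h
      · have hc1 : Continuous fun y : Eu n => |y i| - N := (continuous_apply i).abs.sub continuous_const
        have hc2 : Continuous fun y : Eu n => d i * y i + b i :=
          (continuous_const.mul (continuous_apply i)).add continuous_const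
        by_cases hneg : |x i| - N < 0
        · have h2 : d i * x i + b i < 0 := by
            rw [hdx i hi, hb, if_neg hi]
            have : max (|x i| - N) (-1) < 0 := max_lt hneg (by norm_num)
            linarith
          filter_upwards [(hc1.tendsto x).eventually (gt_mem_nhds hneg),
            (hc2.tendsto x).eventually (gt_mem_nhds h2)] with y hy1 hy2 _
          rw [Real.smoothTransition.zero_of_nonpos (le_of_lt hy1),
            Real.smoothTransition.zero_of_nonpos (le_of_lt hy2)]
        · push Not at hneg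
          have hbi : b i = -N := by
            rw [hb, if_neg hi, max_eq_left (by linarith)]
            ring
          have hxi : x i ≠ 0 := by
            intro h0
            rw [h0, abs_zero] at hneg
            linarith
          have h3 : ∀ᶠ y : Eu n in 𝓝 x, d i * y i = |y i| := by
            rcases lt_or_gt_of_ne hxi with h | h
            · filter_upwards [((continuous_apply i).tendsto x).eventually (gt_mem_nhds h)] with y hy
              rw [hd, if_neg hi, if_neg (not_le.mpr h), neg_one_mul]
              exact (abs_of_neg hy).symm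
            · filter_upwards [((continuous_apply i).tendsto x).eventually (lt_mem_nhds h)] with y hy
              rw [hd, if_neg hi, if_pos h.le, one_mul]
              exact (abs_of_pos hy).symm
          filter_upwards [h3] with y hy _
          rw [hy, hbi, sub_eq_add_neg |y i|]
    filter_upwards [h1] with y hy
    unfold cutf Fos
    have e1 : f (fun i => d i * y i + b i) = f y := by
      apply hfy
      intro i hi
      beta_reduce
      rw [hd, hb, if_pos hi, if_pos hi, one_mul, add_zero]
    rw [e1]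
    congr 2
    apply Finset.prod_congr rfl
    intro i _
    split_ifs with hi
    · rfl
    · exact hy i hi
  rw [dens_congr p hp hsm.contDiffAt (Fos_pos p hf0 _) hev, haff]
  apply hC
  intro i hi
  have hi' : ¬ i.val < p + 1 := by omega
  beta_reduce
  rw [hdx i hi', hb, if_neg hi']
  have : -1 ≤ max (|x i| - N) (-1) := le_max_right _ _
  linarith

end Pool.Agent.QTot.HE
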