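import Pool.Agent.QTot.Base2
import Pool.Agent.QTot.HA
import Pool.Agent.QTot.HB
import Pool.Agent.QTot.HE

set_option autoImplicit false
open scoped ContDiff Manifold Topology Matrix
open MeasureTheory Filter Set

namespace Pool.Agent.QTot.HF
open Pool.Agent.QTot
open Pool.Agent.QTot.HA (cm_det cm_symm cm_posDef cm_smooth cm_cyl dens_cont dens_aff dens_congr dens_flat)
open Pool.Agent.QTot.HB (box_int)
open Pool.Agent.QTot.HE (cut_smooth cut_pos cut_one cut_main cut_bound)


















/-! ## TARGET (prove this) -/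

theorem exh_Yonly {n : ℕ} (p : ℕ) (hp : p + 1 ≤ n) {f : Eu n → ℝ} (hf0 : ∀ x, 0 < f x)
    (hfy : Yonly p f) (hf : ContDiff ℝ ∞ f) : Yonly p (dens (CM p f)) := by
  intro x x' hxx
  have h1 := dens_aff p hp (fun _ => 1) (fun i => if i.val < p + 1 then 0 else x' i - x i) 1
    one_pos (fun _ _ => rfl) (fun _ _ => by norm_num) isOpen_univ isOpen_univ
    (fun _ _ => mem_univ _) (f := f) (f' := f) hf.contDiffOn (fun x _ => hf0 x) (fun y _ => by
        rw [one_pow, one_mul]
        exact hfy _ _ (fun i hi => by simp [hi])) x (mem_univ _)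
  rw [one_pow, one_mul] at h1
  rw [h1]
  congr 1
  funext i
  by_cases hi : i.val < p + 1
  · simp [hi, hxx i hi]
  · simp [hi]

theorem exh_rr_cont {n : ℕ} (p : ℕ) : Continuous (rr (n := n) p) := by
  unfold rr
  refine continuous_finsetSum _ fun i _ => ?_
  by_cases hi : i.val < p + 1
  · simp only [hi, if_true]; fun_prop
  · simp only [hi, if_false]; exact continuous_const

theorem exh_rr_Yonly {n : ℕ} (p : ℕ) (x x' : Eu n) (h : ∀ i : Fin n, i.val < p + 1 → x i = x' i) :
    rr p x = rr p x' := by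
  unfold rr
  refine Finset.sum_congr rfl fun i _ => ?_
  by_cases hi : i.val < p + 1
  · rw [if_pos hi, if_pos hi, h i hi]
  · rw [if_neg hi, if_neg hi]

theorem exh_Zb_closed {n : ℕ} (p : ℕ) (a b : ℝ) : IsClosed (Zb (n := n) p a b) := by
  have : Zb (n := n) p a b = ⋂ i : Fin n, ⋂ _ : p + 1 ≤ i.val, {x | x i ∈ Set.Icc a b} := by
    ext x; simp [Zb]
  rw [this]
  refine isClosed_iInter fun i => isClosed_iInter fun _ => ?_
  exact isClosed_Icc.preimage (continuous_apply i)

theorem exh_rr_ge {n : ℕ} (p : ℕ) (x : Eu n) (i : Fin n) (hi : i.val < p + 1) :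
    x i ^ 2 ≤ rr p x := by
  unfold rr
  have h1 : (if i.val < p + 1 then x i ^ 2 else 0) ≤
      ∑ i : Fin n, if i.val < p + 1 then x i ^ 2 else 0 := by
    refine Finset.single_le_sum (f := fun i : Fin n => if i.val < p + 1 then x i ^ 2 else 0)
      (fun j _ => ?_) (Finset.mem_univ i)
    show 0 ≤ if j.val < p + 1 then x j ^ 2 else 0
    split_ifs
    · positivity
    · exact le_rfl
  rwa [if_pos hi] at h1

theorem exh_far {n : ℕ} (p : ℕ) (R : ℝ) (N : ℕ) (x : Eu n) (hx : (N : ℝ) + 1 + |R| ≤ ‖x‖) :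
    R ≤ rr p x ∨ ∃ i : Fin n, p + 1 ≤ i.val ∧ (N : ℝ) + 1 ≤ |x i| := by
  have hpos : 0 < (N : ℝ) + 1 + |R| := by positivity
  have hex : ∃ i : Fin n, (N : ℝ) + 1 + |R| ≤ |x i| := by
    by_contra hc
    push Not at hc
    have : ‖x‖ < (N : ℝ) + 1 + |R| := by
      rw [pi_norm_lt_iff hpos]
      intro i
      rw [Real.norm_eq_abs]
      exact hc i
    linarith
  obtain ⟨i, hi⟩ := hex
  by_cases hip : i.val < p + 1
  · left
    have h1 := exh_rr_ge p x i hip
    have h2 : R ≤ |x i| := by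
      have := le_abs_self R
      have hN0 : (0 : ℝ) ≤ N := Nat.cast_nonneg N
      linarith
    have h3 : 1 ≤ |x i| := by
      have := abs_nonneg R
      have hN0 : (0 : ℝ) ≤ N := Nat.cast_nonneg N
      linarith
    have h4 : |x i| ≤ x i ^ 2 := by
      rw [← sq_abs]
      nlinarith
    linarith
  · right
    refine ⟨i, by omega, ?_⟩
    have := abs_nonneg R
    linarith

theorem exh_zero {n : ℕ} (hn2 : 2 ≤ n) (p : ℕ) (hp : p + 1 ≤ n) {f : Eu n → ℝ} {R : ℝ}
    (hR : ∀ x, R ≤ rr p x → f x = 1) (N : ℕ) (x : Eu n)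
    (hx : R < rr p x ∨ ∃ i : Fin n, p + 1 ≤ i.val ∧ (N : ℝ) + 1 < |x i|) :
    dens (CM p (cutf p f N)) x = 0 := by
  apply dens_flat hn2 p hp
  rcases hx with hx | ⟨i, hi, hx⟩
  · have h1 : ∀ᶠ y in 𝓝 x, R < rr p y :=
      (exh_rr_cont p).continuousAt.eventually (lt_mem_nhds hx)
    filter_upwards [h1] with y hy
    exact cut_one p hR N y (Or.inl hy.le)
  · have h1 : ∀ᶠ y in 𝓝 x, (N : ℝ) + 1 < |y i| :=
      ((continuous_apply i).abs.continuousAt (x := x)).eventually (lt_mem_nhds hx)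
    filter_upwards [h1] with y hy
    exact cut_one p hR N y (Or.inr ⟨i, hi, hy.le⟩)

/- Idea: `h = CM p (cutf p f N)` with `N` large.  With `d = n - (p+1)` and `T = ∫ x in Zb p 0 1, dens (CM p f) x`: `dens (CM p f)` only
depends on the first `p+1` coordinates (`dens_aff` with `lam = 1`, `d = 1`, `b` a translation of the last coordinates),
so the integral of `dens h` over `{|x_i| < N for i ≥ p+1}` is `(2N)^d T`
(`cut_main`, `box_int`; the set differs from `Zb p (-N) N` by a null set).  Outside `{rr p ≤ R, |x_i| ≤ N+1}` the density is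
`0` (`cut_one`, `dens_flat`), and on the rest it is `≥ -C`; the volume of the rest is `V ((2N+2)^d - (2N)^d)` with
`V = ∫ x in Zb p 0 1, indicator {rr p ≤ R}` (`box_int` for the indicator).  So `∫ dens h ≥ (2N)^d T - C V ((2N+2)^d - (2N)^d) > 0`
for `N` large. -/
theorem exists_h {n : ℕ} (hn2 : 2 ≤ n) (p : ℕ) (hp : p + 1 ≤ n) {f : Eu n → ℝ} {R : ℝ} (hf0 : ∀ x, 0 < f x) (hfy : Yonly p f)
    (hf : ContDiff ℝ ∞ f) (hR : ∀ x, R ≤ rr p x → f x = 1) (hT : 0 < ∫ x in Zb p 0 1, dens (CM p f) x) :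
    ∃ (h : Eu n → Mt n) (R' : ℝ), (∀ i j, ContDiff ℝ ∞ (fun x => h x i j)) ∧ (∀ x, (h x).PosDef) ∧
      (∀ x, R' ≤ ‖x‖ → h x = 1) ∧ 0 < ∫ x, dens h x := by
  classical
  obtain ⟨C, hC0, hC⟩ := cut_bound hn2 p hp hf0 hfy hf hR
  set T : ℝ := ∫ x in Zb p 0 1, dens (CM p f) x with hTdef
  set χ : Eu n → ℝ := Set.indicator {x | rr p x ≤ R} (fun _ => (1 : ℝ)) with hχ
  have hχmeas : MeasurableSet {x : Eu n | rr p x ≤ R} :=
    (isClosed_le (exh_rr_cont p) continuous_const).measurableSet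
  have hχY : Yonly p χ := by
    intro x x' hxx
    have h1 := exh_rr_Yonly p x x' hxx
    by_cases hx : rr p x ≤ R
    · rw [hχ, Set.indicator_of_mem (show x ∈ {x | rr p x ≤ R} from hx),
        Set.indicator_of_mem (show x' ∈ {x | rr p x ≤ R} from (by
          show rr p x' ≤ R
          rw [← h1]; exact hx))]
    · rw [hχ, Set.indicator_of_notMem (show x ∉ {x | rr p x ≤ R} from hx),
        Set.indicator_of_notMem (show x' ∉ {x | rr p x ≤ R} from (by
          show ¬ rr p x' ≤ R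
          rw [← h1]; exact hx))]
  have hχ1 : ∀ x, rr p x ≤ R → χ x = 1 := fun x hx => Set.indicator_of_mem (show x ∈ _ from hx) _
  have hχ0 : ∀ x, 0 ≤ χ x := fun x => Set.indicator_nonneg (fun _ _ => zero_le_one) x
  set V : ℝ := ∫ x in Zb p 0 1, χ x with hV
  obtain ⟨M, hM, hM1⟩ : ∃ M : ℕ, 0 < T - C * V * ((1 + 2 / (M : ℝ)) ^ (n - (p + 1)) - 1) ∧
      1 ≤ M := by
    have h1 : Tendsto (fun M : ℕ => 2 / (M : ℝ)) atTop (𝓝 0) :=
      tendsto_const_div_atTop_nhds_zero_nat 2
    have hlim : Tendsto (fun M : ℕ => T - C * V * ((1 + 2 / (M : ℝ)) ^ (n - (p + 1)) - 1)) atTop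
        (𝓝 (T - C * V * ((1 + 0) ^ (n - (p + 1)) - 1))) :=
      (((h1.const_add 1).pow _).sub_const 1).const_mul (C * V) |>.const_sub T
    have h2 : (0 : ℝ) < T - C * V * ((1 + 0) ^ (n - (p + 1)) - 1) := by
      rw [add_zero, one_pow, sub_self, mul_zero, sub_zero]
      exact hT
    exact ((hlim.eventually (lt_mem_nhds h2)).and (eventually_ge_atTop 1)).exists
  have hMR : (0 : ℝ) < M := by exact_mod_cast hM1
  set N : ℕ := M + 1 with hNdef
  have hN1 : 1 ≤ N := by omega
  have hNR : (N : ℝ) = M + 1 := by rw [hNdef]; push_cast; ring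
  have hcs : ContDiff ℝ ∞ (cutf p f N) := cut_smooth p hf N hN1
  have hfar : ∀ x : Eu n, (N : ℝ) + 1 + |R| ≤ ‖x‖ → cutf p f N x = 1 := fun x hx =>
    cut_one p hR N x (exh_far p R N x hx)
  refine ⟨CM p (cutf p f N), (N : ℝ) + 1 + |R|, fun i j => ?_, fun x => ?_, fun x hx => ?_, ?_⟩
  · rw [← contDiffOn_univ]
    exact cm_smooth p hcs.contDiffOn i j
  · exact cm_posDef p _ x (cut_pos p hf0 N x)
  · unfold CM
    rw [hfar x hx]
    simp
  -- the integral
  set gN : Eu n → ℝ := dens (CM p (cutf p f N)) with hgN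
  have hgc : Continuous gN := by
    rw [← continuousOn_univ]
    exact dens_cont p hp isOpen_univ hcs.contDiffOn (fun x _ => cut_pos p hf0 N x)
  have hgcs : HasCompactSupport gN := by
    refine HasCompactSupport.of_support_subset_isCompact
      (isCompact_closedBall (0 : Eu n) ((N : ℝ) + 1 + |R|)) ?_
    intro x hx
    by_contra hc
    rw [Metric.mem_closedBall, dist_zero_right, not_le] at hc
    apply hx
    apply dens_flat hn2 p hp
    have h1 : ∀ᶠ y in 𝓝 x, (N : ℝ) + 1 + |R| < ‖y‖ :=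
      continuous_norm.continuousAt.eventually (lt_mem_nhds hc)
    filter_upwards [h1] with y hy
    exact hfar y hy.le
  have hgi : Integrable gN := hgc.integrable_of_hasCompactSupport hgcs
  have hZc : ∀ a b : ℝ, MeasurableSet (Zb (n := n) p a b) := fun a b =>
    (exh_Zb_closed p a b).measurableSet
  set B : Set (Eu n) := Zb p (-((N : ℝ) + 1)) ((N : ℝ) + 1) with hB
  set A : Set (Eu n) := Zb p (-(M : ℝ)) (M : ℝ) with hA
  have hAB : A ⊆ B := by
    intro x hx i hi
    have := hx i hi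
    rw [Set.mem_Icc] at this ⊢
    constructor <;> linarith [this.1, this.2]
  have hχB : IntegrableOn χ B := by
    rw [hχ, IntegrableOn, integrable_indicator_iff hχmeas]
    refine integrableOn_const (ne_of_lt ?_)
    rw [Measure.restrict_apply hχmeas]
    refine lt_of_le_of_lt (measure_mono (t := Metric.closedBall (0 : Eu n)
      ((N : ℝ) + 1 + |R|)) ?_) (isCompact_closedBall _ _).measure_lt_top
    rintro x ⟨hx1, hx2⟩
    have hx1' : rr p x ≤ R := hx1
    have hN0 : (0 : ℝ) ≤ N := Nat.cast_nonneg N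
    have hR0 := abs_nonneg R
    rw [Metric.mem_closedBall, dist_zero_right, pi_norm_le_iff_of_nonneg (by positivity)]
    intro i
    rw [Real.norm_eq_abs]
    by_cases hip : i.val < p + 1
    · have h1 := exh_rr_ge p x i hip
      have h2 := le_abs_self R
      by_contra hc
      push Not at hc
      have h3 : |x i| ^ 2 = x i ^ 2 := sq_abs _
      nlinarith
    · have h1 := abs_le.2 (hx2 i (by omega))
      linarith
  have hzero : ∀ x, x ∉ B → gN x = 0 := by
    intro x hx
    refine exh_zero hn2 p hp hR N x (Or.inr ?_)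
    by_contra hc
    push Not at hc
    apply hx
    intro i hi
    exact abs_le.1 (hc i hi)
  have hφ : ∀ x, 0 ≤ gN x + C * χ x := by
    intro x
    by_cases hx : rr p x ≤ R
    · rw [hχ1 x hx]
      have := (abs_le.1 (hC N hN1 x)).1
      linarith
    · rw [show gN x = 0 from exh_zero hn2 p hp hR N x (Or.inl (not_le.1 hx))]
      have := hχ0 x
      positivity
  have hgA : ∀ x ∈ A, gN x = dens (CM p f) x := by
    intro x hx
    refine dens_congr p hp hf.contDiffAt (hf0 x) (cut_main p f N x fun i hi => ?_)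
    have h1 := hx i hi
    rw [hNR]
    have h2 : |x i| ≤ M := abs_le.2 h1
    linarith
  have hint : ∫ x in A, (gN x + C * χ x) ≤ ∫ x in B, (gN x + C * χ x) := by
    refine setIntegral_mono_set ?_ (Filter.Eventually.of_forall hφ) (hAB.eventuallyLE)
    exact hgi.integrableOn.add (hχB.const_mul C)
  have e1 : ∫ x in B, (gN x + C * χ x) = (∫ x, gN x) + C * ((2 * M + 4) ^ (n - (p + 1)) * V) := by
    rw [integral_add hgi.integrableOn (hχB.const_mul C), integral_const_mul,
      setIntegral_eq_integral_of_forall_compl_eq_zero hzero, hB,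
      box_int p hp χ hχY _ _ (by linarith)]
    rw [show (N : ℝ) + 1 - -((N : ℝ) + 1) = 2 * M + 4 by rw [hNR]; ring]
  have e2 : ∫ x in A, (gN x + C * χ x) = (2 * M) ^ (n - (p + 1)) * T +
      C * ((2 * M) ^ (n - (p + 1)) * V) := by
    rw [integral_add hgi.integrableOn ((hχB.mono_set hAB).const_mul C), integral_const_mul,
      setIntegral_congr_fun (hZc _ _) hgA, hA,
      box_int p hp χ hχY _ _ (by linarith),
      box_int p hp _ (exh_Yonly p hp hf0 hfy hf) _ _ (by linarith)]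
    rw [show (M : ℝ) - -(M : ℝ) = 2 * M by ring]
  rw [e1, e2] at hint
  have e3 : ((2 : ℝ) * M + 4) ^ (n - (p + 1)) = (2 * M) ^ (n - (p + 1)) *
      (1 + 2 / (M : ℝ)) ^ (n - (p + 1)) := by
    rw [← mul_pow]
    congr 1
    field_simp
    ring
  rw [e3] at hint
  have hpw : (0 : ℝ) < (2 * M) ^ (n - (p + 1)) := by positivity
  have e4 := mul_pos hpw hM
  have e5 : (2 * (M : ℝ)) ^ (n - (p + 1)) * (T - C * V * ((1 + 2 / (M : ℝ)) ^ (n - (p + 1)) - 1)) =
      (2 * M) ^ (n - (p + 1)) * T + C * ((2 * M) ^ (n - (p + 1)) * V) -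
      C * ((2 * M) ^ (n - (p + 1)) * (1 + 2 / (M : ℝ)) ^ (n - (p + 1)) * V) := by ring
  rw [e5] at e4
  linarith

end Pool.Agent.QTot.HF
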