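import Pool.Agent.QTot.Base2
import Pool.Agent.QTot.R4
import Pool.Agent.QTot.R2

set_option autoImplicit false
open scoped ContDiff Manifold Topology Matrix
open MeasureTheory Filter Set

namespace Pool.Agent.QTot.HOM
open Pool.Agent.QTot
open Pool.Agent.QTot.R4 (amb_zero amb_smooth)
open Pool.Agent.QTot.R2 (smf_uu)






/-! ## TARGET (prove this) -/


lemma hom_pd {n : ℕ} (i : Fin n) (c : ℝ) (f : Eu n → ℝ) (x : Eu n) :
    pd i (fun y => c * f y) x = c * pd i f x := by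
  unfold pd
  have h : (fun y => c * f y) = c • f := rfl
  rw [h, fderiv_const_smul_field]
  rfl

lemma hom_pd' {n : ℕ} (i : Fin n) (c : ℝ) (f : Eu n → ℝ) :
    pd i (fun y => c * f y) = fun x => c * pd i f x := funext fun x => hom_pd i c f x

lemma hom_inv {n : ℕ} {c : ℝ} (hc : c ≠ 0) (M : Mt n) : (c • M)⁻¹ = c⁻¹ • M⁻¹ := by
  by_cases h : IsUnit M.det
  · have := Matrix.inv_smul' (A := M) (Units.mk0 c hc) h
    simpa [Units.smul_def] using this
  · have h2 : ¬ IsUnit (c • M).det := by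
      rw [Matrix.det_smul]
      intro h3
      exact h (isUnit_of_mul_isUnit_right h3)
    rw [Matrix.nonsing_inv_apply_not_isUnit _ h, Matrix.nonsing_inv_apply_not_isUnit _ h2, smul_zero]

lemma hom_Gam {n : ℕ} {c : ℝ} (hc : c ≠ 0) (G : Eu n → Mt n) (k i j : Fin n) :
    Gam (fun y => c • G y) k i j = Gam G k i j := by
  funext x
  unfold Gam
  rw [hom_inv hc]
  congr 1
  refine Finset.sum_congr rfl fun l _ => ?_
  simp only [Matrix.smul_apply, smul_eq_mul]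
  rw [hom_pd, hom_pd, hom_pd]
  field_simp

lemma hom_Ric {n : ℕ} {c : ℝ} (hc : c ≠ 0) (G : Eu n → Mt n) (x : Eu n) :
    Ric (fun y => c • G y) x = Ric G x := by
  unfold Ric
  simp only [hom_Gam hc]

/-- rescaled family -/
noncomputable def rs {n : ℕ} (c : ℝ) (P : ℝ → Eu n → Mt n) : ℝ → Eu n → Mt n :=
  fun r x => c • P (c⁻¹ * r) x

lemma hom_deriv (c : ℝ) (f : ℝ → ℝ) (r : ℝ) : deriv (fun s => f (c * s)) r = c * deriv f (c * r) := by
  have := deriv_comp_mul_left c f r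
  simpa using this

lemma hom_dr {n : ℕ} {c : ℝ} (hc : c ≠ 0) (P : ℝ → Eu n → Mt n) (r : ℝ) (x : Eu n) :
    dr (rs c P) r x = dr P (c⁻¹ * r) x := by
  ext i j
  simp only [dr, rs, Matrix.of_apply, Matrix.smul_apply, smul_eq_mul]
  rw [deriv_const_mul_field, hom_deriv c⁻¹ (fun s => P s x i j) r]
  field_simp

lemma hom_drdr {n : ℕ} {c : ℝ} (hc : c ≠ 0) (P : ℝ → Eu n → Mt n) (r : ℝ) (x : Eu n) :
    dr (dr (rs c P)) r x = c⁻¹ • dr (dr P) (c⁻¹ * r) x := by
  ext i j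
  have h : dr (dr (rs c P)) r x i j = deriv (fun s => dr (rs c P) s x i j) r := rfl
  rw [h]
  simp only [hom_dr hc]
  rw [hom_deriv c⁻¹ (fun s => dr P s x i j) r]
  rfl

lemma hom_tau {n : ℕ} {c : ℝ} (hc : c ≠ 0) (P : ℝ → Eu n → Mt n) (r : ℝ) (x : Eu n) :
    tau (rs c P) r x = c⁻¹ * tau P (c⁻¹ * r) x := by
  unfold tau
  rw [hom_dr hc]
  have h : rs c P r x = c • P (c⁻¹ * r) x := rfl
  rw [h, hom_inv hc, Matrix.smul_mul, Matrix.trace_smul, smul_eq_mul]

lemma hom_EFG {n : ℕ} {c : ℝ} (hc : c ≠ 0) (P : ℝ → Eu n → Mt n) (r : ℝ) (x : Eu n) :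
    EFG (rs c P) r x = EFG P (c⁻¹ * r) x := by
  unfold EFG
  have hR : Ric (rs c P r) x = Ric (P (c⁻¹ * r)) x := hom_Ric hc (P (c⁻¹ * r)) x
  have h : rs c P r x = c • P (c⁻¹ * r) x := rfl
  rw [hR, hom_drdr hc, hom_dr hc, hom_tau hc, h, hom_inv hc]
  simp only [Matrix.mul_smul, Matrix.smul_mul, smul_smul]
  congr 1
  congr 1
  · congr 1
    congr 1
    · congr 1
      · rw [mul_comm]
      · rw [mul_comm]
    · congr 1
      ring
  · congr 1
    field_simp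

lemma hom_iter (c : ℝ) (f : ℝ → ℝ) (k : ℕ) :
    iteratedDeriv k (fun s => f (c * s)) = fun s => c ^ k * iteratedDeriv k f (c * s) := by
  induction k with
  | zero => simp
  | succ k ih =>
    rw [iteratedDeriv_succ, ih]
    funext s
    rw [deriv_const_mul_field, hom_deriv c (iteratedDeriv k f) s, iteratedDeriv_succ]
    ring

lemma hom_cf (c : ℝ) (f : ℝ → ℝ) (k : ℕ) : cf k (fun s => f (c * s)) = c ^ k * cf k f := by
  unfold cf
  rw [hom_iter]
  simp only [mul_zero]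
  ring

lemma hom_res {n : ℕ} {c : ℝ} (hc : c ≠ 0) (P : ℝ → Eu n → Mt n) (k : ℕ) (x : Eu n) :
    res (rs c P) k x = (c⁻¹) ^ k • res P k x := by
  ext i j
  simp only [res, Matrix.of_apply, Matrix.smul_apply, smul_eq_mul, hom_EFG hc]
  exact hom_cf c⁻¹ (fun r => EFG P r x i j) k

lemma hom_nxt {n : ℕ} {c : ℝ} (hc : c ≠ 0) (G : Eu n → Mt n) (P : ℝ → Eu n → Mt n) (k : ℕ) (x : Eu n) :
    nxt (fun y => c • G y) (rs c P) k x = (c⁻¹) ^ k • nxt G P k x := by
  have ht : ((c • G x)⁻¹ * res (rs c P) k x).trace = (c⁻¹) ^ (k + 1) * ((G x)⁻¹ * res P k x).trace := by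
    rw [hom_inv hc, hom_res hc]
    simp only [Matrix.mul_smul, Matrix.smul_mul, Matrix.trace_smul, smul_eq_mul]
    ring
  unfold nxt
  simp only [ht]
  split_ifs
  · rw [hom_res hc, smul_smul, smul_comm ((c⁻¹) ^ k), smul_sub ((c⁻¹) ^ k), smul_smul ((c⁻¹) ^ k)]
    congr 3
    rw [pow_succ]
    field_simp
  · rw [smul_smul, smul_smul]
    congr 1
    rw [pow_succ]
    field_simp

lemma hom_amb {n : ℕ} {c : ℝ} (hc : c ≠ 0) (G : Eu n → Mt n) (k : ℕ) :
    amb (fun y => c • G y) k = rs c (amb G k) := by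
  induction k with
  | zero => rfl
  | succ k ih =>
    funext r x
    have h1 : amb (fun y => c • G y) (k + 1) r x = amb (fun y => c • G y) k r x +
      r ^ (k + 1) • nxt (fun y => c • G y) (amb (fun y => c • G y) k) k x := rfl
    have h2 : rs c (amb G (k + 1)) r x = c • (amb G k (c⁻¹ * r) x +
      (c⁻¹ * r) ^ (k + 1) • nxt G (amb G k) k x) := rfl
    rw [h1, h2, ih, hom_nxt hc, smul_add, smul_smul, smul_smul]
    have h3 : rs c (amb G k) r x = c • amb G k (c⁻¹ * r) x := rfl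
    rw [h3]
    congr 2
    rw [mul_pow, pow_succ (c⁻¹)]
    field_simp

lemma hom_Lap {n : ℕ} {c : ℝ} (hc : c ≠ 0) (a : ℝ) (G : Eu n → Mt n) (f : Eu n → ℝ) (x : Eu n) :
    Lap (fun y => c • G y) (fun y => a * f y) x = c⁻¹ * a * Lap G f x := by
  unfold Lap
  rw [Finset.mul_sum]
  refine Finset.sum_congr rfl fun i _ => ?_
  rw [Finset.mul_sum]
  refine Finset.sum_congr rfl fun j _ => ?_
  rw [hom_inv hc, hom_pd', hom_pd]
  simp only [hom_Gam hc, hom_pd, Matrix.smul_apply, smul_eq_mul]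
  have : ∑ k, Gam G k i j x * (a * pd k f x) = a * ∑ k, Gam G k i j x * pd k f x := by
    rw [Finset.mul_sum]
    exact Finset.sum_congr rfl fun k _ => by ring
  rw [this]
  ring

lemma hom_uu {n : ℕ} {c : ℝ} (hc : c ≠ 0) (P : ℝ → Eu n → Mt n) (k : ℕ) :
    uu (rs c P) k = fun r x => (c⁻¹) ^ (k + 1) * uu P k (c⁻¹ * r) x := by
  induction k with
  | zero =>
    funext r x
    have h1 : uu (rs c P) 0 r x = tau (rs c P) r x / 2 := rfl
    have h2 : uu P 0 (c⁻¹ * r) x = tau P (c⁻¹ * r) x / 2 := rfl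
    rw [h1, hom_tau hc, h2]
    ring
  | succ k ih =>
    funext r x
    have h1 : uu (rs c P) (k + 1) r x = Dw (rs c P) (-2 * ((k : ℝ) + 1)) (uu (rs c P) k) r x := rfl
    have h2 : uu P (k + 1) (c⁻¹ * r) x = Dw P (-2 * ((k : ℝ) + 1)) (uu P k) (c⁻¹ * r) x := rfl
    rw [h1, h2, ih]
    unfold Dw
    have hd1 : (fun r => deriv (fun s => (c⁻¹) ^ (k + 1) * uu P k (c⁻¹ * s) x) r) =
        fun r => (c⁻¹) ^ (k + 1) * (c⁻¹ * deriv (fun s => uu P k s x) (c⁻¹ * r)) := by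
      funext r
      rw [deriv_const_mul_field, hom_deriv c⁻¹ (fun s => uu P k s x) r]
    have hd2 : deriv (deriv (fun s => (c⁻¹) ^ (k + 1) * uu P k (c⁻¹ * s) x)) r =
        (c⁻¹) ^ (k + 1) * (c⁻¹ * (c⁻¹ * deriv (deriv (fun s => uu P k s x)) (c⁻¹ * r))) := by
      have : deriv (fun s => (c⁻¹) ^ (k + 1) * uu P k (c⁻¹ * s) x) =
          fun r => (c⁻¹) ^ (k + 1) * (c⁻¹ * deriv (fun s => uu P k s x) (c⁻¹ * r)) := hd1
      rw [this, deriv_const_mul_field, deriv_const_mul_field,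
        hom_deriv c⁻¹ (deriv fun s => uu P k s x) r]
    have hL : Lap (rs c P r) (fun x => (c⁻¹) ^ (k + 1) * uu P k (c⁻¹ * r) x) x =
        c⁻¹ * (c⁻¹) ^ (k + 1) * Lap (P (c⁻¹ * r)) (uu P k (c⁻¹ * r)) x :=
      hom_Lap hc _ (P (c⁻¹ * r)) (uu P k (c⁻¹ * r)) x
    have hd1' := congrFun hd1 r

    rw [hd1', hd2, hL, hom_tau hc]
    ring

/- Idea: by induction on `k`, `amb (fun y => c • G y) k r x = c • amb G k (r / c) x` for `x ∈ U` (all `r`): if
`Pt r x = c • P (r / c) x` then `dr Pt r x = dr P (r/c) x`, `tau Pt r x = (1/c) tau P (r/c) x`, `Ric (Pt r) x = Ric (P (r/c)) x`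
(`Gam` is unchanged by a constant factor), so `EFG Pt r x = EFG P (r/c) x`, so the `k`-th coefficient gets the factor
`(1/c)^k` (`iteratedDeriv` of `f (r / c)`).  Similarly `uu Pt k r x = (1/c)^(k+1) * uu P k (r/c) x` (for a two-variable
version: `Lap (c • g) f = (1/c) Lap g f`).  The identities for `EFG` and `Dw` hold at all points where things are defined
by `deriv`/`fderiv` (no smoothness needed for most of them, because `deriv (fun s => f (s / c)) = (1/c) * deriv f (s/c)`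
always holds). -/
theorem q_homog {n : ℕ} (hn : Even n) (hn2 : 2 ≤ n) {U : Set (Eu n)} (hU : IsOpen U) {G : Eu n → Mt n}
    (hG : ∀ i j, ContDiffOn ℝ ∞ (fun x => G x i j) U) (hd : ∀ x ∈ U, (G x).det ≠ 0) (c : ℝ) (hc : 0 < c) :
    ∀ x ∈ U, Qloc (fun y => c • G y) x = (c ^ (n / 2))⁻¹ * Qloc G x   := by
  intro x _
  have hc0 : c ≠ 0 := hc.ne'
  unfold Qloc
  rw [hom_amb hc0, hom_uu hc0]
  have hn' : n / 2 - 1 + 1 = n / 2 := by omega
  simp only [hn', mul_zero]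
  rw [inv_pow]
  ring

end Pool.Agent.QTot.HOM
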