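import Pool.Agent.QTot.Base2
import Pool.Agent.QTot.C11
import Pool.Agent.QTot.HD
import Pool.Agent.QTot.HF

set_option autoImplicit false
open scoped ContDiff Manifold Topology Matrix
open MeasureTheory Filter Set

namespace Pool.Agent.QTot.HX
open Pool.Agent.QTot
open Pool.Agent.QTot.C11 (cyl_pos)
open Pool.Agent.QTot.HD (long_cyl)
open Pool.Agent.QTot.HF (exists_h)

theorem h_ex {n : ℕ} (hn : Even n) (h6 : 6 ≤ n) :
    ∃ (h : Eu n → Mt n) (R : ℝ), (∀ i j, ContDiff ℝ ∞ (fun x => h x i j)) ∧ (∀ x, (h x).PosDef) ∧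
      (∀ x, R ≤ ‖x‖ → h x = 1) ∧ 0 < ∫ x, dens h x := by
  obtain ⟨p, hp2, hpn, -, Q0, hQ0, hQ⟩ := cyl_pos n hn h6
  obtain ⟨f, R, hf0, hfy, hf, hR, hT⟩ := long_cyl (by omega) p (by omega) Q0 hQ0 hQ
  exact exists_h (by omega) p (by omega) hf0 hfy hf hR hT

end Pool.Agent.QTot.HX
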