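import Pool.Agent.QTot.Base2

set_option autoImplicit false
open scoped ContDiff Manifold Topology Matrix
open MeasureTheory Filter Set

namespace Pool.Agent.QTot.MA
open Pool.Agent.QTot


/-! ## TARGET (prove this) -/

theorem jac_of_hasFDerivAt {n : ℕ} {φ : Eu n → Eu n} {L : Eu n →L[ℝ] Eu n} {x : Eu n}
    (h : HasFDerivAt φ L x) : Jac φ x = LinearMap.toMatrix' (L : Eu n →ₗ[ℝ] Eu n) := by
  ext a i
  have h1 : HasFDerivAt (fun y => φ y a) ((ContinuousLinearMap.proj a).comp L) x :=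
    (hasFDerivAt_pi'.1 h) a
  show pd i (fun y => φ y a) x = _
  unfold pd
  rw [h1.fderiv, LinearMap.toMatrix'_apply]
  rfl

/- Charts.  `trn e e' = e' ∘ e.symm`; smoothness from `HasGroupoid.compatible` / `contDiffGroupoid` (with the model
`𝓘(ℝ, Eu n)` membership in `contDiffGroupoid ∞ I` is `ContDiffOn ℝ ∞ (e'∘e.symm)`), `Jac φ x` is the matrix of `fderiv ℝ φ x`. -/
theorem cdom_open {n : ℕ} {M : Type} [TopologicalSpace M] (e e' : OpenPartialHomeomorph M (Eu n)) : IsOpen (cdom e e') := by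
  exact e.isOpen_inter_preimage_symm e'.open_source

theorem trn_smooth {n : ℕ} {M : Type} [TopologicalSpace M] [ChartedSpace (Eu n) M] [IsManifold (modelWithCornersSelf ℝ (Eu n)) ∞ M]
    {e e' : OpenPartialHomeomorph M (Eu n)} (he : e ∈ atlas (Eu n) M) (he' : e' ∈ atlas (Eu n) M) :
    ContDiffOn ℝ ∞ (trn e e') (cdom e e') := by
  have h := HasGroupoid.compatible (G := contDiffGroupoid ∞ (modelWithCornersSelf ℝ (Eu n))) he he'
  have h1 := contMDiffOn_of_mem_contDiffGroupoid h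
  rw [contMDiffOn_iff_contDiffOn] at h1
  exact h1

theorem trn_mem {n : ℕ} {M : Type} [TopologicalSpace M] {e e' : OpenPartialHomeomorph M (Eu n)} {y : Eu n} (hy : y ∈ cdom e e') :
    trn e e' y ∈ cdom e' e ∧ e'.symm (trn e e' y) = e.symm y ∧ trn e' e (trn e e' y) = y := by
  obtain ⟨h1, h2⟩ := hy
  have h3 : e'.symm (trn e e' y) = e.symm y := e'.left_inv h2
  refine ⟨⟨e'.map_source h2, ?_⟩, h3, ?_⟩
  · rw [h3]
    exact e.map_target h1
  · show e (e'.symm (trn e e' y)) = y
    rw [h3, e.right_inv h1]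

theorem jac_self {n : ℕ} {M : Type} [TopologicalSpace M] {e : OpenPartialHomeomorph M (Eu n)} {y : Eu n} (hy : y ∈ e.target) :
    Jac (trn e e) y = 1 := by
  have h1 : HasFDerivAt (trn e e) (ContinuousLinearMap.id ℝ (Eu n)) y := by
    refine (hasFDerivAt_id y).congr_of_eventuallyEq ?_
    filter_upwards [e.open_target.mem_nhds hy] with z hz
    exact e.right_inv hz
  rw [jac_of_hasFDerivAt h1]
  exact LinearMap.toMatrix'_id

theorem jac_comp {n : ℕ} {M : Type} [TopologicalSpace M] [ChartedSpace (Eu n) M] [IsManifold (modelWithCornersSelf ℝ (Eu n)) ∞ M]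
    {e e' e'' : OpenPartialHomeomorph M (Eu n)} (he : e ∈ atlas (Eu n) M) (he' : e' ∈ atlas (Eu n) M)
    (he'' : e'' ∈ atlas (Eu n) M) {y : Eu n} (hy : y ∈ cdom e e') (hy' : e.symm y ∈ e''.source) :
    Jac (trn e e'') y = Jac (trn e' e'') (trn e e' y) * Jac (trn e e') y := by
  have d1 : DifferentiableAt ℝ (trn e e') y :=
    ((trn_smooth he he').contDiffAt ((cdom_open e e').mem_nhds hy)).differentiableAt (by simp)
  have hz : trn e e' y ∈ cdom e' e'' := by
    refine ⟨(trn_mem hy).1.1, ?_⟩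
    rw [(trn_mem hy).2.1]
    exact hy'
  have d2 : DifferentiableAt ℝ (trn e' e'') (trn e e' y) :=
    ((trn_smooth he' he'').contDiffAt ((cdom_open e' e'').mem_nhds hz)).differentiableAt (by simp)
  have h3 : HasFDerivAt (trn e e'')
      ((fderiv ℝ (trn e' e'') (trn e e' y)).comp (fderiv ℝ (trn e e') y)) y := by
    refine (d2.hasFDerivAt.comp y d1.hasFDerivAt).congr_of_eventuallyEq ?_
    filter_upwards [(cdom_open e e').mem_nhds hy] with z hz
    show e'' (e.symm z) = e'' (e'.symm (trn e e' z))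
    rw [(trn_mem hz).2.1]
  rw [jac_of_hasFDerivAt h3, jac_of_hasFDerivAt d2.hasFDerivAt, jac_of_hasFDerivAt d1.hasFDerivAt]
  exact LinearMap.toMatrix'_comp _ _

theorem jac_det {n : ℕ} {M : Type} [TopologicalSpace M] [ChartedSpace (Eu n) M] [IsManifold (modelWithCornersSelf ℝ (Eu n)) ∞ M]
    {e e' : OpenPartialHomeomorph M (Eu n)} (he : e ∈ atlas (Eu n) M) (he' : e' ∈ atlas (Eu n) M) {y : Eu n}
    (hy : y ∈ cdom e e') : (Jac (trn e e') y).det ≠ 0 := by
  have h1 := jac_comp he he' he hy (e.map_target hy.1)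
  rw [jac_self hy.1] at h1
  have h2 := congrArg Matrix.det h1
  rw [Matrix.det_one, Matrix.det_mul] at h2
  intro h3
  rw [h3, mul_zero] at h2
  exact one_ne_zero h2

end Pool.Agent.QTot.MA
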