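import Pool.Agent.QTot.Base2
import Pool.Agent.QTot.R4
import Pool.Agent.QTot.N5
import Pool.Agent.QTot.MA

set_option autoImplicit false
open scoped ContDiff Manifold Topology Matrix
open MeasureTheory Filter Set

namespace Pool.Agent.QTot.MB
open Pool.Agent.QTot
open Pool.Agent.QTot.R4 (q_smooth)
open Pool.Agent.QTot.N5 (q_pull)
open Pool.Agent.QTot.MA (cdom_open trn_smooth trn_mem jac_self jac_comp jac_det)











/-! ## TARGET (prove this) -/

/- Idea: with `c = chartAt (Eu n) x`, `g.compat` says `g.G c = pull (trn c e) (g.G e)` on the open set `cdom c e`; apply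
`q_pull` with `U = cdom c e`, `V = e.target`, `φ = trn c e`.  Continuity: near a point, `g.Q = Qloc (g.G e) ∘ e`, and `q_smooth`. -/
theorem Q_chart {n : ℕ} {M : Type} [TopologicalSpace M] [ChartedSpace (Eu n) M] [IsManifold (modelWithCornersSelf ℝ (Eu n)) ∞ M] (g : RMetric n M)
    {e : OpenPartialHomeomorph M (Eu n)} (he : e ∈ atlas (Eu n) M) {x : M} (hx : x ∈ e.source) :
    g.Q x = Qloc (g.G e) (e x) := by
  have hc : chartAt (Eu n) x ∈ atlas (Eu n) M := chart_mem_atlas (Eu n) x
  have hxc : x ∈ (chartAt (Eu n) x).source := mem_chart_source (Eu n) x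
  have hU : chartAt (Eu n) x x ∈ cdom (chartAt (Eu n) x) e := by
    refine ⟨(chartAt (Eu n) x).map_source hxc, ?_⟩
    rw [(chartAt (Eu n) x).left_inv hxc]
    exact hx
  have h := q_pull (cdom_open (chartAt (Eu n) x) e) e.open_target (trn_smooth hc he)
    (fun y hy => jac_det hc he hy) (fun y hy => (trn_mem hy).1.1)
    (G := g.G e) (Gt := g.G (chartAt (Eu n) x)) (g.smooth e he)
    (fun y hy => by
      have h1 : (g.G e y)ᴴ = g.G e y := (g.posDef e he y hy).isHermitian
      rw [Matrix.conjTranspose_eq_transpose_of_trivial] at h1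
      exact h1)
    (fun y hy => (g.posDef e he y hy).det_pos.ne')
    (fun y hy => g.compat _ hc e he y hy.1 hy.2) _ hU
  have h2 : trn (chartAt (Eu n) x) e (chartAt (Eu n) x x) = e x := by
    unfold trn
    rw [(chartAt (Eu n) x).left_inv hxc]
  rw [h2] at h
  exact h

theorem Q_cont {n : ℕ} {M : Type} [TopologicalSpace M] [ChartedSpace (Eu n) M] [IsManifold (modelWithCornersSelf ℝ (Eu n)) ∞ M] (g : RMetric n M) : Continuous g.Q := by
  rw [continuous_iff_continuousAt]
  intro x
  have hc : chartAt (Eu n) x ∈ atlas (Eu n) M := chart_mem_atlas (Eu n) x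
  have hxc : x ∈ (chartAt (Eu n) x).source := mem_chart_source (Eu n) x
  have h1 : ContinuousAt (Qloc (g.G (chartAt (Eu n) x))) (chartAt (Eu n) x x) :=
    ((q_smooth (chartAt (Eu n) x).open_target (g.smooth _ hc)
      (fun y hy => (g.posDef _ hc y hy).det_pos.ne')).continuousOn).continuousAt
      ((chartAt (Eu n) x).open_target.mem_nhds ((chartAt (Eu n) x).map_source hxc))
  have h2 : ContinuousAt (fun y => Qloc (g.G (chartAt (Eu n) x)) (chartAt (Eu n) x y)) x :=
    ContinuousAt.comp (g := Qloc (g.G (chartAt (Eu n) x))) (f := chartAt (Eu n) x) h1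
      ((chartAt (Eu n) x).continuousAt hxc)
  refine h2.congr ?_
  filter_upwards [(chartAt (Eu n) x).open_source.mem_nhds hxc] with y hy
  exact (Q_chart g hc hy).symm

end Pool.Agent.QTot.MB
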