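import Pool.Agent.QTot.Base2
import Pool.Agent.QTot.MA

set_option autoImplicit false
open scoped ContDiff Manifold Topology Matrix
open MeasureTheory Filter Set

namespace Pool.Agent.QTot.MC
open Pool.Agent.QTot
open Pool.Agent.QTot.MA (cdom_open trn_smooth trn_mem jac_self jac_comp jac_det)









/-! ## TARGET (prove this) -/


/-- preimages in an open set under a map which is continuous there -/
theorem meas_inter_preimage {X Y : Type*} [TopologicalSpace X] [MeasurableSpace X] [BorelSpace X]
    [TopologicalSpace Y] [MeasurableSpace Y] [BorelSpace Y] (f : X → Y) (s : Set X)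
    (hs : IsOpen s) (hf : ContinuousOn f s) (A : Set Y) (hA : MeasurableSet A) :
    MeasurableSet (s ∩ f ⁻¹' A) := by
  have h1 : Measurable (s.domRestrict f) := (continuousOn_iff_continuous_domRestrict.mp hf).measurable
  have h2 : MeasurableSet ((s.domRestrict f) ⁻¹' A) := h1 hA
  have h3 : MeasurableSet (Subtype.val '' ((s.domRestrict f) ⁻¹' A)) :=
    hs.measurableSet.subtype_image h2
  convert h3 using 1
  ext x
  simp only [mem_inter_iff, mem_preimage, mem_image, Subtype.exists]
  constructor
  · rintro ⟨h1, h2⟩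
    exact ⟨x, h1, h2, rfl⟩
  · rintro ⟨a, h1, h2, rfl⟩
    exact ⟨h1, h2⟩

theorem meas_image {n : ℕ} {M : Type} [TopologicalSpace M] [MeasurableSpace M] [BorelSpace M]
    (e : OpenPartialHomeomorph M (Eu n)) {B : Set M} (hB : B ⊆ e.source) (hBm : MeasurableSet B) :
    MeasurableSet (e '' B) := by
  have h : e '' B = e.target ∩ e.symm ⁻¹' B := e.toPartialEquiv.image_eq_target_inter_inv_preimage hB
  rw [h]
  exact meas_inter_preimage e.symm e.target e.open_target e.continuousOn_symm B hBm

theorem det_jac {n : ℕ} (φ : Eu n → Eu n) (y : Eu n) (h : DifferentiableAt ℝ φ y) :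
    (Jac φ y).det = (fderiv ℝ φ y).det := by
  have h1 : Jac φ y = LinearMap.toMatrix' ((fderiv ℝ φ y : Eu n →L[ℝ] Eu n) : Eu n →ₗ[ℝ] Eu n) := by
    ext a i
    rw [LinearMap.toMatrix'_apply]
    show fderiv ℝ (fun y => φ y a) y (Pi.single i 1) = fderiv ℝ φ y (Pi.single i 1) a
    have h2 := hasFDerivAt_pi'.mp h.hasFDerivAt a
    rw [h2.fderiv]
    rfl
  rw [h1, LinearMap.det_toMatrix']

theorem vol_change {n : ℕ} {M : Type} [TopologicalSpace M] [ChartedSpace (Eu n) M] [IsManifold (modelWithCornersSelf ℝ (Eu n)) ∞ M] (g : RMetric n M)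
    [T2Space M] [MeasurableSpace M] [BorelSpace M]
    {e e' : OpenPartialHomeomorph M (Eu n)} (he : e ∈ atlas (Eu n) M) (he' : e' ∈ atlas (Eu n) M) {B : Set M}
    (hB : B ⊆ e.source) (hB' : B ⊆ e'.source) (hBm : MeasurableSet B) :
    ∫⁻ y in e '' B, ENNReal.ofReal (Real.sqrt (g.G e y).det) = ∫⁻ y in e' '' B, ENNReal.ofReal (Real.sqrt (g.G e' y).det) := by
  have hS : e '' B ⊆ cdom e e' := by
    rintro y ⟨b, hb, rfl⟩
    refine ⟨e.map_source (hB hb), ?_⟩
    rw [e.left_inv (hB hb)]
    exact hB' hb
  have himg : e' '' B = trn e e' '' (e '' B) := by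
    rw [Set.image_image]
    refine Set.image_congr fun b hb => ?_
    show e' b = e' (e.symm (e b))
    rw [e.left_inv (hB hb)]
  have hSm : MeasurableSet (e '' B) := meas_image e hB hBm
  have hdiff : ∀ y ∈ e '' B, DifferentiableAt ℝ (trn e e') y := by
    intro y hy
    exact ((trn_smooth he he').differentiableOn (by simp) y (hS hy)).differentiableAt
      ((cdom_open e e').mem_nhds (hS hy))
  rw [himg, lintegral_image_eq_lintegral_abs_det_fderiv_mul volume hSm
    (f' := fun y => fderiv ℝ (trn e e') y)
    (fun y hy => (hdiff y hy).hasFDerivAt.hasFDerivWithinAt) ?_]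
  · refine setLIntegral_congr_fun hSm fun y hy => ?_
    have hc := g.compat e he e' he' y (hS hy).1 (hS hy).2
    have hdet : (g.G e y).det = (Jac (trn e e') y).det ^ 2 * (g.G e' (trn e e' y)).det := by
      rw [hc, Matrix.det_mul, Matrix.det_mul, Matrix.det_transpose]; ring
    show ENNReal.ofReal (Real.sqrt (g.G e y).det) = ENNReal.ofReal |(fderiv ℝ (trn e e') y).det| *
      ENNReal.ofReal (Real.sqrt (g.G e' (trn e e' y)).det)
    rw [hdet, Real.sqrt_mul (sq_nonneg _), Real.sqrt_sq_eq_abs, ← det_jac _ _ (hdiff y hy),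
      ENNReal.ofReal_mul (abs_nonneg _)]
  · intro y hy y' hy' hyy
    have h1 := (trn_mem (hS hy)).2.2
    have h2 := (trn_mem (hS hy')).2.2
    rw [← h1, ← h2, hyy]

theorem exists_vol {n : ℕ} {M : Type} [TopologicalSpace M] [ChartedSpace (Eu n) M] [IsManifold (modelWithCornersSelf ℝ (Eu n)) ∞ M] (g : RMetric n M)
    [CompactSpace M] [T2Space M] [MeasurableSpace M] [BorelSpace M] :
    ∃ μ : Measure M, g.IsVolume μ ∧ IsFiniteMeasure μ := by
  classical
  rcases isEmpty_or_nonempty M with hM | hM
  · refine ⟨0, ?_, inferInstance⟩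
    intro e he A hA hAm
    have : A = ∅ := Set.eq_empty_of_isEmpty A
    subst this
    simp
  obtain ⟨s, hsc, hsU⟩ : ∃ s : Set M, Set.Countable s ∧ ⋃ (x) (_ : x ∈ s), (chartAt (Eu n) x).source = univ :=
    countable_cover_nhds_of_sigmaCompact fun x : M => chart_source_mem_nhds (Eu n) x
  have hsne : s.Nonempty := by
    by_contra h
    rw [Set.not_nonempty_iff_eq_empty] at h
    subst h
    simp at hsU
    exact (Set.empty_ne_univ hsU).elim
  obtain ⟨x, hx⟩ := hsc.exists_eq_range hsne
  let c : ℕ → OpenPartialHomeomorph M (Eu n) := fun i => chartAt (Eu n) (x i)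
  have hcat : ∀ i, c i ∈ atlas (Eu n) M := fun i => chart_mem_atlas _ _
  have hcU : ⋃ i, (c i).source = univ := by
    rw [← hsU, hx]
    simp [c]
  let A : ℕ → Set M := disjointed (fun i => (c i).source)
  have hAm : ∀ i, MeasurableSet (A i) := fun i =>
    MeasurableSet.disjointed (fun j => (c j).open_source.measurableSet) i
  have hAU : ⋃ i, A i = univ := by rw [← hcU]; exact iUnion_disjointed
  have hAs : ∀ i, A i ⊆ (c i).source := fun i => disjointed_subset _ i
  have hAd : Pairwise (Function.onFun Disjoint A) := disjoint_disjointed _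
  let ν : ℕ → Measure M := fun i => Measure.map (c i).symm
    ((volume.withDensity (fun y => ENNReal.ofReal (Real.sqrt (g.G (c i) y).det))).restrict (c i).target)
  have hν : ∀ i, ∀ B : Set M, B ⊆ (c i).source → MeasurableSet B →
      ν i B = ∫⁻ y in (c i) '' B, ENNReal.ofReal (Real.sqrt (g.G (c i) y).det) := by
    intro i B hB hBm
    have hae : AEMeasurable (c i).symm
      ((volume.withDensity (fun y => ENNReal.ofReal (Real.sqrt (g.G (c i) y).det))).restrict (c i).target) :=
      (c i).continuousOn_symm.aemeasurable (c i).open_target.measurableSet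
    have himg : (c i) '' B = (c i).target ∩ (c i).symm ⁻¹' B :=
      (c i).toPartialEquiv.image_eq_target_inter_inv_preimage hB
    show Measure.map (c i).symm _ B = _
    rw [Measure.map_apply_of_aemeasurable hae hBm,
      Measure.restrict_apply' (c i).open_target.measurableSet, Set.inter_comm, ← himg,
      withDensity_apply _ (meas_image (c i) hB hBm)]
  let μ : Measure M := Measure.sum (fun i => (ν i).restrict (A i))
  have hvol : g.IsVolume μ := by
    intro e he B hB hBm
    have h1 : μ B = ∑' i, ν i (B ∩ A i) := by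
      show Measure.sum (fun i => (ν i).restrict (A i)) B = _
      rw [Measure.sum_apply _ hBm]
      refine tsum_congr fun i => ?_
      rw [Measure.restrict_apply hBm]
    have h2 : ∀ i, ν i (B ∩ A i) = ∫⁻ y in e '' (B ∩ A i), ENNReal.ofReal (Real.sqrt (g.G e y).det) := by
      intro i
      rw [hν i (B ∩ A i) (Set.inter_subset_right.trans (hAs i)) (hBm.inter (hAm i))]
      exact vol_change g (hcat i) he (Set.inter_subset_right.trans (hAs i))
        (Set.inter_subset_left.trans hB) (hBm.inter (hAm i))
    rw [h1]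
    simp_rw [h2]
    rw [← lintegral_iUnion]
    · congr 1
      rw [← Set.image_iUnion, ← Set.inter_iUnion, hAU, Set.inter_univ]
    · intro i
      exact meas_image e (Set.inter_subset_left.trans hB) (hBm.inter (hAm i))
    · intro i j hij
      have h3 : Disjoint (B ∩ A i) (B ∩ A j) :=
        (hAd hij).mono Set.inter_subset_right Set.inter_subset_right
      show Disjoint (e '' (B ∩ A i)) (e '' (B ∩ A j))
      rw [Set.disjoint_left]
      rintro y ⟨a, ha, rfl⟩ ⟨b, hb, hab⟩
      have hba : b = a := e.injOn (hB hb.1) (hB ha.1) hab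
      subst hba
      exact Set.disjoint_left.mp h3 ha hb
  refine ⟨μ, hvol, ?_⟩
  constructor
  refine isCompact_univ.measure_lt_top_of_nhdsWithin fun p _ => ?_
  rw [nhdsWithin_univ]
  -- a neighbourhood of `p` of finite measure
  set e := chartAt (Eu n) p with he
  have heat : e ∈ atlas (Eu n) M := chart_mem_atlas _ _
  have hp : p ∈ e.source := mem_chart_source _ _
  have hy0 : e p ∈ e.target := e.map_source hp
  obtain ⟨r, hr, hball⟩ := Metric.nhds_basis_closedBall.mem_iff.mp (e.open_target.mem_nhds hy0)
  have hK : IsCompact (Metric.closedBall (e p) r) := isCompact_closedBall _ _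
  have hcont : ContinuousOn (fun y => Real.sqrt (g.G e y).det) e.target := by
    refine Real.continuous_sqrt.comp_continuousOn ?_
    have h1 : ContinuousOn (fun y => g.G e y) e.target := by
      refine continuousOn_pi.mpr fun i => continuousOn_pi.mpr fun j => ?_
      exact (g.smooth e heat i j).continuousOn
    exact (Continuous.matrix_det continuous_id).comp_continuousOn h1
  obtain ⟨C, hC⟩ := hK.exists_bound_of_continuousOn (hcont.mono hball)
  have hU : e.source ∩ e ⁻¹' (Metric.closedBall (e p) r) ∈ 𝓝 p :=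
    Filter.inter_mem (e.open_source.mem_nhds hp)
      ((e.continuousAt hp).preimage_mem_nhds (Metric.closedBall_mem_nhds _ hr))
  refine ⟨_, hU, ?_⟩
  have hUm : MeasurableSet (e.source ∩ e ⁻¹' (Metric.closedBall (e p) r)) :=
    meas_inter_preimage e e.source e.open_source e.continuousOn _ Metric.isClosed_closedBall.measurableSet
  rw [hvol e heat _ Set.inter_subset_left hUm]
  have hsub : e '' (e.source ∩ e ⁻¹' (Metric.closedBall (e p) r)) ⊆ Metric.closedBall (e p) r := by
    rintro y ⟨z, hz, rfl⟩
    exact hz.2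
  calc ∫⁻ y in e '' (e.source ∩ e ⁻¹' (Metric.closedBall (e p) r)), ENNReal.ofReal (Real.sqrt (g.G e y).det)
      ≤ ∫⁻ y in Metric.closedBall (e p) r, ENNReal.ofReal (Real.sqrt (g.G e y).det) :=
        lintegral_mono_set hsub
    _ ≤ ∫⁻ y in Metric.closedBall (e p) r, ENNReal.ofReal C := by
        refine setLIntegral_mono' Metric.isClosed_closedBall.measurableSet fun y hy => ?_
        refine ENNReal.ofReal_le_ofReal ?_
        exact (le_abs_self _).trans (hC y hy)
    _ = ENNReal.ofReal C * volume (Metric.closedBall (e p) r) := by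
        rw [setLIntegral_const]
    _ < ⊤ := ENNReal.mul_lt_top ENNReal.ofReal_lt_top hK.measure_lt_top

end Pool.Agent.QTot.MC
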