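import Pool.Agent.QTot.Base2
import Pool.Agent.QTot.MA

set_option autoImplicit false
open scoped ContDiff Manifold Topology Matrix
open MeasureTheory Filter Set

namespace Pool.Agent.QTot.MD
open Pool.Agent.QTot
open Pool.Agent.QTot.MA (cdom_open trn_smooth trn_mem jac_self jac_comp jac_det)









/-! ## TARGET (prove this) -/


theorem md_det_cont {n : ℕ} {M : Type} [TopologicalSpace M] [ChartedSpace (Eu n) M] (g : RMetric n M)
    {e : OpenPartialHomeomorph M (Eu n)} (he : e ∈ atlas (Eu n) M) :
    ContinuousOn (fun y => Real.sqrt (g.G e y).det) e.target := by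
  have h1 : ContinuousOn (fun y => (g.G e y).det) e.target := by
    rw [continuousOn_iff_continuous_domRestrict]
    have h2 : Continuous (fun y : e.target => g.G e y.1) := by
      refine continuous_matrix fun i j => ?_
      have := (g.smooth e he i j).continuousOn
      rw [continuousOn_iff_continuous_domRestrict] at this
      exact this
    exact h2.matrix_det
  exact Real.continuous_sqrt.comp_continuousOn h1

theorem md_image_meas {n : ℕ} {M : Type} [TopologicalSpace M] [MeasurableSpace M] [BorelSpace M]
    (e : OpenPartialHomeomorph M (Eu n)) {A : Set M} (hA : A ⊆ e.source) (hAm : MeasurableSet A) :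
    MeasurableSet (e '' A) := by
  have h1 : Continuous (fun y : e.target => e.symm y.1) := by
    have := e.continuousOn_symm
    rw [continuousOn_iff_continuous_domRestrict] at this
    exact this
  have h2 : MeasurableSet ((fun y : e.target => e.symm y.1) ⁻¹' A) := h1.measurable hAm
  have h3 : e '' A = Subtype.val '' ((fun y : e.target => e.symm y.1) ⁻¹' A) := by
    ext y
    constructor
    · rintro ⟨a, ha, rfl⟩
      refine ⟨⟨e a, e.map_source (hA ha)⟩, ?_, rfl⟩
      change e.symm (e a) ∈ A
      rw [e.left_inv (hA ha)]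
      exact ha
    · rintro ⟨⟨z, hz⟩, hz', rfl⟩
      exact ⟨e.symm z, hz', e.right_inv hz⟩
  rw [h3]
  exact e.open_target.measurableSet.subtype_image h2

/- Idea: on `A`, `μ` is the image under `e.symm` of the measure with density `√det G_e` on `e '' A`
(`Measure.ext` on measurable sets, from `g.IsVolume`); then `integral_map`, `integral_withDensity_eq_integral_smul`. -/
theorem int_chart {n : ℕ} {M : Type} [TopologicalSpace M] [ChartedSpace (Eu n) M] [IsManifold (modelWithCornersSelf ℝ (Eu n)) ∞ M] (g : RMetric n M)
    [T2Space M] [MeasurableSpace M] [BorelSpace M] {μ : Measure M} (hμ : g.IsVolume μ)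
    {e : OpenPartialHomeomorph M (Eu n)} (he : e ∈ atlas (Eu n) M) {A : Set M} (hA : A ⊆ e.source) (hAm : MeasurableSet A)
    {f : M → ℝ} (hf : Continuous f) :
    ∫ x in A, f x ∂μ = ∫ y in e '' A, f (e.symm y) * Real.sqrt (g.G e y).det := by
  have him := md_image_meas e hA hAm
  have hsub : e '' A ⊆ e.target := by
    rintro _ ⟨a, ha, rfl⟩
    exact e.map_source (hA ha)
  set ρ : Eu n → ENNReal := fun y => ENNReal.ofReal (Real.sqrt (g.G e y).det) with hρ
  have hρm : AEMeasurable ρ (volume.restrict (e '' A)) :=
    (((md_det_cont g he).mono hsub).aemeasurable him).ennreal_ofReal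
  have hes : AEMeasurable e.symm (volume.restrict (e '' A)) :=
    (e.continuousOn_symm.mono hsub).aemeasurable him
  set ν := (volume.restrict (e '' A)).withDensity ρ with hν
  have hes' : AEMeasurable e.symm ν := hes.mono_ac (withDensity_absolutelyContinuous _ _)
  have hmap : μ.restrict A = ν.map e.symm := by
    ext B hB
    rw [Measure.restrict_apply hB, Measure.map_apply_of_aemeasurable hes' hB, hν,
      withDensity_apply' _ _, Measure.restrict_restrict' him,
      hμ e he (B ∩ A) (Set.inter_subset_right.trans hA) (hB.inter hAm)]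
    congr 2
    ext y
    constructor
    · rintro ⟨a, ⟨haB, haA⟩, rfl⟩
      refine ⟨?_, ⟨a, haA, rfl⟩⟩
      change e.symm (e a) ∈ B
      rw [e.left_inv (hA haA)]
      exact haB
    · rintro ⟨hy, ⟨a, ha, rfl⟩⟩
      have hy' : e.symm (e a) ∈ B := hy
      rw [e.left_inv (hA ha)] at hy'
      exact ⟨a, ⟨hy', ha⟩, rfl⟩
  rw [hmap, integral_map hes' hf.aestronglyMeasurable, hν,
    integral_withDensity_eq_integral_toReal_smul₀ hρm
      (Eventually.of_forall fun y => ENNReal.ofReal_lt_top)]
  refine integral_congr_ae (Eventually.of_forall fun y => ?_)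
  change (ENNReal.ofReal (Real.sqrt (g.G e y).det)).toReal • f (e.symm y) =
    f (e.symm y) * Real.sqrt (g.G e y).det
  rw [ENNReal.toReal_ofReal (Real.sqrt_nonneg _), smul_eq_mul, mul_comm]

end Pool.Agent.QTot.MD
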