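import Pool.Agent.QTot.Base2
import Pool.Agent.QTot.MA

set_option autoImplicit false
open scoped ContDiff Manifold Topology Matrix
open MeasureTheory Filter Set

namespace Pool.Agent.QTot.ME
open Pool.Agent.QTot
open Pool.Agent.QTot.MA (cdom_open trn_smooth trn_mem jac_self jac_comp jac_det)










/-! ## helper lemmas -/

lemma me_pd_smooth {n : ℕ} {U : Set (Eu n)} (hU : IsOpen U) {f : Eu n → ℝ} (hf : ContDiffOn ℝ ∞ f U)
    (i : Fin n) : ContDiffOn ℝ ∞ (pd i f) U := by
  have h1 : ContDiffOn ℝ ∞ (fun y => fderiv ℝ f y) U := hf.fderiv_of_isOpen hU (by norm_num)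
  exact h1.clm_apply contDiffOn_const

lemma me_jac_smooth {n : ℕ} {M : Type} [TopologicalSpace M] [ChartedSpace (Eu n) M]
    [IsManifold (modelWithCornersSelf ℝ (Eu n)) ∞ M]
    {e e' : OpenPartialHomeomorph M (Eu n)} (he : e ∈ atlas (Eu n) M) (he' : e' ∈ atlas (Eu n) M)
    (a i : Fin n) : ContDiffOn ℝ ∞ (fun y => Jac (trn e e') y a i) (cdom e e') := by
  have h1 := trn_smooth he he'
  have h2 : ContDiffOn ℝ ∞ (fun y => trn e e' y a) (cdom e e') := contDiffOn_pi.1 h1 a
  exact me_pd_smooth (cdom_open e e') h2 i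

lemma me_comp_symm {n : ℕ} {M : Type} [TopologicalSpace M] [ChartedSpace (Eu n) M]
    [IsManifold (modelWithCornersSelf ℝ (Eu n)) ∞ M] {w : M → ℝ}
    (hw : ContMDiff (modelWithCornersSelf ℝ (Eu n)) (modelWithCornersSelf ℝ ℝ) ∞ w)
    {e : OpenPartialHomeomorph M (Eu n)} (he : e ∈ atlas (Eu n) M) :
    ContDiffOn ℝ ∞ (fun y => w (e.symm y)) e.target := by
  rw [← contMDiffOn_iff_contDiffOn]
  have h1 : ContMDiffOn (modelWithCornersSelf ℝ (Eu n)) (modelWithCornersSelf ℝ (Eu n)) ∞ e.symm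
      e.target :=
    contMDiffOn_symm_of_mem_maximalAtlas (IsManifold.subset_maximalAtlas he)
  exact hw.comp_contMDiffOn h1

/-- the metric associated with a family of weights -/
noncomputable def meG {n : ℕ} {M : Type} [TopologicalSpace M] {ι : Type} [Fintype ι] (w : ι → M → ℝ)
    (E : ι → OpenPartialHomeomorph M (Eu n)) (e : OpenPartialHomeomorph M (Eu n)) (y : Eu n) : Mt n :=
  ∑ k, w k (e.symm y) • ((Jac (trn e (E k)) y)ᵀ * Jac (trn e (E k)) y)

lemma me_posDef_sum {n : ℕ} {ι : Type} [Fintype ι] (c : ι → ℝ) (J : ι → Mt n)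
    (hc : ∀ k, 0 ≤ c k) (k₀ : ι) (hk₀ : 0 < c k₀) (hdet : (J k₀).det ≠ 0) :
    (∑ k, c k • ((J k)ᵀ * J k)).PosDef := by
  classical
  rw [← Finset.add_sum_erase _ _ (Finset.mem_univ k₀)]
  apply Matrix.PosDef.add_posSemidef
  · apply Matrix.PosDef.smul _ hk₀
    have h1 : ((J k₀)ᴴ * J k₀).PosDef := by
      apply Matrix.PosDef.conjTranspose_mul_self
      exact Matrix.mulVec_injective_iff_isUnit.2
        ((Matrix.isUnit_iff_isUnit_det _).2 (isUnit_iff_ne_zero.2 hdet))
    rwa [Matrix.conjTranspose_eq_transpose_of_trivial] at h1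
  · apply Matrix.posSemidef_sum
    intro k _
    apply Matrix.PosSemidef.smul _ (hc k)
    have h1 := Matrix.posSemidef_conjTranspose_mul_self (J k)
    rwa [Matrix.conjTranspose_eq_transpose_of_trivial] at h1

/-- the metric associated with a family of weights -/
noncomputable def meMetric {n : ℕ} {M : Type} [TopologicalSpace M] [ChartedSpace (Eu n) M]
    [IsManifold (modelWithCornersSelf ℝ (Eu n)) ∞ M] {ι : Type} [Fintype ι] (w : ι → M → ℝ)
    (E : ι → OpenPartialHomeomorph M (Eu n)) (hE : ∀ k, E k ∈ atlas (Eu n) M)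
    (hw : ∀ k, ContMDiff (modelWithCornersSelf ℝ (Eu n)) (modelWithCornersSelf ℝ ℝ) ∞ (w k))
    (hw0 : ∀ k x, 0 ≤ w k x) (hsupp : ∀ k, tsupport (w k) ⊆ (E k).source)
    (hpos : ∀ x, ∃ k, 0 < w k x) : RMetric n M where
  G := meG w E
  smooth := by
    intro e he i j
    have hexp : ∀ y, meG w E e y i j = ∑ k, w k (e.symm y) *
        ((Jac (trn e (E k)) y)ᵀ * Jac (trn e (E k)) y) i j := by
      intro y
      unfold meG
      rw [Matrix.sum_apply]
      rfl
    simp_rw [hexp]
    apply ContDiffOn.sum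
    intro k _ y hy
    by_cases hs : e.symm y ∈ (E k).source
    · have hyc : y ∈ cdom e (E k) := ⟨hy, hs⟩
      have hopen := cdom_open e (E k)
      have h1 : ContDiffOn ℝ ∞ (fun y => w k (e.symm y) *
          ((Jac (trn e (E k)) y)ᵀ * Jac (trn e (E k)) y) i j) (cdom e (E k)) := by
        apply ContDiffOn.mul
        · exact (me_comp_symm (hw k) he).mono fun z hz => hz.1
        · simp only [Matrix.mul_apply, Matrix.transpose_apply]
          apply ContDiffOn.sum
          intro a _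
          exact (me_jac_smooth he (hE k) a i).mul (me_jac_smooth he (hE k) a j)
      exact (h1.contDiffAt (hopen.mem_nhds hyc)).contDiffWithinAt
    · have hns : e.symm y ∉ tsupport (w k) := fun h => hs (hsupp k h)
      have h1 : ∀ᶠ x in 𝓝 (e.symm y), w k x = 0 := by
        have := notMem_tsupport_iff_eventuallyEq.1 hns
        exact this
      have h2 : ContinuousAt e.symm y := e.continuousAt_symm hy
      have h3 : ∀ᶠ z in 𝓝 y, w k (e.symm z) = 0 := h2.eventually h1
      have h4 : (fun y => w k (e.symm y) *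
          ((Jac (trn e (E k)) y)ᵀ * Jac (trn e (E k)) y) i j) =ᶠ[𝓝 y] fun _ => (0 : ℝ) := by
        filter_upwards [h3] with z hz
        rw [hz, zero_mul]
      exact (contDiffAt_const.congr_of_eventuallyEq h4).contDiffWithinAt
  posDef := by
    intro e he y hy
    obtain ⟨k, hk⟩ := hpos (e.symm y)
    apply me_posDef_sum _ _ (fun k => hw0 k _) k hk
    apply jac_det he (hE k)
    refine ⟨hy, hsupp k (subset_tsupport _ ?_)⟩
    exact hk.ne'
  compat := by
    intro e he e' he' y hy hy'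
    have hc : y ∈ cdom e e' := ⟨hy, hy'⟩
    have hm := trn_mem hc
    unfold meG
    rw [Matrix.mul_sum, Matrix.sum_mul]
    apply Finset.sum_congr rfl
    intro k _
    rw [hm.2.1]
    by_cases hz : w k (e.symm y) = 0
    · rw [hz, zero_smul, zero_smul, Matrix.mul_zero, Matrix.zero_mul]
    · have hs : e.symm y ∈ (E k).source := hsupp k (subset_tsupport _ hz)
      rw [jac_comp he he' (hE k) hc hs, Matrix.transpose_mul, Matrix.mul_smul, Matrix.smul_mul]
      simp only [Matrix.mul_assoc]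

/-! ## TARGET (prove this) -/

theorem base_metric {n : ℕ} {M : Type} [TopologicalSpace M] [ChartedSpace (Eu n) M] [IsManifold (modelWithCornersSelf ℝ (Eu n)) ∞ M]
    [CompactSpace M] [T2Space M] [Nonempty M] :
    ∃ (g : RMetric n M) (e₀ : OpenPartialHomeomorph M (Eu n)) (y₀ : Eu n) (r : ℝ), e₀ ∈ atlas (Eu n) M ∧ 0 < r ∧
      Metric.ball y₀ (2 * r) ⊆ e₀.target ∧ ∀ y ∈ Metric.ball y₀ (2 * r), g.G e₀ y = 1 := by
  classical
  obtain ⟨x₀⟩ := ‹Nonempty M›
  have hne : ∀ c : M, Nonempty (SmoothBumpFunction (modelWithCornersSelf ℝ (Eu n)) c) :=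
    fun c => inferInstance
  have b : ∀ c : M, SmoothBumpFunction (modelWithCornersSelf ℝ (Eu n)) c := fun c => (hne c).some
  -- a finite cover by the supports
  obtain ⟨t, ht⟩ := (isCompact_univ (X := M)).elim_nhds_subcover (fun c => Function.support (b c))
    (fun c _ => (b c).support_mem_nhds)
  have hcov : ∀ x : M, ∃ c ∈ t, 0 < b c x := by
    intro x
    have hx := ht.2 (Set.mem_univ x)
    rw [Set.mem_iUnion₂] at hx
    obtain ⟨c, hc, hx⟩ := hx
    exact ⟨c, hc, lt_of_le_of_ne (b c).nonneg (Ne.symm hx)⟩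
  let w : Option {c // c ∈ t} → M → ℝ := fun k => match k with
    | none => b x₀
    | some c => fun x => (1 - b x₀ x) * b c.1 x
  let E : Option {c // c ∈ t} → OpenPartialHomeomorph M (Eu n) := fun k => match k with
    | none => chartAt (Eu n) x₀
    | some c => chartAt (Eu n) c.1
  have hE : ∀ k, E k ∈ atlas (Eu n) M := by
    rintro (_ | c)
    · exact chart_mem_atlas _ _
    · exact chart_mem_atlas _ _
  have hw : ∀ k, ContMDiff (modelWithCornersSelf ℝ (Eu n)) (modelWithCornersSelf ℝ ℝ) ∞ (w k) := by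
    rintro (_ | c)
    · exact (b x₀).contMDiff
    · exact (contMDiff_const.sub (b x₀).contMDiff).mul (b c.1).contMDiff
  have hw0 : ∀ k x, 0 ≤ w k x := by
    rintro (_ | c) x
    · exact (b x₀).nonneg
    · exact mul_nonneg (sub_nonneg.2 (b x₀).le_one) (b c.1).nonneg
  have hsupp : ∀ k, tsupport (w k) ⊆ (E k).source := by
    rintro (_ | c)
    · exact (b x₀).tsupport_subset_chartAt_source
    · refine (closure_mono ?_).trans (b c.1).tsupport_subset_chartAt_source
      intro x hx hx'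
      apply hx
      show (1 - b x₀ x) * b c.1 x = 0
      rw [hx', mul_zero]
  have hpos : ∀ x, ∃ k, 0 < w k x := by
    intro x
    by_cases h0 : b x₀ x = 0
    · obtain ⟨c, hc, hx⟩ := hcov x
      refine ⟨some ⟨c, hc⟩, ?_⟩
      show 0 < (1 - b x₀ x) * b c x
      rw [h0, sub_zero, one_mul]
      exact hx
    · exact ⟨none, lt_of_le_of_ne (b x₀).nonneg (Ne.symm h0)⟩
  -- near the centre
  set e₀ := chartAt (Eu n) x₀ with he₀
  have hx₀ : x₀ ∈ e₀.source := mem_chart_source _ _
  have hy₀ : e₀ x₀ ∈ e₀.target := e₀.map_source hx₀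
  have hev : ∀ᶠ y in 𝓝 (e₀ x₀), b x₀ (e₀.symm y) = 1 := by
    have h1 : ContinuousAt e₀.symm (e₀ x₀) := e₀.continuousAt_symm hy₀
    have h2 : ∀ᶠ x in 𝓝 (e₀.symm (e₀ x₀)), b x₀ x = 1 := by
      rw [e₀.left_inv hx₀]
      exact (b x₀).eventuallyEq_one
    exact h1.eventually h2
  obtain ⟨ρ, hρ, hball⟩ := Metric.mem_nhds_iff.1
    (Filter.inter_mem (e₀.open_target.mem_nhds hy₀) hev)
  refine ⟨meMetric w E hE hw hw0 hsupp hpos, e₀, e₀ x₀, ρ / 2, chart_mem_atlas _ _, by positivity,
    ?_, ?_⟩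
  · intro y hy
    have : 2 * (ρ / 2) = ρ := by ring
    rw [this] at hy
    exact (hball hy).1
  · intro y hy
    have h2 : 2 * (ρ / 2) = ρ := by ring
    rw [h2] at hy
    have hyt := (hball hy).1
    have hy1 : b x₀ (e₀.symm y) = 1 := (hball hy).2
    show meG w E e₀ y = 1
    unfold meG
    rw [Fintype.sum_option]
    have h3 : w none (e₀.symm y) = 1 := hy1
    have h4 : ∀ c : {c // c ∈ t}, w (some c) (e₀.symm y) = 0 := by
      intro c
      show (1 - b x₀ (e₀.symm y)) * b c.1 (e₀.symm y) = 0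
      rw [hy1, sub_self, zero_mul]
    have h5 : E none = e₀ := rfl
    rw [h3, h5, jac_self hyt]
    simp [h4]

end Pool.Agent.QTot.ME
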