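import Pool.Agent.QTot.Base2
import Pool.Agent.QTot.MA

set_option autoImplicit false
open scoped ContDiff Manifold Topology Matrix
open MeasureTheory Filter Set

namespace Pool.Agent.QTot.MF
open Pool.Agent.QTot
open Pool.Agent.QTot.MA (cdom_open trn_smooth trn_mem jac_self jac_comp jac_det)









/-! ## TARGET (prove this) -/

theorem mf_jac_smooth {n : ℕ} {M : Type} [TopologicalSpace M] [ChartedSpace (Eu n) M]
    [IsManifold (modelWithCornersSelf ℝ (Eu n)) ∞ M]
    {e e' : OpenPartialHomeomorph M (Eu n)} (he : e ∈ atlas (Eu n) M) (he' : e' ∈ atlas (Eu n) M)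
    (i j : Fin n) : ContDiffOn ℝ ∞ (fun y => Jac (trn e e') y i j) (cdom e e') := by
  have h1 : ContDiffOn ℝ ∞ (fun y => trn e e' y i) (cdom e e') :=
    (contDiffOn_pi.1 (trn_smooth he he')) i
  have h2 : ContDiffOn ℝ ∞ (fderiv ℝ (fun y => trn e e' y i)) (cdom e e') :=
    h1.fderiv_of_isOpen (cdom_open e e') (by simp)
  exact h2.clm_apply contDiffOn_const

/- Idea: `g'.G e y = if e.symm y ∈ e₀.source then (Jac (trn e e₀) y)ᵀ * H (trn e e₀ y) * Jac (trn e e₀) y else g.G e y` (use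
`Classical.dec`).  If `e.symm y ∈ e₀.source` and `e.symm y ∉ e₀.symm '' K` then `H (trn e e₀ y) = g.G e₀ (trn e e₀ y)` and the value is
`g.G e y` by `g.compat`.  `e₀.symm '' K` is compact, hence closed (`T2Space`), so near a point `y` with
`e.symm y ∉ e₀.source` we have `g'.G e = g.G e`.  `jac_self`, `jac_comp` for the compatibility. -/
theorem modify {n : ℕ} {M : Type} [TopologicalSpace M] [ChartedSpace (Eu n) M] [IsManifold (modelWithCornersSelf ℝ (Eu n)) ∞ M]
    [T2Space M] (g : RMetric n M) {e₀ : OpenPartialHomeomorph M (Eu n)} (he₀ : e₀ ∈ atlas (Eu n) M) {K : Set (Eu n)}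
    (hK : IsCompact K) (hKt : K ⊆ e₀.target) {H : Eu n → Mt n} (hH : ∀ i j, ContDiffOn ℝ ∞ (fun y => H y i j) e₀.target)
    (hHp : ∀ y ∈ e₀.target, (H y).PosDef) (hHK : ∀ y ∈ e₀.target, y ∉ K → H y = g.G e₀ y) :
    ∃ g' : RMetric n M, (∀ y ∈ e₀.target, g'.G e₀ y = H y) ∧
      ∀ e ∈ atlas (Eu n) M, ∀ y ∈ e.target, e.symm y ∉ e₀.symm '' K → g'.G e y = g.G e y := by
  classical
  have hKs : e₀.symm '' K ⊆ e₀.source := by
    rintro _ ⟨k, hk, rfl⟩
    exact e₀.map_target (hKt hk)
  have hKc : IsClosed (e₀.symm '' K) :=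
    (hK.image_of_continuousOn (e₀.continuousOn_symm.mono hKt)).isClosed
  let G' : OpenPartialHomeomorph M (Eu n) → Eu n → Mt n := fun e y =>
    if e.symm y ∈ e₀.source then (Jac (trn e e₀) y)ᵀ * H (trn e e₀ y) * Jac (trn e e₀) y
    else g.G e y
  have hpos : ∀ (e : OpenPartialHomeomorph M (Eu n)) (y : Eu n), e.symm y ∈ e₀.source →
      G' e y = (Jac (trn e e₀) y)ᵀ * H (trn e e₀ y) * Jac (trn e e₀) y := fun e y h => if_pos h
  have hneg : ∀ (e : OpenPartialHomeomorph M (Eu n)) (y : Eu n), e.symm y ∉ e₀.source →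
      G' e y = g.G e y := fun e y h => if_neg h
  have hB : ∀ e ∈ atlas (Eu n) M, ∀ y ∈ e.target, e.symm y ∉ e₀.symm '' K →
      G' e y = g.G e y := by
    intro e he y hy hyK
    by_cases h : e.symm y ∈ e₀.source
    · rw [hpos e y h, g.compat e he e₀ he₀ y hy h]
      have h1 : H (trn e e₀ y) = g.G e₀ (trn e e₀ y) := by
        apply hHK
        · exact e₀.map_source h
        · intro hk
          exact hyK ⟨_, hk, e₀.left_inv h⟩
      rw [h1]
    · exact hneg e y h
  have hsmooth : ∀ e ∈ atlas (Eu n) M, ∀ i j, ContDiffOn ℝ ∞ (fun y => G' e y i j) e.target := by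
    intro e he i j y hy
    refine ContDiffAt.contDiffWithinAt ?_
    by_cases h : e.symm y ∈ e₀.source
    · have hU : IsOpen (cdom e e₀) := cdom_open e e₀
      have hyU : y ∈ cdom e e₀ := ⟨hy, h⟩
      have hf : ContDiffOn ℝ ∞ (fun y => ((Jac (trn e e₀) y)ᵀ * H (trn e e₀ y) *
          Jac (trn e e₀) y) i j) (cdom e e₀) := by
        simp only [Matrix.mul_apply, Matrix.transpose_apply]
        refine ContDiffOn.sum fun k _ => ?_
        refine ContDiffOn.mul ?_ (mf_jac_smooth he he₀ k j)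
        refine ContDiffOn.sum fun l _ => ?_
        refine ContDiffOn.mul (mf_jac_smooth he he₀ l i) ?_
        refine (hH l k).comp (trn_smooth he he₀) ?_
        intro z hz
        exact e₀.map_source hz.2
      refine (hf.contDiffAt (hU.mem_nhds hyU)).congr_of_eventuallyEq ?_
      filter_upwards [hU.mem_nhds hyU] with z hz
      rw [hpos e z hz.2]
    · have hyK : e.symm y ∉ e₀.symm '' K := fun hk => h (hKs hk)
      have hV : IsOpen (e.target ∩ e.symm ⁻¹' (e₀.symm '' K)ᶜ) :=
        e.continuousOn_symm.isOpen_inter_preimage e.open_target hKc.isOpen_compl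
      have hyV : y ∈ e.target ∩ e.symm ⁻¹' (e₀.symm '' K)ᶜ := ⟨hy, hyK⟩
      refine ((g.smooth e he i j).contDiffAt (e.open_target.mem_nhds hy)).congr_of_eventuallyEq ?_
      filter_upwards [hV.mem_nhds hyV] with z hz
      rw [hB e he z hz.1 hz.2]
  have hposdef : ∀ e ∈ atlas (Eu n) M, ∀ y ∈ e.target, (G' e y).PosDef := by
    intro e he y hy
    by_cases h : e.symm y ∈ e₀.source
    · rw [hpos e y h]
      have h1 : (H (trn e e₀ y)).PosDef := hHp _ (e₀.map_source h)
      have h2 : (Jac (trn e e₀) y).det ≠ 0 := jac_det he he₀ ⟨hy, h⟩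
      have h3 := h1.conjTranspose_mul_mul_same (Matrix.mulVec_injective_of_det_ne_zero h2)
      rwa [Matrix.conjTranspose_eq_transpose_of_trivial] at h3
    · rw [hneg e y h]
      exact g.posDef e he y hy
  have hcompat : ∀ e ∈ atlas (Eu n) M, ∀ e' ∈ atlas (Eu n) M, ∀ y ∈ e.target,
      e.symm y ∈ e'.source →
      G' e y = (Jac (trn e e') y)ᵀ * G' e' (trn e e' y) * Jac (trn e e') y := by
    intro e he e' he' y hy hy'
    have hc : y ∈ cdom e e' := ⟨hy, hy'⟩
    obtain ⟨m1, m2, m3⟩ := trn_mem hc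
    by_cases h : e.symm y ∈ e₀.source
    · rw [hpos e y h, hpos e' (trn e e' y) (by rw [m2]; exact h)]
      have h1 : trn e' e₀ (trn e e' y) = trn e e₀ y := by
        show e₀ (e'.symm (trn e e' y)) = e₀ (e.symm y)
        rw [m2]
      rw [h1, jac_comp he he' he₀ hc h, Matrix.transpose_mul]
      simp only [Matrix.mul_assoc]
    · rw [hneg e y h, hneg e' (trn e e' y) (by rw [m2]; exact h)]
      exact g.compat e he e' he' y hy hy'
  refine ⟨⟨G', hsmooth, hposdef, hcompat⟩, ?_, hB⟩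
  intro y hy
  show G' e₀ y = H y
  rw [hpos e₀ y (e₀.map_target hy), jac_self hy]
  have h1 : trn e₀ e₀ y = y := e₀.right_inv hy
  rw [h1]
  simp

end Pool.Agent.QTot.MF
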