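import Pool.Agent.QTot.Base2
import Pool.Agent.QTot.N5
import Pool.Agent.QTot.MA
import Pool.Agent.QTot.MB
import Pool.Agent.QTot.MD

set_option autoImplicit false
open scoped ContDiff Manifold Topology Matrix
open MeasureTheory Filter Set

namespace Pool.Agent.QTot.MG
open Pool.Agent.QTot
open Pool.Agent.QTot.N5 (q_pull)
open Pool.Agent.QTot.MA (cdom_open trn_smooth trn_mem jac_self jac_comp jac_det)
open Pool.Agent.QTot.MB (Q_chart Q_cont)
open Pool.Agent.QTot.MD (int_chart)













/-! ## TARGET (prove this) -/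

/- Idea: let `B = e₀.symm '' K` (compact, closed).  On `Bᶜ` (open): `g'.Q = g.Q` (locality: `q_pull` with `φ = id` on the
open set of the preferred chart), and `μ' = μ` on measurable subsets of `Bᶜ` (cut into pieces contained in chart domains:
countably/finitely many charts cover the compact `M`; `IsVolume` for both).  On `B`: `int_chart` with `e₀ '' B = K` and `Q_chart`
(`dens G y = Qloc G y * √det (G y)`).  `g.Q` and `g'.Q` are continuous, hence integrable. -/
theorem h170_jac_id {n : ℕ} (x : Eu n) : Jac (fun y : Eu n => y) x = 1 := by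
  ext a i
  show pd i (fun y : Eu n => y a) x = _
  unfold pd
  have h1 : HasFDerivAt (fun y : Eu n => y a) (ContinuousLinearMap.proj (R := ℝ) (φ := fun _ : Fin n => ℝ) a) x :=
    (ContinuousLinearMap.proj (R := ℝ) (φ := fun _ : Fin n => ℝ) a).hasFDerivAt
  rw [h1.fderiv]
  rw [ContinuousLinearMap.proj_apply, Matrix.one_apply, Pi.single_apply]

theorem h170_open {n : ℕ} {M : Type} [TopologicalSpace M] (e : OpenPartialHomeomorph M (Eu n)) {B : Set M}
    (hB : IsClosed B) : IsOpen (e.target ∩ e.symm ⁻¹' Bᶜ) :=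
  e.isOpen_inter_preimage_symm hB.isOpen_compl

theorem h170_loc {n : ℕ} {M : Type} [TopologicalSpace M] [ChartedSpace (Eu n) M] (g g' : RMetric n M) {B : Set M}
    (hB : IsClosed B)
    (hg : ∀ e ∈ atlas (Eu n) M, ∀ y ∈ e.target, e.symm y ∉ B → g'.G e y = g.G e y) {x : M} (hx : x ∉ B) :
    g'.Q x = g.Q x := by
  unfold RMetric.Q
  have he : chartAt (Eu n) x ∈ atlas (Eu n) M := chart_mem_atlas _ _
  have hxs : x ∈ (chartAt (Eu n) x).source := mem_chart_source _ _
  generalize chartAt (Eu n) x = e at he hxs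
  have hU := h170_open e hB
  have key := q_pull (n := n) hU hU (φ := fun y => y) contDiffOn_id
    (fun y _ => by rw [h170_jac_id, Matrix.det_one]; exact one_ne_zero)
    (fun y hy => hy) (G := g.G e) (Gt := g'.G e)
    (fun i j => (g.smooth e he i j).mono inter_subset_left)
    (fun y hy => by
      have h := (g.posDef e he y hy.1).isHermitian
      unfold Matrix.IsHermitian at h
      unfold Matrix.IsSymm
      rwa [Matrix.conjTranspose_eq_transpose_of_trivial] at h)
    (fun y hy => (g.posDef e he y hy.1).det_pos.ne')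
    (fun y hy => by
      unfold pull
      rw [h170_jac_id, Matrix.transpose_one, Matrix.one_mul, Matrix.mul_one]
      exact hg e he y hy.1 hy.2)
  exact key (e x) ⟨e.map_source hxs, by
    show e.symm (e x) ∈ Bᶜ
    rw [e.left_inv hxs]; exact hx⟩

theorem h170_meas_piece {n : ℕ} {M : Type} [TopologicalSpace M] [ChartedSpace (Eu n) M]
    [MeasurableSpace M] [BorelSpace M] (g g' : RMetric n M) {μ μ' : Measure M}
    (hμ : g.IsVolume μ) (hμ' : g'.IsVolume μ') {B : Set M} (hB : IsClosed B)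
    (hg : ∀ e ∈ atlas (Eu n) M, ∀ y ∈ e.target, e.symm y ∉ B → g'.G e y = g.G e y)
    {e : OpenPartialHomeomorph M (Eu n)} (he : e ∈ atlas (Eu n) M) {A : Set M} (hA : A ⊆ e.source)
    (hAB : A ⊆ Bᶜ) (hAm : MeasurableSet A) : μ' A = μ A := by
  rw [hμ e he A hA hAm, hμ' e he A hA hAm]
  have hU := (h170_open e hB).measurableSet
  have hsub : e '' A ⊆ e.target ∩ e.symm ⁻¹' Bᶜ := by
    rintro _ ⟨a, ha, rfl⟩
    refine ⟨e.map_source (hA ha), ?_⟩
    show e.symm (e a) ∈ Bᶜ
    rw [e.left_inv (hA ha)]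
    exact hAB ha
  have h1 : ∀ f : Eu n → ENNReal, ∫⁻ y in e '' A, f y =
      ∫⁻ y in (e.target ∩ e.symm ⁻¹' Bᶜ), f y ∂(volume.restrict (e '' A)) := by
    intro f
    rw [Measure.restrict_restrict hU, inter_eq_right.mpr hsub]
  rw [h1, h1]
  refine setLIntegral_congr_fun hU fun y hy => ?_
  show ENNReal.ofReal _ = ENNReal.ofReal _
  rw [hg e he y hy.1 hy.2]

theorem h170_restrict {n : ℕ} {M : Type} [TopologicalSpace M] [ChartedSpace (Eu n) M]
    [CompactSpace M] [MeasurableSpace M] [BorelSpace M] (g g' : RMetric n M) {μ μ' : Measure M}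
    (hμ : g.IsVolume μ) (hμ' : g'.IsVolume μ') {B : Set M} (hB : IsClosed B)
    (hg : ∀ e ∈ atlas (Eu n) M, ∀ y ∈ e.target, e.symm y ∉ B → g'.G e y = g.G e y) :
    μ'.restrict Bᶜ = μ.restrict Bᶜ := by
  obtain ⟨t, ht⟩ := isCompact_univ.elim_finite_subcover (fun x : M => (chartAt (Eu n) x).source)
    (fun x => (chartAt (Eu n) x).open_source)
    (fun x _ => mem_iUnion.mpr ⟨x, mem_chart_source _ _⟩)
  have hcov : (⋃ x : t, (chartAt (Eu n) (x : M)).source) = univ := by
    refine eq_univ_of_univ_subset fun x hx => ?_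
    obtain ⟨y, hy⟩ := mem_iUnion.mp (ht hx)
    obtain ⟨hyt, hxy⟩ := mem_iUnion.mp hy
    exact mem_iUnion.mpr ⟨⟨y, hyt⟩, hxy⟩
  rw [Measure.ext_iff_of_iUnion_eq_univ hcov]
  intro i
  have hs : MeasurableSet (chartAt (Eu n) (i : M)).source := (chartAt (Eu n) (i : M)).open_source.measurableSet
  rw [Measure.restrict_restrict hs, Measure.restrict_restrict hs]
  ext A hA
  rw [Measure.restrict_apply hA, Measure.restrict_apply hA]
  exact h170_meas_piece g g' hμ hμ' hB hg (chart_mem_atlas _ _)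
    (fun a ha => ha.2.1) (fun a ha => ha.2.2) (hA.inter (hs.inter hB.measurableSet.compl))

theorem h170_onB {n : ℕ} {M : Type} [TopologicalSpace M] [ChartedSpace (Eu n) M] [IsManifold (modelWithCornersSelf ℝ (Eu n)) ∞ M]
    [T2Space M] [MeasurableSpace M] [BorelSpace M] (g : RMetric n M) {μ : Measure M}
    (hμ : g.IsVolume μ)
    {e₀ : OpenPartialHomeomorph M (Eu n)} (he₀ : e₀ ∈ atlas (Eu n) M) {K : Set (Eu n)}
    (hK : IsCompact K) (hKt : K ⊆ e₀.target) :
    ∫ x in e₀.symm '' K, g.Q x ∂μ = ∫ y in K, dens (g.G e₀) y := by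
  have hBc : IsCompact (e₀.symm '' K) := hK.image_of_continuousOn (e₀.continuousOn_symm.mono hKt)
  have hBs : e₀.symm '' K ⊆ e₀.source := by
    rintro _ ⟨y, hy, rfl⟩
    exact e₀.map_target (hKt hy)
  have himg : e₀ '' (e₀.symm '' K) = K := by
    ext y
    constructor
    · rintro ⟨_, ⟨z, hz, rfl⟩, rfl⟩
      rw [e₀.right_inv (hKt hz)]
      exact hz
    · intro hy
      exact ⟨e₀.symm y, ⟨y, hy, rfl⟩, e₀.right_inv (hKt hy)⟩
  rw [int_chart g hμ he₀ hBs hBc.isClosed.measurableSet (Q_cont g), himg]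
  refine setIntegral_congr_fun hK.measurableSet fun y hy => ?_
  show g.Q (e₀.symm y) * _ = _
  rw [Q_chart g he₀ (e₀.map_target (hKt hy)), e₀.right_inv (hKt hy)]
  rfl

/-- NOTE (helper170): the target as posted had the right-hand side
`(∫ y in K, dens (g'.G e₀) y - ∫ y in K, dens (g.G e₀) y)`, which Lean parses as
`∫ y in K, (dens (g'.G e₀) y - ∫ y in K, dens (g.G e₀) y)` (off by a factor `vol K`), false in general.
Parentheses were added around the first integral; the intended statement is proved below. -/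
theorem total_diff {n : ℕ} {M : Type} [TopologicalSpace M] [ChartedSpace (Eu n) M] [IsManifold (modelWithCornersSelf ℝ (Eu n)) ∞ M]
    [CompactSpace M] [T2Space M] [MeasurableSpace M] [BorelSpace M] (g g' : RMetric n M) {μ μ' : Measure M}
    (hμ : g.IsVolume μ) (hμ' : g'.IsVolume μ') [IsFiniteMeasure μ] [IsFiniteMeasure μ']
    {e₀ : OpenPartialHomeomorph M (Eu n)} (he₀ : e₀ ∈ atlas (Eu n) M) {K : Set (Eu n)}
    (hK : IsCompact K) (hKt : K ⊆ e₀.target)
    (hg : ∀ e ∈ atlas (Eu n) M, ∀ y ∈ e.target, e.symm y ∉ e₀.symm '' K → g'.G e y = g.G e y) :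
    ∫ x, g'.Q x ∂μ' = ∫ x, g.Q x ∂μ + ((∫ y in K, dens (g'.G e₀) y) - ∫ y in K, dens (g.G e₀) y) := by
  have hBc : IsCompact (e₀.symm '' K) := hK.image_of_continuousOn (e₀.continuousOn_symm.mono hKt)
  have hB := hBc.isClosed
  have hBm := hB.measurableSet
  have hi : Integrable g.Q μ :=
    (Q_cont g).integrable_of_hasCompactSupport (HasCompactSupport.of_compactSpace _)
  have hi' : Integrable g'.Q μ' :=
    (Q_cont g').integrable_of_hasCompactSupport (HasCompactSupport.of_compactSpace _)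
  rw [← integral_add_compl hBm hi, ← integral_add_compl hBm hi',
    h170_onB g hμ he₀ hK hKt, h170_onB g' hμ' he₀ hK hKt, h170_restrict g g' hμ hμ' hB hg]
  have h2 : ∫ x in (e₀.symm '' K)ᶜ, g'.Q x ∂μ = ∫ x in (e₀.symm '' K)ᶜ, g.Q x ∂μ :=
    setIntegral_congr_fun hBm.compl fun x hx => h170_loc g g' hB hg hx
  rw [h2]
  ring

end Pool.Agent.QTot.MG
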