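import Pool.Agent.QTot.Base2
import Pool.Agent.QTot.R4
import Pool.Agent.QTot.N5
import Pool.Agent.QTot.HOM
import Pool.Agent.QTot.FL

set_option autoImplicit false
open scoped ContDiff Manifold Topology Matrix
open MeasureTheory Filter Set

namespace Pool.Agent.QTot.MH
open Pool.Agent.QTot
open Pool.Agent.QTot.R4 (q_smooth)
open Pool.Agent.QTot.N5 (q_pull)
open Pool.Agent.QTot.HOM (q_homog)
open Pool.Agent.QTot.FL (q_flat)







/-! ## auxiliary lemmas -/

theorem jac_affine {n : ℕ} (b : ℝ) (c x : Eu n) :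
    Jac (fun y : Eu n => b • (y - c)) x = b • (1 : Mt n) := by
  ext a i
  simp only [Jac, Matrix.of_apply, pd]
  have h1 : HasFDerivAt (fun y : Eu n => (b • (y - c)) a)
      (b • (ContinuousLinearMap.proj (R := ℝ) (φ := fun _ : Fin n => ℝ) a)) x := by
    have h2 : HasFDerivAt (fun y : Eu n => y a)
        (ContinuousLinearMap.proj (R := ℝ) (φ := fun _ : Fin n => ℝ) a) x :=
      (ContinuousLinearMap.proj (R := ℝ) (φ := fun _ : Fin n => ℝ) a).hasFDerivAt
    exact (h2.sub_const (c a)).const_smul b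
  rw [h1.fderiv]
  simp only [Matrix.smul_apply, Matrix.one_apply, smul_eq_mul, smul_apply,
    ContinuousLinearMap.proj_apply, Pi.single_apply]

theorem pull_affine {n : ℕ} (b : ℝ) (c : Eu n) (h : Eu n → Mt n) (x : Eu n) :
    pull (fun y : Eu n => b • (y - c)) h x = b ^ 2 • h (b • (x - c)) := by
  unfold pull
  rw [jac_affine]
  simp only [Matrix.transpose_smul, Matrix.transpose_one, Matrix.smul_mul, Matrix.mul_smul,
    Matrix.one_mul, Matrix.mul_one, smul_smul]
  congr 1
  ring

theorem affine_smooth {n : ℕ} (b : ℝ) (c : Eu n) :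
    ContDiff ℝ ∞ (fun y : Eu n => b • (y - c)) := by
  fun_prop

theorem q_local {n : ℕ} {V : Set (Eu n)} (hV : IsOpen V) {G Gt : Eu n → Mt n}
    (hG : ∀ i j, ContDiffOn ℝ ∞ (fun x => G x i j) V) (hs : ∀ x ∈ V, (G x).IsSymm)
    (hd : ∀ x ∈ V, (G x).det ≠ 0) (he : ∀ x ∈ V, Gt x = G x) :
    ∀ x ∈ V, Qloc Gt x = Qloc G x := by
  intro x hx
  have h1 := q_pull (φ := fun y : Eu n => (1 : ℝ) • (y - 0)) hV hV
    (affine_smooth 1 0).contDiffOn (fun x _ => by rw [jac_affine]; simp)
    (fun x hx => by simpa using hx) hG hs hd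
    (Gt := Gt) (fun x hx => by rw [pull_affine]; simp [he x hx]) x hx
  simpa using h1

theorem q_scale {n : ℕ} (hn : Even n) (hn2 : 2 ≤ n) {h : Eu n → Mt n}
    (hh : ∀ i j, ContDiff ℝ ∞ (fun x => h x i j)) (hp : ∀ x, (h x).PosDef) {b : ℝ} (hb : 0 < b)
    (c : Eu n) (y : Eu n) :
    Qloc (fun y => h (b • (y - c))) y = b ^ n * Qloc h (b • (y - c)) := by
  have hdet : ∀ x, (h x).det ≠ 0 := fun x => (hp x).det_pos.ne'
  have hsy : ∀ x, (h x).IsSymm := fun x => by
    have := (hp x).isHermitian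
    rw [Matrix.IsHermitian, Matrix.conjTranspose_eq_transpose_of_trivial] at this
    exact this
  have h1 := q_pull (φ := fun y : Eu n => b • (y - c)) isOpen_univ isOpen_univ
    (affine_smooth b c).contDiffOn (fun x _ => by
      rw [jac_affine, Matrix.det_smul, Matrix.det_one, mul_one]
      exact pow_ne_zero _ hb.ne')
    (fun x _ => mem_univ _) (fun i j => (hh i j).contDiffOn) (fun x _ => hsy x)
    (fun x _ => hdet x) (Gt := fun y => b ^ 2 • h (b • (y - c)))
    (fun x _ => (pull_affine b c h x).symm) y (mem_univ y)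
  have h2 := q_homog hn hn2 isOpen_univ (G := fun y => h (b • (y - c)))
    (fun i j => ((hh i j).comp (affine_smooth b c)).contDiffOn)
    (fun x _ => hdet _) (b ^ 2) (by positivity) y (mem_univ y)
  rw [h1] at h2
  have h3 : (b ^ 2) ^ (n / 2) = b ^ n := by
    rw [← pow_mul, Nat.mul_div_cancel' hn.two_dvd]
  rw [h3] at h2
  rw [h2]
  have : b ^ n ≠ 0 := pow_ne_zero _ hb.ne'
  field_simp

theorem dens_scale {n : ℕ} (hn : Even n) (hn2 : 2 ≤ n) {h : Eu n → Mt n}
    (hh : ∀ i j, ContDiff ℝ ∞ (fun x => h x i j)) (hp : ∀ x, (h x).PosDef) {b : ℝ} (hb : 0 < b)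
    (c : Eu n) (y : Eu n) :
    dens (fun y => h (b • (y - c))) y = b ^ n * dens h (b • (y - c)) := by
  unfold dens
  rw [q_scale hn hn2 hh hp hb]
  ring

theorem dens_zero {n : ℕ} (hn2 : 2 ≤ n) {V : Set (Eu n)} (hV : IsOpen V) {H : Eu n → Mt n}
    (he : ∀ x ∈ V, H x = 1) : ∀ x ∈ V, dens H x = 0 := by
  intro x hx
  have h1 := q_local hV (G := fun _ => (1 : Mt n)) (Gt := H)
    (fun i j => contDiffOn_const) (fun x _ => Matrix.isSymm_one) (fun x _ => by simp) he x hx
  unfold dens
  rw [h1, q_flat hn2, zero_mul]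

theorem dens_cont {n : ℕ} {h : Eu n → Mt n}
    (hh : ∀ i j, ContDiff ℝ ∞ (fun x => h x i j)) (hp : ∀ x, (h x).PosDef) :
    Continuous (dens h) := by
  have h1 : Continuous (Qloc h) := by
    rw [← continuousOn_univ]
    exact (q_smooth isOpen_univ (fun i j => (hh i j).contDiffOn)
      (fun x _ => (hp x).det_pos.ne')).continuousOn
  have h2 : Continuous h := by
    apply continuous_matrix
    intro i j
    exact (hh i j).continuous
  exact h1.mul (h2.matrix_det.sqrt)

theorem dens_int {n : ℕ} (hn2 : 2 ≤ n) {h : Eu n → Mt n} {R : ℝ}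
    (hh : ∀ i j, ContDiff ℝ ∞ (fun x => h x i j)) (hp : ∀ x, (h x).PosDef)
    (hR : ∀ x, R ≤ ‖x‖ → h x = 1) : Integrable (dens h) := by
  apply (dens_cont hh hp).integrable_of_hasCompactSupport
  apply HasCompactSupport.intro (isCompact_closedBall (0 : Eu n) |R|)
  intro x hx
  apply dens_zero hn2 (V := (Metric.closedBall (0 : Eu n) |R|)ᶜ)
    Metric.isClosed_closedBall.isOpen_compl _ x hx
  intro y hy
  apply hR
  rw [mem_compl_iff, mem_closedBall_zero_iff, not_le] at hy
  exact (le_abs_self R).trans hy.le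

/-! ## TARGET (prove this) -/

/- Idea: choose `ε > 0` small and centres `c_1..c_N` (on a line) such that the balls `closedBall c_j (ε (|R| + 1))` are pairwise
disjoint and contained in `ball y₀ r`; `H y = h ((y - c_j)/ε)` on `closedBall c_j (ε (|R|+1))` and `H y = 1` elsewhere (near every
point `H` coincides with one of these smooth functions), e.g. `H y = 1 + ∑_j (h ((y - c_j)/ε) - 1)`.  For `ψ y = (y - c)/ε`:
`pull ψ h y = ε⁻² h (ψ y)`, so by `q_homog` and `q_pull` `Qloc (h ∘ ψ) y = ε^(-n) Qloc h (ψ y)` and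
`dens (h ∘ ψ) y = ε^(-n) dens h (ψ y)`, hence each bump contributes `∫ dens h` (`dens h = 0` outside the ball of radius `|R|`, by
`q_flat`; locality of `Qloc` is `q_pull` with `φ = id`). -/
theorem bumps {n : ℕ} (hn : Even n) (hn2 : 2 ≤ n) {h : Eu n → Mt n} {R : ℝ} (hh : ∀ i j, ContDiff ℝ ∞ (fun x => h x i j))
    (hp : ∀ x, (h x).PosDef) (hR : ∀ x, R ≤ ‖x‖ → h x = 1) (y₀ : Eu n) {r : ℝ} (hr : 0 < r) (N : ℕ) :
    ∃ H : Eu n → Mt n, (∀ i j, ContDiff ℝ ∞ (fun x => H x i j)) ∧ (∀ x, (H x).PosDef) ∧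
      (∀ y, y ∉ Metric.closedBall y₀ r → H y = 1) ∧
      ∫ y in Metric.closedBall y₀ r, dens H y = N * ∫ x, dens h x := by
  classical
  -- the unit vector
  let i₀ : Fin n := ⟨0, by omega⟩
  let u : Eu n := Pi.single i₀ (1 : ℝ)
  have hu : ‖u‖ = 1 := by
    have h1 : ‖u‖ = ‖(1 : ℝ)‖ := Pi.norm_single (G := fun _ : Fin n => ℝ) (i := i₀) (1 : ℝ)
    rw [h1, norm_one]
  set δ : ℝ := r / ((N : ℝ) + 2) with hδ
  have hN0 : (0 : ℝ) < (N : ℝ) + 2 := by positivity
  have hδ0 : 0 < δ := by positivity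
  have hδr : ((N : ℝ) + 2) * δ = r := by rw [hδ]; field_simp
  have hR0 : (0 : ℝ) < |R| + 1 := by positivity
  set ε : ℝ := δ / (3 * (|R| + 1)) with hε
  have hε0 : 0 < ε := by positivity
  have hεR : ε * (|R| + 1) = δ / 3 := by rw [hε]; field_simp
  set b : ℝ := ε⁻¹ with hb
  have hb0 : 0 < b := inv_pos.2 hε0
  let c : Fin N → Eu n := fun j => y₀ + (((j : ℕ) + 1 : ℝ) * δ) • u
  let ψ : Fin N → Eu n → Eu n := fun j y => b • (y - c j)
  have hψn : ∀ j y, ‖ψ j y‖ = b * ‖y - c j‖ := by
    intro j y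
    simp only [ψ]
    rw [norm_smul, Real.norm_of_nonneg hb0.le]
  -- centres are far apart
  have hfar : ∀ j k : Fin N, j ≠ k → δ ≤ ‖c j - c k‖ := by
    intro j k hjk
    have e1 : c j - c k = ((((j : ℕ) : ℝ) - ((k : ℕ) : ℝ)) * δ) • u := by
      simp only [c]
      rw [add_sub_add_left_eq_sub, ← sub_smul]
      congr 1
      ring
    rw [e1, norm_smul, hu, mul_one, Real.norm_eq_abs, abs_mul, abs_of_pos hδ0]
    have h1 : (1 : ℝ) ≤ |((j : ℕ) : ℝ) - ((k : ℕ) : ℝ)| := by
      have h2 : ((j : ℕ) : ℤ) - ((k : ℕ) : ℤ) ≠ 0 := by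
        intro h3
        apply hjk
        apply Fin.ext
        omega
      have h3 := Int.one_le_abs h2
      have h4 : ((1 : ℤ) : ℝ) ≤ ((|((j : ℕ) : ℤ) - ((k : ℕ) : ℤ)| : ℤ) : ℝ) := by exact_mod_cast h3
      push_cast at h4
      exact h4
    nlinarith
  -- small norm of ψ means close to the centre
  have hclose : ∀ j y, ‖ψ j y‖ < |R| + 1 → ‖y - c j‖ < δ / 3 := by
    intro j y hy
    rw [hψn] at hy
    rw [← hεR]
    have h1 : ‖y - c j‖ = ε * (b * ‖y - c j‖) := by
      rw [hb, ← mul_assoc, mul_inv_cancel₀ hε0.ne', one_mul]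
    rw [h1]
    exact mul_lt_mul_of_pos_left hy hε0
  have hone : ∀ j y, |R| + 1 ≤ ‖ψ j y‖ → h (ψ j y) = 1 := by
    intro j y hy
    apply hR
    have := le_abs_self R
    linarith
  have hone' : ∀ j y, |R| ≤ ‖ψ j y‖ → h (ψ j y) = 1 := by
    intro j y hy
    apply hR
    exact (le_abs_self R).trans hy
  have huniq : ∀ j k y, j ≠ k → ‖ψ j y‖ < |R| + 1 → |R| + 1 ≤ ‖ψ k y‖ := by
    intro j k y hjk hj
    by_contra hk
    push Not at hk
    have h1 := hclose j y hj
    have h2 := hclose k y hk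
    have h3 := hfar j k hjk
    have h4 : ‖c j - c k‖ ≤ ‖y - c j‖ + ‖y - c k‖ := by
      have : c j - c k = (y - c k) - (y - c j) := by abel
      rw [this, add_comm]
      exact norm_sub_le _ _
    linarith
  let H : Eu n → Mt n := fun y => 1 + ∑ j : Fin N, (h (ψ j y) - 1)
  -- value of H near a bump
  have hHj : ∀ j y, ‖ψ j y‖ < |R| + 1 → H y = h (ψ j y) := by
    intro j y hj
    simp only [H]
    rw [Finset.sum_eq_single j]
    · abel
    · intro k _ hk
      rw [hone k y (huniq j k y (Ne.symm hk) hj), sub_self]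
    · intro hj'; exact absurd (Finset.mem_univ j) hj'
  have hH1 : ∀ y, (∀ j, |R| ≤ ‖ψ j y‖) → H y = 1 := by
    intro y hy
    simp only [H]
    rw [Finset.sum_eq_zero (fun j _ => by rw [hone' j y (hy j), sub_self]), add_zero]
  have hψc : ∀ j, Continuous (ψ j) := fun j => (affine_smooth b (c j)).continuous
  have hHs : ∀ i j, ContDiff ℝ ∞ (fun x => H x i j) := by
    intro i k
    have e1 : (fun x => H x i k) =
        fun x => (1 : Mt n) i k + ∑ j : Fin N, (h (ψ j x) i k - (1 : Mt n) i k) := by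
      funext x
      simp only [H, Matrix.add_apply, Matrix.sum_apply, Matrix.sub_apply]
    rw [e1]
    apply contDiff_const.add
    apply ContDiff.sum
    intro j _
    exact ((hh i k).comp (affine_smooth b (c j))).sub contDiff_const
  have hHp : ∀ x, (H x).PosDef := by
    intro x
    by_cases hx : ∃ j, ‖ψ j x‖ < |R| + 1
    · obtain ⟨j, hj⟩ := hx
      rw [hHj j x hj]
      exact hp _
    · push Not at hx
      rw [hH1 x (fun j => by linarith [hx j])]
      exact Matrix.PosDef.one
  have hsy : ∀ x, (h x).IsSymm := fun x => by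
    have := (hp x).isHermitian
    rw [Matrix.IsHermitian, Matrix.conjTranspose_eq_transpose_of_trivial] at this
    exact this
  -- density of H
  have hdens : ∀ y, dens H y = ∑ j : Fin N, dens (fun y => h (ψ j y)) y := by
    intro y
    -- far bumps have zero density
    have hz : ∀ j y, |R| + 1 ≤ ‖ψ j y‖ → dens (fun y => h (ψ j y)) y = 0 := by
      intro j y hy
      apply dens_zero hn2 (V := {y | |R| < ‖ψ j y‖}) (isOpen_lt continuous_const (hψc j).norm)
      · intro x hx
        exact hone' j x (le_of_lt hx)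
      · show |R| < ‖ψ j y‖
        linarith
    by_cases hy : ∃ j, ‖ψ j y‖ < |R| + 1
    · obtain ⟨j, hj⟩ := hy
      rw [Finset.sum_eq_single j]
      · have h1 := q_local (V := {y | ‖ψ j y‖ < |R| + 1})
          (isOpen_lt (hψc j).norm continuous_const) (G := fun y => h (ψ j y)) (Gt := H)
          (fun i k => ((hh i k).comp (affine_smooth b (c j))).contDiffOn)
          (fun x _ => hsy _) (fun x _ => (hp _).det_pos.ne') (fun x hx => hHj j x hx) y hj
        unfold dens
        rw [h1, hHj j y hj]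
      · intro k _ hk
        exact hz k y (huniq j k y (Ne.symm hk) hj)
      · intro hj'; exact absurd (Finset.mem_univ j) hj'
    · push Not at hy
      rw [Finset.sum_eq_zero (fun j _ => hz j y (hy j))]
      have ho : IsOpen {y | ∀ j, |R| < ‖ψ j y‖} := by
        have : {y | ∀ j, |R| < ‖ψ j y‖} = ⋂ j, {y | |R| < ‖ψ j y‖} := by
          ext; simp
        rw [this]
        exact isOpen_iInter_of_finite fun j => isOpen_lt continuous_const (hψc j).norm
      apply dens_zero hn2 ho (H := H) (fun x hx => hH1 x (fun j => (hx j).le)) y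
      intro j
      have := hy j
      linarith
  -- outside the ball
  have hout : ∀ y, y ∉ Metric.closedBall y₀ r → ∀ j, |R| + 1 ≤ ‖ψ j y‖ := by
    intro y hy j
    by_contra hj
    push Not at hj
    have h1 := hclose j y hj
    apply hy
    rw [Metric.mem_closedBall, dist_eq_norm]
    have h2 : ‖c j - y₀‖ ≤ N * δ := by
      have e1 : c j - y₀ = (((j : ℕ) + 1 : ℝ) * δ) • u := by simp [c]
      rw [e1, norm_smul, hu, mul_one, Real.norm_of_nonneg (by positivity)]
      have h3 : ((j : ℕ) : ℝ) + 1 ≤ N := by exact_mod_cast j.2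
      exact mul_le_mul_of_nonneg_right h3 hδ0.le
    have h4 : ‖y - y₀‖ ≤ ‖y - c j‖ + ‖c j - y₀‖ := by
      have : y - y₀ = (y - c j) + (c j - y₀) := by abel
      rw [this]
      exact norm_add_le _ _
    nlinarith
  refine ⟨H, hHs, hHp, ?_, ?_⟩
  · intro y hy
    exact hH1 y (fun j => by have := hout y hy j; linarith)
  · have e1 : ∫ y in Metric.closedBall y₀ r, dens H y = ∫ y, dens H y := by
      apply setIntegral_eq_integral_of_forall_compl_eq_zero
      intro y hy
      rw [hdens]
      apply Finset.sum_eq_zero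
      intro j _
      have h2 := hout y hy j
      apply dens_zero hn2 (V := {y | |R| < ‖ψ j y‖}) (isOpen_lt continuous_const (hψc j).norm)
      · intro x hx
        exact hone' j x (le_of_lt hx)
      · show |R| < ‖ψ j y‖
        linarith
    have hI := dens_int hn2 hh hp hR
    have e2 : ∀ j : Fin N, (fun y => dens (fun y => h (ψ j y)) y) =
        fun y => b ^ n * dens h (b • (y - c j)) := by
      intro j
      funext y
      exact dens_scale hn hn2 hh hp hb0 (c j) y
    have hIj : ∀ j : Fin N, Integrable (fun y => dens (fun y => h (ψ j y)) y) := by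
      intro j
      rw [e2]
      exact ((hI.comp_smul hb0.ne').comp_sub_right (c j)).const_mul _
    have e3 : ∀ j : Fin N, ∫ y, dens (fun y => h (ψ j y)) y = ∫ x, dens h x := by
      intro j
      rw [e2, integral_const_mul]
      have e4 : ∫ y, dens h (b • (y - c j)) = ∫ y, dens h (b • y) :=
        integral_sub_right_eq_self (fun y => dens h (b • y)) (c j)
      rw [e4, Measure.integral_comp_smul]
      have e5 : Module.finrank ℝ (Eu n) = n := by simp
      rw [e5, abs_of_pos (by positivity), smul_eq_mul, ← mul_assoc,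
        mul_inv_cancel₀ (pow_ne_zero _ hb0.ne'), one_mul]
    rw [e1]
    simp only [hdens]
    rw [integral_finsetSum _ (fun j _ => hIj j)]
    simp only [e3]
    rw [Finset.sum_const, Finset.card_univ, Fintype.card_fin, nsmul_eq_mul]

end Pool.Agent.QTot.MH
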