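import Pool.Agent.QTot.Base2
import Pool.Agent.QTot.HX
import Pool.Agent.QTot.FL
import Pool.Agent.QTot.N5
import Pool.Agent.QTot.MB
import Pool.Agent.QTot.MC
import Pool.Agent.QTot.ME
import Pool.Agent.QTot.MF
import Pool.Agent.QTot.MG
import Pool.Agent.QTot.MH

set_option autoImplicit false
open scoped ContDiff Manifold Topology Matrix
open MeasureTheory Filter Set

namespace Pool.Agent.QTot.MI
open Pool.Agent.QTot
open Pool.Agent.QTot.HX (h_ex)
open Pool.Agent.QTot.FL (q_flat)
open Pool.Agent.QTot.N5 (q_pull)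
open Pool.Agent.QTot.MB (Q_chart Q_cont)
open Pool.Agent.QTot.MC (exists_vol)
open Pool.Agent.QTot.ME (base_metric)
open Pool.Agent.QTot.MF (modify)
open Pool.Agent.QTot.MG (total_diff)
open Pool.Agent.QTot.MH (bumps)













/-! ## TARGET (prove this) -/

/- Idea: `base_metric` gives `g, e₀, y₀, r`; for `N : ℕ` `bumps` (with this `y₀, r`) gives `H_N`; `modify` with
`K = closedBall y₀ r ⊆ ball y₀ (2r)`, `H = fun y => if y ∈ ball y₀ (2 r) then H_N y else g.G e₀ y` (smooth: the two agree off `K`) gives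
`g_N`; `total_diff` gives `∫ Q_{g_N} = ∫ Q_g + N c - ∫_K dens 1 = ∫ Q_g + N c`, `c > 0` (`dens` of the locally flat metric is `0`:
`q_flat`; for the locality of `Qloc` use `q_pull` with `φ = id`).  `Q_cont` and finiteness of the measure give integrability. -/
theorem main {n : ℕ} (hn : Even n) (h6 : 6 ≤ n) (M : Type) [TopologicalSpace M] [ChartedSpace (Eu n) M]
    [IsManifold (modelWithCornersSelf ℝ (Eu n)) ∞ M] [CompactSpace M] [T2Space M] [Nonempty M] [MeasurableSpace M] [BorelSpace M] :
    ∃ (g : ℕ → RMetric n M) (μ : ℕ → Measure M),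
      (∀ i, (g i).IsVolume (μ i)) ∧ (∀ i, Integrable (g i).Q (μ i)) ∧
      Tendsto (fun i => ∫ x, (g i).Q x ∂(μ i)) atTop atTop := by
  classical
  obtain ⟨h, R, hh, hp, hR, hpos⟩ := h_ex hn h6
  obtain ⟨g, e₀, y₀, r, he₀, hr, hball, hg1⟩ := base_metric (n := n) (M := M)
  have hK : IsCompact (Metric.closedBall y₀ r) := isCompact_closedBall y₀ r
  have hKb : Metric.closedBall y₀ r ⊆ Metric.ball y₀ (2 * r) :=
    Metric.closedBall_subset_ball (by linarith)
  have hKt : Metric.closedBall y₀ r ⊆ e₀.target := hKb.trans hball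
  have hbu := fun N : ℕ => bumps hn (by omega) hh hp hR y₀ hr N
  choose H hH1 hH2 hH3 hH4 using hbu
  have hsymm : ∀ {A : Mt n}, A.PosDef → A.IsSymm := by
    intro A hA
    have h1 := hA.isHermitian
    rw [Matrix.IsHermitian, Matrix.conjTranspose_eq_transpose_of_trivial] at h1
    exact h1
  -- the glued fields
  set H' : ℕ → Eu n → Mt n := fun N y => if y ∈ Metric.ball y₀ (2 * r) then H N y else g.G e₀ y
    with hH'
  have hoff : ∀ N y, y ∉ Metric.closedBall y₀ r → H' N y = g.G e₀ y := by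
    intro N y hy
    simp only [hH']
    split_ifs with hb
    · rw [hH3 N y hy, hg1 y hb]
    · rfl
  have hon : ∀ N y, y ∈ Metric.ball y₀ (2 * r) → H' N y = H N y := by
    intro N y hy
    simp only [hH', if_pos hy]
  have hsm : ∀ N i j, ContDiffOn ℝ ∞ (fun y => H' N y i j) e₀.target := by
    intro N i j y hy
    by_cases hb : y ∈ Metric.ball y₀ (2 * r)
    · have h1 : ContDiffAt ℝ ∞ (fun y => H N y i j) y := (hH1 N i j).contDiffAt
      refine (h1.congr_of_eventuallyEq ?_).contDiffWithinAt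
      filter_upwards [Metric.isOpen_ball.mem_nhds hb] with z hz
      rw [hon N z hz]
    · have h1 : ContDiffAt ℝ ∞ (fun y => g.G e₀ y i j) y :=
        (g.smooth e₀ he₀ i j).contDiffAt (e₀.open_target.mem_nhds hy)
      refine (h1.congr_of_eventuallyEq ?_).contDiffWithinAt
      have hyK : y ∈ (Metric.closedBall y₀ r)ᶜ := fun hk => hb (hKb hk)
      filter_upwards [Metric.isClosed_closedBall.isOpen_compl.mem_nhds hyK] with z hz
      rw [hoff N z hz]
  have hpd : ∀ N, ∀ y ∈ e₀.target, (H' N y).PosDef := by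
    intro N y hy
    by_cases hb : y ∈ Metric.ball y₀ (2 * r)
    · rw [hon N y hb]; exact hH2 N y
    · simp only [hH', if_neg hb]
      exact g.posDef e₀ he₀ y hy
  have hmod := fun N : ℕ => modify g he₀ hK hKt (H := H' N) (hsm N) (hpd N)
    (fun y _ hy => hoff N y hy)
  choose gN hgN1 hgN2 using hmod
  have hvol := fun N : ℕ => exists_vol (gN N)
  choose μ hμ hfin using hvol
  obtain ⟨μ0, hμ0, hfin0⟩ := exists_vol g
  -- locality
  have hJid : ∀ x : Eu n, Jac (id : Eu n → Eu n) x = 1 := by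
    intro x
    ext a i
    show fderiv ℝ (fun y : Eu n => y a) x (Pi.single i 1) = _
    have h1 : HasFDerivAt (fun y : Eu n => y a) (ContinuousLinearMap.proj (R := ℝ) a) x :=
      (ContinuousLinearMap.proj (R := ℝ) (φ := fun _ : Fin n => ℝ) a).hasFDerivAt
    rw [h1.fderiv]
    simp [Matrix.one_apply, Pi.single_apply]
  have hloc : ∀ (G Gt : Eu n → Mt n), (∀ i j, ContDiffOn ℝ ∞ (fun x => G x i j) (Metric.ball y₀ (2 * r))) →
      (∀ x ∈ Metric.ball y₀ (2 * r), (G x).PosDef) →
      (∀ x ∈ Metric.ball y₀ (2 * r), Gt x = G x) → ∀ x ∈ Metric.ball y₀ (2 * r), dens Gt x = dens G x := by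
    intro G Gt hG hGp hGt x hx
    have h1 := q_pull (U := Metric.ball y₀ (2 * r)) (V := Metric.ball y₀ (2 * r)) Metric.isOpen_ball
      Metric.isOpen_ball (φ := id) contDiff_id.contDiffOn
      (fun x _ => by rw [hJid, Matrix.det_one]; exact one_ne_zero) (fun x hx => hx)
      hG (fun x hx => hsymm (hGp x hx)) (fun x hx => (hGp x hx).det_pos.ne')
      (Gt := Gt) (fun x hx => by
        unfold pull
        rw [hJid, Matrix.transpose_one, Matrix.one_mul, Matrix.mul_one]
        exact hGt x hx) x hx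
    unfold dens
    rw [h1, hGt x hx]
    rfl
  have hd0 : ∫ y in Metric.closedBall y₀ r, dens (g.G e₀) y = 0 := by
    rw [setIntegral_congr_fun (g := fun _ => (0 : ℝ)) Metric.isClosed_closedBall.measurableSet]
    · simp
    · intro y hy
      have h1 := hloc (fun _ => (1 : Mt n)) (g.G e₀) (fun i j => contDiffOn_const)
        (fun x _ => Matrix.PosDef.one) (fun x hx => hg1 x hx) y (hKb hy)
      show dens (g.G e₀) y = 0
      rw [h1]
      unfold dens
      rw [q_flat (by omega), zero_mul]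
  have hdN : ∀ N, ∫ y in Metric.closedBall y₀ r, dens ((gN N).G e₀) y = N * ∫ x, dens h x := by
    intro N
    rw [← hH4 N]
    refine setIntegral_congr_fun Metric.isClosed_closedBall.measurableSet ?_
    intro y hy
    exact hloc (H N) ((gN N).G e₀) (fun i j => (hH1 N i j).contDiffOn) (fun x _ => hH2 N x)
      (fun x hx => by rw [hgN1 N x (hball hx), hon N x hx]) y (hKb hy)
  have htot : ∀ N, ∫ x, (gN N).Q x ∂(μ N) = ∫ x, g.Q x ∂μ0 + N * ∫ x, dens h x := by
    intro N
    haveI := hfin N
    haveI := hfin0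
    rw [total_diff g (gN N) hμ0 (hμ N) he₀ hK hKt (hgN2 N)]
    simp only [hd0, sub_zero, hdN]
  refine ⟨gN, μ, hμ, ?_, ?_⟩
  · intro i
    haveI := hfin i
    exact (Q_cont (gN i)).integrable_of_hasCompactSupport (HasCompactSupport.of_compactSpace _)
  · simp only [htot]
    exact tendsto_atTop_add_const_left _ _
      (Tendsto.atTop_mul_const hpos tendsto_natCast_atTop_atTop)

end Pool.Agent.QTot.MI
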